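import Pool.Agent.Lib.MP_848d44_nt.F.Base
import Pool.Agent.Lib.MP_848d44_nt.OffB

/-!
# MP_848d44_nt, fixed residue class: Abel summation with the weight `Wk` (module ABL)
-/

set_option autoImplicit false

namespace Pool.Agent.M848.FC

open Finset
open scoped ArithmeticFunction ComplexConjugate

noncomputable section

namespace AblAux

theorem tentR_nonneg (H : ℕ) (t : ℝ) : 0 ≤ tentR H t := by
  unfold tentR
  positivity

theorem tentR_le (H : ℕ) (hH : 1 ≤ H) (t : ℝ) : tentR H t ≤ 1 := by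
  have hH0 : (1 : ℝ) ≤ H := by exact_mod_cast hH
  unfold tentR
  rw [div_le_one (by linarith)]
  apply max_le (by linarith)
  rcases le_total t 0 with h | h
  · exact (min_le_left _ _).trans (by linarith)
  · exact (min_le_right _ _).trans (by linarith)

theorem tentR_lip (H : ℕ) (hH : 1 ≤ H) (t u : ℝ) : |tentR H t - tentR H u| ≤ |t - u| / H := by
  have hH0 : (0 : ℝ) < H := by exact_mod_cast hH
  unfold tentR
  rw [← sub_div, abs_div, abs_of_pos hH0]
  apply div_le_div_of_nonneg_right _ hH0.le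
  refine (abs_max_sub_max_le_max _ _ _ _).trans ?_
  apply max_le
  · rw [sub_self, abs_zero]
    exact abs_nonneg _
  · refine (abs_min_sub_min_le_max _ _ _ _).trans ?_
    apply max_le le_rfl
    have : (H : ℝ) - t - (H - u) = -(t - u) := by ring
    rw [this, abs_neg]

theorem tentR_zero (H : ℕ) (t : ℝ) (ht : (H : ℝ) ≤ t) : tentR H t = 0 := by
  unfold tentR
  rw [max_eq_left, zero_div]
  exact (min_le_right _ _).trans (by linarith)

theorem diff (a : ℤ) (L H k y : ℕ) (hH : 1 ≤ H) (hk : 1 ≤ k) (hy : 1 ≤ y) :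
    |Wk a L H k (y : ℤ) - Wk a L H k ((y : ℤ) + 1)| ≤ ((L : ℝ) + H + a.natAbs) / (H * y) := by
  have hH0 : (0 : ℝ) < H := by exact_mod_cast hH
  have hk0 : (1 : ℝ) ≤ k := by exact_mod_cast hk
  have hy0 : (0 : ℝ) < y := by exact_mod_cast hy
  have ha : (a : ℝ) ≤ a.natAbs := by
    rw [Nat.cast_natAbs, Int.cast_abs]
    exact le_abs_self _
  have ha0 : (0 : ℝ) ≤ a.natAbs := by positivity
  unfold Wk
  rcases le_or_gt (H : ℝ) ((((y : ℤ) : ℝ) - a) / k - L) with h | h
  · rw [tentR_zero H _ h, tentR_zero H]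
    · rw [sub_zero, abs_zero]
      positivity
    · refine h.trans ?_
      have : (((y : ℤ) : ℝ) - a) / k ≤ ((((y : ℤ) + 1 : ℤ) : ℝ) - a) / k := by
        apply div_le_div_of_nonneg_right _ (by linarith)
        push_cast
        linarith
      linarith
  · refine (tentR_lip H hH _ _).trans ?_
    have e : (((y : ℤ) : ℝ) - a) / k - L - (((((y : ℤ) + 1 : ℤ) : ℝ) - a) / k - L) = -(1 / k) := by
      push_cast
      ring
    rw [e, abs_neg, abs_of_nonneg (by positivity), div_div, div_le_div_iff₀ (by positivity)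
      (by positivity)]
    have h1 : ((y : ℝ) - a) / k < L + H := by
      push_cast at h
      linarith
    rw [div_lt_iff₀ (by linarith)] at h1
    have h2 : (y : ℝ) ≤ k * (L + H + a.natAbs) := by nlinarith
    nlinarith

end AblAux

theorem abelW (a : ℤ) (N L H k : ℕ) (hH : 1 ≤ H) (hk : 1 ≤ k) (g : ℕ → ℂ) :
    ‖∑ n ∈ Icc 1 N, ((Λ n : ℝ) : ℂ) * g n * ((Wk a L H k n : ℝ) : ℂ)‖ ≤
      ∑ y ∈ Icc 1 N, (((L : ℝ) + H + a.natAbs) / (H * y)) * ‖SL g y‖ + ‖SL g N‖ := by
  have hab := OffBAux.abel (fun n => ((Λ n : ℝ) : ℂ) * g n)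
    (fun y => ((Wk a L H k y : ℝ) : ℂ)) N
  have hS : ∀ y, ∑ n ∈ Icc 1 y, ((Λ n : ℝ) : ℂ) * g n = SL g y := fun y => rfl
  simp only [hS] at hab
  rw [hab]
  refine (norm_add_le _ _).trans (add_le_add ?_ ?_)
  · refine (norm_sum_le _ _).trans (Finset.sum_le_sum fun y hy => ?_)
    rw [Finset.mem_Icc] at hy
    rw [norm_mul, mul_comm]
    apply mul_le_mul_of_nonneg_right _ (norm_nonneg _)
    rw [← Complex.ofReal_sub, Complex.norm_real, Real.norm_eq_abs]
    exact AblAux.diff a L H k y hH hk hy.1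
  · rw [norm_mul, Complex.norm_real, Real.norm_eq_abs]
    have h1 : |Wk a L H k ((N : ℤ) + 1)| ≤ 1 := by
      unfold Wk
      rw [abs_of_nonneg (AblAux.tentR_nonneg _ _)]
      exact AblAux.tentR_le H hH _
    have h2 := norm_nonneg (SL g N)
    nlinarith

end

end Pool.Agent.M848.FC
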