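import Pool.Agent.Lib.MP_848d44_nt.Main

/-!
# MP_848d44_nt, fixed residue class: basic definitions

For a fixed `a ≠ 0` the moduli `q` run over `[L, L + H]` with the tent weight `om`. The test
coefficients are `cq a q = ∑_{k ≤ K} Fk(a + k q)`, `Fk(m) = ∑_{s ∈ S} (1_{s ∣ m} - 1/s) λ_k(m)`
with sieve weights `λ_k` whose divisors are coprime to `k`.
-/

set_option autoImplicit false

namespace Pool.Agent.M848.FC

open Finset
open scoped ArithmeticFunction ComplexConjugate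

noncomputable section

/-- The von Mangoldt function on the integers, cut off to `[1, N]`. -/
def LN (N : ℕ) (m : ℤ) : ℝ := if m ≤ N then (Λ m.toNat : ℝ) else 0

/-- The weight on the moduli: a tent (height `1/2`) on `[L, L + H]`. -/
def om (L H q : ℕ) : ℝ := tent H ((q : ℤ) - L)

/-- The test function of one prime `s`. -/
def fk (b : ℕ → ℝ) (T s : ℕ) (m : ℤ) : ℝ :=
  ((if (s : ℤ) ∣ m then (1 : ℝ) else 0) - 1 / s) * lam b T m

/-- The test function. -/
def Fk (b : ℕ → ℝ) (T : ℕ) (S : Finset ℕ) (m : ℤ) : ℝ := ∑ s ∈ S, fk b T s m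

/-- The test coefficient of the modulus `q`. -/
def cq (b : ℕ → ℕ → ℝ) (T K : ℕ) (S : Finset ℕ) (a : ℤ) (q : ℕ) : ℝ :=
  ∑ k ∈ Icc 1 K, Fk (b k) T S (a + k * q)

/-- The moduli. -/
def Mo (L H : ℕ) : Finset ℕ := Icc L (L + H)

/-- The moduli coprime to `a`. -/
def Ma (a : ℤ) (L H : ℕ) : Finset ℕ := (Mo L H).filter (fun q => q.Coprime a.natAbs)

/-- The mass of the weight. -/
def Wm (L H : ℕ) : ℝ := ∑ q ∈ Mo L H, om L H q

/-- The sum of the von Mangoldt function over `a + q, a + 2q, …, a + Kq`, cut off at `N`,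
minus the expected value. -/
def EF (a : ℤ) (N K q : ℕ) : ℝ := (∑ k ∈ Icc 1 K, LN N (a + k * q)) - (N : ℝ) / q.totient

/-- Sieve weights for the progressions modulo `k`. -/
structure Wt (b : ℕ → ℝ) (k T : ℕ) : Prop where
  one : b 1 = 1
  cop : ∀ d ∈ Icc 1 T, b d ≠ 0 → d.Coprime k
  bb : BB b T ≤ (T : ℝ) ^ 3
  qq : 0 ≤ QQ b T

/-- The tent as a function of a real variable. -/
def tentR (H : ℕ) (t : ℝ) : ℝ := max 0 (min t ((H : ℝ) - t)) / H

/-- The weight of `n = a + k q` coming from `om L H q`. -/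
def Wk (a : ℤ) (L H k : ℕ) (y : ℤ) : ℝ := tentR H (((y : ℝ) - a) / k - L)

/-- The mean value over the characters `χ ξ`, `χ` modulo `s ∈ S` nonprincipal, `ξ` modulo
`κ ≤ Y`. -/
def YY (S : Finset ℕ) (Y y : ℕ) : ℝ :=
  ∑ κ ∈ Icc 1 Y, (1 / (κ.totient : ℝ)) * ∑ ξ ∈ ac κ, ∑ s ∈ S, (1 / ((s : ℝ) - 1)) *
    ∑ χ ∈ nc s, ‖SL (fun n => χ n * ξ n) y‖

open Classical in
/-- The primitive Dirichlet characters modulo `q`, as functions on `ℕ` (empty for `q = 0`). -/
def pc (q : ℕ) : Finset (ℕ → ℂ) :=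
  if h : q = 0 then ∅ else
    haveI : NeZero q := ⟨h⟩
    ((univ : Finset (DirichletCharacter ℂ q)).filter (fun χ => χ.IsPrimitive)).image
      (fun χ (n : ℕ) => χ (n : ZMod q))

end

end Pool.Agent.M848.FC
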