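import Pool.Agent.Lib.MP_848d44_nt.F.Base

/-!
# MP_848d44_nt, fixed residue class: the core inequality
-/

set_option autoImplicit false

namespace Pool.Agent.M848.FC

open Finset
open scoped ArithmeticFunction ComplexConjugate

noncomputable section

namespace CoreAux

theorem LN_nonneg (N : ℕ) (m : ℤ) : 0 ≤ LN N m := by
  unfold LN
  split_ifs
  · exact ArithmeticFunction.vonMangoldt_nonneg
  · exact le_rfl

theorem om_nonneg (L H q : ℕ) : 0 ≤ om L H q := tent_nonneg _ _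

theorem om_le (L H q : ℕ) : om L H q ≤ 1 / 2 := tent_le _ _

theorem AA_nonneg (S : Finset ℕ) : 0 ≤ AA S := sum_nonneg fun s _ => by positivity

/-- weighted Cauchy-Schwarz -/
theorem cs (I : Finset ℕ) (w f g : ℕ → ℝ) (hw : ∀ i ∈ I, 0 ≤ w i) :
    |∑ i ∈ I, w i * f i * g i| ≤
      Real.sqrt ((∑ i ∈ I, w i * f i ^ 2) * ∑ i ∈ I, w i * g i ^ 2) := by
  apply Real.abs_le_sqrt
  have h := Finset.sum_mul_sq_le_sq_mul_sq I (fun i => Real.sqrt (w i) * f i)
    (fun i => Real.sqrt (w i) * g i)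
  have e1 : ∑ i ∈ I, (Real.sqrt (w i) * f i) * (Real.sqrt (w i) * g i) =
      ∑ i ∈ I, w i * f i * g i := by
    refine sum_congr rfl fun i hi => ?_
    have := Real.mul_self_sqrt (hw i hi)
    calc (Real.sqrt (w i) * f i) * (Real.sqrt (w i) * g i) =
        (Real.sqrt (w i) * Real.sqrt (w i)) * f i * g i := by ring
      _ = _ := by rw [this]
  have e2 : ∀ u : ℕ → ℝ, ∑ i ∈ I, (Real.sqrt (w i) * u i) ^ 2 = ∑ i ∈ I, w i * u i ^ 2 := by
    intro u
    refine sum_congr rfl fun i hi => ?_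
    rw [mul_pow, Real.sq_sqrt (hw i hi)]
  rw [e1, e2, e2] at h
  exact h

end CoreAux

open CoreAux

/-- The core inequality. -/
theorem core (a : ℤ) (N L H K T : ℕ) (b : ℕ → ℕ → ℝ) (S : Finset ℕ)
    (E1 E2 E3 E4 En : ℝ)
    (h1 : |∑ k ∈ Icc 1 K, ∑ k' ∈ (Icc 1 K).erase k, ∑ q ∈ Mo L H,
        om L H q * LN N (a + k' * q) * Fk (b k) T S (a + k * q)| ≤ E1)
    (h2 : |∑ k ∈ Icc 1 K, ∑ q ∈ Mo L H, om L H q * LN N (a + k * q) * Fk (b k) T S (a + k * q) +
        AA S * ∑ k ∈ Icc 1 K, ∑ q ∈ Mo L H, om L H q * LN N (a + k * q)| ≤ E2)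
    (h3 : |∑ q ∈ Mo L H \ Ma a L H, om L H q * cq b T K S a q *
        ∑ k ∈ Icc 1 K, LN N (a + k * q)| ≤ E3)
    (h4 : |∑ q ∈ Ma a L H, om L H q * cq b T K S a q / (q.totient : ℝ)| ≤ E4)
    (h5 : ∑ q ∈ Mo L H, om L H q * cq b T K S a q ^ 2 ≤ En)
    (h6 : Wm L H ≤ H) :
    AA S * (N * ∑ q ∈ Ma a L H, om L H q / (q.totient : ℝ)) ≤
      Real.sqrt ((∑ q ∈ Ma a L H, om L H q * EF a N K q ^ 2) * En) +
      AA S * Real.sqrt ((∑ q ∈ Ma a L H, om L H q * EF a N K q ^ 2) * H) +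
      (E1 + E2 + E3 + N * E4) := by
  set J := ∑ q ∈ Ma a L H, om L H q * EF a N K q ^ 2 with hJ
  have hJ0 : 0 ≤ J := sum_nonneg fun q _ => mul_nonneg (om_nonneg _ _ _) (sq_nonneg _)
  have hsub : Ma a L H ⊆ Mo L H := filter_subset _ _
  -- `P1 = ∑ om EF cq`
  set P1 := ∑ q ∈ Ma a L H, om L H q * EF a N K q * cq b T K S a q with hP1
  set P0 := ∑ q ∈ Ma a L H, om L H q * EF a N K q with hP0
  set D1 := ∑ k ∈ Icc 1 K, ∑ q ∈ Mo L H, om L H q * LN N (a + k * q) with hD1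
  set Φ := ∑ q ∈ Ma a L H, om L H q / (q.totient : ℝ) with hΦ
  have hP1le : |P1| ≤ Real.sqrt (J * En) := by
    refine (cs (Ma a L H) (om L H) (EF a N K) (cq b T K S a)
      (fun q _ => om_nonneg _ _ _)).trans ?_
    apply Real.sqrt_le_sqrt
    refine mul_le_mul_of_nonneg_left ?_ hJ0
    refine le_trans ?_ h5
    exact sum_le_sum_of_subset_of_nonneg hsub fun q _ _ =>
      mul_nonneg (om_nonneg _ _ _) (sq_nonneg _)
  have hP0le : |P0| ≤ Real.sqrt (J * H) := by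
    have h := cs (Ma a L H) (om L H) (EF a N K) (fun _ => 1) (fun q _ => om_nonneg _ _ _)
    simp only [mul_one, one_pow] at h
    refine h.trans ?_
    apply Real.sqrt_le_sqrt
    refine mul_le_mul_of_nonneg_left ?_ hJ0
    refine le_trans ?_ h6
    exact sum_le_sum_of_subset_of_nonneg hsub fun q _ _ => om_nonneg _ _ _
  -- decomposition of `P1`
  have hP1eq : P1 = (∑ k ∈ Icc 1 K, ∑ q ∈ Mo L H, om L H q * LN N (a + k * q) *
        Fk (b k) T S (a + k * q)) +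
      (∑ k ∈ Icc 1 K, ∑ k' ∈ (Icc 1 K).erase k, ∑ q ∈ Mo L H,
        om L H q * LN N (a + k' * q) * Fk (b k) T S (a + k * q)) -
      (∑ q ∈ Mo L H \ Ma a L H, om L H q * cq b T K S a q *
        ∑ k ∈ Icc 1 K, LN N (a + k * q)) -
      N * ∑ q ∈ Ma a L H, om L H q * cq b T K S a q / (q.totient : ℝ) := by
    have e1 : P1 = ∑ q ∈ Ma a L H, om L H q * cq b T K S a q *
        ∑ k ∈ Icc 1 K, LN N (a + k * q) -
        N * ∑ q ∈ Ma a L H, om L H q * cq b T K S a q / (q.totient : ℝ) := by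
      rw [hP1, mul_sum, ← sum_sub_distrib]
      refine sum_congr rfl fun q _ => ?_
      unfold EF
      ring
    have e2 : ∑ q ∈ Ma a L H, om L H q * cq b T K S a q * ∑ k ∈ Icc 1 K, LN N (a + k * q) =
        ∑ q ∈ Mo L H, om L H q * cq b T K S a q * ∑ k ∈ Icc 1 K, LN N (a + k * q) -
        ∑ q ∈ Mo L H \ Ma a L H, om L H q * cq b T K S a q *
          ∑ k ∈ Icc 1 K, LN N (a + k * q) := by
      rw [← Finset.sum_sdiff hsub]
      ring
    have e3 : ∑ q ∈ Mo L H, om L H q * cq b T K S a q * ∑ k ∈ Icc 1 K, LN N (a + k * q) =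
        ∑ k ∈ Icc 1 K, ∑ k' ∈ Icc 1 K, ∑ q ∈ Mo L H,
          om L H q * LN N (a + k' * q) * Fk (b k) T S (a + k * q) := by
      have e4 : ∀ q ∈ Mo L H, om L H q * cq b T K S a q * ∑ k ∈ Icc 1 K, LN N (a + k * q) =
          ∑ k ∈ Icc 1 K, ∑ k' ∈ Icc 1 K,
            om L H q * LN N (a + k' * q) * Fk (b k) T S (a + k * q) := by
        intro q _
        unfold cq
        rw [mul_assoc, sum_mul_sum, mul_sum]
        refine sum_congr rfl fun k _ => ?_
        rw [mul_sum]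
        refine sum_congr rfl fun k' _ => ?_
        ring
      rw [sum_congr rfl e4, sum_comm]
      refine sum_congr rfl fun k _ => ?_
      rw [sum_comm]
    have e5 : ∑ k ∈ Icc 1 K, ∑ k' ∈ Icc 1 K, ∑ q ∈ Mo L H,
          om L H q * LN N (a + k' * q) * Fk (b k) T S (a + k * q) =
        (∑ k ∈ Icc 1 K, ∑ q ∈ Mo L H, om L H q * LN N (a + k * q) *
          Fk (b k) T S (a + k * q)) +
        (∑ k ∈ Icc 1 K, ∑ k' ∈ (Icc 1 K).erase k, ∑ q ∈ Mo L H,
          om L H q * LN N (a + k' * q) * Fk (b k) T S (a + k * q)) := by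
      rw [← sum_add_distrib]
      refine sum_congr rfl fun k hk => ?_
      rw [← Finset.add_sum_erase _ _ hk]
    rw [e1, e2, e3, e5]
  -- the lower bound for `D1`
  have hD1le : P0 + N * Φ ≤ D1 := by
    have e1 : D1 = ∑ q ∈ Mo L H, om L H q * ∑ k ∈ Icc 1 K, LN N (a + k * q) := by
      rw [hD1, sum_comm]
      refine sum_congr rfl fun q _ => ?_
      rw [mul_sum]
    have e2 : P0 + N * Φ = ∑ q ∈ Ma a L H, om L H q * ∑ k ∈ Icc 1 K, LN N (a + k * q) := by
      rw [hP0, hΦ, mul_sum, ← sum_add_distrib]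
      refine sum_congr rfl fun q _ => ?_
      unfold EF
      ring
    rw [e1, e2]
    exact sum_le_sum_of_subset_of_nonneg hsub fun q _ _ =>
      mul_nonneg (om_nonneg _ _ _) (sum_nonneg fun k _ => LN_nonneg _ _)
  have hA := AA_nonneg S
  have hN0 : (0 : ℝ) ≤ N := Nat.cast_nonneg N
  have h7 : AA S * (P0 + N * Φ) ≤ AA S * D1 := mul_le_mul_of_nonneg_left hD1le hA
  have h8 : AA S * D1 + P1 ≤ E1 + E2 + E3 + N * E4 := by
    rw [hP1eq]
    have h1' := (abs_le.1 h1).2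
    have h2' := (abs_le.1 h2).2
    have h3' := (abs_le.1 h3).1
    have h4' := (abs_le.1 h4).1
    have h4'' : -(N * E4) ≤ N * ∑ q ∈ Ma a L H, om L H q * cq b T K S a q / (q.totient : ℝ) := by
      have := mul_le_mul_of_nonneg_left h4' hN0
      linarith
    linarith
  have h9 := (abs_le.1 hP1le).1
  have h10 : -(AA S * Real.sqrt (J * H)) ≤ AA S * P0 := by
    have := mul_le_mul_of_nonneg_left (abs_le.1 hP0le).1 hA
    linarith
  have h11 : AA S * (P0 + N * Φ) = AA S * P0 + AA S * (N * Φ) := by ring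
  linarith

end

end Pool.Agent.M848.FC
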