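import Pool.Agent.Lib.MP_848d44_nt.F.Base
import Pool.Agent.Lib.MP_848d44_nt.Off1

/-!
# MP_848d44_nt, fixed residue class: detection of the off-diagonal conditions by characters
-/

set_option autoImplicit false

namespace Pool.Agent.M848.FC

open Finset
open scoped ArithmeticFunction ComplexConjugate

noncomputable section

namespace DetAux

theorem tentR_nonneg (H : ℕ) (t : ℝ) : 0 ≤ tentR H t := by
  unfold tentR
  exact div_nonneg (le_max_left _ _) (Nat.cast_nonneg _)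

theorem tentR_le (H : ℕ) (t : ℝ) : tentR H t ≤ 1 / 2 := by
  unfold tentR
  rcases Nat.eq_zero_or_pos H with h | h
  · subst h
    simp
  · have hH : (0 : ℝ) < H := by exact_mod_cast h
    rw [div_le_iff₀ hH]
    refine max_le (by positivity) ?_
    rcases le_total t ((H : ℝ) - t) with h1 | h1
    · rw [min_eq_left h1]; linarith
    · rw [min_eq_right h1]; linarith

theorem tentR_pos {H : ℕ} {t : ℝ} (h : tentR H t ≠ 0) : 0 < t ∧ t < H := by
  by_contra hc
  apply h
  unfold tentR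
  have h1 : min t ((H : ℝ) - t) ≤ 0 := by
    by_contra h2
    rw [not_le, lt_min_iff] at h2
    exact hc ⟨h2.1, by linarith [h2.2]⟩
  rw [max_eq_left h1, zero_div]

theorem om_eq (a : ℤ) (L H k' q : ℕ) (hk' : 1 ≤ k') :
    om L H q = Wk a L H k' (a + k' * q) := by
  unfold om Wk tent tentR
  have hk : (k' : ℝ) ≠ 0 := by
    have : (0 : ℝ) < k' := by exact_mod_cast hk'
    exact this.ne'
  have h1 : ((((a + k' * q : ℤ) : ℝ) - a) / k' - L) = (((q : ℤ) - L : ℤ) : ℝ) := by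
    push_cast
    field_simp
    ring
  rw [h1]

theorem om_nonneg (L H q : ℕ) : 0 ≤ om L H q := tent_nonneg H _

theorem om_le (L H q : ℕ) : om L H q ≤ 1 / 2 := tent_le H _

theorem LN_nonneg (N : ℕ) (m : ℤ) : 0 ≤ LN N m := by
  unfold LN
  split_ifs
  · exact ArithmeticFunction.vonMangoldt_nonneg
  · exact le_rfl

theorem LN_le (N : ℕ) (m : ℤ) : LN N m ≤ Real.log N := by
  unfold LN
  split_ifs with h
  · refine ArithmeticFunction.vonMangoldt_le_log.trans ?_
    rcases Nat.eq_zero_or_pos m.toNat with h0 | h0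
    · rw [h0]
      simp only [Nat.cast_zero, Real.log_zero]
      exact Real.log_natCast_nonneg N
    · apply Real.log_le_log (by exact_mod_cast h0)
      have : m.toNat ≤ N := Int.toNat_le.mpr h
      exact_mod_cast this
  · exact Real.log_natCast_nonneg N

theorem LN_pos {N : ℕ} {m : ℤ} (h : LN N m ≠ 0) : 1 ≤ m ∧ m ≤ N := by
  unfold LN at h
  split_ifs at h with h1
  · refine ⟨?_, h1⟩
    by_contra h2
    apply h
    have h3 : m.toNat = 0 := Int.toNat_eq_zero.mpr (by omega)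
    rw [h3]
    simp
  · exact absurd rfl h

theorem exists_q (a : ℤ) (k d : ℕ) (hdk : d.Coprime k) : ∃ q : ℤ, (d : ℤ) ∣ a + k * q := by
  obtain ⟨u, w, huw⟩ := Nat.isCoprime_iff_coprime.mpr hdk
  refine ⟨-a * w, ⟨a * u, ?_⟩⟩
  linear_combination (-a) * huw

theorem dvd_sub_of (a : ℤ) (k d : ℕ) (hdk : d.Coprime k) {q q' : ℤ} (h : (d : ℤ) ∣ a + k * q)
    (h' : (d : ℤ) ∣ a + k * q') : (d : ℤ) ∣ q - q' := by
  have h1 : (d : ℤ) ∣ k * (q - q') := by
    have := dvd_sub h h'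
    have e : a + k * q - (a + k * q') = k * (q - q') := by ring
    rwa [e] at this
  exact (Nat.isCoprime_iff_coprime.mpr hdk).dvd_of_dvd_mul_left h1

theorem exists_res (a : ℤ) (k k' d : ℕ) (hd : 1 ≤ d) (hk' : 1 ≤ k') (hdk : d.Coprime k) :
    ∃ r : ℕ, (∀ q : ℤ, (d : ℤ) ∣ a + k * q → a + k' * q ≡ r [ZMOD ((k' * d : ℕ) : ℤ)]) ∧
      (∀ n : ℤ, n ≡ r [ZMOD ((k' * d : ℕ) : ℤ)] → ∃ q : ℤ, n = a + k' * q ∧
        (d : ℤ) ∣ a + k * q) := by
  obtain ⟨q₀, hq₀⟩ := exists_q a k d hdk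
  have hκ : (0 : ℤ) < ((k' * d : ℕ) : ℤ) := by
    have : 0 < k' * d := Nat.mul_pos hk' hd
    exact_mod_cast this
  have hr : ((((a + k' * q₀) % ((k' * d : ℕ) : ℤ)).toNat : ℕ) : ℤ)
      = (a + k' * q₀) % ((k' * d : ℕ) : ℤ) := Int.toNat_of_nonneg (Int.emod_nonneg _ hκ.ne')
  have hr' : a + k' * q₀ ≡ ((((a + k' * q₀) % ((k' * d : ℕ) : ℤ)).toNat : ℕ) : ℤ)
      [ZMOD ((k' * d : ℕ) : ℤ)] := by
    rw [hr]
    exact (Int.mod_modEq _ _).symm
  refine ⟨((a + k' * q₀) % ((k' * d : ℕ) : ℤ)).toNat, ?_, ?_⟩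
  · intro q hq
    refine Int.ModEq.trans ?_ hr'
    obtain ⟨j, hj⟩ := dvd_sub_of a k d hdk hq₀ hq
    refine Int.modEq_iff_dvd.mpr ⟨j, ?_⟩
    push_cast
    linear_combination (k' : ℤ) * hj
  · intro n hn
    have h1 := hn.trans hr'.symm
    obtain ⟨j, hj⟩ := Int.modEq_iff_dvd.mp h1
    obtain ⟨i, hi⟩ := hq₀
    refine ⟨q₀ - d * j, ?_, ⟨i - k * j, ?_⟩⟩
    · push_cast at hj
      linear_combination -hj
    · linear_combination hi

theorem exists_v (a : ℤ) (k k' s : ℕ) (hs : s.Prime) (hk : ¬ s ∣ k) (hk' : ¬ s ∣ k')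
    (hne : ¬ (s : ℤ) ∣ ((k : ℤ) - k') * a) :
    ∃ v : ℕ, v.Coprime s ∧ ∀ q : ℤ, (s : ℤ) ∣ a + k * q ↔ a + k' * q ≡ v [ZMOD (s : ℤ)] := by
  have hsk : s.Coprime k := (Nat.Prime.coprime_iff_not_dvd hs).mpr hk
  have hsk' : s.Coprime k' := (Nat.Prime.coprime_iff_not_dvd hs).mpr hk'
  obtain ⟨q₀, hq₀⟩ := exists_q a k s hsk
  have hs0 : (0 : ℤ) < (s : ℤ) := by exact_mod_cast hs.pos
  have hr : ((((a + k' * q₀) % (s : ℤ)).toNat : ℕ) : ℤ)
      = (a + k' * q₀) % (s : ℤ) := Int.toNat_of_nonneg (Int.emod_nonneg _ hs0.ne')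
  have hr' : a + k' * q₀ ≡ ((((a + k' * q₀) % (s : ℤ)).toNat : ℕ) : ℤ) [ZMOD (s : ℤ)] := by
    rw [hr]
    exact (Int.mod_modEq _ _).symm
  refine ⟨((a + k' * q₀) % (s : ℤ)).toNat, ?_, ?_⟩
  · rw [Nat.coprime_comm, Nat.Prime.coprime_iff_not_dvd hs]
    intro hdvd
    have h1 : (s : ℤ) ∣ (a + k' * q₀) % (s : ℤ) := by
      rw [← hr]
      exact_mod_cast hdvd
    have h2 : (s : ℤ) ∣ a + k' * q₀ := Int.dvd_of_emod_eq_zero
      (by rw [← Int.emod_emod_of_dvd (a + k' * q₀) (dvd_refl (s : ℤ))]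
          exact Int.emod_eq_zero_of_dvd h1)
    apply hne
    have h3 := dvd_sub (Dvd.dvd.mul_left h2 (k : ℤ)) (Dvd.dvd.mul_left hq₀ (k' : ℤ))
    have e : (k : ℤ) * (a + k' * q₀) - k' * (a + k * q₀) = ((k : ℤ) - k') * a := by ring
    rwa [e] at h3
  · intro q
    constructor
    · intro hq
      refine Int.ModEq.trans ?_ hr'
      obtain ⟨j, hj⟩ := dvd_sub_of a k s hsk hq₀ hq
      refine Int.modEq_iff_dvd.mpr ⟨k' * j, ?_⟩
      linear_combination (k' : ℤ) * hj
    · intro hq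
      have h1 := Int.modEq_iff_dvd.mp (hq.trans hr'.symm)
      have h2 : (s : ℤ) ∣ k' * (q₀ - q) := by
        have e : a + k' * q₀ - (a + k' * q) = k' * (q₀ - q) := by ring
        rwa [e] at h1
      have h3 : (s : ℤ) ∣ q₀ - q :=
        (Nat.isCoprime_iff_coprime.mpr hsk').dvd_of_dvd_mul_left h2
      have h4 := dvd_sub hq₀ (Dvd.dvd.mul_left h3 (k : ℤ))
      have e : a + k * q₀ - k * (q₀ - q) = a + k * q := by ring
      rwa [e] at h4

theorem subst (a : ℤ) (N L H k k' d r : ℕ) (hk' : 1 ≤ k')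
    (h1 : ∀ q : ℤ, (d : ℤ) ∣ a + k * q → a + k' * q ≡ r [ZMOD ((k' * d : ℕ) : ℤ)])
    (h2 : ∀ n : ℤ, n ≡ r [ZMOD ((k' * d : ℕ) : ℤ)] → ∃ q : ℤ, n = a + k' * q ∧
        (d : ℤ) ∣ a + k * q) (G : ℤ → ℝ) :
    ∑ q ∈ Mo L H, om L H q * LN N (a + k' * q) * (if (d : ℤ) ∣ a + k * q then (1 : ℝ) else 0) *
        G (a + k' * q) =
      ∑ n ∈ Icc 1 N, (Λ n : ℝ) * Wk a L H k' n *
        (if n % (k' * d) = r % (k' * d) then (1 : ℝ) else 0) * G n := by
  have hkk : (0 : ℤ) < k' := by exact_mod_cast hk'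
  have hkr : (0 : ℝ) < k' := by exact_mod_cast hk'
  -- the values agree
  have key : ∀ q : ℕ, 1 ≤ a + k' * (q : ℤ) → a + k' * (q : ℤ) ≤ N →
      (d : ℤ) ∣ a + k * q →
      om L H q * LN N (a + k' * q) * (if (d : ℤ) ∣ a + k * q then (1 : ℝ) else 0) *
        G (a + k' * q) =
      (Λ (a + k' * (q : ℤ)).toNat : ℝ) * Wk a L H k' ((a + k' * (q : ℤ)).toNat : ℕ) *
        (if (a + k' * (q : ℤ)).toNat % (k' * d) = r % (k' * d) then (1 : ℝ) else 0) *
          G ((a + k' * (q : ℤ)).toNat : ℕ) := by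
    intro q hq1 hq2 hd
    have hn : (((a + k' * (q : ℤ)).toNat : ℕ) : ℤ) = a + k' * q :=
      Int.toNat_of_nonneg (by linarith)
    have hmod : (a + k' * (q : ℤ)).toNat % (k' * d) = r % (k' * d) := by
      have := h1 q hd
      rw [← hn] at this
      exact Int.natCast_modEq_iff.mp this
    rw [if_pos hd, if_pos hmod, hn, om_eq a L H k' q hk']
    have hL : LN N (a + k' * (q : ℤ)) = (Λ (a + k' * (q : ℤ)).toNat : ℝ) := by
      unfold LN
      rw [if_pos hq2]
    rw [hL]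
    ring
  refine Finset.sum_bij_ne_zero (fun q _ _ => (a + k' * (q : ℤ)).toNat) ?_ ?_ ?_ ?_
  · intro q hq hne
    have hL : LN N (a + k' * (q : ℤ)) ≠ 0 := by
      intro h0
      apply hne
      rw [h0]
      ring
    obtain ⟨h3, h4⟩ := LN_pos hL
    rw [Finset.mem_Icc]
    omega
  · intro q1 hq1 hne1 q2 hq2 hne2 heq
    have hL1 : LN N (a + k' * (q1 : ℤ)) ≠ 0 := by
      intro h0
      apply hne1
      rw [h0]
      ring
    have hL2 : LN N (a + k' * (q2 : ℤ)) ≠ 0 := by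
      intro h0
      apply hne2
      rw [h0]
      ring
    have h3 := (LN_pos hL1).1
    have h4 := (LN_pos hL2).1
    have h5 : a + k' * (q1 : ℤ) = a + k' * q2 := by
      have h6 : (((a + k' * (q1 : ℤ)).toNat : ℕ) : ℤ) = (((a + k' * (q2 : ℤ)).toNat : ℕ) : ℤ) :=
        congrArg _ heq
      rwa [Int.toNat_of_nonneg (by linarith), Int.toNat_of_nonneg (by linarith)] at h6
    have h6 : (k' : ℤ) * q1 = k' * q2 := by linarith
    have h7 := mul_left_cancel₀ hkk.ne' h6
    exact_mod_cast h7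
  · intro n hn hne
    rw [Finset.mem_Icc] at hn
    have hW : Wk a L H k' n ≠ 0 := by
      intro h0
      apply hne
      rw [h0]
      ring
    have hmod : n % (k' * d) = r % (k' * d) := by
      by_contra h0
      apply hne
      rw [if_neg h0]
      ring
    obtain ⟨q, hq1, hq2⟩ := h2 n (Int.natCast_modEq_iff.mpr hmod)
    obtain ⟨h5, h6⟩ := tentR_pos hW
    have e1 : (((n : ℤ) : ℝ) - a) / k' = q := by
      rw [hq1]
      push_cast
      field_simp
      ring
    rw [e1] at h5 h6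
    have hqL : (L : ℤ) < q := by
      have : (L : ℝ) < q := by linarith
      exact_mod_cast this
    have hqH : q < L + H := by
      have : (q : ℝ) < L + H := by linarith
      exact_mod_cast this
    have hq0 : ((q.toNat : ℕ) : ℤ) = q := Int.toNat_of_nonneg (by linarith [Int.natCast_nonneg L])
    have e2 : (a + k' * ((q.toNat : ℕ) : ℤ)).toNat = n := by
      rw [hq0, ← hq1]
      simp
    have hmem : q.toNat ∈ Mo L H := by
      unfold Mo
      rw [Finset.mem_Icc]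
      omega
    have e3 := key q.toNat (by rw [hq0, ← hq1]; exact_mod_cast hn.1)
      (by rw [hq0, ← hq1]; exact_mod_cast hn.2) (by rw [hq0]; exact hq2)
    rw [e2] at e3
    exact ⟨q.toNat, hmem, by rw [e3]; exact hne, e2⟩
  · intro q hq hne
    have hL : LN N (a + k' * (q : ℤ)) ≠ 0 := by
      intro h0
      apply hne
      rw [h0]
      ring
    have hd : (d : ℤ) ∣ a + k * q := by
      by_contra h0
      apply hne
      rw [if_neg h0]
      ring
    exact key q (LN_pos hL).1 (LN_pos hL).2 hd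

theorem swap4 {ι : Type} (I : Finset ι) (X Y : Finset (ℕ → ℂ)) (a b : ℂ)
    (F : (ℕ → ℂ) → (ℕ → ℂ) → ι → ℂ) :
    ∑ i ∈ I, a * ∑ ξ ∈ X, b * ∑ χ ∈ Y, F ξ χ i =
      a * ∑ ξ ∈ X, b * ∑ χ ∈ Y, ∑ i ∈ I, F ξ χ i := by
  rw [← Finset.mul_sum, Finset.sum_comm]
  congr 1
  apply Finset.sum_congr rfl
  intro ξ _
  rw [← Finset.mul_sum, Finset.sum_comm]

/-- the formula by characters for one `n` -/
theorem one_char (s κ n v r : ℕ) (hs : s.Prime) (hκ : 1 ≤ κ) (hv : v.Coprime s)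
    (hr : r.Coprime κ) (w : ℝ) :
    ((w * (if n % κ = r % κ then (1 : ℝ) else 0) *
        ((if (n : ℤ) ≡ v [ZMOD (s : ℤ)] then (1 : ℝ) else 0) - 1 / s) : ℝ) : ℂ) =
      (1 / (κ.totient : ℂ)) * ∑ ξ ∈ ac κ, (1 / ((s : ℂ) - 1)) * ∑ χ ∈ nc s,
        ((w : ℂ) * (χ n * ξ n)) * conj (χ v * ξ r) +
      ((w * (if n % κ = r % κ then (1 : ℝ) else 0) * (1 / (s * ((s : ℝ) - 1))) -
        (if s ∣ n then w * (if n % κ = r % κ then (1 : ℝ) else 0) * (1 / ((s : ℝ) - 1)) else 0)
          : ℝ) : ℂ) := by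
  have hφ : (κ.totient : ℂ) ≠ 0 := by
    have : 0 < κ.totient := Nat.totient_pos.mpr hκ
    exact_mod_cast this.ne'
  have hs1 : (s : ℂ) - 1 ≠ 0 := by
    have : (s : ℂ) ≠ 1 := by exact_mod_cast hs.one_lt.ne'
    exact sub_ne_zero.mpr this
  have hs0 : (s : ℂ) ≠ 0 := by exact_mod_cast hs.ne_zero
  have o2 : ∑ ξ ∈ ac κ, ξ n * conj (ξ r) = if n % κ = r % κ then (κ.totient : ℂ) else 0 := by
    by_cases hn : n.Coprime κ
    · exact ac_orth hκ n r hn
    · have h1 : ¬ n % κ = r % κ := by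
        intro h
        apply hn
        have h2 : n.gcd κ = r.gcd κ := by
          rw [Nat.gcd_comm n, Nat.gcd_comm r, Nat.gcd_rec κ n, Nat.gcd_rec κ r, h]
        unfold Nat.Coprime
        rw [h2]
        exact hr
      rw [if_neg h1]
      apply Finset.sum_eq_zero
      intro ξ hξ
      rw [ac_zero hξ n hn, zero_mul]
  have e1 : (1 / (κ.totient : ℂ)) * ∑ ξ ∈ ac κ, (1 / ((s : ℂ) - 1)) * ∑ χ ∈ nc s,
        ((w : ℂ) * (χ n * ξ n)) * conj (χ v * ξ r) =
      w * ((1 / (κ.totient : ℂ)) * ∑ ξ ∈ ac κ, ξ n * conj (ξ r)) *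
        ((1 / ((s : ℂ) - 1)) * ∑ χ ∈ nc s, χ n * conj (χ v)) := by
    rw [Finset.mul_sum, Finset.mul_sum, Finset.mul_sum, Finset.sum_mul]
    apply Finset.sum_congr rfl
    intro ξ hξ
    rw [Finset.mul_sum, Finset.mul_sum, Finset.mul_sum, Finset.mul_sum]
    apply Finset.sum_congr rfl
    intro χ hχ
    simp only [map_mul]
    ring
  rw [e1, o2]
  have hsR : (s : ℝ) ≠ 0 := by exact_mod_cast hs.ne_zero
  have hmodEq : ((n : ℤ) ≡ v [ZMOD (s : ℤ)]) ↔ n % s = v % s := Int.natCast_modEq_iff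
  by_cases hn : s ∣ n
  · have h0 : ∑ χ ∈ nc s, χ n * conj (χ v) = 0 := by
      apply Finset.sum_eq_zero
      intro χ hχ
      rw [nc_zero hs hχ n hn, zero_mul]
    have h1 : ¬ ((n : ℤ) ≡ v [ZMOD (s : ℤ)]) := by
      rw [hmodEq]
      intro h
      have h2 : v % s = 0 := by rw [← h]; exact Nat.mod_eq_zero_of_dvd hn
      have h3 : s ∣ v := Nat.dvd_of_mod_eq_zero h2
      exact (Nat.Prime.coprime_iff_not_dvd hs).mp hv.symm h3
    rw [h0, if_neg h1, if_pos hn]
    by_cases c : n % κ = r % κ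
    · rw [if_pos c, if_pos c]
      push_cast
      field_simp
      ring
    · rw [if_neg c, if_neg c]
      push_cast
      ring
  · have hns : n.Coprime s := ((Nat.Prime.coprime_iff_not_dvd hs).mpr hn).symm
    rw [nc_orth hs n v hns hv, if_neg hn]
    by_cases c1 : n % s = v % s
    · rw [if_pos (hmodEq.mpr c1), if_pos c1]
      by_cases c : n % κ = r % κ
      · rw [if_pos c, if_pos c]
        push_cast
        field_simp
        ring
      · rw [if_neg c, if_neg c]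
        push_cast
        ring
    · rw [if_neg (fun hh => c1 (hmodEq.mp hh)), if_neg c1]
      by_cases c : n % κ = r % κ
      · rw [if_pos c, if_pos c]
        push_cast
        field_simp
        ring
      · rw [if_neg c, if_neg c]
        push_cast
        ring

end DetAux

open DetAux in
theorem det (a : ℤ) (ha : a ≠ 0) (N L H K s d k k' : ℕ) (hN : 2 ≤ N) (hH : 1 ≤ H)
    (hk : k ∈ Icc 1 K) (hk' : k' ∈ Icc 1 K) (hkk : k ≠ k') (hs : s.Prime)
    (hsK : K * a.natAbs < s) (hd1 : 1 ≤ d) (hds : d < s) (hdk : d.Coprime k) :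
    |∑ q ∈ Mo L H, om L H q * LN N (a + k' * q) *
        (((if (s : ℤ) ∣ a + k * q then (1 : ℝ) else 0) - 1 / s) *
          (if (d : ℤ) ∣ a + k * q then 1 else 0))| ≤
      (1 / ((k' * d).totient : ℝ)) * ∑ ξ ∈ ac (k' * d), (1 / ((s : ℝ) - 1)) * ∑ χ ∈ nc s,
        ‖∑ n ∈ Icc 1 N, ((Λ n : ℝ) : ℂ) * (χ n * ξ n) * ((Wk a L H k' n : ℝ) : ℂ)‖ +
      ((H + 1) * Real.log N / ((s : ℝ) * (s - 1)) +
        ((Nat.log 2 (k' * d) : ℝ) + 2) * Real.log N) := by
  rw [Finset.mem_Icc] at hk hk'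
  have hlogN : 0 ≤ Real.log N := Real.log_natCast_nonneg N
  have ha1 : 1 ≤ a.natAbs := Int.natAbs_pos.mpr ha
  have hKs : K < s := lt_of_le_of_lt (Nat.le_mul_of_pos_right K ha1) hsK
  have hsk : ¬ s ∣ k := fun h => absurd (Nat.le_of_dvd (by omega) h) (by omega)
  have hsk' : ¬ s ∣ k' := fun h => absurd (Nat.le_of_dvd (by omega) h) (by omega)
  have hs1 : (1 : ℝ) < s := by exact_mod_cast hs.one_lt
  have hsm : 0 < (s : ℝ) - 1 := by linarith
  have hsm1 : 1 ≤ (s : ℝ) - 1 := by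
    have : (2 : ℝ) ≤ s := by exact_mod_cast hs.two_le
    linarith
  have hne : ¬ (s : ℤ) ∣ ((k : ℤ) - k') * a := by
    intro h
    have h1 : s ∣ (((k : ℤ) - k') * a).natAbs := Int.natCast_dvd.mp h
    rw [Int.natAbs_mul] at h1
    have h2 : 0 < ((k : ℤ) - k').natAbs := by
      rw [Int.natAbs_pos]
      intro h3
      apply hkk
      omega
    have h3 : ((k : ℤ) - k').natAbs ≤ K := by omega
    have h4 := Nat.le_of_dvd (Nat.mul_pos h2 ha1) h1
    have h5 : ((k : ℤ) - k').natAbs * a.natAbs ≤ K * a.natAbs := Nat.mul_le_mul_right _ h3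
    omega
  have hκ : 1 ≤ k' * d := Nat.mul_pos hk'.1 hd1
  obtain ⟨r, hr1, hr2⟩ := exists_res a k k' d hd1 hk'.1 hdk
  obtain ⟨v, hv, hv1⟩ := exists_v a k k' s hs hsk hsk' hne
  have hW0 : ∀ n : ℕ, 0 ≤ Wk a L H k' n := fun n => tentR_nonneg H _
  have hW1 : ∀ n : ℕ, Wk a L H k' n ≤ 1 / 2 := fun n => tentR_le H _
  have hΛ : ∀ n : ℕ, 0 ≤ (Λ n : ℝ) := fun n => ArithmeticFunction.vonMangoldt_nonneg
  -- substitution
  have e1 : ∑ q ∈ Mo L H, om L H q * LN N (a + k' * q) *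
        (((if (s : ℤ) ∣ a + k * q then (1 : ℝ) else 0) - 1 / s) *
          (if (d : ℤ) ∣ a + k * q then 1 else 0)) =
      ∑ n ∈ Icc 1 N, (Λ n : ℝ) * Wk a L H k' n *
        (if n % (k' * d) = r % (k' * d) then (1 : ℝ) else 0) *
        ((if (n : ℤ) ≡ v [ZMOD (s : ℤ)] then (1 : ℝ) else 0) - 1 / s) := by
    rw [← subst a N L H k k' d r hk'.1 hr1 hr2
      (fun m => (if m ≡ v [ZMOD (s : ℤ)] then (1 : ℝ) else 0) - 1 / s)]
    apply Finset.sum_congr rfl
    intro q _
    have h1 : (if (s : ℤ) ∣ a + k * q then (1 : ℝ) else 0)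
        = (if a + k' * q ≡ v [ZMOD (s : ℤ)] then (1 : ℝ) else 0) := by
      by_cases h : (s : ℤ) ∣ a + k * q
      · rw [if_pos h, if_pos ((hv1 q).mp h)]
      · rw [if_neg h, if_neg (fun hh => h ((hv1 q).mpr hh))]
    rw [h1]
    ring
  rw [e1]
  set M : ℝ := (1 / ((k' * d).totient : ℝ)) * ∑ ξ ∈ ac (k' * d), (1 / ((s : ℝ) - 1)) *
    ∑ χ ∈ nc s, ‖∑ n ∈ Icc 1 N, ((Λ n : ℝ) : ℂ) * (χ n * ξ n) * ((Wk a L H k' n : ℝ) : ℂ)‖
    with hM
  have hM0 : 0 ≤ M := by
    rw [hM]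
    positivity
  by_cases hrc : r.Coprime (k' * d)
  · -- the main case
    have e2 : ((∑ n ∈ Icc 1 N, (Λ n : ℝ) * Wk a L H k' n *
        (if n % (k' * d) = r % (k' * d) then (1 : ℝ) else 0) *
        ((if (n : ℤ) ≡ v [ZMOD (s : ℤ)] then (1 : ℝ) else 0) - 1 / s) : ℝ) : ℂ) =
        (1 / ((k' * d).totient : ℂ)) * ∑ ξ ∈ ac (k' * d), (1 / ((s : ℂ) - 1)) * ∑ χ ∈ nc s,
          ∑ n ∈ Icc 1 N, ((((Λ n : ℝ) * Wk a L H k' n : ℝ) : ℂ) * (χ n * ξ n)) *
            conj (χ v * ξ r) +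
        ((∑ n ∈ Icc 1 N, ((Λ n : ℝ) * Wk a L H k' n *
          (if n % (k' * d) = r % (k' * d) then (1 : ℝ) else 0) * (1 / (s * ((s : ℝ) - 1))) -
          (if s ∣ n then (Λ n : ℝ) * Wk a L H k' n *
            (if n % (k' * d) = r % (k' * d) then (1 : ℝ) else 0) * (1 / ((s : ℝ) - 1)) else 0))
          : ℝ) : ℂ) := by
      rw [← swap4, Complex.ofReal_sum, Complex.ofReal_sum, ← Finset.sum_add_distrib]
      apply Finset.sum_congr rfl
      intro n _
      exact one_char s (k' * d) n v r hs hκ hv hrc ((Λ n : ℝ) * Wk a L H k' n)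
    have e3 : ∀ ξ ∈ ac (k' * d), ∀ χ ∈ nc s,
        ‖∑ n ∈ Icc 1 N, ((((Λ n : ℝ) * Wk a L H k' n : ℝ) : ℂ) * (χ n * ξ n)) *
            conj (χ v * ξ r)‖ ≤
        ‖∑ n ∈ Icc 1 N, ((Λ n : ℝ) : ℂ) * (χ n * ξ n) * ((Wk a L H k' n : ℝ) : ℂ)‖ := by
      intro ξ hξ χ hχ
      have h1 : ∑ n ∈ Icc 1 N, ((((Λ n : ℝ) * Wk a L H k' n : ℝ) : ℂ) * (χ n * ξ n)) *
            conj (χ v * ξ r) = conj (χ v * ξ r) *
          ∑ n ∈ Icc 1 N, ((Λ n : ℝ) : ℂ) * (χ n * ξ n) * ((Wk a L H k' n : ℝ) : ℂ) := by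
        rw [Finset.mul_sum]
        apply Finset.sum_congr rfl
        intro n _
        push_cast
        ring
      rw [h1, norm_mul]
      have n3 : ‖conj (χ v * ξ r)‖ ≤ 1 := by
        rw [RCLike.norm_conj, norm_mul]
        exact mul_le_one₀ (nc_norm_le hχ _) (norm_nonneg _) (ac_norm_le hξ _)
      calc _ ≤ 1 * _ := mul_le_mul_of_nonneg_right n3 (norm_nonneg _)
        _ = _ := one_mul _
    have e4 : ‖(1 / ((k' * d).totient : ℂ)) * ∑ ξ ∈ ac (k' * d), (1 / ((s : ℂ) - 1)) *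
        ∑ χ ∈ nc s, ∑ n ∈ Icc 1 N, ((((Λ n : ℝ) * Wk a L H k' n : ℝ) : ℂ) * (χ n * ξ n)) *
            conj (χ v * ξ r)‖ ≤ M := by
      rw [norm_mul, hM]
      have n1 : ‖(1 / ((k' * d).totient : ℂ))‖ = 1 / ((k' * d).totient : ℝ) := by
        rw [norm_div, norm_one, Complex.norm_natCast]
      have n2 : ‖(1 / ((s : ℂ) - 1))‖ = 1 / ((s : ℝ) - 1) := by
        have : ((s : ℂ) - 1) = (((s : ℝ) - 1 : ℝ) : ℂ) := by push_cast; ring
        rw [norm_div, norm_one, this, Complex.norm_real, Real.norm_of_nonneg hsm.le]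
      rw [n1]
      apply mul_le_mul_of_nonneg_left _ (by positivity)
      refine (norm_sum_le _ _).trans ?_
      apply Finset.sum_le_sum
      intro ξ hξ
      rw [norm_mul, n2]
      apply mul_le_mul_of_nonneg_left _ (by positivity)
      refine (norm_sum_le _ _).trans ?_
      apply Finset.sum_le_sum
      intro χ hχ
      exact e3 ξ hξ χ hχ
    -- the error terms
    have e5 : ∑ n ∈ Icc 1 N, (Λ n : ℝ) * Wk a L H k' n *
          (if n % (k' * d) = r % (k' * d) then (1 : ℝ) else 0) ≤ (H + 1) * Real.log N := by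
      have h1 := subst a N L H k k' d r hk'.1 hr1 hr2 (fun _ => (1 : ℝ))
      simp only [mul_one] at h1
      rw [← h1]
      calc ∑ q ∈ Mo L H, om L H q * LN N (a + k' * q) *
            (if (d : ℤ) ∣ a + k * q then (1 : ℝ) else 0)
          ≤ ∑ q ∈ Mo L H, Real.log N := by
            apply Finset.sum_le_sum
            intro q _
            have h2 := om_nonneg L H q
            have h3 := om_le L H q
            have h4 := LN_nonneg N (a + k' * q)
            have h5 := LN_le N (a + k' * q)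
            have h6 : om L H q * LN N (a + k' * q) ≤ 1 * Real.log N :=
              mul_le_mul (by linarith) h5 h4 zero_le_one
            split_ifs
            · linarith
            · rw [mul_zero]; exact hlogN
        _ = (H + 1) * Real.log N := by
            unfold Mo
            rw [Finset.sum_const, Nat.card_Icc, nsmul_eq_mul]
            have : L + H + 1 - L = H + 1 := by omega
            rw [this]
            push_cast
            ring
    have e5' : 0 ≤ ∑ n ∈ Icc 1 N, (Λ n : ℝ) * Wk a L H k' n *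
          (if n % (k' * d) = r % (k' * d) then (1 : ℝ) else 0) := by
      apply Finset.sum_nonneg
      intro n _
      have h1 := hΛ n
      have h2 := hW0 n
      split_ifs <;> positivity
    have e6 : ∑ n ∈ Icc 1 N, (if s ∣ n then (Λ n : ℝ) * Wk a L H k' n *
            (if n % (k' * d) = r % (k' * d) then (1 : ℝ) else 0) * (1 / ((s : ℝ) - 1)) else 0)
        ≤ 2 * Real.log N := by
      rw [← Finset.sum_filter]
      calc _ ≤ ∑ n ∈ (Icc 1 N).filter (fun n => s ∣ n), (Λ n : ℝ) := by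
            apply Finset.sum_le_sum
            intro n _
            have h1 := hΛ n
            have h2 := hW0 n
            have h3 := hW1 n
            have h4 : 1 / ((s : ℝ) - 1) ≤ 1 := by
              rw [div_le_one hsm]; exact hsm1
            have h5 : 0 ≤ 1 / ((s : ℝ) - 1) := by positivity
            have h6 : (Λ n : ℝ) * Wk a L H k' n ≤ Λ n * 1 :=
              mul_le_mul_of_nonneg_left (by linarith) h1
            have h7 : 0 ≤ (Λ n : ℝ) * Wk a L H k' n := mul_nonneg h1 h2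
            have h8 : (Λ n : ℝ) * Wk a L H k' n *
                (if n % (k' * d) = r % (k' * d) then (1 : ℝ) else 0) ≤ Λ n := by
              split_ifs
              · linarith
              · rw [mul_zero]; exact h1
            have h9 : 0 ≤ (Λ n : ℝ) * Wk a L H k' n *
                (if n % (k' * d) = r % (k' * d) then (1 : ℝ) else 0) := by
              split_ifs
              · linarith
              · rw [mul_zero]
            calc _ ≤ (Λ n : ℝ) * 1 := mul_le_mul h8 h4 h5 h1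
              _ = Λ n := mul_one _
        _ ≤ Real.log N := prime_pow_sum N s hs
        _ ≤ 2 * Real.log N := by linarith
    have e6' : 0 ≤ ∑ n ∈ Icc 1 N, (if s ∣ n then (Λ n : ℝ) * Wk a L H k' n *
            (if n % (k' * d) = r % (k' * d) then (1 : ℝ) else 0) * (1 / ((s : ℝ) - 1)) else 0) := by
      apply Finset.sum_nonneg
      intro n _
      have h1 := hΛ n
      have h2 := hW0 n
      have h5 : 0 ≤ 1 / ((s : ℝ) - 1) := by positivity
      split_ifs <;> positivity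
    have e7 : |∑ n ∈ Icc 1 N, ((Λ n : ℝ) * Wk a L H k' n *
          (if n % (k' * d) = r % (k' * d) then (1 : ℝ) else 0) * (1 / (s * ((s : ℝ) - 1))) -
          (if s ∣ n then (Λ n : ℝ) * Wk a L H k' n *
            (if n % (k' * d) = r % (k' * d) then (1 : ℝ) else 0) * (1 / ((s : ℝ) - 1)) else 0))| ≤
        (H + 1) * Real.log N / ((s : ℝ) * (s - 1)) + 2 * Real.log N := by
      rw [Finset.sum_sub_distrib, ← Finset.sum_mul]
      have hpos : 0 ≤ 1 / ((s : ℝ) * ((s : ℝ) - 1)) := by positivity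
      have h1 := mul_le_mul_of_nonneg_right e5 hpos
      have h2 := mul_nonneg e5' hpos
      have h3 : (H + 1) * Real.log N * (1 / ((s : ℝ) * ((s : ℝ) - 1))) =
          (H + 1) * Real.log N / ((s : ℝ) * (s - 1)) := by ring
      rw [h3] at h1
      have h4 : 0 ≤ (H + 1) * Real.log N / ((s : ℝ) * (s - 1)) := by positivity
      rw [abs_le]
      constructor
      · linarith
      · linarith
    have e8 : |∑ n ∈ Icc 1 N, (Λ n : ℝ) * Wk a L H k' n *
        (if n % (k' * d) = r % (k' * d) then (1 : ℝ) else 0) *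
        ((if (n : ℤ) ≡ v [ZMOD (s : ℤ)] then (1 : ℝ) else 0) - 1 / s)| =
        ‖((∑ n ∈ Icc 1 N, (Λ n : ℝ) * Wk a L H k' n *
        (if n % (k' * d) = r % (k' * d) then (1 : ℝ) else 0) *
        ((if (n : ℤ) ≡ v [ZMOD (s : ℤ)] then (1 : ℝ) else 0) - 1 / s) : ℝ) : ℂ)‖ := by
      rw [Complex.norm_real, Real.norm_eq_abs]
    rw [e8, e2]
    refine (norm_add_le _ _).trans ?_
    rw [Complex.norm_real, Real.norm_eq_abs]
    have h9 : 0 ≤ (Nat.log 2 (k' * d) : ℝ) * Real.log N :=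
      mul_nonneg (Nat.cast_nonneg _) hlogN
    have h10 : ((Nat.log 2 (k' * d) : ℝ) + 2) * Real.log N =
      (Nat.log 2 (k' * d) : ℝ) * Real.log N + 2 * Real.log N := by ring
    rw [h10]
    linarith [add_le_add e4 e7]
  · -- no `n` coprime to `k' d`
    have e2 : |∑ n ∈ Icc 1 N, (Λ n : ℝ) * Wk a L H k' n *
        (if n % (k' * d) = r % (k' * d) then (1 : ℝ) else 0) *
        ((if (n : ℤ) ≡ v [ZMOD (s : ℤ)] then (1 : ℝ) else 0) - 1 / s)| ≤
        (Nat.log 2 (k' * d) : ℝ) * Real.log N := by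
      refine (Finset.abs_sum_le_sum_abs _ _).trans ?_
      refine le_trans ?_ (noncoprime_sum N (k' * d) hκ)
      rw [Finset.sum_filter]
      apply Finset.sum_le_sum
      intro n _
      by_cases hc : n % (k' * d) = r % (k' * d)
      · have hnc : ¬ n.Coprime (k' * d) := by
          intro h
          apply hrc
          have h2 : r.gcd (k' * d) = n.gcd (k' * d) := by
            rw [Nat.gcd_comm n, Nat.gcd_comm r, Nat.gcd_rec (k' * d) n,
              Nat.gcd_rec (k' * d) r, hc]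
          unfold Nat.Coprime
          rw [h2]
          exact h
        rw [if_pos hc, if_pos hnc, mul_one, abs_mul, abs_mul, abs_of_nonneg (hΛ n),
          abs_of_nonneg (hW0 n)]
        have h2 : |(if (n : ℤ) ≡ v [ZMOD (s : ℤ)] then (1 : ℝ) else 0) - 1 / s| ≤ 1 := by
          have hs3 : 1 / (s : ℝ) ≤ 1 := by
            rw [div_le_one (by linarith)]; exact hs1.le
          have hs4 : 0 ≤ 1 / (s : ℝ) := by positivity
          rw [abs_le]
          split_ifs <;> constructor <;> linarith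
        have h3 : (Λ n : ℝ) * Wk a L H k' n ≤ Λ n * 1 :=
          mul_le_mul_of_nonneg_left (by linarith [hW1 n]) (hΛ n)
        calc _ ≤ (Λ n * 1 : ℝ) * 1 :=
              mul_le_mul h3 h2 (abs_nonneg _) (by linarith [hΛ n])
          _ = Λ n := by ring
      · rw [if_neg hc, mul_zero, zero_mul, abs_zero]
        split_ifs <;> first | exact hΛ n | exact le_rfl
    have h4 : 0 ≤ (H + 1) * Real.log N / ((s : ℝ) * (s - 1)) := by positivity
    have h10 : ((Nat.log 2 (k' * d) : ℝ) + 2) * Real.log N =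
      (Nat.log 2 (k' * d) : ℝ) * Real.log N + 2 * Real.log N := by ring
    rw [h10]
    linarith

end

end Pool.Agent.M848.FC
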