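import Pool.Agent.Lib.MP_848d44_nt.F.Base
import Pool.Agent.Lib.MP_848d44_nt.Ncp

/-!
# MP_848d44_nt, fixed residue class, module DGT: diagonal and small terms
-/

set_option autoImplicit false

namespace Pool.Agent.M848.FC

open Finset
open scoped ArithmeticFunction ComplexConjugate

noncomputable section

namespace Dgt

theorem om_nonneg (L H q : ℕ) : 0 ≤ om L H q := by
  unfold om tent
  exact div_nonneg (le_max_left _ _) (Nat.cast_nonneg _)

theorem om_le (L H q : ℕ) : om L H q ≤ 1 / 2 := by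
  unfold om tent
  rcases Nat.eq_zero_or_pos H with rfl | hH
  · simp
  have hH' : (0 : ℝ) < H := by exact_mod_cast hH
  rw [div_le_iff₀ hH']
  apply max_le
  · positivity
  · rcases le_total ((((q : ℤ) - L : ℤ) : ℝ)) ((H : ℝ) / 2) with h | h
    · exact (min_le_left _ _).trans (by linarith)
    · exact (min_le_right _ _).trans (by linarith)

theorem LN_nonneg (N : ℕ) (m : ℤ) : 0 ≤ LN N m := by
  unfold LN
  split_ifs
  · exact ArithmeticFunction.vonMangoldt_nonneg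
  · exact le_refl _

theorem LN_ne {N : ℕ} {m : ℤ} (h : LN N m ≠ 0) :
    0 < m ∧ m ≤ N ∧ IsPrimePow m.toNat ∧ LN N m = Λ m.toNat := by
  unfold LN at h ⊢
  split_ifs at h ⊢ with h1
  · have h2 : IsPrimePow m.toNat := ArithmeticFunction.vonMangoldt_ne_zero_iff.1 h
    refine ⟨?_, h1, h2, rfl⟩
    have := h2.pos
    omega
  · exact absurd rfl h

theorem abs_lam (b : ℕ → ℝ) (T : ℕ) (m : ℤ) : |lam b T m| ≤ BB b T := by
  unfold lam BB
  refine (Finset.abs_sum_le_sum_abs _ _).trans ?_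
  exact Finset.sum_le_sum_of_subset_of_nonneg (Finset.filter_subset _ _)
    fun _ _ _ => abs_nonneg _

theorem abs_fk (b : ℕ → ℝ) (T s : ℕ) (m : ℤ) (hs : 1 ≤ s) : |fk b T s m| ≤ BB b T := by
  unfold fk
  rw [abs_mul]
  have hs' : (1 : ℝ) ≤ s := by exact_mod_cast hs
  have h1 : (1 : ℝ) / s ≤ 1 := by
    rw [div_le_one (by linarith)]
    exact hs'
  have h0 : (0 : ℝ) ≤ 1 / s := by positivity
  have h2 : |(if (s : ℤ) ∣ m then (1 : ℝ) else 0) - 1 / s| ≤ 1 := by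
    rw [abs_le]
    split_ifs
    · constructor <;> linarith
    · constructor <;> linarith
  calc |(if (s : ℤ) ∣ m then (1 : ℝ) else 0) - 1 / s| * |lam b T m| ≤ 1 * BB b T :=
        mul_le_mul h2 (abs_lam b T m) (abs_nonneg _) (by norm_num)
    _ = BB b T := one_mul _

theorem abs_Fk (b : ℕ → ℝ) (T : ℕ) (S : Finset ℕ) (m : ℤ) (hS : ∀ s ∈ S, 1 ≤ s) :
    |Fk b T S m| ≤ S.card * BB b T := by
  unfold Fk
  refine (Finset.abs_sum_le_sum_abs _ _).trans ?_
  rw [← nsmul_eq_mul]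
  exact Finset.sum_le_card_nsmul _ _ _ fun s hs => abs_fk b T s m (hS s hs)

theorem AA_nonneg (S : Finset ℕ) : 0 ≤ AA S := by
  unfold AA
  exact Finset.sum_nonneg fun s _ => by positivity

theorem AA_le (S : Finset ℕ) (hS : ∀ s ∈ S, 1 ≤ s) : AA S ≤ S.card := by
  unfold AA
  have h : ∀ s ∈ S, (1 : ℝ) / s ≤ 1 := by
    intro s hs
    have : (1 : ℝ) ≤ s := by exact_mod_cast hS s hs
    rw [div_le_one (by linarith)]
    exact this
  refine (Finset.sum_le_card_nsmul _ _ _ h).trans ?_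
  simp

/-- the sum over the moduli is at most the sum over the values -/
theorem sum_inj (a : ℤ) (N L H k : ℕ) (hk : 1 ≤ k) (Q : Finset ℕ) (Pn : ℕ → Prop)
    [DecidablePred Pn] (h : ∀ q ∈ Q, LN N (a + k * q) ≠ 0 → Pn (a + k * q).toNat) :
    ∑ q ∈ Q, om L H q * LN N (a + k * q) ≤
      (1 / 2) * ∑ n ∈ (Icc 1 N).filter Pn, Λ n := by
  have h1 : ∑ q ∈ Q, om L H q * LN N (a + k * q) ≤ ∑ q ∈ Q, (1 / 2) * LN N (a + k * q) :=
    Finset.sum_le_sum fun q _ => mul_le_mul_of_nonneg_right (om_le L H q) (LN_nonneg _ _)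
  refine h1.trans ?_
  rw [← Finset.mul_sum]
  refine mul_le_mul_of_nonneg_left ?_ (by norm_num)
  have h2 : ∑ q ∈ Q, LN N (a + k * q) =
      ∑ q ∈ Q.filter (fun q : ℕ => LN N (a + k * q) ≠ 0), LN N (a + k * q) :=
    (Finset.sum_filter_ne_zero _).symm
  rw [h2]
  have h3 : ∑ q ∈ Q.filter (fun q : ℕ => LN N (a + k * q) ≠ 0), LN N (a + k * q) =
      ∑ q ∈ Q.filter (fun q : ℕ => LN N (a + k * q) ≠ 0), Λ (a + k * q).toNat :=
    Finset.sum_congr rfl fun q hq => (LN_ne (Finset.mem_filter.1 hq).2).2.2.2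
  rw [h3]
  have hinj : Set.InjOn (fun q : ℕ => (a + k * q).toNat)
      ((Q.filter (fun q : ℕ => LN N (a + k * q) ≠ 0) : Finset ℕ) : Set ℕ) := by
    intro q hq q' hq' hqq
    have e1 := (LN_ne (Finset.mem_filter.1 (Finset.mem_coe.1 hq)).2).1
    have e2 := (LN_ne (Finset.mem_filter.1 (Finset.mem_coe.1 hq')).2).1
    have e3 : (a + k * q).toNat = (a + k * q').toNat := hqq
    have e4 : a + k * q = a + k * q' := by omega
    have e5 : (k : ℤ) * q = k * q' := by linarith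
    have hk' : (k : ℤ) ≠ 0 := by exact_mod_cast (by omega : k ≠ 0)
    exact_mod_cast mul_left_cancel₀ hk' e5
  rw [← Finset.sum_image (f := fun n => Λ n) hinj]
  refine Finset.sum_le_sum_of_subset_of_nonneg ?_
    fun _ _ _ => ArithmeticFunction.vonMangoldt_nonneg
  intro n hn
  obtain ⟨q, hq, rfl⟩ := Finset.mem_image.1 hn
  obtain ⟨hq1, hq2⟩ := Finset.mem_filter.1 hq
  obtain ⟨e1, e2, e3, e4⟩ := LN_ne hq2
  refine Finset.mem_filter.2 ⟨Finset.mem_Icc.2 ⟨?_, ?_⟩, h q hq1 hq2⟩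
  · omega
  · omega

/-- prime powers of small primes -/
theorem small_sum (N P : ℕ) (Pn : ℕ → Prop) [DecidablePred Pn]
    (hPn : ∀ n, Pn n → ∃ p ∈ Icc 1 P, p.Prime ∧ p ∣ n) :
    ∑ n ∈ (Icc 1 N).filter Pn, Λ n ≤ P * Real.log N := by
  have hlog : 0 ≤ Real.log N := Real.log_natCast_nonneg N
  calc ∑ n ∈ (Icc 1 N).filter Pn, Λ n
      ≤ ∑ n ∈ (Icc 1 N).filter Pn,
          ∑ p ∈ (Icc 1 P).filter Nat.Prime, if p ∣ n then Λ n else 0 := by
        refine Finset.sum_le_sum fun n hn => ?_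
        obtain ⟨p, hp1, hp2, hpn⟩ := hPn n (Finset.mem_filter.1 hn).2
        have hpm : p ∈ (Icc 1 P).filter Nat.Prime := Finset.mem_filter.2 ⟨hp1, hp2⟩
        have h1 : Λ n = if p ∣ n then Λ n else 0 := by rw [if_pos hpn]
        refine h1.le.trans (Finset.single_le_sum (f := fun p => if p ∣ n then Λ n else 0)
          (fun p _ => ?_) hpm)
        split_ifs
        · exact ArithmeticFunction.vonMangoldt_nonneg
        · exact le_refl _
    _ = ∑ p ∈ (Icc 1 P).filter Nat.Prime,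
          ∑ n ∈ (Icc 1 N).filter Pn,
          if p ∣ n then Λ n else 0 := Finset.sum_comm
    _ ≤ ∑ p ∈ (Icc 1 P).filter Nat.Prime, Real.log N := by
        refine Finset.sum_le_sum fun p hp => ?_
        refine le_trans ?_ (prime_pow_sum N p (Finset.mem_filter.1 hp).2)
        rw [Finset.sum_filter (fun n => p ∣ n)]
        refine Finset.sum_le_sum_of_subset_of_nonneg (Finset.filter_subset _ _) fun n _ _ => ?_
        split_ifs
        · exact ArithmeticFunction.vonMangoldt_nonneg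
        · exact le_refl _
    _ = ((Icc 1 P).filter Nat.Prime).card * Real.log N := by rw [Finset.sum_const, nsmul_eq_mul]
    _ ≤ P * Real.log N := by
        refine mul_le_mul_of_nonneg_right ?_ hlog
        have h1 : ((Icc 1 P).filter Nat.Prime).card ≤ P := by
          refine (Finset.card_filter_le _ _).trans ?_
          simp
        exact_mod_cast h1

/-- the test function at a power of a large prime -/
theorem Fk_large {b : ℕ → ℝ} {k T P : ℕ} (hb : Wt b k T) (hT : 1 ≤ T) (hTP : T ≤ P)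
    (S : Finset ℕ) (hS : ∀ s ∈ S, s.Prime) (hP : ∀ s ∈ S, s ≤ P) {m : ℤ} (hm : 0 < m)
    (hn : ¬ ∃ p ∈ Icc 1 P, p.Prime ∧ p ∣ m.toNat) :
    Fk b T S m = - AA S := by
  have hmm : ((m.toNat : ℕ) : ℤ) = m := Int.toNat_of_nonneg hm.le
  have hlam : lam b T m = 1 := by
    unfold lam
    have hset : (Icc 1 T).filter (fun d : ℕ => (d : ℤ) ∣ m) = {1} := by
      ext d
      rw [Finset.mem_filter, Finset.mem_Icc, Finset.mem_singleton]
      constructor
      · rintro ⟨⟨h1, h2⟩, h3⟩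
        by_contra hd
        obtain ⟨p, hp, hpd⟩ := Nat.exists_prime_and_dvd hd
        refine hn ⟨p, Finset.mem_Icc.2 ⟨hp.one_lt.le, ?_⟩, hp, ?_⟩
        · exact (Nat.le_of_dvd (by omega) hpd).trans (h2.trans hTP)
        · rw [← hmm] at h3
          exact hpd.trans (Int.natCast_dvd_natCast.1 h3)
      · rintro rfl
        exact ⟨⟨le_refl _, hT⟩, by simp⟩
    rw [hset, Finset.sum_singleton, hb.one]
  unfold Fk AA
  rw [← Finset.sum_neg_distrib]
  refine Finset.sum_congr rfl fun s hs => ?_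
  unfold fk
  rw [hlam]
  have h1 : ¬ (s : ℤ) ∣ m := by
    intro h
    refine hn ⟨s, Finset.mem_Icc.2 ⟨(hS s hs).one_lt.le, hP s hs⟩, hS s hs, ?_⟩
    rw [← hmm] at h
    exact Int.natCast_dvd_natCast.1 h
  rw [if_neg h1]
  ring

theorem diag_one (a : ℤ) (N L H k T P : ℕ) (hk : 1 ≤ k) (hT : 1 ≤ T)
    (b : ℕ → ℝ) (hb : Wt b k T) (S : Finset ℕ) (hS : ∀ s ∈ S, s.Prime) (hP : ∀ s ∈ S, s ≤ P)
    (hTP : T ≤ P) :
    |∑ q ∈ Mo L H, om L H q * LN N (a + k * q) * Fk b T S (a + k * q) +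
        AA S * ∑ q ∈ Mo L H, om L H q * LN N (a + k * q)| ≤
      S.card * (T : ℝ) ^ 3 * (P * Real.log N) := by
  classical
  have hS1 : ∀ s ∈ S, 1 ≤ s := fun s hs => (hS s hs).one_lt.le
  have hT' : (1 : ℝ) ≤ T := by exact_mod_cast hT
  have hT3 : (1 : ℝ) ≤ (T : ℝ) ^ 3 := one_le_pow₀ hT'
  have hlog : 0 ≤ Real.log N := Real.log_natCast_nonneg N
  have hc0 : (0 : ℝ) ≤ S.card := Nat.cast_nonneg _
  have hbd : ∀ m : ℤ, |Fk b T S m + AA S| ≤ 2 * (S.card * (T : ℝ) ^ 3) := by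
    intro m
    have e1 := abs_Fk b T S m hS1
    have e2 := AA_le S hS1
    have e3 := AA_nonneg S
    have e4 : (S.card : ℝ) * BB b T ≤ S.card * (T : ℝ) ^ 3 := mul_le_mul_of_nonneg_left hb.bb hc0
    have e5 : (S.card : ℝ) ≤ S.card * (T : ℝ) ^ 3 := le_mul_of_one_le_right hc0 hT3
    calc |Fk b T S m + AA S| ≤ |Fk b T S m| + |AA S| := abs_add_le _ _
      _ = |Fk b T S m| + AA S := by rw [abs_of_nonneg e3]
      _ ≤ 2 * (S.card * (T : ℝ) ^ 3) := by linarith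
  set Pn : ℕ → Prop := fun n => ∃ p ∈ Icc 1 P, p.Prime ∧ p ∣ n with hPn
  have hsum : ∑ q ∈ Mo L H, om L H q * LN N (a + k * q) * Fk b T S (a + k * q) +
        AA S * ∑ q ∈ Mo L H, om L H q * LN N (a + k * q) =
      ∑ q ∈ (Mo L H).filter (fun q : ℕ => Pn (a + k * q).toNat),
        om L H q * LN N (a + k * q) * (Fk b T S (a + k * q) + AA S) := by
    rw [Finset.mul_sum, ← Finset.sum_add_distrib, Finset.sum_filter]
    refine Finset.sum_congr rfl fun q _ => ?_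
    split_ifs with h
    · ring
    · by_cases h0 : LN N (a + k * q) = 0
      · rw [h0]; ring
      · obtain ⟨e1, e2, e3, e4⟩ := LN_ne h0
        rw [Fk_large hb hT hTP S hS hP e1 h]
        ring
  rw [hsum]
  calc |∑ q ∈ (Mo L H).filter (fun q : ℕ => Pn (a + k * q).toNat),
        om L H q * LN N (a + k * q) * (Fk b T S (a + k * q) + AA S)|
      ≤ ∑ q ∈ (Mo L H).filter (fun q : ℕ => Pn (a + k * q).toNat),
        |om L H q * LN N (a + k * q) * (Fk b T S (a + k * q) + AA S)| :=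
        Finset.abs_sum_le_sum_abs _ _
    _ ≤ ∑ q ∈ (Mo L H).filter (fun q : ℕ => Pn (a + k * q).toNat),
        om L H q * LN N (a + k * q) * (2 * (S.card * (T : ℝ) ^ 3)) := by
        refine Finset.sum_le_sum fun q _ => ?_
        rw [abs_mul, abs_of_nonneg (mul_nonneg (om_nonneg L H q) (LN_nonneg _ _))]
        exact mul_le_mul_of_nonneg_left (hbd _) (mul_nonneg (om_nonneg L H q) (LN_nonneg _ _))
    _ = (∑ q ∈ (Mo L H).filter (fun q : ℕ => Pn (a + k * q).toNat),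
        om L H q * LN N (a + k * q)) * (2 * (S.card * (T : ℝ) ^ 3)) := by
        rw [Finset.sum_mul]
    _ ≤ ((1 / 2) * ∑ n ∈ (Icc 1 N).filter Pn, Λ n) * (2 * (S.card * (T : ℝ) ^ 3)) := by
        refine mul_le_mul_of_nonneg_right ?_ (by positivity)
        exact sum_inj a N L H k hk _ Pn fun q hq _ => (Finset.mem_filter.1 hq).2
    _ ≤ ((1 / 2) * (P * Real.log N)) * (2 * (S.card * (T : ℝ) ^ 3)) := by
        refine mul_le_mul_of_nonneg_right ?_ (by positivity)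
        refine mul_le_mul_of_nonneg_left ?_ (by norm_num)
        exact small_sum N P Pn fun n hn => hn
    _ = S.card * (T : ℝ) ^ 3 * (P * Real.log N) := by ring

end Dgt

set_option linter.unusedVariables false in
theorem diag_term (a : ℤ) (ha : a ≠ 0) (N L H K T P : ℕ) (hN : 2 ≤ N) (hH : 1 ≤ H) (hT : 1 ≤ T)
    (b : ℕ → ℕ → ℝ) (hb : ∀ k ∈ Icc 1 K, Wt (b k) k T) (S : Finset ℕ)
    (hS : ∀ s ∈ S, s.Prime ∧ T < s ∧ K * a.natAbs < s) (hP : ∀ s ∈ S, s ≤ P) (hTP : T ≤ P) :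
    |∑ k ∈ Icc 1 K, ∑ q ∈ Mo L H, om L H q * LN N (a + k * q) * Fk (b k) T S (a + k * q) +
        AA S * ∑ k ∈ Icc 1 K, ∑ q ∈ Mo L H, om L H q * LN N (a + k * q)| ≤
      3 * K * P * (T : ℝ) ^ 3 * (1 + S.card) * Real.log N := by
  have hlog : 0 ≤ Real.log N := Real.log_natCast_nonneg N
  rw [Finset.mul_sum, ← Finset.sum_add_distrib]
  refine (Finset.abs_sum_le_sum_abs _ _).trans ?_
  have h1 : ∀ k ∈ Icc 1 K, |∑ q ∈ Mo L H, om L H q * LN N (a + k * q) * Fk (b k) T S (a + k * q) +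
        AA S * ∑ q ∈ Mo L H, om L H q * LN N (a + k * q)| ≤
      S.card * (T : ℝ) ^ 3 * (P * Real.log N) := fun k hk =>
    Dgt.diag_one a N L H k T P (Finset.mem_Icc.1 hk).1 hT (b k) (hb k hk) S
      (fun s hs => (hS s hs).1) hP hTP
  refine (Finset.sum_le_card_nsmul _ _ _ h1).trans ?_
  rw [Nat.card_Icc, nsmul_eq_mul, Nat.add_sub_cancel]
  have h2 : 0 ≤ (K : ℝ) * P * (T : ℝ) ^ 3 * Real.log N := by positivity
  have h3 : 0 ≤ (K : ℝ) * P * (T : ℝ) ^ 3 * Real.log N * S.card := by positivity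
  nlinarith [h2, h3]

set_option linter.unusedVariables false in
theorem ncop_term (a : ℤ) (ha : a ≠ 0) (N L H K T : ℕ) (hN : 2 ≤ N) (hH : 1 ≤ H) (hT : 1 ≤ T)
    (b : ℕ → ℕ → ℝ) (hb : ∀ k ∈ Icc 1 K, Wt (b k) k T) (S : Finset ℕ)
    (hS : ∀ s ∈ S, s.Prime ∧ T < s ∧ K * a.natAbs < s) :
    |∑ q ∈ Mo L H \ Ma a L H, om L H q * cq b T K S a q * ∑ k ∈ Icc 1 K, LN N (a + k * q)| ≤
      2 * (K : ℝ) ^ 2 * (T : ℝ) ^ 3 * (1 + S.card) * Nat.log 2 a.natAbs * Real.log N := by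
  classical
  have hlog : 0 ≤ Real.log N := Real.log_natCast_nonneg N
  have hS1 : ∀ s ∈ S, 1 ≤ s := fun s hs => (hS s hs).1.one_lt.le
  have hT' : (1 : ℝ) ≤ T := by exact_mod_cast hT
  have hc0 : (0 : ℝ) ≤ S.card := Nat.cast_nonneg _
  have ha1 : 1 ≤ a.natAbs := Int.natAbs_pos.2 ha
  have hcq : ∀ q, |cq b T K S a q| ≤ K * (S.card * (T : ℝ) ^ 3) := by
    intro q
    unfold cq
    refine (Finset.abs_sum_le_sum_abs _ _).trans ?_
    have h1 : ∀ k ∈ Icc 1 K, |Fk (b k) T S (a + k * q)| ≤ S.card * (T : ℝ) ^ 3 := fun k hk =>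
      (Dgt.abs_Fk (b k) T S _ hS1).trans (mul_le_mul_of_nonneg_left (hb k hk).bb hc0)
    refine (Finset.sum_le_card_nsmul _ _ _ h1).trans ?_
    rw [Nat.card_Icc, nsmul_eq_mul, Nat.add_sub_cancel]
  set C : ℝ := K * (S.card * (T : ℝ) ^ 3) with hC
  have hC0 : 0 ≤ C := by positivity
  have hk1 : ∀ k ∈ Icc 1 K, ∑ q ∈ Mo L H \ Ma a L H, om L H q * LN N (a + k * q) ≤
      (1 / 2) * (Nat.log 2 a.natAbs * Real.log N) := by
    intro k hk
    have h1 := Dgt.sum_inj a N L H k (Finset.mem_Icc.1 hk).1 (Mo L H \ Ma a L H)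
      (fun n => ¬ n.Coprime a.natAbs) (by
        intro q hq hL
        obtain ⟨e1, e2, e3, e4⟩ := Dgt.LN_ne hL
        have hq1 : q ∈ Mo L H := (Finset.mem_sdiff.1 hq).1
        have hq2 : ¬ q.Coprime a.natAbs := fun h =>
          (Finset.mem_sdiff.1 hq).2 (Finset.mem_filter.2 ⟨hq1, h⟩)
        obtain ⟨p, hp, hpq, hpa⟩ := Nat.Prime.not_coprime_iff_dvd.1 hq2
        refine Nat.Prime.not_coprime_iff_dvd.2 ⟨p, hp, ?_, hpa⟩
        have h2 : (p : ℤ) ∣ a := Int.natCast_dvd.2 hpa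
        have h3 : (p : ℤ) ∣ (k : ℤ) * q :=
          Dvd.dvd.mul_left (Int.natCast_dvd_natCast.2 hpq) _
        have h4 : (p : ℤ) ∣ (((a + k * q).toNat : ℕ) : ℤ) := by
          rw [Int.toNat_of_nonneg e1.le]
          exact dvd_add h2 h3
        exact Int.natCast_dvd_natCast.1 h4)
    refine h1.trans (mul_le_mul_of_nonneg_left ?_ (by norm_num))
    exact noncoprime_sum N a.natAbs ha1
  have hnn : ∀ q k, 0 ≤ om L H q * LN N (a + k * q) := fun q k =>
    mul_nonneg (Dgt.om_nonneg L H q) (Dgt.LN_nonneg _ _)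
  calc |∑ q ∈ Mo L H \ Ma a L H, om L H q * cq b T K S a q * ∑ k ∈ Icc 1 K, LN N (a + k * q)|
      ≤ ∑ q ∈ Mo L H \ Ma a L H,
        |om L H q * cq b T K S a q * ∑ k ∈ Icc 1 K, LN N (a + k * q)| :=
        Finset.abs_sum_le_sum_abs _ _
    _ ≤ ∑ q ∈ Mo L H \ Ma a L H, C * ∑ k ∈ Icc 1 K, om L H q * LN N (a + k * q) := by
        refine Finset.sum_le_sum fun q _ => ?_
        have e1 : 0 ≤ ∑ k ∈ Icc 1 K, LN N (a + k * q) :=
          Finset.sum_nonneg fun k _ => Dgt.LN_nonneg _ _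
        rw [abs_mul, abs_mul, abs_of_nonneg (Dgt.om_nonneg L H q), abs_of_nonneg e1,
          ← Finset.mul_sum]
        have e2 := hcq q
        calc om L H q * |cq b T K S a q| * ∑ k ∈ Icc 1 K, LN N (a + k * q)
            ≤ om L H q * C * ∑ k ∈ Icc 1 K, LN N (a + k * q) := by
              refine mul_le_mul_of_nonneg_right ?_ e1
              exact mul_le_mul_of_nonneg_left e2 (Dgt.om_nonneg L H q)
          _ = C * (om L H q * ∑ k ∈ Icc 1 K, LN N (a + k * q)) := by ring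
    _ = C * ∑ k ∈ Icc 1 K, ∑ q ∈ Mo L H \ Ma a L H, om L H q * LN N (a + k * q) := by
        rw [← Finset.mul_sum, Finset.sum_comm]
    _ ≤ C * ∑ k ∈ Icc 1 K, (1 / 2) * (Nat.log 2 a.natAbs * Real.log N) := by
        exact mul_le_mul_of_nonneg_left (Finset.sum_le_sum hk1) hC0
    _ = C * (K * ((1 / 2) * (Nat.log 2 a.natAbs * Real.log N))) := by
        rw [Finset.sum_const, Nat.card_Icc, nsmul_eq_mul, Nat.add_sub_cancel]
    _ ≤ 2 * (K : ℝ) ^ 2 * (T : ℝ) ^ 3 * (1 + S.card) * Nat.log 2 a.natAbs * Real.log N := by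
        rw [hC]
        have h2 : 0 ≤ (K : ℝ) ^ 2 * (T : ℝ) ^ 3 * (Nat.log 2 a.natAbs) * Real.log N := by positivity
        have h3 : 0 ≤ (K : ℝ) ^ 2 * (T : ℝ) ^ 3 * (Nat.log 2 a.natAbs) * Real.log N * S.card := by
          positivity
        nlinarith [h2, h3]

end

end Pool.Agent.M848.FC
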