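import Pool.Agent.Lib.MP_848d44_nt.F.Base
import Pool.Agent.Lib.MP_848d44_nt.Cls
import Pool.Agent.Lib.MP_848d44_nt.Tent

/-!
# MP_848d44_nt, project F, module OMC: class sums of the weight, mass
-/

set_option autoImplicit false

namespace Pool.Agent.M848.FC

open Finset
open scoped ArithmeticFunction ComplexConjugate

noncomputable section

namespace OmcAux

theorem om_eq (L H q : ℕ) : om L H q = tent H ((q : ℤ) - L) := rfl

/-- Reindexing of the sum over the moduli. -/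
theorem reindex (L H : ℕ) (P : ℤ → Prop) [DecidablePred P] :
    ∑ q ∈ (Mo L H).filter (fun q : ℕ => P ((q : ℤ) - L)), om L H q =
      ∑ m ∈ (Icc (1 : ℤ) H).filter (fun m => P m), tent H m := by
  symm
  have hinj : Set.InjOn (fun m : ℤ => (m + L).toNat)
      (((Icc (1 : ℤ) H).filter (fun m => P m) : Finset ℤ) : Set ℤ) := by
    intro m hm m' hm' h
    have h1 := (mem_Icc.1 (mem_filter.1 (mem_coe.1 hm)).1).1
    have h2 := (mem_Icc.1 (mem_filter.1 (mem_coe.1 hm')).1).1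
    simp only at h
    omega
  have hval : ∑ m ∈ (Icc (1 : ℤ) H).filter (fun m => P m), tent H m =
      ∑ q ∈ ((Icc (1 : ℤ) H).filter (fun m => P m)).image (fun m : ℤ => (m + L).toNat),
        om L H q := by
    rw [sum_image hinj]
    refine sum_congr rfl fun m hm => ?_
    have h1 := (mem_Icc.1 (mem_filter.1 hm).1).1
    rw [om_eq]
    congr 1
    have : (((m + L).toNat : ℕ) : ℤ) = m + L := Int.toNat_of_nonneg (by omega)
    rw [this]
    ring
  rw [hval]
  refine sum_subset ?_ ?_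
  · intro q hq
    rw [mem_image] at hq
    obtain ⟨m, hm, rfl⟩ := hq
    rw [mem_filter, mem_Icc] at hm
    obtain ⟨⟨h1, h2⟩, h3⟩ := hm
    have h4 : (((m + L).toNat : ℕ) : ℤ) = m + L := Int.toNat_of_nonneg (by omega)
    rw [mem_filter, Mo, mem_Icc]
    refine ⟨⟨by omega, by omega⟩, ?_⟩
    rw [h4, add_sub_cancel_right]
    exact h3
  · intro q hq hq'
    rw [mem_filter, Mo, mem_Icc] at hq
    obtain ⟨⟨h1, h2⟩, h3⟩ := hq
    rw [om_eq]
    apply tent_zero
    by_contra hcon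
    push Not at hcon
    apply hq'
    rw [mem_image]
    refine ⟨(q : ℤ) - L, ?_, by simp⟩
    rw [mem_filter, mem_Icc]
    exact ⟨⟨by omega, by omega⟩, h3⟩

theorem Wm_eq (L H : ℕ) : Wm L H = ∑ m ∈ Icc (1 : ℤ) H, tent H m := by
  have h := reindex L H (fun _ => True)
  simpa [Wm] using h

end OmcAux

/-- F6 -/
theorem om_class (L H : ℕ) (hH : 1 ≤ H) (D : ℕ) (hD : 1 ≤ D) (r : ℤ) :
    |∑ q ∈ (Mo L H).filter (fun q : ℕ => (D : ℤ) ∣ (q : ℤ) - r), om L H q - Wm L H / D| ≤ 3 := by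
  have h1 := class_sum H hH (tent H) (tent_nonneg H)
    (fun m => (tent_le H m).trans (by norm_num)) (fun m hm => tent_zero H m hm) (tent_lip H)
    D hD (r - L)
  have h2 := OmcAux.reindex L H (fun m : ℤ => (D : ℤ) ∣ m - (r - L))
  have h3 : (Mo L H).filter (fun q : ℕ => (D : ℤ) ∣ ((q : ℤ) - L) - (r - L)) =
      (Mo L H).filter (fun q : ℕ => (D : ℤ) ∣ (q : ℤ) - r) := by
    refine filter_congr fun q _ => ?_
    rw [sub_sub_sub_cancel_right]
  rw [h3] at h2
  rw [h2, OmcAux.Wm_eq]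
  rw [div_eq_mul_one_div, mul_comm _ (1 / (D : ℝ))]
  exact h1

theorem Wm_le (L H : ℕ) : Wm L H ≤ H := by
  rw [OmcAux.Wm_eq]
  calc ∑ m ∈ Icc (1 : ℤ) H, tent H m ≤ ∑ _m ∈ Icc (1 : ℤ) H, (1 : ℝ) :=
        sum_le_sum fun m _ => (tent_le H m).trans (by norm_num)
    _ = H := by simp

end

end Pool.Agent.M848.FC
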