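import Pool.Agent.Lib.MP_848d44_nt.F.Base
import Pool.Agent.Lib.MP_848d44_nt.F.Omc
import Pool.Agent.Lib.MP_848d44_nt.Shf

/-!
# Energy of the test coefficients (module ENE)
-/

set_option autoImplicit false

namespace Pool.Agent.M848.FC

open Finset
open scoped ArithmeticFunction ComplexConjugate

noncomputable section

namespace EneAux

open Pool.Agent.M848.ShfAux

/-- sum of the weight over a set of moduli -/
def TO (L H : ℕ) (P : ℕ → Prop) : ℝ := ∑ q ∈ Mo L H, om L H q * ind (P q)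

theorem TO_congr (L H : ℕ) (P Q : ℕ → Prop) (h : ∀ q, P q ↔ Q q) : TO L H P = TO L H Q := by
  unfold TO
  refine sum_congr rfl fun m _ => ?_
  rw [show P m = Q m from propext (h m)]

theorem TO_false (L H : ℕ) (P : ℕ → Prop) (h : ∀ q, ¬ P q) : TO L H P = 0 := by
  unfold TO
  refine sum_eq_zero fun m _ => ?_
  unfold ind
  rw [if_neg (h m), mul_zero]

theorem TO_cls {L H : ℕ} (hH : 1 ≤ H) (P : ℕ → Prop) {D : ℕ} (hD : 1 ≤ D) (r : ℤ)
    (h : ∀ q : ℕ, P q ↔ (D : ℤ) ∣ (q : ℤ) - r) : |TO L H P - Wm L H / D| ≤ 3 := by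
  have e : TO L H P =
      ∑ q ∈ (Mo L H).filter (fun q : ℕ => (D : ℤ) ∣ (q : ℤ) - r), om L H q := by
    rw [TO_congr L H P _ h]
    unfold TO
    rw [sum_filter]
    refine sum_congr rfl fun m _ => ?_
    unfold ind
    by_cases hm : (D : ℤ) ∣ (m : ℤ) - r
    · simp [hm]
    · simp [hm]
  rw [e]
  exact om_class L H hH D hD r

theorem om_nonneg (L H q : ℕ) : 0 ≤ om L H q := by
  unfold om
  exact tent_nonneg _ _

theorem Wm_nonneg (L H : ℕ) : 0 ≤ Wm L H := sum_nonneg fun q _ => om_nonneg L H q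

/-- the sum for fixed `k, k', s, s', d, e` -/
def XO (a : ℤ) (L H k k' s s' d e : ℕ) : ℝ :=
  ∑ q ∈ Mo L H, om L H q * ((ind ((s : ℤ) ∣ a + k * q) - 1 / s) *
    (ind ((s' : ℤ) ∣ a + k' * q) - 1 / s') *
    (ind ((d : ℤ) ∣ a + k * q) * ind ((e : ℤ) ∣ a + k' * q)))

theorem XO_eq (a : ℤ) (L H k k' s s' d e : ℕ) : XO a L H k k' s s' d e =
    TO L H (fun q => (s : ℤ) ∣ a + k * q ∧ (s' : ℤ) ∣ a + k' * q ∧ (d : ℤ) ∣ a + k * q ∧
      (e : ℤ) ∣ a + k' * q)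
    - 1 / s' * TO L H (fun q => (s : ℤ) ∣ a + k * q ∧ (d : ℤ) ∣ a + k * q ∧
      (e : ℤ) ∣ a + k' * q)
    - 1 / s * TO L H (fun q => (s' : ℤ) ∣ a + k' * q ∧ (d : ℤ) ∣ a + k * q ∧
      (e : ℤ) ∣ a + k' * q)
    + 1 / (s * s') * TO L H (fun q => (d : ℤ) ∣ a + k * q ∧ (e : ℤ) ∣ a + k' * q) := by
  unfold XO TO
  rw [mul_sum, mul_sum, mul_sum, ← sum_sub_distrib, ← sum_sub_distrib, ← sum_add_distrib]
  refine sum_congr rfl fun m _ => ?_
  simp only [← ind_mul]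
  ring

/-- the class of `q` given by one condition -/
theorem cls1 {s k : ℕ} (h : s.Coprime k) (a : ℤ) :
    ∃ r : ℤ, ∀ q : ℤ, (s : ℤ) ∣ a + k * q ↔ (s : ℤ) ∣ q - r := by
  have hc : IsCoprime (s : ℤ) (k : ℤ) := Nat.isCoprime_iff_coprime.2 h
  obtain ⟨u, w, huw⟩ := hc
  refine ⟨-(a * w), fun q => ?_⟩
  have e1 : a + k * q = k * (q - -(a * w)) + s * (a * u) := by
    have : w * k = 1 - u * s := by linarith
    linear_combination (-a) * this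
  rw [e1, dvd_add_left (dvd_mul_right _ _)]
  constructor
  · intro h2
    exact (Nat.isCoprime_iff_coprime.2 h).dvd_of_dvd_mul_left h2
  · intro h2
    exact h2.mul_left _

/-- two conditions -/
theorem lcls {d e k k' : ℕ} (a : ℤ) (hd : d.Coprime k) (he : e.Coprime k') (q₀ : ℤ)
    (h1 : (d : ℤ) ∣ a + k * q₀) (h2 : (e : ℤ) ∣ a + k' * q₀) (q : ℤ) :
    ((d : ℤ) ∣ a + k * q ∧ (e : ℤ) ∣ a + k' * q) ↔ ((Nat.lcm d e : ℕ) : ℤ) ∣ q - q₀ := by
  have e1 : (d : ℤ) ∣ a + k * q ↔ (d : ℤ) ∣ q - q₀ := by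
    have : a + k * q = (a + k * q₀) + k * (q - q₀) := by ring
    rw [this, dvd_add_right h1]
    exact ⟨fun h => (Nat.isCoprime_iff_coprime.2 hd).dvd_of_dvd_mul_left h,
      fun h => h.mul_left _⟩
  have e2 : (e : ℤ) ∣ a + k' * q ↔ (e : ℤ) ∣ q - q₀ := by
    have : a + k' * q = (a + k' * q₀) + k' * (q - q₀) := by ring
    rw [this, dvd_add_right h2]
    exact ⟨fun h => (Nat.isCoprime_iff_coprime.2 he).dvd_of_dvd_mul_left h,
      fun h => h.mul_left _⟩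
  rw [e1, e2]
  constructor
  · rintro ⟨h3, h4⟩
    rw [← Int.natAbs_dvd_natAbs, Int.natAbs_natCast]
    exact Nat.lcm_dvd (Int.natAbs_dvd_natAbs.2 h3) (Int.natAbs_dvd_natAbs.2 h4)
  · intro h3
    exact ⟨(Int.natCast_dvd_natCast.2 (Nat.dvd_lcm_left d e)).trans h3,
      (Int.natCast_dvd_natCast.2 (Nat.dvd_lcm_right d e)).trans h3⟩

theorem XO_zero (a : ℤ) (L H k k' s s' d e : ℕ)
    (hno : ¬ ∃ q₀ : ℤ, (d : ℤ) ∣ a + k * q₀ ∧ (e : ℤ) ∣ a + k' * q₀) :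
    XO a L H k k' s s' d e = 0 := by
  have hno' : ∀ q : ℕ, ¬ ((d : ℤ) ∣ a + k * q ∧ (e : ℤ) ∣ a + k' * q) :=
    fun q hq => hno ⟨q, hq⟩
  rw [XO_eq, TO_false _ _ _ fun m hm => hno' m ⟨hm.2.2.1, hm.2.2.2⟩,
      TO_false _ _ _ fun m hm => hno' m hm.2, TO_false _ _ _ fun m hm => hno' m hm.2,
      TO_false _ _ _ fun m hm => hno' m hm]
  ring

/-- distinct primes -/
theorem b1 (a : ℤ) {L H : ℕ} (hH : 1 ≤ H) {k k' s s' T d e : ℕ} (hs : s.Prime)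
    (hs' : s'.Prime) (hT : T < s) (hT' : T < s') (hd : d ∈ Icc 1 T) (he : e ∈ Icc 1 T)
    (hsk : s.Coprime k) (hsk' : s'.Coprime k') (hdk : d.Coprime k) (hek : e.Coprime k')
    (hss : s ≠ s') : |XO a L H k k' s s' d e| ≤ 12 := by
  have hs2 : (2 : ℝ) ≤ s := by exact_mod_cast hs.two_le
  have hs2' : (2 : ℝ) ≤ s' := by exact_mod_cast hs'.two_le
  by_cases hsol : ∃ q₀ : ℤ, (d : ℤ) ∣ a + k * q₀ ∧ (e : ℤ) ∣ a + k' * q₀
  swap
  · rw [XO_zero a L H k k' s s' d e hsol]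
    norm_num
  obtain ⟨q₀, h1, h2⟩ := hsol
  set D := Nat.lcm d e with hD
  have hD1 : 1 ≤ D := by
    rw [mem_Icc] at hd he
    exact Nat.lcm_pos (by omega) (by omega)
  have hDr : (1 : ℝ) ≤ D := by exact_mod_cast hD1
  have hcl := lcls a hdk hek q₀ h1 h2
  rw [← hD] at hcl
  have c1 : s.Coprime D := cop hs hT hd he
  have c2 : s'.Coprime D := cop hs' hT' hd he
  obtain ⟨r, hr⟩ := cls1 hsk a
  obtain ⟨r', hr'⟩ := cls1 hsk' a
  have t4 := TO_cls hH (L := L) (fun q => (d : ℤ) ∣ a + k * q ∧ (e : ℤ) ∣ a + k' * q) hD1 q₀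
    (fun q => hcl q)
  obtain ⟨m₁, hm₁⟩ := combine c1 r q₀
  have t2 := TO_cls hH (L := L) (fun q => (s : ℤ) ∣ a + k * q ∧ (d : ℤ) ∣ a + k * q ∧
      (e : ℤ) ∣ a + k' * q)
    (D := s * D) (Nat.mul_pos hs.pos hD1) m₁ (fun m => by
      rw [← hm₁ m, hcl m, hr m])
  obtain ⟨m₂, hm₂⟩ := combine c2 r' q₀
  have t3 := TO_cls hH (L := L) (fun q => (s' : ℤ) ∣ a + k' * q ∧ (d : ℤ) ∣ a + k * q ∧
      (e : ℤ) ∣ a + k' * q)
    (D := s' * D) (Nat.mul_pos hs'.pos hD1) m₂ (fun m => by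
      rw [← hm₂ m, hcl m, hr' m])
  have c3 : s.Coprime (s' * D) := Nat.Coprime.mul_right ((Nat.coprime_primes hs hs').2 hss) c1
  obtain ⟨m₃, hm₃⟩ := combine c3 r m₂
  have t1 := TO_cls hH (L := L)
    (fun q => (s : ℤ) ∣ a + k * q ∧ (s' : ℤ) ∣ a + k' * q ∧ (d : ℤ) ∣ a + k * q ∧
      (e : ℤ) ∣ a + k' * q)
    (D := s * (s' * D)) (Nat.mul_pos hs.pos (Nat.mul_pos hs'.pos hD1)) m₃ (fun m => by
      rw [← hm₃ m, ← hm₂ m, hcl m, hr m, hr' m])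
  rw [XO_eq]
  set T1 := TO L H (fun q => (s : ℤ) ∣ a + k * q ∧ (s' : ℤ) ∣ a + k' * q ∧
    (d : ℤ) ∣ a + k * q ∧ (e : ℤ) ∣ a + k' * q)
  set T2 := TO L H (fun q => (s : ℤ) ∣ a + k * q ∧ (d : ℤ) ∣ a + k * q ∧
      (e : ℤ) ∣ a + k' * q)
  set T3 := TO L H (fun q => (s' : ℤ) ∣ a + k' * q ∧ (d : ℤ) ∣ a + k * q ∧
      (e : ℤ) ∣ a + k' * q)
  set T4 := TO L H (fun q => (d : ℤ) ∣ a + k * q ∧ (e : ℤ) ∣ a + k' * q)
  have i1 : (0 : ℝ) < 1 / s := by positivity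
  have i2 : (0 : ℝ) < 1 / s' := by positivity
  have j1 : 1 / (s : ℝ) ≤ 1 / 2 := one_div_le_one_div_of_le (by norm_num) hs2
  have j2 : 1 / (s' : ℝ) ≤ 1 / 2 := one_div_le_one_div_of_le (by norm_num) hs2'
  set α := 1 / (s : ℝ) with hα
  set β := 1 / (s' : ℝ) with hβ
  set u := Wm L H / D with hu
  have e0 : Wm L H / ((s * (s' * D) : ℕ) : ℝ) = α * β * u := by
    rw [hα, hβ, hu]; push_cast; field_simp
  have e1 : 1 / ((s : ℝ) * s') = α * β := by rw [hα, hβ]; field_simp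
  have e2 : Wm L H / ((s * D : ℕ) : ℝ) = α * u := by
    rw [hα, hu]; push_cast; field_simp
  have e3 : Wm L H / ((s' * D : ℕ) : ℝ) = β * u := by
    rw [hβ, hu]; push_cast; field_simp
  rw [e0] at t1
  rw [e2] at t2
  rw [e3] at t3
  rw [e1]
  obtain ⟨p1, q1⟩ := abs_le.1 t1
  obtain ⟨p2, q2⟩ := abs_le.1 t2
  obtain ⟨p3, q3⟩ := abs_le.1 t3
  obtain ⟨p4, q4⟩ := abs_le.1 t4
  have k1 : β * T2 ≤ β * (α * u + 3) := mul_le_mul_of_nonneg_left (by linarith) i2.le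
  have k2 : β * (α * u - 3) ≤ β * T2 := mul_le_mul_of_nonneg_left (by linarith) i2.le
  have k3 : α * T3 ≤ α * (β * u + 3) := mul_le_mul_of_nonneg_left (by linarith) i1.le
  have k4 : α * (β * u - 3) ≤ α * T3 := mul_le_mul_of_nonneg_left (by linarith) i1.le
  have k5 : α * β * T4 ≤ α * β * (u + 3) :=
    mul_le_mul_of_nonneg_left (by linarith) (by positivity)
  have k6 : α * β * (u - 3) ≤ α * β * T4 :=
    mul_le_mul_of_nonneg_left (by linarith) (by positivity)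
  have k7 : α * β ≤ 1 / 2 * (1 / 2) := mul_le_mul j1 j2 i2.le (by norm_num)
  rw [abs_le]
  constructor
  · nlinarith
  · nlinarith

/-- the same prime, incompatible conditions -/
theorem b2 (a : ℤ) {L H : ℕ} (hH : 1 ≤ H) {k k' s T d e : ℕ} (hs : s.Prime)
    (hT : T < s) (hd : d ∈ Icc 1 T) (he : e ∈ Icc 1 T)
    (hsk : s.Coprime k) (hsk' : s.Coprime k') (hdk : d.Coprime k) (hek : e.Coprime k')
    (hno : ∀ q : ℤ, ¬ ((s : ℤ) ∣ a + k * q ∧ (s : ℤ) ∣ a + k' * q)) :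
    |XO a L H k k' s s d e| ≤ H / (s : ℝ) ^ 2 + 12 := by
  have hs2 : (2 : ℝ) ≤ s := by exact_mod_cast hs.two_le
  by_cases hsol : ∃ q₀ : ℤ, (d : ℤ) ∣ a + k * q₀ ∧ (e : ℤ) ∣ a + k' * q₀
  swap
  · rw [XO_zero a L H k k' s s d e hsol, abs_zero]
    positivity
  obtain ⟨q₀, h1, h2⟩ := hsol
  set D := Nat.lcm d e with hD
  have hD1 : 1 ≤ D := by
    rw [mem_Icc] at hd he
    exact Nat.lcm_pos (by omega) (by omega)
  have hDr : (1 : ℝ) ≤ D := by exact_mod_cast hD1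
  have hcl := lcls a hdk hek q₀ h1 h2
  rw [← hD] at hcl
  have c1 : s.Coprime D := cop hs hT hd he
  obtain ⟨r, hr⟩ := cls1 hsk a
  obtain ⟨r', hr'⟩ := cls1 hsk' a
  have t4 := TO_cls hH (L := L) (fun q => (d : ℤ) ∣ a + k * q ∧ (e : ℤ) ∣ a + k' * q) hD1 q₀
    (fun q => hcl q)
  obtain ⟨m₁, hm₁⟩ := combine c1 r q₀
  have t2 := TO_cls hH (L := L) (fun q => (s : ℤ) ∣ a + k * q ∧ (d : ℤ) ∣ a + k * q ∧
      (e : ℤ) ∣ a + k' * q)
    (D := s * D) (Nat.mul_pos hs.pos hD1) m₁ (fun m => by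
      rw [← hm₁ m, hcl m, hr m])
  obtain ⟨m₂, hm₂⟩ := combine c1 r' q₀
  have t3 := TO_cls hH (L := L) (fun q => (s : ℤ) ∣ a + k' * q ∧ (d : ℤ) ∣ a + k * q ∧
      (e : ℤ) ∣ a + k' * q)
    (D := s * D) (Nat.mul_pos hs.pos hD1) m₂ (fun m => by
      rw [← hm₂ m, hcl m, hr' m])
  have hw := Wm_le L H
  have hw0 := Wm_nonneg L H
  rw [XO_eq]
  have z1 : TO L H (fun q => (s : ℤ) ∣ a + k * q ∧ (s : ℤ) ∣ a + k' * q ∧
    (d : ℤ) ∣ a + k * q ∧ (e : ℤ) ∣ a + k' * q) = 0 :=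
    TO_false _ _ _ fun m hm => hno m ⟨hm.1, hm.2.1⟩
  rw [z1]
  set T2 := TO L H (fun q => (s : ℤ) ∣ a + k * q ∧ (d : ℤ) ∣ a + k * q ∧
      (e : ℤ) ∣ a + k' * q)
  set T3 := TO L H (fun q => (s : ℤ) ∣ a + k' * q ∧ (d : ℤ) ∣ a + k * q ∧
      (e : ℤ) ∣ a + k' * q)
  set T4 := TO L H (fun q => (d : ℤ) ∣ a + k * q ∧ (e : ℤ) ∣ a + k' * q)
  have i1 : (0 : ℝ) < 1 / s := by positivity
  have j1 : 1 / (s : ℝ) ≤ 1 / 2 := one_div_le_one_div_of_le (by norm_num) hs2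
  set α := 1 / (s : ℝ) with hα
  set u := Wm L H / D with hu
  have e1 : 1 / ((s : ℝ) * s) = α * α := by rw [hα]; field_simp
  have e2 : Wm L H / ((s * D : ℕ) : ℝ) = α * u := by
    rw [hα, hu]; push_cast; field_simp
  have e3 : (H : ℝ) / (s : ℝ) ^ 2 = α * α * H := by rw [hα]; field_simp
  rw [e2] at t2 t3
  rw [e1, e3]
  have hu0 : 0 ≤ u := by positivity
  have huH : u ≤ H := (div_le_self hw0 hDr).trans hw
  obtain ⟨p2, q2⟩ := abs_le.1 t2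
  obtain ⟨p3, q3⟩ := abs_le.1 t3
  obtain ⟨p4, q4⟩ := abs_le.1 t4
  have k1 : 0 ≤ α * (α * u) := by positivity
  have k2 : α * α * u ≤ α * α * H := mul_le_mul_of_nonneg_left huH (by positivity)
  have k3 : α * α ≤ α * (1 / 2) := mul_le_mul_of_nonneg_left j1 i1.le
  rw [abs_le]
  constructor
  · have l2 : α * T2 ≤ α * (α * u + 3) := mul_le_mul_of_nonneg_left (by linarith) i1.le
    have l3 : α * T3 ≤ α * (α * u + 3) := mul_le_mul_of_nonneg_left (by linarith) i1.le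
    have l4 : α * α * (u - 3) ≤ α * α * T4 :=
      mul_le_mul_of_nonneg_left (by linarith) (by positivity)
    nlinarith
  · have l2 : α * (α * u - 3) ≤ α * T2 := mul_le_mul_of_nonneg_left (by linarith) i1.le
    have l3 : α * (α * u - 3) ≤ α * T3 := mul_le_mul_of_nonneg_left (by linarith) i1.le
    have l4 : α * α * T4 ≤ α * α * (u + 3) :=
      mul_le_mul_of_nonneg_left (by linarith) (by positivity)
    nlinarith

/-- the same prime, the same `k` -/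
theorem b3 (a : ℤ) {L H : ℕ} (hH : 1 ≤ H) {k s T d e : ℕ} (hs : s.Prime)
    (hT : T < s) (hd : d ∈ Icc 1 T) (he : e ∈ Icc 1 T)
    (hsk : s.Coprime k) (hdk : d.Coprime k) (hek : e.Coprime k) :
    |XO a L H k k s s d e - (1 / s - 1 / (s * s)) * (Wm L H / (Nat.lcm d e : ℝ))| ≤ 12 := by
  have hs2 : (2 : ℝ) ≤ s := by exact_mod_cast hs.two_le
  set D := Nat.lcm d e with hD
  have hD1 : 1 ≤ D := by
    rw [mem_Icc] at hd he
    exact Nat.lcm_pos (by omega) (by omega)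
  have hDr : (1 : ℝ) ≤ D := by exact_mod_cast hD1
  have hDk : D.Coprime k := by
    rw [hD]
    exact Nat.Coprime.coprime_dvd_left (Nat.lcm_dvd_mul d e) (Nat.Coprime.mul_left hdk hek)
  obtain ⟨q₀, hq₀⟩ := cls1 hDk a
  have h0 : (D : ℤ) ∣ a + k * q₀ := (hq₀ q₀).2 (by simp)
  have h1 : (d : ℤ) ∣ a + k * q₀ :=
    (Int.natCast_dvd_natCast.2 (Nat.dvd_lcm_left d e)).trans h0
  have h2 : (e : ℤ) ∣ a + k * q₀ :=
    (Int.natCast_dvd_natCast.2 (Nat.dvd_lcm_right d e)).trans h0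
  have hcl := lcls a hdk hek q₀ h1 h2
  rw [← hD] at hcl
  have c1 : s.Coprime D := cop hs hT hd he
  obtain ⟨r, hr⟩ := cls1 hsk a
  have t4 := TO_cls hH (L := L) (fun q => (d : ℤ) ∣ a + k * q ∧ (e : ℤ) ∣ a + k * q) hD1 q₀
    (fun q => hcl q)
  obtain ⟨m₁, hm₁⟩ := combine c1 r q₀
  have t2 := TO_cls hH (L := L) (fun q => (s : ℤ) ∣ a + k * q ∧ (d : ℤ) ∣ a + k * q ∧
      (e : ℤ) ∣ a + k * q)
    (D := s * D) (Nat.mul_pos hs.pos hD1) m₁ (fun m => by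
      rw [← hm₁ m, hcl m, hr m])
  rw [XO_eq]
  have z1 : TO L H (fun q => (s : ℤ) ∣ a + k * q ∧ (s : ℤ) ∣ a + k * q ∧
    (d : ℤ) ∣ a + k * q ∧ (e : ℤ) ∣ a + k * q) = TO L H (fun q => (s : ℤ) ∣ a + k * q ∧
      (d : ℤ) ∣ a + k * q ∧ (e : ℤ) ∣ a + k * q) :=
    TO_congr _ _ _ _ fun m => ⟨fun h => h.2, fun h => ⟨h.1, h⟩⟩
  rw [z1]
  set T2 := TO L H (fun q => (s : ℤ) ∣ a + k * q ∧ (d : ℤ) ∣ a + k * q ∧
      (e : ℤ) ∣ a + k * q)
  set T4 := TO L H (fun q => (d : ℤ) ∣ a + k * q ∧ (e : ℤ) ∣ a + k * q)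
  have i1 : (0 : ℝ) < 1 / s := by positivity
  have j1 : 1 / (s : ℝ) ≤ 1 / 2 := one_div_le_one_div_of_le (by norm_num) hs2
  set α := 1 / (s : ℝ) with hα
  set u := Wm L H / D with hu
  have e1 : 1 / ((s : ℝ) * s) = α * α := by rw [hα]; field_simp
  have e2 : Wm L H / ((s * D : ℕ) : ℝ) = α * u := by
    rw [hα, hu]; push_cast; field_simp
  rw [e2] at t2
  rw [e1]
  obtain ⟨p2, q2⟩ := abs_le.1 t2
  obtain ⟨p4, q4⟩ := abs_le.1 t4
  have k3 : α * α ≤ α * (1 / 2) := mul_le_mul_of_nonneg_left j1 i1.le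
  have k0 : 0 ≤ 1 - 2 * α := by linarith
  have l2 : (1 - 2 * α) * (α * u - 3) ≤ (1 - 2 * α) * T2 :=
    mul_le_mul_of_nonneg_left (by linarith) k0
  have l3 : (1 - 2 * α) * T2 ≤ (1 - 2 * α) * (α * u + 3) :=
    mul_le_mul_of_nonneg_left (by linarith) k0
  have l4 : α * α * T4 ≤ α * α * (u + 3) :=
    mul_le_mul_of_nonneg_left (by linarith) (by positivity)
  have l5 : α * α * (u - 3) ≤ α * α * T4 :=
    mul_le_mul_of_nonneg_left (by linarith) (by positivity)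
  rw [abs_le]
  constructor
  · nlinarith
  · nlinarith

theorem fk_eq (b : ℕ → ℝ) (T s : ℕ) (m : ℤ) :
    fk b T s m = ∑ d ∈ Icc 1 T, b d * ((ind ((s : ℤ) ∣ m) - 1 / s) * ind ((d : ℤ) ∣ m)) := by
  have e : (if (s : ℤ) ∣ m then (1 : ℝ) else 0) = ind ((s : ℤ) ∣ m) := by
    unfold ind
    by_cases h : (s : ℤ) ∣ m <;> simp [h]
  unfold fk
  rw [e, lam_eq, mul_sum]
  refine sum_congr rfl fun d _ => by ring

/-- the expanded square -/
theorem main_eq (a : ℤ) (L H K T : ℕ) (b : ℕ → ℕ → ℝ) (S : Finset ℕ) :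
    ∑ q ∈ Mo L H, om L H q * cq b T K S a q ^ 2 =
      ∑ k ∈ Icc 1 K, ∑ k' ∈ Icc 1 K, ∑ s ∈ S, ∑ s' ∈ S, ∑ d ∈ Icc 1 T, ∑ e ∈ Icc 1 T,
        b k d * b k' e * XO a L H k k' s s' d e := by
  have h1 : ∀ q ∈ Mo L H, om L H q * cq b T K S a q ^ 2 =
      ∑ k ∈ Icc 1 K, ∑ k' ∈ Icc 1 K, ∑ s ∈ S, ∑ s' ∈ S, ∑ d ∈ Icc 1 T, ∑ e ∈ Icc 1 T,
        b k d * b k' e * (om L H q * ((ind ((s : ℤ) ∣ a + k * q) - 1 / s) *
    (ind ((s' : ℤ) ∣ a + k' * q) - 1 / s') *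
    (ind ((d : ℤ) ∣ a + k * q) * ind ((e : ℤ) ∣ a + k' * q)))) := by
    intro q _
    unfold cq
    rw [sq, sum_mul_sum, mul_sum]
    refine sum_congr rfl fun k _ => ?_
    rw [mul_sum]
    refine sum_congr rfl fun k' _ => ?_
    unfold Fk
    rw [sum_mul_sum, mul_sum]
    refine sum_congr rfl fun s _ => ?_
    rw [mul_sum]
    refine sum_congr rfl fun s' _ => ?_
    rw [fk_eq, fk_eq, sum_mul_sum, mul_sum]
    refine sum_congr rfl fun d _ => ?_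
    rw [mul_sum]
    refine sum_congr rfl fun e _ => ?_
    ring
  rw [sum_congr rfl h1, sum_comm]
  refine sum_congr rfl fun k _ => ?_
  rw [sum_comm]
  refine sum_congr rfl fun k' _ => ?_
  rw [sum_comm]
  refine sum_congr rfl fun s _ => ?_
  rw [sum_comm]
  refine sum_congr rfl fun s' _ => ?_
  rw [sum_comm]
  refine sum_congr rfl fun d _ => ?_
  rw [sum_comm]
  refine sum_congr rfl fun e _ => ?_
  unfold XO
  rw [mul_sum]

theorem BB_nonneg (b : ℕ → ℝ) (T : ℕ) : 0 ≤ BB b T := sum_nonneg fun _ _ => abs_nonneg _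

/-- sum over `d, e` from a uniform bound -/
theorem sum_de (b b' : ℕ → ℝ) (T : ℕ) (hb : BB b T ≤ (T : ℝ) ^ 3)
    (hb' : BB b' T ≤ (T : ℝ) ^ 3) (X : ℕ → ℕ → ℝ) (c : ℝ) (hc : 0 ≤ c)
    (h : ∀ d ∈ Icc 1 T, ∀ e ∈ Icc 1 T, b d ≠ 0 → b' e ≠ 0 → |X d e| ≤ c) :
    |∑ d ∈ Icc 1 T, ∑ e ∈ Icc 1 T, b d * b' e * X d e| ≤ (T : ℝ) ^ 6 * c := by
  have h1 : |∑ d ∈ Icc 1 T, ∑ e ∈ Icc 1 T, b d * b' e * X d e| ≤
      ∑ d ∈ Icc 1 T, ∑ e ∈ Icc 1 T, |b d| * |b' e| * c := by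
    refine (abs_sum_le_sum_abs _ _).trans (sum_le_sum fun d hd => ?_)
    refine (abs_sum_le_sum_abs _ _).trans (sum_le_sum fun e he => ?_)
    rw [abs_mul, abs_mul]
    by_cases h0 : b d = 0
    · simp [h0]
    by_cases h0' : b' e = 0
    · simp [h0']
    exact mul_le_mul_of_nonneg_left (h d hd e he h0 h0') (by positivity)
  have h2 : ∑ d ∈ Icc 1 T, ∑ e ∈ Icc 1 T, |b d| * |b' e| * c = BB b T * BB b' T * c := by
    unfold BB
    rw [sum_mul_sum, sum_mul]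
    refine sum_congr rfl fun d _ => ?_
    rw [sum_mul]
  have h3 : BB b T * BB b' T ≤ (T : ℝ) ^ 3 * (T : ℝ) ^ 3 :=
    mul_le_mul hb hb' (BB_nonneg _ _) (by positivity)
  calc |∑ d ∈ Icc 1 T, ∑ e ∈ Icc 1 T, b d * b' e * X d e| ≤ BB b T * BB b' T * c := by
        rw [← h2]; exact h1
    _ ≤ (T : ℝ) ^ 3 * (T : ℝ) ^ 3 * c := mul_le_mul_of_nonneg_right h3 hc
    _ = (T : ℝ) ^ 6 * c := by ring

end EneAux

open EneAux in
open Pool.Agent.M848.ShfAux in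
/-- F7. Energy of the test coefficients. -/
theorem energy (a : ℤ) (ha : a ≠ 0) (L H K T : ℕ) (hH : 1 ≤ H) (hT : 1 ≤ T)
    (b : ℕ → ℕ → ℝ) (hb : ∀ k ∈ Icc 1 K, Wt (b k) k T) (S : Finset ℕ)
    (hS : ∀ s ∈ S, s.Prime ∧ T < s ∧ K * a.natAbs < s) :
    ∑ q ∈ Mo L H, om L H q * cq b T K S a q ^ 2 ≤
      H * AA S * ∑ k ∈ Icc 1 K, QQ (b k) T +
      (K : ℝ) ^ 2 * (T : ℝ) ^ 6 * (H * ∑ s ∈ S, 1 / (s : ℝ) ^ 2 + 24 * (S.card : ℝ) ^ 2) := by
  have ha1 : 1 ≤ a.natAbs := Int.natAbs_pos.2 ha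
  have hsk : ∀ s ∈ S, ∀ k ∈ Icc 1 K, s.Coprime k := by
    intro s hs k hk
    rw [mem_Icc] at hk
    rw [(hS s hs).1.coprime_iff_not_dvd]
    intro h
    have h1 := Nat.le_of_dvd hk.1 h
    have h2 := (hS s hs).2.2
    have h3 : K * 1 ≤ K * a.natAbs := Nat.mul_le_mul_left K ha1
    omega
  have hno : ∀ s ∈ S, ∀ k ∈ Icc 1 K, ∀ k' ∈ Icc 1 K, k ≠ k' → ∀ q : ℤ,
      ¬ ((s : ℤ) ∣ a + k * q ∧ (s : ℤ) ∣ a + k' * q) := by
    rintro s hs k hk k' hk' hne q ⟨h1, h2⟩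
    rw [mem_Icc] at hk hk'
    have h3 : (s : ℤ) ∣ a * ((k' : ℤ) - k) := by
      have : a * ((k' : ℤ) - k) = k' * (a + k * q) - k * (a + k' * q) := by ring
      rw [this]
      exact dvd_sub (h1.mul_left _) (h2.mul_left _)
    have h4 : a * ((k' : ℤ) - k) ≠ 0 := by
      refine mul_ne_zero ha ?_
      intro h
      apply hne
      omega
    have h5 : s ≤ (a * ((k' : ℤ) - k)).natAbs := by
      have := Int.natAbs_dvd_natAbs.2 h3
      rw [Int.natAbs_natCast] at this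
      exact Nat.le_of_dvd (Int.natAbs_pos.2 h4) this
    rw [Int.natAbs_mul] at h5
    have h6 : ((k' : ℤ) - k).natAbs ≤ K := by omega
    have h7 : a.natAbs * ((k' : ℤ) - k).natAbs ≤ a.natAbs * K := Nat.mul_le_mul_left _ h6
    have h8 := (hS s hs).2.2
    rw [mul_comm] at h8
    omega
  have hT6 : (0 : ℝ) ≤ (T : ℝ) ^ 6 := by positivity
  have hH0 : (0 : ℝ) ≤ H := Nat.cast_nonneg _
  have key : ∀ k ∈ Icc 1 K, ∀ k' ∈ Icc 1 K, ∀ s ∈ S, ∀ s' ∈ S,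
      ∑ d ∈ Icc 1 T, ∑ e ∈ Icc 1 T, b k d * b k' e * XO a L H k k' s s' d e ≤
        (T : ℝ) ^ 6 * (12 + if s = s' then (H : ℝ) / (s : ℝ) ^ 2 else 0) +
        (if k = k' then (if s = s' then (H : ℝ) * QQ (b k) T * (1 / s) else 0) else 0) := by
    intro k hk k' hk' s hs s' hs'
    have hbk := hb k hk
    have hbk' := hb k' hk'
    have hQ := hbk.qq
    have hs0 : (0 : ℝ) < s := by exact_mod_cast (hS s hs).1.pos
    by_cases hss : s = s'
    · subst hss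
      rw [if_pos rfl, if_pos rfl]
      by_cases hkk : k = k'
      · subst hkk
        rw [if_pos rfl]
        have h1 := sum_de (b k) (b k) T hbk.bb hbk.bb
          (fun d e => XO a L H k k s s d e -
            (1 / s - 1 / (s * s)) * (Wm L H / (Nat.lcm d e : ℝ))) 12 (by norm_num)
          (fun d hd e he h0 h0' => b3 a hH (hS s hs).1 (hS s hs).2.1 hd he (hsk s hs k hk)
            (hbk.cop d hd h0) (hbk.cop e he h0'))
        have h2 : ∑ d ∈ Icc 1 T, ∑ e ∈ Icc 1 T, b k d * b k e *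
            (XO a L H k k s s d e - (1 / s - 1 / (s * s)) * (Wm L H / (Nat.lcm d e : ℝ))) =
            ∑ d ∈ Icc 1 T, ∑ e ∈ Icc 1 T, b k d * b k e * XO a L H k k s s d e -
            (1 / s - 1 / (s * s)) * Wm L H * QQ (b k) T := by
          unfold QQ
          rw [mul_sum, ← sum_sub_distrib]
          refine sum_congr rfl fun d _ => ?_
          rw [mul_sum, ← sum_sub_distrib]
          refine sum_congr rfl fun e _ => ?_
          ring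
        rw [h2] at h1
        have h3 := (abs_le.1 h1).2
        have h4 : (1 / (s : ℝ) - 1 / (s * s)) * Wm L H * QQ (b k) T ≤
            (H : ℝ) * QQ (b k) T * (1 / s) := by
          have h5 : (1 / (s : ℝ) - 1 / (s * s)) * Wm L H ≤ 1 / s * H := by
            have h6 : (0 : ℝ) ≤ 1 / (s * s) := by positivity
            have h7 : (0 : ℝ) ≤ 1 / s := by positivity
            calc (1 / (s : ℝ) - 1 / (s * s)) * Wm L H ≤ 1 / s * Wm L H :=
                  mul_le_mul_of_nonneg_right (by linarith) (Wm_nonneg L H)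
              _ ≤ 1 / s * H := mul_le_mul_of_nonneg_left (Wm_le L H) h7
          calc (1 / (s : ℝ) - 1 / (s * s)) * Wm L H * QQ (b k) T ≤ 1 / s * H * QQ (b k) T :=
                mul_le_mul_of_nonneg_right h5 hQ
            _ = _ := by ring
        have h8 : (T : ℝ) ^ 6 * 12 ≤ (T : ℝ) ^ 6 * (12 + (H : ℝ) / (s : ℝ) ^ 2) := by
          refine mul_le_mul_of_nonneg_left ?_ hT6
          have : (0 : ℝ) ≤ (H : ℝ) / (s : ℝ) ^ 2 := by positivity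
          linarith
        linarith
      · rw [if_neg hkk, add_zero]
        have h1 := sum_de (b k) (b k') T hbk.bb hbk'.bb
          (fun d e => XO a L H k k' s s d e) (12 + (H : ℝ) / (s : ℝ) ^ 2) (by positivity)
          (fun d hd e he h0 h0' => by
            have := b2 a hH (L := L) (hS s hs).1 (hS s hs).2.1 hd he (hsk s hs k hk)
              (hsk s hs k' hk') (hbk.cop d hd h0) (hbk'.cop e he h0')
              (hno s hs k hk k' hk' hkk)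
            linarith)
        exact (abs_le.1 h1).2
    · rw [if_neg hss, if_neg hss, ite_self, add_zero, add_zero]
      have h1 := sum_de (b k) (b k') T hbk.bb hbk'.bb
          (fun d e => XO a L H k k' s s' d e) 12 (by norm_num)
          (fun d hd e he h0 h0' => b1 a hH (hS s hs).1 (hS s' hs').1 (hS s hs).2.1
            (hS s' hs').2.1 hd he (hsk s hs k hk) (hsk s' hs' k' hk')
            (hbk.cop d hd h0) (hbk'.cop e he h0') hss)
      exact (abs_le.1 h1).2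
  rw [EneAux.main_eq]
  have h1 : ∑ k ∈ Icc 1 K, ∑ k' ∈ Icc 1 K, ∑ s ∈ S, ∑ s' ∈ S, ∑ d ∈ Icc 1 T,
      ∑ e ∈ Icc 1 T, b k d * b k' e * XO a L H k k' s s' d e ≤
      ∑ k ∈ Icc 1 K, ∑ k' ∈ Icc 1 K, ∑ s ∈ S, ∑ s' ∈ S,
        ((T : ℝ) ^ 6 * (12 + if s = s' then (H : ℝ) / (s : ℝ) ^ 2 else 0) +
        (if k = k' then (if s = s' then (H : ℝ) * QQ (b k) T * (1 / s) else 0) else 0)) :=
    sum_le_sum fun k hk => sum_le_sum fun k' hk' => sum_le_sum fun s hs =>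
      sum_le_sum fun s' hs' => key k hk k' hk' s hs s' hs'
  refine h1.trans ?_
  have h2 : ∀ k ∈ Icc 1 K, ∀ k' ∈ Icc 1 K, ∑ s ∈ S, ∑ s' ∈ S,
        ((T : ℝ) ^ 6 * (12 + if s = s' then (H : ℝ) / (s : ℝ) ^ 2 else 0) +
        (if k = k' then (if s = s' then (H : ℝ) * QQ (b k) T * (1 / s) else 0) else 0)) =
      (T : ℝ) ^ 6 * (12 * (S.card : ℝ) ^ 2 + H * ∑ s ∈ S, 1 / (s : ℝ) ^ 2) +
        if k = k' then H * AA S * QQ (b k) T else 0 := by
    intro k _ k' _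
    have h3 : ∀ s ∈ S, ∑ s' ∈ S,
        ((T : ℝ) ^ 6 * (12 + if s = s' then (H : ℝ) / (s : ℝ) ^ 2 else 0) +
        (if k = k' then (if s = s' then (H : ℝ) * QQ (b k) T * (1 / s) else 0) else 0)) =
        (T : ℝ) ^ 6 * (12 * S.card + (H : ℝ) / (s : ℝ) ^ 2) +
        if k = k' then (H : ℝ) * QQ (b k) T * (1 / s) else 0 := by
      intro s hs
      rw [sum_add_distrib, ← mul_sum, sum_add_distrib, sum_const, sum_ite_eq, if_pos hs,
        nsmul_eq_mul]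
      by_cases hkk : k = k'
      · simp only [if_pos hkk]
        rw [sum_ite_eq, if_pos hs]
        ring
      · simp only [if_neg hkk, sum_const_zero]
        ring
    rw [sum_congr rfl h3, sum_add_distrib, ← mul_sum, sum_add_distrib, sum_const,
      nsmul_eq_mul]
    have h4 : ∑ s ∈ S, (H : ℝ) / (s : ℝ) ^ 2 = H * ∑ s ∈ S, 1 / (s : ℝ) ^ 2 := by
      rw [mul_sum]
      refine sum_congr rfl fun s _ => ?_
      ring
    rw [h4]
    by_cases hkk : k = k'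
    · simp only [if_pos hkk]
      unfold AA
      have h9 : ∑ s ∈ S, (H : ℝ) * QQ (b k) T * (1 / (s : ℝ)) =
          H * QQ (b k) T * ∑ s ∈ S, 1 / (s : ℝ) := by rw [mul_sum]
      rw [h9]
      ring
    · simp only [if_neg hkk, sum_const_zero]
      ring
  rw [sum_congr rfl fun k hk => sum_congr rfl fun k' hk' => h2 k hk k' hk']
  have h5 : ∀ k ∈ Icc 1 K, ∑ k' ∈ Icc 1 K,
      ((T : ℝ) ^ 6 * (12 * (S.card : ℝ) ^ 2 + H * ∑ s ∈ S, 1 / (s : ℝ) ^ 2) +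
        if k = k' then H * AA S * QQ (b k) T else 0) =
      K * ((T : ℝ) ^ 6 * (12 * (S.card : ℝ) ^ 2 + H * ∑ s ∈ S, 1 / (s : ℝ) ^ 2)) +
        H * AA S * QQ (b k) T := by
    intro k hk
    rw [sum_add_distrib, sum_const, sum_ite_eq, if_pos hk, Nat.card_Icc, nsmul_eq_mul]
    simp
  rw [sum_congr rfl h5, sum_add_distrib, sum_const, ← mul_sum, Nat.card_Icc, nsmul_eq_mul]
  have h6 : (((K + 1 - 1 : ℕ) : ℝ)) = K := by simp
  rw [h6]
  have h7 : 0 ≤ (K : ℝ) ^ 2 * (T : ℝ) ^ 6 * (12 * (S.card : ℝ) ^ 2) := by positivity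
  nlinarith

end

end Pool.Agent.M848.FC
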