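import Mathlib

/-!
# MP_848d44_nt, fixed residue class: Gauss sums of primitive characters
-/

set_option autoImplicit false

namespace Pool.Agent.M848.FC.GP

open Finset

variable {q : ℕ} [NeZero q]

theorem prim_inv {χ : DirichletCharacter ℂ q} (h : χ.IsPrimitive) : χ⁻¹.IsPrimitive := by
  rw [DirichletCharacter.isPrimitive_def] at h ⊢
  rw [DirichletCharacter.conductor_inv, h]

/-- expansion of a primitive character in additive characters -/
theorem expand {χ : DirichletCharacter ℂ q} (h : χ.IsPrimitive) (x : ZMod q) :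
    χ x * gaussSum χ⁻¹ (ZMod.stdAddChar : AddChar (ZMod q) ℂ) =
      ∑ b : ZMod q, χ⁻¹ b * (ZMod.stdAddChar (b * x) : ℂ) := by
  have h1 := gaussSum_mulShift_of_isPrimitive (ZMod.stdAddChar : AddChar (ZMod q) ℂ)
    (prim_inv h) x
  rw [inv_inv] at h1
  rw [← h1, gaussSum]
  refine Finset.sum_congr rfl fun b _ => ?_
  rw [AddChar.mulShift_apply, mul_comm x b]

/-- the norm of the Gauss sum of a primitive character -/
theorem norm_sq {χ : DirichletCharacter ℂ q} (h : χ.IsPrimitive) :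
    ‖gaussSum χ (ZMod.stdAddChar : AddChar (ZMod q) ℂ)‖ ^ 2 = q := by
  classical
  set ψ : AddChar (ZMod q) ℂ := ZMod.stdAddChar with hψ
  have h1 : gaussSum χ⁻¹ ψ⁻¹ * gaussSum χ ψ = (q : ℂ) := by
    have e1 : ∀ b : ZMod q, χ⁻¹ b * ψ⁻¹ b * gaussSum χ ψ =
        ∑ a : ZMod q, χ a * ψ (b * (a - 1)) := by
      intro b
      have h2 := gaussSum_mulShift_of_isPrimitive ψ h b
      rw [mul_right_comm, ← h2, gaussSum, Finset.sum_mul]
      refine Finset.sum_congr rfl fun a _ => ?_
      rw [AddChar.mulShift_apply, AddChar.inv_apply, mul_assoc, ← AddChar.map_add_eq_mul]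
      congr 2
      ring
    have e2 : gaussSum χ⁻¹ ψ⁻¹ = ∑ b : ZMod q, χ⁻¹ b * ψ⁻¹ b := rfl
    rw [e2, Finset.sum_mul, Finset.sum_congr rfl (fun b _ => e1 b), Finset.sum_comm]
    have e3 : ∀ a : ZMod q, ∑ b : ZMod q, χ a * ψ (b * (a - 1)) =
        if a = 1 then (q : ℂ) else 0 := by
      intro a
      rw [← Finset.mul_sum, AddChar.sum_mulShift (a - 1) (ZMod.isPrimitive_stdAddChar q)]
      by_cases ha : a = 1
      · subst ha
        simp
      · rw [if_neg (sub_ne_zero.mpr ha), if_neg ha]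
        simp
    rw [Finset.sum_congr rfl (fun a _ => e3 a), Finset.sum_ite_eq' Finset.univ (1 : ZMod q),
      if_pos (Finset.mem_univ _)]
  rw [← star_gaussSum_eq] at h1
  have h3 := congrArg norm h1
  rw [norm_mul, norm_star] at h3
  rw [sq, h3]
  simp

theorem norm_eq {χ : DirichletCharacter ℂ q} (h : χ.IsPrimitive) :
    ‖gaussSum χ (ZMod.stdAddChar : AddChar (ZMod q) ℂ)‖ = Real.sqrt q := by
  rw [← norm_sq h, Real.sqrt_sq (norm_nonneg _)]

end Pool.Agent.M848.FC.GP
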