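import Pool.Agent.Lib.MP_848d44_nt.F.Base
import Pool.Agent.Lib.MP_848d44_nt.A.LSMul
import Pool.Agent.Lib.MP_848d44_nt.F.GaussP

/-!
# MP_848d44_nt, fixed residue class: the large sieve for primitive characters
-/

set_option autoImplicit false

namespace Pool.Agent.M848.FC

open Finset
open scoped ArithmeticFunction ComplexConjugate

noncomputable section

namespace LSP

open Classical in
/-- from additive to multiplicative characters -/
theorem gen {s : ℕ} [NeZero s] (V : Finset ℕ) (c : ℕ → ℂ) :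
    ∑ χ ∈ (univ : Finset (DirichletCharacter ℂ s)).filter (fun χ => χ.IsPrimitive),
        ‖∑ v ∈ V, c v * χ (v : ZMod s)‖ ^ 2 ≤
      ∑ b ∈ (univ : Finset (ZMod s)).filter (fun b => IsUnit b),
        ‖∑ v ∈ V, c v * (ZMod.stdAddChar (b * (v : ZMod s)) : ℂ)‖ ^ 2 := by
  have hs : (0 : ℝ) < s := by exact_mod_cast Nat.pos_of_ne_zero (NeZero.ne s)
  set ψ : AddChar (ZMod s) ℂ := ZMod.stdAddChar with hψ
  set S : ZMod s → ℂ := fun b => ∑ v ∈ V, c v * ψ (b * (v : ZMod s)) with hS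
  set U : Finset (ZMod s) := (univ : Finset (ZMod s)).filter (fun b => IsUnit b) with hU
  have h1 : ∀ χ ∈ (univ : Finset (DirichletCharacter ℂ s)).filter (fun χ => χ.IsPrimitive),
      (s : ℝ) * ‖∑ v ∈ V, c v * χ (v : ZMod s)‖ ^ 2 = ‖∑ b ∈ U, χ⁻¹ b * S b‖ ^ 2 := by
    intro χ hχ
    have hχ1 : χ.IsPrimitive := (Finset.mem_filter.1 hχ).2
    have e1 : (∑ v ∈ V, c v * χ (v : ZMod s)) * gaussSum χ⁻¹ ψ = ∑ b ∈ U, χ⁻¹ b * S b := by
      rw [Finset.sum_mul]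
      have e2 : ∀ v ∈ V, c v * χ (v : ZMod s) * gaussSum χ⁻¹ ψ =
          ∑ b : ZMod s, χ⁻¹ b * (c v * ψ (b * (v : ZMod s))) := by
        intro v _
        rw [mul_assoc, hψ, GP.expand hχ1, Finset.mul_sum]
        refine Finset.sum_congr rfl fun b _ => ?_
        ring
      rw [Finset.sum_congr rfl e2, Finset.sum_comm]
      rw [hU, Finset.sum_filter]
      refine Finset.sum_congr rfl fun b _ => ?_
      split_ifs with hb
      · rw [hS, Finset.mul_sum]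
      · apply Finset.sum_eq_zero
        intro v _
        rw [MulChar.map_nonunit χ⁻¹ hb, zero_mul]
    have e4 := congrArg (fun z : ℂ => ‖z‖ ^ 2) e1
    simp only [norm_mul, mul_pow] at e4
    rw [GP.norm_sq (GP.prim_inv hχ1)] at e4
    rw [← e4, mul_comm]
  -- orthogonality
  have h2 : ((∑ χ : DirichletCharacter ℂ s, ‖∑ b ∈ U, χ⁻¹ b * S b‖ ^ 2 : ℝ) : ℂ) =
      ((s.totient : ℝ) * ∑ b ∈ U, ‖S b‖ ^ 2 : ℝ) := by
    push_cast
    have e5 : ∀ χ : DirichletCharacter ℂ s,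
        ((‖∑ b ∈ U, χ⁻¹ b * S b‖ : ℝ) : ℂ) ^ 2 =
        ∑ b ∈ U, ∑ b' ∈ U, (S b * (starRingEnd ℂ) (S b')) * (χ b⁻¹ * χ b') := by
      intro χ
      have e6 : ((‖∑ b ∈ U, χ⁻¹ b * S b‖ : ℝ) : ℂ) ^ 2 =
          (∑ b ∈ U, χ⁻¹ b * S b) * (starRingEnd ℂ) (∑ b ∈ U, χ⁻¹ b * S b) := by
        rw [Complex.mul_conj, Complex.normSq_eq_norm_sq]
        push_cast
        rfl
      rw [e6, map_sum, Finset.sum_mul_sum]
      refine Finset.sum_congr rfl fun b hb => Finset.sum_congr rfl fun b' hb' => ?_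
      have hc : (starRingEnd ℂ) (χ⁻¹ b') = χ b' := by
        have := MulChar.star_apply' χ⁻¹ b'
        rw [inv_inv] at this
        exact this
      have hbu : IsUnit b := (Finset.mem_filter.1 hb).2
      have hi : χ⁻¹ b = χ b⁻¹ := by
        obtain ⟨u, rfl⟩ := hbu
        rw [MulChar.inv_apply, Ring.inverse_unit, ZMod.inv_coe_unit]
      rw [map_mul, hc, hi]
      ring
    simp_rw [e5]
    rw [Finset.sum_comm]
    rw [Finset.mul_sum]
    refine Finset.sum_congr rfl fun b hb => ?_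
    rw [Finset.sum_comm]
    have hbu : IsUnit b := (Finset.mem_filter.1 hb).2
    have e7 : ∀ b' ∈ U, ∑ χ : DirichletCharacter ℂ s,
        (S b * (starRingEnd ℂ) (S b')) * (χ b⁻¹ * χ b') =
        if b = b' then (S b * (starRingEnd ℂ) (S b')) * (s.totient : ℂ) else 0 := by
      intro b' _
      rw [← Finset.mul_sum, DirichletCharacter.sum_char_inv_mul_char_eq ℂ hbu b']
      split_ifs <;> simp
    rw [Finset.sum_congr rfl e7, Finset.sum_ite_eq, if_pos hb, Complex.mul_conj,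
      Complex.normSq_eq_norm_sq]
    push_cast
    ring
  have h3 : ∑ χ : DirichletCharacter ℂ s, ‖∑ b ∈ U, χ⁻¹ b * S b‖ ^ 2 =
      (s.totient : ℝ) * ∑ b ∈ U, ‖S b‖ ^ 2 := by
    exact_mod_cast h2
  have h4 : (s : ℝ) * ∑ χ ∈ (univ : Finset (DirichletCharacter ℂ s)).filter
        (fun χ => χ.IsPrimitive), ‖∑ v ∈ V, c v * χ (v : ZMod s)‖ ^ 2 ≤
      (s : ℝ) * ∑ b ∈ U, ‖S b‖ ^ 2 := by
    rw [Finset.mul_sum, Finset.sum_congr rfl h1]
    calc ∑ χ ∈ (univ : Finset (DirichletCharacter ℂ s)).filter (fun χ => χ.IsPrimitive),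
          ‖∑ b ∈ U, χ⁻¹ b * S b‖ ^ 2
        ≤ ∑ χ : DirichletCharacter ℂ s, ‖∑ b ∈ U, χ⁻¹ b * S b‖ ^ 2 := by
          apply Finset.sum_le_sum_of_subset_of_nonneg (Finset.filter_subset _ _)
          intro χ _ _
          positivity
      _ = (s.totient : ℝ) * ∑ b ∈ U, ‖S b‖ ^ 2 := h3
      _ ≤ (s : ℝ) * ∑ b ∈ U, ‖S b‖ ^ 2 := by
          apply mul_le_mul_of_nonneg_right
          · exact_mod_cast Nat.totient_le s
          · exact Finset.sum_nonneg fun b _ => by positivity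
  exact le_of_mul_le_mul_left h4 hs

/-- the pairs of a modulus `s ∈ (M, 2M]` and a reduced residue `0 ≤ b < s` -/
def prs (M : ℕ) : Finset (Σ _ : ℕ, ℕ) :=
  (Ioc M (2 * M)).sigma fun s => (range s).filter (fun b => b.Coprime s)

theorem mem_prs {M : ℕ} {p : Σ _ : ℕ, ℕ} (h : p ∈ prs M) :
    M < p.1 ∧ p.1 ≤ 2 * M ∧ p.2 < p.1 ∧ p.2.Coprime p.1 := by
  rw [prs, Finset.mem_sigma, Finset.mem_Ioc, Finset.mem_filter, Finset.mem_range] at h
  exact ⟨h.1.1, h.1.2, h.2.1, h.2.2⟩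

theorem prs_spaced {M : ℕ} (hM : 1 ≤ M) (p q : Σ _ : ℕ, ℕ) (hp : p ∈ prs M) (hq : q ∈ prs M)
    (hpq : p ≠ q) :
    1 / (4 * (M : ℝ) ^ 2) ≤ MP848.dni ((p.2 : ℝ) / p.1 - (q.2 : ℝ) / q.1) := by
  obtain ⟨s, b⟩ := p
  obtain ⟨s', b'⟩ := q
  obtain ⟨h1, h2, h3, h4⟩ := mem_prs hp
  obtain ⟨h1', h2', h3', h4'⟩ := mem_prs hq
  simp only at h1 h2 h3 h4 h1' h2' h3' h4' ⊢
  set n := round ((b : ℝ) / s - (b' : ℝ) / s') with hn
  have hs0 : (0 : ℝ) < s := by exact_mod_cast (by omega : 0 < s)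
  have hs0' : (0 : ℝ) < s' := by exact_mod_cast (by omega : 0 < s')
  have hM0 : (0 : ℝ) < M := by exact_mod_cast hM
  have e1 : (b : ℝ) / s - (b' : ℝ) / s' - n =
      (((b : ℤ) * s' - b' * s - n * (s * s') : ℤ) : ℝ) / (s * s') := by
    push_cast
    field_simp
  have hne : ((b : ℤ) * s' - b' * s - n * (s * s') : ℤ) ≠ 0 := by
    intro h0
    have hd : (s : ℤ) ∣ (b : ℤ) * s' := by
      refine ⟨b' + n * s', ?_⟩
      linear_combination h0
    have hd' : s ∣ b * s' := by exact_mod_cast hd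
    have hd2 : s ∣ s' := h4.symm.dvd_of_dvd_mul_left hd'
    have he : (s' : ℤ) ∣ (b' : ℤ) * s := by
      refine ⟨b - n * s, ?_⟩
      linear_combination -h0
    have he' : s' ∣ b' * s := by exact_mod_cast he
    have he2 : s' ∣ s := h4'.symm.dvd_of_dvd_mul_left he'
    have hss : s = s' := Nat.dvd_antisymm hd2 he2
    subst hss
    have h6 : (s : ℤ) * ((b : ℤ) - b' - n * s) = 0 := by linear_combination h0
    have hsz : (s : ℤ) ≠ 0 := by exact_mod_cast (by omega : s ≠ 0)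
    have h7 : (b : ℤ) - b' - n * s = 0 := by
      rcases mul_eq_zero.1 h6 with h8 | h8
      · exact absurd h8 hsz
      · exact h8
    have h9 : (s : ℤ) ∣ (b : ℤ) - b' := ⟨n, by linear_combination h7⟩
    have h10 : (b : ℤ) - b' = 0 := by
      apply Int.eq_zero_of_abs_lt_dvd h9
      rw [abs_lt]
      constructor <;> omega
    apply hpq
    have : b = b' := by omega
    rw [this]
  have habs : (1 : ℝ) ≤ |(((b : ℤ) * s' - b' * s - n * (s * s') : ℤ) : ℝ)| := by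
    rw [← Int.cast_abs]
    exact_mod_cast Int.one_le_abs hne
  have e2 : MP848.dni ((b : ℝ) / s - (b' : ℝ) / s') =
      |(((b : ℤ) * s' - b' * s - n * (s * s') : ℤ) : ℝ)| / (s * s') := by
    rw [MP848.dni, ← hn, e1, abs_div, abs_of_pos (mul_pos hs0 hs0')]
  rw [e2, div_le_div_iff₀ (by positivity) (by positivity), one_mul]
  have hs2 : (s : ℝ) ≤ 2 * M := by exact_mod_cast h2
  have hs2' : (s' : ℝ) ≤ 2 * M := by exact_mod_cast h2'
  calc (s : ℝ) * s' ≤ (2 * M) * (2 * M) := by gcongr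
    _ = 1 * (4 * (M : ℝ) ^ 2) := by ring
    _ ≤ |(((b : ℤ) * s' - b' * s - n * (s * s') : ℤ) : ℝ)| * (4 * (M : ℝ) ^ 2) := by gcongr

/-- additive large sieve for the fractions with denominators in `(M, 2M]` -/
theorem ls_prs {M : ℕ} (hM : 1 ≤ M) (c : ℕ → ℂ) (a T : ℕ) :
    ∑ s ∈ Ioc M (2 * M), ∑ b ∈ (range s).filter (fun b => b.Coprime s),
        ‖∑ v ∈ Ioc a (a + T), c v * MP848.ee (v * ((b : ℝ) / s))‖ ^ 2 ≤
      (T + 4 * (M : ℝ) ^ 2 * (1 + Real.log (4 * (M : ℝ) ^ 2))) * ∑ v ∈ Ioc a (a + T), ‖c v‖ ^ 2 := by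
  classical
  have hM0 : (1 : ℝ) ≤ M := by exact_mod_cast hM
  have h1 := MP848.add_large_sieve (ι := {p // p ∈ prs M}) (fun p => (p.1.2 : ℝ) / p.1.1)
    (1 / (4 * (M : ℝ) ^ 2)) (by positivity)
    (by rw [div_le_one (by positivity)]; nlinarith)
    (fun i j hij => prs_spaced hM i.1 j.1 i.2 j.2 (fun h => hij (Subtype.ext h))) c a T
  have e1 : ∑ i : {p // p ∈ prs M}, ‖∑ v ∈ Ioc a (a + T), c v *
      MP848.ee (v * ((i.1.2 : ℝ) / i.1.1))‖ ^ 2 =
      ∑ s ∈ Ioc M (2 * M), ∑ b ∈ (range s).filter (fun b => b.Coprime s),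
        ‖∑ v ∈ Ioc a (a + T), c v * MP848.ee (v * ((b : ℝ) / s))‖ ^ 2 := by
    rw [Finset.sum_coe_sort (prs M) (fun p : Σ _ : ℕ, ℕ =>
      ‖∑ v ∈ Ioc a (a + T), c v * MP848.ee (v * ((p.2 : ℝ) / p.1))‖ ^ 2), prs, Finset.sum_sigma]
  rw [e1] at h1
  simpa only [one_div, inv_inv] using h1

open Classical in
theorem pc_sum_eq {s : ℕ} [NeZero s] (g : (ℕ → ℂ) → ℝ) :
    ∑ χ ∈ pc s, g χ = ∑ χ ∈ (univ : Finset (DirichletCharacter ℂ s)).filter
      (fun χ => χ.IsPrimitive), g (fun n => χ (n : ZMod s)) := by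
  rw [pc, dif_neg (NeZero.ne s)]
  have hinj : Set.InjOn (fun (χ : DirichletCharacter ℂ s) (n : ℕ) => χ (n : ZMod s))
      ((univ : Finset (DirichletCharacter ℂ s)).filter (fun χ => χ.IsPrimitive) : Finset _) := by
    intro χ _ χ' _ h
    ext u
    have := congrFun h (u : ZMod s).val
    simpa using this
  convert Finset.sum_image (f := g) hinj using 2

end LSP

theorem ls_prim (M : ℕ) (hM : 1 ≤ M) (c : ℕ → ℂ) (a T : ℕ) :
    ∑ q ∈ Ioc M (2 * M), ∑ χ ∈ pc q, ‖∑ v ∈ Ioc a (a + T), c v * χ v‖ ^ 2 ≤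
      (1 + Real.log (4 * (M : ℝ) ^ 2)) * (4 * (M : ℝ) ^ 2 + T) *
        ∑ v ∈ Ioc a (a + T), ‖c v‖ ^ 2 := by
  classical
  have hM0 : (1 : ℝ) ≤ M := by exact_mod_cast hM
  have hl : 0 ≤ Real.log (4 * (M : ℝ) ^ 2) := Real.log_nonneg (by nlinarith)
  have h0 : (T + 4 * (M : ℝ) ^ 2 * (1 + Real.log (4 * (M : ℝ) ^ 2))) *
      ∑ v ∈ Ioc a (a + T), ‖c v‖ ^ 2 ≤
      (1 + Real.log (4 * (M : ℝ) ^ 2)) * (4 * (M : ℝ) ^ 2 + T) *
        ∑ v ∈ Ioc a (a + T), ‖c v‖ ^ 2 := by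
    apply mul_le_mul_of_nonneg_right _ (Finset.sum_nonneg fun v _ => by positivity)
    have hT : (0 : ℝ) ≤ T := Nat.cast_nonneg T
    nlinarith [mul_nonneg hl hT]
  refine le_trans (Finset.sum_le_sum fun s hs => ?_) ((LSP.ls_prs hM c a T).trans h0)
  rw [Finset.mem_Ioc] at hs
  have : NeZero s := ⟨by omega⟩
  rw [LSP.pc_sum_eq (fun χ => ‖∑ v ∈ Ioc a (a + T), c v * χ v‖ ^ 2)]
  have h1 := LSP.gen (s := s) (Ioc a (a + T)) c
  simp_rw [MP848.stdAddChar_eq_ee] at h1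
  refine le_trans (le_of_eq ?_) (h1.trans (le_of_eq ?_))
  · congr
  apply Finset.sum_bij (fun (b : ZMod s) _ => b.val)
  · intro b hb
    rw [Finset.mem_filter, Finset.mem_range]
    refine ⟨ZMod.val_lt b, ?_⟩
    have hu : IsUnit b := (Finset.mem_filter.1 hb).2
    obtain ⟨u, rfl⟩ := hu
    exact ZMod.val_coe_unit_coprime u
  · intro b _ b' _ h
    exact ZMod.val_injective s h
  · intro b hb
    rw [Finset.mem_filter, Finset.mem_range] at hb
    refine ⟨(b : ZMod s), ?_, ZMod.val_natCast_of_lt hb.1⟩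
    rw [Finset.mem_filter]
    exact ⟨Finset.mem_univ _, (ZMod.isUnit_iff_coprime b s).2 hb.2⟩
  · intro b _
    rfl

end

end Pool.Agent.M848.FC
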