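import Pool.Agent.Lib.MP_848d44_nt.F.Base
import Pool.Agent.Lib.MP_848d44_nt.A.PV
import Pool.Agent.Lib.MP_848d44_nt.F.GaussP

/-!
# MP_848d44_nt, fixed residue class: Polya-Vinogradov for primitive characters
-/

set_option autoImplicit false

namespace Pool.Agent.M848.FC

open Finset
open scoped ArithmeticFunction ComplexConjugate

noncomputable section

namespace GP

/-- Polya-Vinogradov for primitive characters, integer intervals -/
theorem pv {p : ℕ} [NeZero p] (hp2 : 2 ≤ p) {χ : DirichletCharacter ℂ p} (hχ : χ.IsPrimitive)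
    (u v : ℤ) :
    ‖∑ n ∈ Finset.Ioc u v, χ (n : ZMod p)‖ ≤ √p * (1 + Real.log p) := by
  have hp : (0 : ℝ) < p := by exact_mod_cast (by omega : 0 < p)
  set ψ : AddChar (ZMod p) ℂ := ZMod.stdAddChar with hψ
  have : Fact (1 < p) := ⟨hp2⟩
  have hsum : (∑ n ∈ Finset.Ioc u v, χ (n : ZMod p)) * gaussSum χ⁻¹ ψ
      = ∑ b : ZMod p, χ⁻¹ b * ∑ n ∈ Finset.Ioc u v, ψ (b * (n : ZMod p)) := by
    rw [Finset.sum_mul]
    simp_rw [hψ, expand hχ, Finset.mul_sum]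
    rw [Finset.sum_comm]
  have hbound : ‖(∑ n ∈ Finset.Ioc u v, χ (n : ZMod p)) * gaussSum χ⁻¹ ψ‖
      ≤ p * (1 + Real.log p) := by
    rw [hsum]
    refine (norm_sum_le _ _).trans ?_
    rw [← Finset.add_sum_erase _ _ (Finset.mem_univ (0 : ZMod p))]
    have h0 : ‖χ⁻¹ (0 : ZMod p) * ∑ n ∈ Finset.Ioc u v, ψ (0 * (n : ZMod p))‖ = 0 := by
      rw [MulChar.map_nonunit χ⁻¹ (by simp), zero_mul, norm_zero]
    rw [h0, zero_add]
    refine le_trans (Finset.sum_le_sum fun b hb => ?_) (MP848.sum_inv_valMinAbs_le hp2)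
    have hb0 : b ≠ 0 := (Finset.mem_erase.1 hb).1
    rw [norm_mul]
    have h1 : ‖χ⁻¹ b‖ ≤ 1 := DirichletCharacter.norm_le_one _ _
    calc ‖χ⁻¹ b‖ * ‖∑ n ∈ Finset.Ioc u v, ψ (b * (n : ZMod p))‖
        ≤ 1 * ‖∑ n ∈ Finset.Ioc u v, ψ (b * (n : ZMod p))‖ :=
          mul_le_mul_of_nonneg_right h1 (norm_nonneg _)
      _ ≤ _ := by rw [one_mul]; exact MP848.norm_geom_Ioc_le b hb0 u v
  rw [norm_mul, norm_eq (prim_inv hχ)] at hbound
  have hsq : (0 : ℝ) < √p := Real.sqrt_pos.2 hp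
  have hpp : √(p:ℝ) * √p = p := Real.mul_self_sqrt hp.le
  have : ‖∑ n ∈ Finset.Ioc u v, χ (n : ZMod p)‖ * √p ≤ (√p * (1 + Real.log p)) * √p := by
    calc _ ≤ _ := hbound
      _ = (√p * (1 + Real.log p)) * √p := by
        rw [mul_right_comm, hpp]
  exact le_of_mul_le_mul_right this hsq

/-- membership in `pc q` -/
theorem mem_pc {q : ℕ} [NeZero q] {χ : ℕ → ℂ} (h : χ ∈ pc q) :
    ∃ χ' : DirichletCharacter ℂ q, χ'.IsPrimitive ∧ χ = fun n : ℕ => χ' (n : ZMod q) := by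
  classical
  rw [pc, dif_neg (NeZero.ne q), Finset.mem_image] at h
  obtain ⟨χ', h1, h2⟩ := h
  rw [Finset.mem_filter] at h1
  exact ⟨χ', h1.2, h2.symm⟩

end GP

theorem pv_prim (q : ℕ) (hq : 2 ≤ q) {χ : ℕ → ℂ} (h : χ ∈ pc q) (z : ℕ) :
    ‖∑ r ∈ Ioc 0 z, χ r‖ ≤ Real.sqrt q * (1 + Real.log q) := by
  have : NeZero q := ⟨by omega⟩
  obtain ⟨χ', h1, rfl⟩ := GP.mem_pc h
  have h2 := GP.pv hq h1 0 z
  have e1 : ∑ n ∈ Finset.Ioc (0 : ℤ) z, χ' (n : ZMod q) = ∑ r ∈ Ioc 0 z, χ' (r : ZMod q) := by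
    symm
    apply Finset.sum_bij (fun (r : ℕ) _ => (r : ℤ))
    · intro r hr
      rw [Finset.mem_Ioc] at hr ⊢
      omega
    · intro r _ r' _ h
      exact_mod_cast h
    · intro n hn
      rw [Finset.mem_Ioc] at hn
      exact ⟨n.toNat, by rw [Finset.mem_Ioc]; omega, by omega⟩
    · intro r _
      push_cast
      rfl
  rw [e1] at h2
  exact h2

end

end Pool.Agent.M848.FC
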