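import Pool.Agent.Lib.MP_848d44_nt.F.Base
import Pool.Agent.Lib.MP_848d44_nt.L1
import Pool.Agent.Lib.MP_848d44_nt.F.Lsp
import Pool.Agent.Lib.MP_848d44_nt.F.Pvr

/-!
# MP_848d44_nt, fixed class: the mean value theorem for the primitive characters modulo
`q ∈ (M, 2M]`
-/

set_option autoImplicit false

namespace Pool.Agent.M848.FC

open Finset
open scoped ArithmeticFunction ComplexConjugate

noncomputable section

namespace L1pAux

open MP848

theorem mem_pc {q : ℕ} {χ : ℕ → ℂ} (h : χ ∈ pc q) :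
    q ≠ 0 ∧ ∃ χ₀ : DirichletCharacter ℂ q, ∀ n : ℕ, χ n = χ₀ (n : ZMod q) := by
  classical
  unfold pc at h
  by_cases hq : q = 0
  · rw [dif_pos hq] at h
    exact absurd h (Finset.notMem_empty _)
  · rw [dif_neg hq] at h
    rw [Finset.mem_image] at h
    obtain ⟨χ₀, _, he⟩ := h
    exact ⟨hq, χ₀, fun n => by rw [← he]⟩

theorem pc_norm {q : ℕ} {χ : ℕ → ℂ} (h : χ ∈ pc q) (n : ℕ) : ‖χ n‖ ≤ 1 := by
  obtain ⟨_, χ₀, he⟩ := mem_pc h
  rw [he]
  exact DirichletCharacter.norm_le_one _ _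

theorem pc_map {q : ℕ} {χ : ℕ → ℂ} (h : χ ∈ pc q) (m n : ℕ) : χ (m * n) = χ m * χ n := by
  obtain ⟨_, χ₀, he⟩ := mem_pc h
  rw [he, he, he]
  push_cast
  exact map_mul _ _ _

theorem pc_card_le (q : ℕ) : ((pc q).card : ℝ) ≤ q := by
  classical
  unfold pc
  by_cases hq : q = 0
  · rw [dif_pos hq, Finset.card_empty, Nat.cast_zero]
    positivity
  · rw [dif_neg hq]
    have : NeZero q := ⟨hq⟩
    have h1 : (univ : Finset (DirichletCharacter ℂ q)).card = q.totient := by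
      rw [Finset.card_univ, ← Nat.card_eq_fintype_card]
      exact DirichletCharacter.card_eq_totient_of_hasEnoughRootsOfUnity ℂ q
    have h2 := (Finset.card_image_le
      (s := (univ : Finset (DirichletCharacter ℂ q)).filter (fun χ => χ.IsPrimitive))
      (f := fun χ (n : ℕ) => χ (n : ZMod q))).trans
      (Finset.card_filter_le (univ : Finset (DirichletCharacter ℂ q)) (fun χ => χ.IsPrimitive))
    rw [h1] at h2
    exact_mod_cast h2.trans (Nat.totient_le q)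

/-- the index set: pairs of a modulus and a primitive character -/
def Sg (M : ℕ) : Finset (Σ _ : ℕ, (ℕ → ℂ)) := (Ioc M (2 * M)).sigma pc

theorem fam_pc (M : ℕ) (hM : 1 ≤ M) :
    Fam (ι := {p // p ∈ Sg M}) (fun i n => i.1.2 n)
      (1 + Real.log (4 * (M : ℝ) ^ 2)) (4 * (M : ℝ) ^ 2)
      (Real.sqrt (2 * M) * (1 + Real.log (2 * M))) := by
  have hM0 : (1 : ℝ) ≤ M := by exact_mod_cast hM
  have hlog4 : 0 ≤ Real.log (4 * (M : ℝ) ^ 2) := Real.log_nonneg (by nlinarith)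
  have hlog2 : 0 ≤ Real.log (2 * (M : ℝ)) := Real.log_nonneg (by linarith)
  have hmem : ∀ i : {p // p ∈ Sg M}, M < i.1.1 ∧ i.1.1 ≤ 2 * M ∧
      i.1.2 ∈ pc i.1.1 := by
    intro i
    have h := i.2
    simp only [Sg, Finset.mem_sigma, Finset.mem_Ioc] at h
    exact ⟨h.1.1, h.1.2, h.2⟩
  refine ⟨?_, ?_, ?_, ?_, by linarith, by positivity, ?_⟩
  · intro i m n
    exact pc_map (hmem i).2.2 m n
  · intro i n
    exact pc_norm (hmem i).2.2 n
  · intro c a T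
    have h1 := ls_prim M hM c a T
    have e1 : ∑ i : {p // p ∈ Sg M}, ‖∑ v ∈ Ioc a (a + T), c v * i.1.2 v‖ ^ 2 =
        ∑ q ∈ Ioc M (2 * M), ∑ χ ∈ pc q, ‖∑ v ∈ Ioc a (a + T), c v * χ v‖ ^ 2 := by
      rw [Finset.sum_coe_sort (Sg M) (fun p : Σ _ : ℕ, (ℕ → ℂ) =>
        ‖∑ v ∈ Ioc a (a + T), c v * p.2 v‖ ^ 2), Sg, Finset.sum_sigma]
    rw [e1]
    exact h1
  · intro i z
    obtain ⟨h1, h2, h3⟩ := hmem i
    have h6 := pv_prim i.1.1 (by omega) h3 z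
    refine h6.trans ?_
    have hs0 : (0 : ℝ) < i.1.1 := by
      have : 0 < i.1.1 := by omega
      exact_mod_cast this
    have hs1 : (i.1.1 : ℝ) ≤ 2 * M := by exact_mod_cast h2
    have hls : Real.log (i.1.1 : ℝ) ≤ Real.log (2 * M) := Real.log_le_log hs0 hs1
    have hls0 : 0 ≤ Real.log (i.1.1 : ℝ) := Real.log_natCast_nonneg _
    gcongr
  · have h1 : 1 ≤ Real.sqrt (2 * M) := by
      rw [Real.one_le_sqrt]
      linarith
    nlinarith

theorem card_idx (M : ℕ) :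
    (Fintype.card {p // p ∈ Sg M} : ℝ) ≤ 2 * (M : ℝ) ^ 2 := by
  rw [Fintype.card_coe, Sg, Finset.card_sigma]
  push_cast
  calc ∑ s ∈ Ioc M (2 * M), ((pc s).card : ℝ) ≤ ∑ s ∈ Ioc M (2 * M), 2 * (M : ℝ) := by
        refine Finset.sum_le_sum fun s hs => ?_
        rw [Finset.mem_Ioc] at hs
        refine (pc_card_le s).trans ?_
        exact_mod_cast hs.2
    _ = (Ioc M (2 * M)).card * (2 * (M : ℝ)) := by rw [Finset.sum_const, nsmul_eq_mul]
    _ = M * (2 * (M : ℝ)) := by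
        rw [Nat.card_Ioc]
        congr 2
        omega
    _ = 2 * (M : ℝ) ^ 2 := by ring

end L1pAux

open L1pAux MP848

/-- F3 -/
theorem l1_prim (δ : ℝ) (hδ : 0 < δ) :
    ∃ C : ℝ, 0 < C ∧ ∀ N M y : ℕ, 1 ≤ M → M ^ 3 ≤ N → y ≤ N →
      ∑ q ∈ Ioc M (2 * M), ∑ χ ∈ pc q, ‖SL χ y‖ ≤
        C * (N : ℝ) ^ δ * (N + (N : ℝ) ^ ((5 : ℝ) / 6) * M) := by
  refine ⟨1000 * (1 + 6 / δ) ^ 6, by positivity, ?_⟩
  intro N R y hR hRN hy
  have hN1 : 1 ≤ N := le_trans (by calc 1 = 1 ^ 3 := by norm_num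
    _ ≤ R ^ 3 := Nat.pow_le_pow_left hR 3) hRN
  -- the parameter U
  obtain ⟨U, hUN, hNU⟩ : ∃ U : ℕ, U ^ 3 ≤ N ∧ N < (U + 1) ^ 3 := by
    refine ⟨Nat.findGreatest (fun u => u ^ 3 ≤ N) N, ?_, ?_⟩
    · exact Nat.findGreatest_spec (P := fun u => u ^ 3 ≤ N) (Nat.zero_le N) (by simp)
    · by_contra h
      rw [not_lt] at h
      have h1 : Nat.findGreatest (fun u => u ^ 3 ≤ N) N + 1 ≤ N :=
        (Nat.le_self_pow (by norm_num) _).trans h
      have := Nat.le_findGreatest (P := fun u => u ^ 3 ≤ N) h1 h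
      omega
  have hRU : R ≤ U := by
    by_contra h
    rw [not_le] at h
    have : (U + 1) ^ 3 ≤ R ^ 3 := Nat.pow_le_pow_left h 3
    omega
  have hU1 : 1 ≤ U := hR.trans hRU
  have hmain := (fam_pc R hR).l1 N U y hU1 hUN hy
  -- the left side
  have e1 : ∑ s ∈ Ioc R (2 * R), ∑ χ ∈ pc s, ‖SL χ y‖ =
      ∑ i : {p // p ∈ Sg R}, ‖∑ n ∈ Ioc 0 y,
        ((ArithmeticFunction.vonMangoldt n : ℝ) : ℂ) * i.1.2 n‖ := by
    rw [Finset.sum_coe_sort (Sg R) (fun p : Σ _ : ℕ, (ℕ → ℂ) =>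
      ‖∑ n ∈ Ioc 0 y, ((ArithmeticFunction.vonMangoldt n : ℝ) : ℂ) * p.2 n‖), Sg,
      Finset.sum_sigma]
    have e : Ioc 0 y = Icc 1 y := by
      ext r
      simp only [Finset.mem_Ioc, Finset.mem_Icc]
      omega
    rw [e]
    rfl
  rw [e1]
  refine hmain.trans ?_
  -- real variables
  have hn : (1 : ℝ) ≤ N := by exact_mod_cast hN1
  set a : ℝ := (N : ℝ) ^ ((1 : ℝ) / 6) with ha
  have ha1 : 1 ≤ a := Real.one_le_rpow hn (by norm_num)
  have ha6 : (N : ℝ) = a ^ 6 := by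
    rw [ha, ← Real.rpow_natCast, ← Real.rpow_mul (by linarith)]
    norm_num
  have ha5 : (N : ℝ) ^ ((5 : ℝ) / 6) = a ^ 5 := by
    rw [ha, ← Real.rpow_natCast, ← Real.rpow_mul (by linarith)]
    norm_num
  have ha3 : Real.sqrt N = a ^ 3 := by
    rw [ha6, show a ^ 6 = (a ^ 3) ^ 2 by ring]
    exact Real.sqrt_sq (by positivity)
  have hRr : (1 : ℝ) ≤ R := by exact_mod_cast hR
  have hUr : (1 : ℝ) ≤ U := by exact_mod_cast hU1
  have hRa : (R : ℝ) ≤ a ^ 2 := by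
    have h1 : (R : ℝ) ^ 3 ≤ (a ^ 2) ^ 3 := by
      rw [← pow_mul, ← ha6]
      exact_mod_cast hRN
    exact le_of_pow_le_pow_left₀ (by norm_num) (by positivity) h1
  have hUa : (U : ℝ) ≤ a ^ 2 := by
    have h1 : (U : ℝ) ^ 3 ≤ (a ^ 2) ^ 3 := by
      rw [← pow_mul, ← ha6]
      exact_mod_cast hUN
    exact le_of_pow_le_pow_left₀ (by norm_num) (by positivity) h1
  have hUa' : a ^ 2 ≤ 2 * U := by
    have h1 : (a ^ 2) ^ 3 ≤ (2 * (U : ℝ)) ^ 3 := by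
      rw [← pow_mul, ← ha6]
      have h2 : (N : ℝ) ≤ ((U : ℝ) + 1) ^ 3 := by exact_mod_cast hNU.le
      refine h2.trans (pow_le_pow_left₀ (by positivity) (by linarith) 3)
    exact le_of_pow_le_pow_left₀ (by norm_num) (by positivity) h1
  have hlog : 0 ≤ Real.log N := Real.log_natCast_nonneg N
  set L : ℝ := 1 + Real.log N with hL
  have hL1 : 1 ≤ L := by linarith
  have hRN' : (R : ℝ) ≤ N := by
    have : R ≤ R ^ 3 := Nat.le_self_pow (by norm_num) R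
    exact_mod_cast this.trans hRN
  have hlogR : Real.log R ≤ Real.log N := Real.log_le_log (by linarith) hRN'
  have hlog2R : 1 + Real.log (2 * R) ≤ 2 * L := by
    rw [Real.log_mul (by norm_num) (by linarith)]
    have := Real.log_two_lt_d9
    linarith
  have hlog4 : 1 + Real.log (4 * (R : ℝ) ^ 2) ≤ 3 * L := by
    rw [Real.log_mul (by norm_num) (by positivity), Real.log_pow,
      show (4 : ℝ) = 2 ^ 2 by norm_num, Real.log_pow]
    have := Real.log_two_lt_d9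
    push_cast
    linarith
  have hlog2R0 : 0 ≤ Real.log (2 * (R : ℝ)) := Real.log_nonneg (by linarith)
  have hlog40 : 0 ≤ Real.log (4 * (R : ℝ) ^ 2) := Real.log_nonneg (by nlinarith)
  have hlev : (lev N : ℝ) ≤ 2 * L := lev_le N
  have hlev0 : (0 : ℝ) ≤ lev N := Nat.cast_nonneg _
  -- the logarithms
  have hLpow : L ^ 6 ≤ (1 + 6 / δ) ^ 6 * (N : ℝ) ^ δ := by
    have h1 : Real.log N ≤ (N : ℝ) ^ (δ / 6) / (δ / 6) :=
      Real.log_le_rpow_div (by linarith) (by positivity)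
    have h2 : (1 : ℝ) ≤ (N : ℝ) ^ (δ / 6) := Real.one_le_rpow hn (by positivity)
    have h3 : L ≤ (1 + 6 / δ) * (N : ℝ) ^ (δ / 6) := by
      have e : (N : ℝ) ^ (δ / 6) / (δ / 6) = 6 / δ * (N : ℝ) ^ (δ / 6) := by
        field_simp
      rw [e] at h1
      rw [add_mul, one_mul]
      linarith
    have h4 : L ^ 6 ≤ ((1 + 6 / δ) * (N : ℝ) ^ (δ / 6)) ^ 6 :=
      pow_le_pow_left₀ (by linarith) h3 6
    refine h4.trans (le_of_eq ?_)
    rw [mul_pow, ← Real.rpow_natCast ((N : ℝ) ^ (δ / 6)) 6, ← Real.rpow_mul (by linarith)]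
    congr 2
    push_cast
    ring
  -- the first term
  have hsq2R : Real.sqrt (2 * R) ≤ 2 * a := by
    rw [Real.sqrt_le_left (by positivity)]
    nlinarith
  have hA : (Fintype.card {p // p ∈ Sg R} : ℝ) *
      (4 * (U * ((Real.sqrt (2 * R) * (1 + Real.log (2 * R))) * Real.log N))) ≤
      32 * L ^ 6 * (a ^ 5 * R) := by
    calc (Fintype.card {p // p ∈ Sg R} : ℝ) *
        (4 * (U * ((Real.sqrt (2 * R) * (1 + Real.log (2 * R))) * Real.log N)))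
        ≤ (2 * (R : ℝ) ^ 2) * (4 * (a ^ 2 * (((2 * a) * (2 * L)) * L))) := by
          have := card_idx R
          have h1 : 0 ≤ Real.sqrt (2 * (R : ℝ)) := Real.sqrt_nonneg _
          gcongr
          linarith
      _ = 32 * L ^ 2 * (a ^ 3 * R * R) := by ring
      _ ≤ 32 * L ^ 6 * (a ^ 3 * R * a ^ 2) := by
          gcongr
          norm_num
      _ = 32 * L ^ 6 * (a ^ 5 * R) := by ring
  -- the second term
  have hE : Real.sqrt N * (4 * (R : ℝ) ^ 2) + 2 * (N * Real.sqrt (4 * (R : ℝ) ^ 2 / U)) + N ≤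
      N + 12 * (a ^ 5 * R) := by
    have h1 : Real.sqrt N * (4 * (R : ℝ) ^ 2) ≤ 4 * (a ^ 5 * R) := by
      rw [ha3]
      calc a ^ 3 * (4 * (R : ℝ) ^ 2) = 4 * (a ^ 3 * R * R) := by ring
        _ ≤ 4 * (a ^ 3 * R * a ^ 2) := by gcongr
        _ = 4 * (a ^ 5 * R) := by ring
    have h2 : Real.sqrt (4 * (R : ℝ) ^ 2 / U) ≤ 4 * R / a := by
      rw [Real.sqrt_le_left (by positivity), div_pow, div_le_div_iff₀ (by linarith) (by positivity)]
      have h0 : 0 ≤ (R : ℝ) ^ 2 * U := by positivity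
      calc 4 * (R : ℝ) ^ 2 * a ^ 2 ≤ 4 * (R : ℝ) ^ 2 * (2 * U) := by gcongr
        _ ≤ (4 * (R : ℝ)) ^ 2 * U := by nlinarith
    have h3 : 2 * (N * Real.sqrt (4 * (R : ℝ) ^ 2 / U)) ≤ 8 * (a ^ 5 * R) := by
      calc 2 * (N * Real.sqrt (4 * (R : ℝ) ^ 2 / U)) ≤ 2 * (N * (4 * R / a)) := by gcongr
        _ = 8 * (a ^ 5 * R) := by
            rw [ha6]
            field_simp
            norm_num
    linarith
  have hE0 : 0 ≤ Real.sqrt N * (4 * (R : ℝ) ^ 2) + 2 * (N * Real.sqrt (4 * (R : ℝ) ^ 2 / U)) + N := by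
    positivity
  have hB : 2 * ((lev N : ℝ) * (lev N * ((1 + Real.log (4 * (R : ℝ) ^ 2)) * ((1 + Real.log N) ^ 3 *
      (Real.sqrt N * (4 * (R : ℝ) ^ 2) + 2 * (N * Real.sqrt (4 * (R : ℝ) ^ 2 / U)) + N))))) ≤
      24 * L ^ 6 * (N + 12 * (a ^ 5 * R)) := by
    calc _ ≤ 2 * ((2 * L) * ((2 * L) * ((3 * L) * (L ^ 3 * (N + 12 * (a ^ 5 * R)))))) := by
          gcongr
      _ = 24 * L ^ 6 * (N + 12 * (a ^ 5 * R)) := by ring
  rw [ha5]
  have hR5 : 0 ≤ a ^ 5 * R := by positivity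
  calc _ ≤ 32 * L ^ 6 * (a ^ 5 * R) + 24 * L ^ 6 * (N + 12 * (a ^ 5 * R)) := add_le_add hA hB
    _ ≤ 1000 * L ^ 6 * (N + a ^ 5 * R) := by
        have h1 : 0 ≤ L ^ 6 * N := by positivity
        have h2 : 0 ≤ L ^ 6 * (a ^ 5 * R) := by positivity
        nlinarith
    _ ≤ 1000 * ((1 + 6 / δ) ^ 6 * (N : ℝ) ^ δ) * (N + a ^ 5 * R) := by gcongr
    _ = 1000 * (1 + 6 / δ) ^ 6 * (N : ℝ) ^ δ * (N + a ^ 5 * R) := by ring

end

end Pool.Agent.M848.FC
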