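import Pool.Agent.Lib.MP_848d44_nt.F.Base
import Pool.Agent.Lib.MP_848d44_nt.Ncp
import Pool.Agent.Lib.MP_848d44_nt.Div
import Pool.Agent.Lib.MP_848d44_nt.Chars
import Pool.Agent.Lib.MP_848d44_nt.F.L1p

set_option autoImplicit false

namespace Pool.Agent.M848.FC

open Finset
open scoped ArithmeticFunction ComplexConjugate

noncomputable section

namespace L1rAux

open DirichletCharacter

/-- The product of primitive characters of coprime levels is primitive. -/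
theorem isPrimitive_mul {a b : ℕ} [NeZero a] [NeZero b] (hab : a.Coprime b)
    (ψ : DirichletCharacter ℂ a) (ξ : DirichletCharacter ℂ b) (hψ : ψ.IsPrimitive)
    (hξ : ξ.IsPrimitive) :
    (changeLevel (Nat.dvd_mul_right a b) ψ * changeLevel (Nat.dvd_mul_left b a) ξ).IsPrimitive := by
  have : NeZero (a * b) := ⟨Nat.mul_ne_zero (NeZero.ne a) (NeZero.ne b)⟩
  set Ψ := changeLevel (Nat.dvd_mul_right a b) ψ with hΨ
  set Ξ := changeLevel (Nat.dvd_mul_left b a) ξ with hΞ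
  have h1 : Ψ.conductor = a := by
    rw [hΨ, conductor_changeLevel]; exact hψ
  have h2 : Ξ.conductor = b := by
    rw [hΞ, conductor_changeLevel]; exact hξ
  have h3 : a ∣ (Ψ * Ξ).conductor := by
    have h4 := conductor_mul_dvd_lcm_conductor (Ψ * Ξ) Ξ⁻¹
    rw [mul_inv_cancel_right, conductor_inv, h1, h2] at h4
    have h5 : a ∣ (Ψ * Ξ).conductor * b := h4.trans (Nat.lcm_dvd_mul _ _)
    exact hab.dvd_of_dvd_mul_right h5
  have h3' : b ∣ (Ψ * Ξ).conductor := by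
    have h4 := conductor_mul_dvd_lcm_conductor (Ψ * Ξ) Ψ⁻¹
    rw [mul_comm Ψ Ξ, mul_inv_cancel_right, conductor_inv, h1, h2, mul_comm Ξ Ψ] at h4
    have h5 : b ∣ (Ψ * Ξ).conductor * a := h4.trans (Nat.lcm_dvd_mul _ _)
    exact hab.symm.dvd_of_dvd_mul_right h5
  exact Nat.dvd_antisymm (conductor_dvd_level _) (hab.mul_dvd_of_dvd_of_dvd h3 h3')

/-- The values of the product character. -/
theorem mul_apply_nat {a b : ℕ} [NeZero a] [NeZero b]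
    (ψ : DirichletCharacter ℂ a) (ξ : DirichletCharacter ℂ b) (n : ℕ) :
    (changeLevel (Nat.dvd_mul_right a b) ψ * changeLevel (Nat.dvd_mul_left b a) ξ)
      (n : ZMod (a * b)) = ψ (n : ZMod a) * ξ (n : ZMod b) := by
  by_cases hn : n.Coprime (a * b)
  · have hc : IsCoprime (n : ℤ) ((a * b : ℕ) : ℤ) := Nat.isCoprime_iff_coprime.mpr hn
    have h1 := changeLevel_eq_cast_of_dvd' ψ (Nat.dvd_mul_right a b) hc
    have h2 := changeLevel_eq_cast_of_dvd' ξ (Nat.dvd_mul_left b a) hc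
    rw [Int.cast_natCast, Int.cast_natCast] at h1 h2
    rw [MulChar.mul_apply, h1, h2]
  · have h1 : ¬ IsUnit ((n : ℕ) : ZMod (a * b)) := fun hu =>
      hn ((ZMod.isUnit_iff_coprime n (a * b)).mp hu)
    rw [MulChar.map_nonunit _ h1]
    rw [Nat.coprime_mul_iff_right, not_and_or] at hn
    rcases hn with hn | hn
    · rw [MulChar.map_nonunit ψ (fun hu => hn ((ZMod.isUnit_iff_coprime n a).mp hu)), zero_mul]
    · rw [MulChar.map_nonunit ξ (fun hu => hn ((ZMod.isUnit_iff_coprime n b).mp hu)), mul_zero]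

theorem mem_pc {q : ℕ} {χ : ℕ → ℂ} (h : χ ∈ pc q) :
    ∃ _ : NeZero q, ∃ ψ : DirichletCharacter ℂ q, ψ.IsPrimitive ∧
      χ = fun n : ℕ => ψ (n : ZMod q) := by
  classical
  unfold pc at h
  split_ifs at h with hs
  · simp at h
  · have : NeZero q := ⟨hs⟩
    rw [mem_image] at h
    obtain ⟨ψ, hψ, rfl⟩ := h
    exact ⟨inferInstance, ψ, (mem_filter.mp hψ).2, rfl⟩

theorem pc_mem {q : ℕ} [NeZero q] {ψ : DirichletCharacter ℂ q} (h : ψ.IsPrimitive) :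
    (fun n : ℕ => ψ (n : ZMod q)) ∈ pc q := by
  classical
  unfold pc
  rw [dif_neg (NeZero.ne q), mem_image]
  exact ⟨ψ, mem_filter.mpr ⟨mem_univ _, h⟩, rfl⟩

theorem nc_prim {s : ℕ} (hs : s.Prime) {χ : ℕ → ℂ} (h : χ ∈ nc s) :
    ∃ _ : NeZero s, ∃ ψ : DirichletCharacter ℂ s, ψ.IsPrimitive ∧
      χ = fun n : ℕ => ψ (n : ZMod s) := by
  obtain ⟨h0, ψ, hψ, hχ⟩ := CharsAux.mem_nc h
  refine ⟨h0, ψ, ?_, funext hχ⟩
  rcases (Nat.dvd_prime hs).mp ψ.conductor_dvd_level with h1 | h1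
  · exact absurd (eq_one_iff_conductor_eq_one.mpr h1) hψ
  · exact h1

theorem mul_mem_pc {s k : ℕ} (hs : s.Prime) (hsk : s.Coprime k) {χ ξ : ℕ → ℂ} (hχ : χ ∈ nc s)
    (hξ : ξ ∈ pc k) : (fun n => χ n * ξ n) ∈ pc (s * k) := by
  obtain ⟨_, ψ, hψ, rfl⟩ := nc_prim hs hχ
  obtain ⟨_, ζ, hζ, rfl⟩ := mem_pc hξ
  have : NeZero (s * k) := ⟨Nat.mul_ne_zero (NeZero.ne s) (NeZero.ne k)⟩
  have h := pc_mem (isPrimitive_mul hsk ψ ζ hψ hζ)
  convert h using 1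
  funext n
  exact (mul_apply_nat ψ ζ n).symm

theorem pc_ne_zero {k : ℕ} {ξ : ℕ → ℂ} (hξ : ξ ∈ pc k) : k ≠ 0 := by
  obtain ⟨h, _⟩ := mem_pc hξ
  exact NeZero.ne k

/-- The factors are determined by the product. -/
theorem mul_inj {s k : ℕ} (hs : s.Prime) (hsk : s.Coprime k) {χ χ' ξ ξ' : ℕ → ℂ}
    (hχ : χ ∈ nc s) (hχ' : χ' ∈ nc s) (hξ : ξ ∈ pc k) (hξ' : ξ' ∈ pc k)
    (h : (fun n => χ n * ξ n) = fun n => χ' n * ξ' n) : χ = χ' ∧ ξ = ξ' := by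
  obtain ⟨_, ψ, hψ, rfl⟩ := nc_prim hs hχ
  obtain ⟨_, ψ', hψ', rfl⟩ := nc_prim hs hχ'
  obtain ⟨_, ζ, hζ, rfl⟩ := mem_pc hξ
  obtain ⟨_, ζ', hζ', rfl⟩ := mem_pc hξ'
  constructor
  · funext m
    obtain ⟨n, hn1, hn2⟩ := Nat.chineseRemainder hsk m 1
    have h1 := congrFun h n
    have e1 : ((n : ℕ) : ZMod s) = (m : ZMod s) := (ZMod.natCast_eq_natCast_iff _ _ _).mpr hn1
    have e2 : ((n : ℕ) : ZMod k) = (1 : ZMod k) := by
      have := (ZMod.natCast_eq_natCast_iff n 1 k).mpr hn2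
      simpa using this
    simp only [e1, e2, map_one, mul_one] at h1
    exact h1
  · funext m
    obtain ⟨n, hn1, hn2⟩ := Nat.chineseRemainder hsk 1 m
    have h1 := congrFun h n
    have e1 : ((n : ℕ) : ZMod s) = (1 : ZMod s) := by
      have := (ZMod.natCast_eq_natCast_iff n 1 s).mpr hn1
      simpa using this
    have e2 : ((n : ℕ) : ZMod k) = (m : ZMod k) := (ZMod.natCast_eq_natCast_iff _ _ _).mpr hn2
    simp only [e1, e2, map_one, one_mul] at h1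
    exact h1

/-- The function of the primitive character. -/
def prf {k : ℕ} (X : DirichletCharacter ℂ k) : ℕ → ℂ := fun n =>
  X.primitiveCharacter (n : ZMod X.conductor)

theorem prf_mem {k : ℕ} [NeZero k] (X : DirichletCharacter ℂ k) : prf X ∈ pc X.conductor := by
  have : NeZero X.conductor := ⟨conductor_ne_zero X⟩
  exact pc_mem X.primitiveCharacter_isPrimitive

theorem prf_eq {k : ℕ} (X : DirichletCharacter ℂ k) {n : ℕ} (hn : n.Coprime k) :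
    X (n : ZMod k) = prf X n := by
  have hc : IsCoprime (n : ℤ) ((k : ℕ) : ℤ) := Nat.isCoprime_iff_coprime.mpr hn
  have h1 := X.primitiveCharacter_apply_of_isCoprime hc
  rw [Int.cast_natCast, Int.cast_natCast] at h1
  exact h1.symm

theorem prf_norm {k : ℕ} (X : DirichletCharacter ℂ k) (n : ℕ) : ‖prf X n‖ ≤ 1 :=
  DirichletCharacter.norm_le_one _ _

theorem prf_inj {k : ℕ} [NeZero k] {X X' : DirichletCharacter ℂ k} (h : prf X = prf X') :
    X = X' := by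
  apply MulChar.ext
  intro u
  have hu : (u : ZMod k).val.Coprime k := ZMod.val_coe_unit_coprime u
  have h1 := prf_eq X hu
  have h2 := prf_eq X' hu
  rw [ZMod.natCast_zmod_val] at h1 h2
  rw [h1, h2, h]

/-- The inner mean value. -/
def W (R y : ℕ) (ξ : ℕ → ℂ) : ℝ :=
  ∑ s ∈ PR R, (1 / ((s : ℝ) - 1)) * ∑ χ ∈ nc s, ‖SL (fun n => χ n * ξ n) y‖

theorem prime_PR {R s : ℕ} (hs : s ∈ PR R) : s.Prime ∧ R < s ∧ s ≤ 2 * R := by
  unfold PR at hs
  rw [mem_filter, mem_Ioc] at hs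
  exact ⟨hs.2, hs.1.1, hs.1.2⟩

theorem card_PR (R : ℕ) : (PR R).card ≤ R := by
  unfold PR
  refine (card_filter_le _ _).trans ?_
  rw [Nat.card_Ioc]; omega

theorem inv_nonneg' {s : ℕ} (hs : s.Prime) : 0 ≤ 1 / ((s : ℝ) - 1) := by
  have : (2 : ℝ) ≤ s := by exact_mod_cast hs.two_le
  apply div_nonneg zero_le_one
  linarith

theorem W_nonneg (R y : ℕ) (ξ : ℕ → ℂ) : 0 ≤ W R y ξ := by
  unfold W
  refine sum_nonneg fun s hs => mul_nonneg (inv_nonneg' (prime_PR hs).1) ?_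
  exact sum_nonneg fun _ _ => norm_nonneg _

theorem SL_red {k : ℕ} [NeZero k] (X : DirichletCharacter ℂ k) (g : ℕ → ℂ) (hg : ∀ n, ‖g n‖ ≤ 1)
    {y N : ℕ} (hy : y ≤ N) :
    ‖SL (fun n => g n * X (n : ZMod k)) y‖ ≤
      ‖SL (fun n => g n * prf X n) y‖ + Nat.log 2 k * Real.log N := by
  have h1 : SL (fun n => g n * X (n : ZMod k)) y = SL (fun n => g n * prf X n) y +
      ∑ n ∈ Icc 1 y, ((Λ n : ℝ) : ℂ) * (g n * (X (n : ZMod k) - prf X n)) := by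
    unfold SL
    rw [← sum_add_distrib]
    refine sum_congr rfl fun n _ => ?_
    ring
  rw [h1]
  refine (norm_add_le _ _).trans (add_le_add le_rfl ?_)
  refine (norm_sum_le _ _).trans ?_
  refine le_trans ?_ (noncoprime_sum N k (Nat.pos_of_ne_zero (NeZero.ne k)))
  rw [sum_filter]
  calc ∑ n ∈ Icc 1 y, ‖((Λ n : ℝ) : ℂ) * (g n * (X (n : ZMod k) - prf X n))‖
      ≤ ∑ n ∈ Icc 1 y, (if ¬ n.Coprime k then (Λ n : ℝ) else 0) := by
        refine sum_le_sum fun n _ => ?_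
        have hL : (0 : ℝ) ≤ Λ n := ArithmeticFunction.vonMangoldt_nonneg
        by_cases hn : n.Coprime k
        · rw [prf_eq X hn]; simp [hn]
        · rw [if_pos hn, MulChar.map_nonunit X
            (fun hu => hn ((ZMod.isUnit_iff_coprime n k).mp hu)), zero_sub, norm_mul,
            Complex.norm_real, Real.norm_of_nonneg hL, norm_mul, norm_neg]
          have h2 : ‖g n‖ * ‖prf X n‖ ≤ 1 := by
            calc ‖g n‖ * ‖prf X n‖ ≤ 1 * 1 :=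
                  mul_le_mul (hg n) (prf_norm X n) (norm_nonneg _) zero_le_one
              _ = 1 := one_mul 1
          calc (Λ n : ℝ) * (‖g n‖ * ‖prf X n‖) ≤ Λ n * 1 := mul_le_mul_of_nonneg_left h2 hL
            _ = Λ n := mul_one _
    _ ≤ ∑ n ∈ Icc 1 N, (if ¬ n.Coprime k then (Λ n : ℝ) else 0) := by
        refine sum_le_sum_of_subset_of_nonneg (Icc_subset_Icc_right hy) fun n _ _ => ?_
        split_ifs
        · exact le_rfl
        · exact ArithmeticFunction.vonMangoldt_nonneg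

/-- Summation over the characters modulo `k` through the primitive characters. -/
theorem sum_prf {k : ℕ} [NeZero k] (G : (ℕ → ℂ) → ℝ) (hG : ∀ ξ, 0 ≤ G ξ) :
    ∑ X : DirichletCharacter ℂ k, G (prf X) ≤ ∑ k' ∈ k.divisors, ∑ ξ ∈ pc k', G ξ := by
  classical
  rw [sum_sigma']
  let e : DirichletCharacter ℂ k → Σ _ : ℕ, (ℕ → ℂ) := fun X => ⟨X.conductor, prf X⟩
  have hinj : Function.Injective e := by
    intro X X' h
    have h2 : prf X = prf X' := by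
      have := congrArg (fun z : Σ _ : ℕ, (ℕ → ℂ) => z.2) h
      exact this
    exact prf_inj h2
  calc ∑ X : DirichletCharacter ℂ k, G (prf X)
      = ∑ z ∈ (univ : Finset (DirichletCharacter ℂ k)).image e, G z.2 := by
        rw [sum_image (fun a _ b _ hab => hinj hab)]
    _ ≤ ∑ z ∈ k.divisors.sigma pc, G z.2 := by
        refine sum_le_sum_of_subset_of_nonneg ?_ fun z _ _ => hG _
        intro z hz
        obtain ⟨X, _, rfl⟩ := mem_image.mp hz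
        rw [mem_sigma]
        exact ⟨Nat.mem_divisors.mpr ⟨X.conductor_dvd_level, NeZero.ne k⟩, prf_mem X⟩

theorem W_red {k : ℕ} [NeZero k] (X : DirichletCharacter ℂ k) (R : ℕ) {y N : ℕ} (hy : y ≤ N) :
    W R y (fun n => X (n : ZMod k)) ≤ W R y (prf X) + 2 * R * (Nat.log 2 k * Real.log N) := by
  have hlog : 0 ≤ Real.log N := Real.log_natCast_nonneg N
  have hE : 0 ≤ (Nat.log 2 k : ℝ) * Real.log N := by positivity
  unfold W
  have h1 : ∀ s ∈ PR R, (1 / ((s : ℝ) - 1)) * ∑ χ ∈ nc s, ‖SL (fun n => χ n * X (n : ZMod k)) y‖ ≤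
      (1 / ((s : ℝ) - 1)) * ∑ χ ∈ nc s, ‖SL (fun n => χ n * prf X n) y‖ +
        2 * (Nat.log 2 k * Real.log N) := by
    intro s hs
    obtain ⟨hsp, -, -⟩ := prime_PR hs
    have hs2 : (2 : ℝ) ≤ s := by exact_mod_cast hsp.two_le
    have h2 : ∑ χ ∈ nc s, ‖SL (fun n => χ n * X (n : ZMod k)) y‖ ≤
        ∑ χ ∈ nc s, ‖SL (fun n => χ n * prf X n) y‖ + s * (Nat.log 2 k * Real.log N) := by
      calc ∑ χ ∈ nc s, ‖SL (fun n => χ n * X (n : ZMod k)) y‖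
          ≤ ∑ χ ∈ nc s, (‖SL (fun n => χ n * prf X n) y‖ + Nat.log 2 k * Real.log N) :=
            sum_le_sum fun χ hχ => SL_red X χ (fun n => nc_norm_le hχ n) hy
        _ = ∑ χ ∈ nc s, ‖SL (fun n => χ n * prf X n) y‖ +
            (nc s).card * (Nat.log 2 k * Real.log N) := by
            rw [sum_add_distrib, sum_const, nsmul_eq_mul]
        _ ≤ _ := by
            refine add_le_add le_rfl (mul_le_mul_of_nonneg_right (nc_card hsp) hE)
    have h3 := inv_nonneg' hsp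
    calc (1 / ((s : ℝ) - 1)) * ∑ χ ∈ nc s, ‖SL (fun n => χ n * X (n : ZMod k)) y‖
        ≤ (1 / ((s : ℝ) - 1)) * (∑ χ ∈ nc s, ‖SL (fun n => χ n * prf X n) y‖ +
            s * (Nat.log 2 k * Real.log N)) := mul_le_mul_of_nonneg_left h2 h3
      _ = (1 / ((s : ℝ) - 1)) * ∑ χ ∈ nc s, ‖SL (fun n => χ n * prf X n) y‖ +
            ((1 / ((s : ℝ) - 1)) * s) * (Nat.log 2 k * Real.log N) := by ring
      _ ≤ _ := by
            refine add_le_add le_rfl (mul_le_mul_of_nonneg_right ?_ hE)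
            rw [one_div, inv_mul_le_iff₀ (by linarith)]
            linarith
  refine (sum_le_sum h1).trans ?_
  rw [sum_add_distrib, sum_const, nsmul_eq_mul]
  refine add_le_add le_rfl ?_
  have h4 : ((PR R).card : ℝ) ≤ R := by exact_mod_cast card_PR R
  calc ((PR R).card : ℝ) * (2 * (Nat.log 2 k * Real.log N))
      ≤ R * (2 * (Nat.log 2 k * Real.log N)) := mul_le_mul_of_nonneg_right h4 (by positivity)
    _ = 2 * R * (Nat.log 2 k * Real.log N) := by ring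

theorem sum_ac_real (d : ℕ) [NeZero d] (f : (ℕ → ℂ) → ℝ) :
    ∑ ξ ∈ ac d, f ξ = ∑ χ : DirichletCharacter ℂ d, f (fun n => χ (n : ZMod d)) := by
  classical
  have hd : d ≠ 0 := NeZero.ne d
  unfold ac
  rw [dif_neg hd, sum_image]
  intro a _ b _ hab
  exact CharsAux.inj_char d hab

theorem ac_red {k : ℕ} (hk : 1 ≤ k) (R : ℕ) {y N : ℕ} (hy : y ≤ N) :
    ∑ ξ ∈ ac k, W R y ξ ≤ ∑ k' ∈ k.divisors, ∑ ξ ∈ pc k', W R y ξ +
      k.totient * (2 * R * (Nat.log 2 k * Real.log N)) := by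
  have : NeZero k := ⟨by omega⟩
  rw [sum_ac_real k (fun ξ => W R y ξ)]
  calc ∑ X : DirichletCharacter ℂ k, W R y (fun n => X (n : ZMod k))
      ≤ ∑ X : DirichletCharacter ℂ k, (W R y (prf X) + 2 * R * (Nat.log 2 k * Real.log N)) :=
        sum_le_sum fun X _ => W_red X R hy
    _ = ∑ X : DirichletCharacter ℂ k, W R y (prf X) +
        k.totient * (2 * R * (Nat.log 2 k * Real.log N)) := by
        rw [sum_add_distrib, sum_const, CharsAux.card_chars, nsmul_eq_mul]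
    _ ≤ _ := add_le_add (sum_prf _ fun ξ => W_nonneg R y ξ) le_rfl

theorem tot_pos {k : ℕ} (hk : 1 ≤ k) : (0 : ℝ) < k.totient := by
  exact_mod_cast Nat.totient_pos.mpr hk

/-- Summation over the divisors. -/
theorem sum_div (Y : ℕ) (A : ℕ → ℝ) (hA : ∀ k, 0 ≤ A k) :
    ∑ κ ∈ Icc 1 Y, (1 / (κ.totient : ℝ)) * ∑ κ' ∈ κ.divisors, A κ' ≤
      (∑ l ∈ Icc 1 Y, 1 / (l.totient : ℝ)) * ∑ κ' ∈ Icc 1 Y, (1 / (κ'.totient : ℝ)) * A κ' := by
  have h1 : ∑ κ ∈ Icc 1 Y, (1 / (κ.totient : ℝ)) * ∑ κ' ∈ κ.divisors, A κ' =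
      ∑ κ' ∈ Icc 1 Y, A κ' * ∑ κ ∈ (Icc 1 Y).filter (fun κ => κ' ∣ κ), 1 / (κ.totient : ℝ) := by
    have h2 : ∀ κ ∈ Icc 1 Y, (1 / (κ.totient : ℝ)) * ∑ κ' ∈ κ.divisors, A κ' =
        ∑ κ' ∈ Icc 1 Y, if κ' ∣ κ then (1 / (κ.totient : ℝ)) * A κ' else 0 := by
      intro κ hκ
      rw [mem_Icc] at hκ
      rw [mul_sum, ← sum_filter]
      refine sum_congr ?_ fun _ _ => rfl
      ext d
      rw [Nat.mem_divisors, mem_filter, mem_Icc]
      constructor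
      · rintro ⟨hd, h0⟩
        exact ⟨⟨Nat.pos_of_dvd_of_pos hd (by omega), (Nat.le_of_dvd (by omega) hd).trans hκ.2⟩, hd⟩
      · rintro ⟨_, hd⟩
        exact ⟨hd, by omega⟩
    rw [sum_congr rfl h2, sum_comm]
    refine sum_congr rfl fun κ' _ => ?_
    rw [mul_sum, sum_filter]
    refine sum_congr rfl fun κ _ => ?_
    split_ifs
    · ring
    · rfl
  rw [h1, mul_sum]
  refine sum_le_sum fun κ' hκ' => ?_
  rw [mem_Icc] at hκ'
  have h3 : ∑ κ ∈ (Icc 1 Y).filter (fun κ => κ' ∣ κ), 1 / (κ.totient : ℝ) ≤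
      ∑ l ∈ Icc 1 Y, 1 / ((κ'.totient : ℝ) * l.totient) := by
    have hsub : (Icc 1 Y).filter (fun κ => κ' ∣ κ) ⊆ (Icc 1 Y).image (fun l => κ' * l) := by
      intro κ hκ
      rw [mem_filter, mem_Icc] at hκ
      obtain ⟨⟨h5, h6⟩, l, rfl⟩ := hκ
      rw [mem_image]
      refine ⟨l, mem_Icc.mpr ⟨?_, ?_⟩, rfl⟩
      · rcases Nat.eq_zero_or_pos l with rfl | h7
        · simp at h5
        · exact h7
      · exact (Nat.le_mul_of_pos_left l (by omega)).trans h6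
    calc ∑ κ ∈ (Icc 1 Y).filter (fun κ => κ' ∣ κ), 1 / (κ.totient : ℝ)
        ≤ ∑ κ ∈ (Icc 1 Y).image (fun l => κ' * l), 1 / (κ.totient : ℝ) :=
          sum_le_sum_of_subset_of_nonneg hsub fun _ _ _ => by positivity
      _ = ∑ l ∈ Icc 1 Y, 1 / ((κ' * l).totient : ℝ) := by
          rw [sum_image]
          intro a _ b _ hab
          exact Nat.eq_of_mul_eq_mul_left (by omega) hab
      _ ≤ ∑ l ∈ Icc 1 Y, 1 / ((κ'.totient : ℝ) * l.totient) := by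
          refine sum_le_sum fun l hl => ?_
          rw [mem_Icc] at hl
          have h8 := tot_pos hκ'.1
          have h9 := tot_pos hl.1
          apply one_div_le_one_div_of_le (by positivity)
          exact_mod_cast Nat.totient_super_multiplicative κ' l
  calc A κ' * ∑ κ ∈ (Icc 1 Y).filter (fun κ => κ' ∣ κ), 1 / (κ.totient : ℝ)
      ≤ A κ' * ∑ l ∈ Icc 1 Y, 1 / ((κ'.totient : ℝ) * l.totient) :=
        mul_le_mul_of_nonneg_left h3 (hA κ')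
    _ = (∑ l ∈ Icc 1 Y, 1 / (l.totient : ℝ)) * ((1 / (κ'.totient : ℝ)) * A κ') := by
        rw [mul_sum, sum_mul]
        refine sum_congr rfl fun l _ => ?_
        rw [one_div, one_div, one_div, mul_inv]
        ring

/-- The characters `χ ξ` as primitive characters modulo `s κ`. -/
theorem main_inj (R Y y : ℕ) (hYR : Y ≤ R) :
    ∑ κ ∈ Icc 1 Y, (1 / (κ.totient : ℝ)) * ∑ ξ ∈ pc κ, W R y ξ ≤
      ∑ q ∈ Ioc R (2 * R * Y), (1 / (q.totient : ℝ)) * ∑ ψ ∈ pc q, ‖SL ψ y‖ := by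
  classical
  let T : Finset (Σ _ : (Σ _ : ℕ, ℕ), ((ℕ → ℂ) × (ℕ → ℂ))) :=
    ((Icc 1 Y).sigma fun _ => PR R).sigma fun p => nc p.2 ×ˢ pc p.1
  let e : (Σ _ : (Σ _ : ℕ, ℕ), ((ℕ → ℂ) × (ℕ → ℂ))) → Σ _ : ℕ, (ℕ → ℂ) := fun x =>
    ⟨x.1.2 * x.1.1, fun n => x.2.1 n * x.2.2 n⟩
  have hcop : ∀ κ ∈ Icc 1 Y, ∀ s ∈ PR R, s.Coprime κ := by
    intro κ hκ s hs
    obtain ⟨hsp, hs1, -⟩ := prime_PR hs
    rw [mem_Icc] at hκ
    rw [hsp.coprime_iff_not_dvd]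
    intro hd
    have := Nat.le_of_dvd (by omega) hd
    omega
  have h1 : ∑ κ ∈ Icc 1 Y, (1 / (κ.totient : ℝ)) * ∑ ξ ∈ pc κ, W R y ξ =
      ∑ x ∈ T, (1 / ((e x).1.totient : ℝ)) * ‖SL (e x).2 y‖ := by
    show _ = ∑ x ∈ ((Icc 1 Y).sigma fun _ => PR R).sigma fun p => nc p.2 ×ˢ pc p.1,
      (1 / ((e x).1.totient : ℝ)) * ‖SL (e x).2 y‖
    rw [sum_sigma, sum_sigma]
    refine sum_congr rfl fun κ hκ => ?_
    unfold W
    rw [sum_comm, mul_sum]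
    refine sum_congr rfl fun s hs => ?_
    rw [sum_product_right, ← mul_sum, ← mul_assoc, mul_sum]
    refine sum_congr rfl fun ξ hξ => ?_
    rw [mul_sum]
    refine sum_congr rfl fun χ hχ => ?_
    show _ = (1 / ((s * κ).totient : ℝ)) * ‖SL (fun n => χ n * ξ n) y‖
    obtain ⟨hsp, -, -⟩ := prime_PR hs
    congr 1
    rw [Nat.totient_mul (hcop κ hκ s hs), Nat.totient_prime hsp, Nat.cast_mul,
      Nat.cast_sub hsp.one_lt.le, Nat.cast_one, one_div, one_div, one_div, mul_inv]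
    ring
  have hmem : ∀ x ∈ T, x.1.1 ∈ Icc 1 Y ∧ x.1.2 ∈ PR R ∧ x.2.1 ∈ nc x.1.2 ∧ x.2.2 ∈ pc x.1.1 := by
    intro x hx
    have h2 := mem_sigma.mp hx
    have h3 := mem_sigma.mp h2.1
    have h4 := mem_product.mp h2.2
    exact ⟨h3.1, h3.2, h4.1, h4.2⟩
  have hinj : Set.InjOn e (T : Set _) := by
    rintro ⟨⟨κ, s⟩, χ, ξ⟩ hx ⟨⟨κ', s'⟩, χ', ξ'⟩ hx' h
    obtain ⟨a1, a2, a3, a4⟩ := hmem _ hx
    obtain ⟨b1, b2, b3, b4⟩ := hmem _ hx'
    simp only at a1 a2 a3 a4 b1 b2 b3 b4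
    have h5 : s * κ = s' * κ' := congrArg (fun z : Σ _ : ℕ, (ℕ → ℂ) => z.1) h
    have h6 : (fun n => χ n * ξ n) = fun n => χ' n * ξ' n :=
      congrArg (fun z : Σ _ : ℕ, (ℕ → ℂ) => z.2) h
    obtain ⟨hsp, hs1, -⟩ := prime_PR a2
    obtain ⟨hsp', hs1', -⟩ := prime_PR b2
    have hss : s = s' := by
      have h7 : s ∣ s' * κ' := ⟨κ, h5.symm⟩
      have h8 : s ∣ s' := (hcop κ' b1 s a2).dvd_of_dvd_mul_right h7
      exact (Nat.prime_dvd_prime_iff_eq hsp hsp').mp h8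
    subst hss
    have hkk : κ = κ' := Nat.eq_of_mul_eq_mul_left hsp.pos h5
    subst hkk
    obtain ⟨h9, h10⟩ := mul_inj hsp (hcop κ a1 s a2) a3 b3 a4 b4 h6
    subst h9
    subst h10
    rfl
  rw [h1]
  have h2 : ∑ x ∈ T, (1 / ((e x).1.totient : ℝ)) * ‖SL (e x).2 y‖ =
      ∑ z ∈ T.image e, (1 / (z.1.totient : ℝ)) * ‖SL z.2 y‖ := by
    rw [sum_image hinj]
  rw [h2]
  have h3 : ∑ q ∈ Ioc R (2 * R * Y), (1 / (q.totient : ℝ)) * ∑ ψ ∈ pc q, ‖SL ψ y‖ =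
      ∑ z ∈ (Ioc R (2 * R * Y)).sigma pc, (1 / (z.1.totient : ℝ)) * ‖SL z.2 y‖ := by
    rw [sum_sigma]
    exact sum_congr rfl fun q _ => mul_sum _ _ _
  rw [h3]
  refine sum_le_sum_of_subset_of_nonneg ?_ fun z _ _ => by positivity
  intro z hz
  obtain ⟨x, hx, rfl⟩ := mem_image.mp hz
  obtain ⟨a1, a2, a3, a4⟩ := hmem x hx
  obtain ⟨hsp, hs1, hs2⟩ := prime_PR a2
  rw [mem_sigma]
  refine ⟨?_, mul_mem_pc hsp (hcop _ a1 _ a2) a3 a4⟩
  rw [mem_Icc] at a1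
  rw [mem_Ioc]
  refine ⟨lt_of_lt_of_le hs1 (Nat.le_mul_of_pos_right _ (by omega)), ?_⟩
  exact Nat.mul_le_mul hs2 a1.2

/-- The pieces of the dyadic decomposition. -/
theorem dyadic (R I : ℕ) (f : ℕ → ℝ) :
    ∑ q ∈ Ioc R (2 ^ I * R), f q =
      ∑ i ∈ range I, ∑ q ∈ Ioc (2 ^ i * R) (2 * (2 ^ i * R)), f q := by
  induction I with
  | zero => simp
  | succ I ih =>
    rw [sum_range_succ, ← ih]
    have h1 : R ≤ 2 ^ I * R := Nat.le_mul_of_pos_left _ (by positivity)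
    have h2 : 2 ^ I * R ≤ 2 * (2 ^ I * R) := by omega
    rw [sum_Ioc_consecutive f h1 h2]
    congr 2
    rw [pow_succ]; ring

theorem inv_tot {C δ : ℝ} (hδ : 0 < δ)
    (hC : ∀ n : ℕ, 1 ≤ n → (n.divisors.card : ℝ) ≤ C * (n : ℝ) ^ δ) (hC1 : 1 ≤ C)
    {q N : ℕ} (hq : 1 ≤ q) (hN : q ≤ N) :
    1 / (q.totient : ℝ) ≤ C * (N : ℝ) ^ δ / q := by
  have h1 := totient_lower q
  have h2 := tot_pos hq
  have hq0 : (0 : ℝ) < q := by exact_mod_cast hq
  have h3 : (q : ℝ) ^ δ ≤ (N : ℝ) ^ δ :=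
    Real.rpow_le_rpow hq0.le (by exact_mod_cast hN) hδ.le
  have h4 : (q.divisors.card : ℝ) ≤ C * (N : ℝ) ^ δ :=
    (hC q hq).trans (mul_le_mul_of_nonneg_left h3 (by linarith))
  rw [div_le_div_iff₀ h2 hq0, one_mul]
  exact h1.trans (mul_le_mul_of_nonneg_right h4 h2.le)

theorem sum_inv_le (Y : ℕ) : ∑ l ∈ Icc 1 Y, 1 / (l : ℝ) ≤ 1 + Real.log Y := by
  have h := harmonic_le_one_add_log Y
  refine le_trans (le_of_eq ?_) h
  rw [harmonic_eq_sum_Icc]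
  push_cast
  exact sum_congr rfl fun l _ => one_div _

theorem log2_le {k N : ℕ} (hk : 1 ≤ k) (hN : k ≤ N) : (Nat.log 2 k : ℝ) ≤ 2 * Real.log N := by
  have h1 : ((2 : ℕ) : ℝ) ^ Nat.log 2 k ≤ N := by
    exact_mod_cast (Nat.pow_log_le_self 2 (by omega)).trans hN
  have h2 : Real.log (((2 : ℕ) : ℝ) ^ Nat.log 2 k) ≤ Real.log N :=
    Real.log_le_log (by positivity) h1
  rw [Real.log_pow] at h2
  have h3 := Real.log_two_gt_d9
  have h4 : (0 : ℝ) ≤ Nat.log 2 k := by positivity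
  push_cast at h2
  nlinarith

theorem log_fac {δ : ℝ} (hδ : 0 < δ) {N : ℕ} (hN : 1 ≤ N) :
    1 + 2 * Real.log N ≤ (1 + 2 / δ) * (N : ℝ) ^ δ := by
  have h1 : Real.log N ≤ (N : ℝ) ^ δ / δ := Real.log_le_rpow_div (by positivity) hδ
  have h2 : (1 : ℝ) ≤ (N : ℝ) ^ δ := Real.one_le_rpow (by exact_mod_cast hN) hδ.le
  calc 1 + 2 * Real.log N ≤ (N : ℝ) ^ δ + 2 * ((N : ℝ) ^ δ / δ) := by linarith
    _ = (1 + 2 / δ) * (N : ℝ) ^ δ := by ring

end L1rAux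

open L1rAux in
/-- F4. Reduction of the mean value over all characters modulo `κ` to primitive characters. -/
theorem l1_red (δ : ℝ) (hδ : 0 < δ) :
    ∃ C : ℝ, 0 < C ∧ ∀ N R Y y : ℕ, 1 ≤ Y → Y ≤ R → (2 * R * Y) ^ 3 ≤ N → y ≤ N →
      YY (PR R) Y y ≤ C * (N : ℝ) ^ δ * (N / R + (N : ℝ) ^ ((5 : ℝ) / 6)) := by
  set ε : ℝ := δ / 5 with hε
  have hε0 : 0 < ε := by positivity
  obtain ⟨C1, hC1, hdiv⟩ := divisor_bound ε hε0
  obtain ⟨C2, hC2, hprim⟩ := l1_prim ε hε0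
  set C3 : ℝ := 1 + 2 / ε with hC3
  have hC30 : 0 < C3 := by positivity
  refine ⟨C1 ^ 2 * C2 * C3 ^ 2 + 2 * C3 ^ 2, by positivity, fun N R Y y hY hYR hN hy => ?_⟩
  have hR : 1 ≤ R := hY.trans hYR
  have hRY : 1 ≤ R * Y := Nat.mul_pos hR hY
  have hm : 2 ≤ 2 * R * Y := by rw [mul_assoc]; omega
  have hN4 : 2 * (2 * R * Y) ≤ N := by
    refine le_trans ?_ hN
    generalize 2 * R * Y = m at hm
    nlinarith [Nat.mul_le_mul hm hm]
  have hN1 : 1 ≤ N := by omega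
  have hRR : R ≤ 2 * R * Y := by nlinarith
  have hYY : Y ≤ 2 * R * Y := by nlinarith
  have hNr : (1 : ℝ) ≤ N := by exact_mod_cast hN1
  have hlog : 0 ≤ Real.log N := Real.log_natCast_nonneg N
  have hR0 : (0 : ℝ) < R := by exact_mod_cast hR
  set P : ℝ := (N : ℝ) ^ ε with hP
  have hP1 : 1 ≤ P := Real.one_le_rpow hNr hε0.le
  have hP5 : P ^ 5 = (N : ℝ) ^ δ := by
    rw [hP, ← Real.rpow_natCast, ← Real.rpow_mul (by positivity)]
    congr 1
    rw [hε]; push_cast; ring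
  have hlf : 1 + 2 * Real.log N ≤ C3 * P := log_fac hε0 hN1
  set B : ℝ := N / R + (N : ℝ) ^ ((5 : ℝ) / 6) with hB
  have hB0 : 0 ≤ B := by positivity
  -- the dyadic pieces
  have hpiece : ∀ i ∈ range (Nat.log 2 (2 * Y) + 1),
      ∑ q ∈ Ioc (2 ^ i * R) (2 * (2 ^ i * R)), (1 / (q.totient : ℝ)) * ∑ ψ ∈ pc q, ‖SL ψ y‖ ≤
        C1 * C2 * P ^ 2 * B := by
    intro i hi
    rw [mem_range] at hi
    have hi2 : 2 ^ i ≤ 2 * Y := Nat.pow_le_of_le_log (by omega) (by omega)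
    set M := 2 ^ i * R with hM
    have hM1 : R ≤ M := Nat.le_mul_of_pos_left _ (by positivity)
    have hM2 : M ≤ 2 * R * Y := by
      calc M ≤ 2 * Y * R := Nat.mul_le_mul_right _ hi2
        _ = 2 * R * Y := by ring
    have hM3 : M ^ 3 ≤ N := (Nat.pow_le_pow_left hM2 3).trans hN
    have hM0 : (0 : ℝ) < M := by exact_mod_cast lt_of_lt_of_le hR hM1
    have hRM : (R : ℝ) ≤ M := by exact_mod_cast hM1
    have h1 : ∀ q ∈ Ioc M (2 * M), (1 / (q.totient : ℝ)) * ∑ ψ ∈ pc q, ‖SL ψ y‖ ≤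
        C1 * P / M * ∑ ψ ∈ pc q, ‖SL ψ y‖ := by
      intro q hq
      rw [mem_Ioc] at hq
      refine mul_le_mul_of_nonneg_right ?_ (sum_nonneg fun _ _ => norm_nonneg _)
      refine (inv_tot hε0 hdiv hC1 (q := q) (N := N) (by omega) (by omega)).trans ?_
      have hMq : (M : ℝ) ≤ q := by exact_mod_cast hq.1.le
      exact div_le_div_of_nonneg_left (by positivity) hM0 hMq
    calc ∑ q ∈ Ioc M (2 * M), (1 / (q.totient : ℝ)) * ∑ ψ ∈ pc q, ‖SL ψ y‖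
        ≤ ∑ q ∈ Ioc M (2 * M), C1 * P / M * ∑ ψ ∈ pc q, ‖SL ψ y‖ := sum_le_sum h1
      _ = C1 * P / M * ∑ q ∈ Ioc M (2 * M), ∑ ψ ∈ pc q, ‖SL ψ y‖ := by rw [mul_sum]
      _ ≤ C1 * P / M * (C2 * P * (N + (N : ℝ) ^ ((5 : ℝ) / 6) * M)) :=
          mul_le_mul_of_nonneg_left (hprim N M y (hR.trans hM1) hM3 hy) (by positivity)
      _ = C1 * C2 * P ^ 2 * (N / M + (N : ℝ) ^ ((5 : ℝ) / 6)) := by
          field_simp
      _ ≤ C1 * C2 * P ^ 2 * B := by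
          refine mul_le_mul_of_nonneg_left ?_ (by positivity)
          rw [hB]
          refine add_le_add ?_ le_rfl
          exact div_le_div_of_nonneg_left (by positivity) hR0 hRM
  have hmain : ∑ q ∈ Ioc R (2 * R * Y), (1 / (q.totient : ℝ)) * ∑ ψ ∈ pc q, ‖SL ψ y‖ ≤
      (C3 * P) * (C1 * C2 * P ^ 2 * B) := by
    have hI : 2 * R * Y ≤ 2 ^ (Nat.log 2 (2 * Y) + 1) * R := by
      have h1 : 2 * Y < 2 ^ (Nat.log 2 (2 * Y) + 1) := Nat.lt_pow_succ_log_self (by norm_num) _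
      calc 2 * R * Y = 2 * Y * R := by ring
        _ ≤ _ := Nat.mul_le_mul_right _ h1.le
    have h2 : ((Nat.log 2 (2 * Y) + 1 : ℕ) : ℝ) ≤ C3 * P := by
      have h3 := log2_le (k := 2 * Y) (N := N) (by omega) (by
        have : 2 * Y ≤ 2 * R * Y := by nlinarith
        omega)
      push_cast
      linarith
    calc ∑ q ∈ Ioc R (2 * R * Y), (1 / (q.totient : ℝ)) * ∑ ψ ∈ pc q, ‖SL ψ y‖
        ≤ ∑ q ∈ Ioc R (2 ^ (Nat.log 2 (2 * Y) + 1) * R),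
            (1 / (q.totient : ℝ)) * ∑ ψ ∈ pc q, ‖SL ψ y‖ :=
          sum_le_sum_of_subset_of_nonneg (Ioc_subset_Ioc_right hI) fun q _ _ => by positivity
      _ = ∑ i ∈ range (Nat.log 2 (2 * Y) + 1), ∑ q ∈ Ioc (2 ^ i * R) (2 * (2 ^ i * R)),
            (1 / (q.totient : ℝ)) * ∑ ψ ∈ pc q, ‖SL ψ y‖ := dyadic R _ _
      _ ≤ ∑ i ∈ range (Nat.log 2 (2 * Y) + 1), C1 * C2 * P ^ 2 * B := sum_le_sum hpiece
      _ = ((Nat.log 2 (2 * Y) + 1 : ℕ) : ℝ) * (C1 * C2 * P ^ 2 * B) := by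
          rw [sum_const, card_range, nsmul_eq_mul]
      _ ≤ (C3 * P) * (C1 * C2 * P ^ 2 * B) := mul_le_mul_of_nonneg_right h2 (by positivity)
  -- the sum of the inverse totients
  have hinv : ∑ l ∈ Icc 1 Y, 1 / (l.totient : ℝ) ≤ C1 * P * (C3 * P) := by
    calc ∑ l ∈ Icc 1 Y, 1 / (l.totient : ℝ) ≤ ∑ l ∈ Icc 1 Y, C1 * P * (1 / (l : ℝ)) := by
          refine sum_le_sum fun l hl => ?_
          rw [mem_Icc] at hl
          refine (inv_tot hε0 hdiv hC1 (q := l) (N := N) hl.1 (by omega)).trans (le_of_eq ?_)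
          ring
      _ = C1 * P * ∑ l ∈ Icc 1 Y, 1 / (l : ℝ) := by rw [mul_sum]
      _ ≤ C1 * P * (C3 * P) := by
          refine mul_le_mul_of_nonneg_left ?_ (by positivity)
          refine (sum_inv_le Y).trans (le_trans ?_ hlf)
          have h1 : Real.log Y ≤ Real.log N :=
            Real.log_le_log (by exact_mod_cast hY) (by exact_mod_cast (by omega : Y ≤ N))
          linarith
  -- the error term
  have herr : ∑ κ ∈ Icc 1 Y, 2 * (R : ℝ) * (Nat.log 2 κ * Real.log N) ≤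
      2 * (C3 * P) ^ 2 * (N : ℝ) ^ ((5 : ℝ) / 6) := by
    have h1 : ∀ κ ∈ Icc 1 Y, 2 * (R : ℝ) * (Nat.log 2 κ * Real.log N) ≤
        2 * (R : ℝ) * (C3 * P) ^ 2 := by
      intro κ hκ
      rw [mem_Icc] at hκ
      refine mul_le_mul_of_nonneg_left ?_ (by positivity)
      have h2 := log2_le (k := κ) (N := N) hκ.1 (by omega)
      rw [pow_two]
      exact mul_le_mul (by linarith) (by linarith) hlog (by positivity)
    have h3 : ((2 * R * Y : ℕ) : ℝ) ≤ (N : ℝ) ^ ((5 : ℝ) / 6) := by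
      have h4 : (((2 * R * Y : ℕ) : ℝ)) ^ (3 : ℕ) ≤ N := by exact_mod_cast hN
      calc ((2 * R * Y : ℕ) : ℝ) = ((((2 * R * Y : ℕ) : ℝ)) ^ (3 : ℕ)) ^ ((1 : ℝ) / 3) := by
            rw [← Real.rpow_natCast, ← Real.rpow_mul (by positivity)]
            norm_num
        _ ≤ (N : ℝ) ^ ((1 : ℝ) / 3) := Real.rpow_le_rpow (by positivity) h4 (by norm_num)
        _ ≤ (N : ℝ) ^ ((5 : ℝ) / 6) := Real.rpow_le_rpow_of_exponent_le hNr (by norm_num)
    calc ∑ κ ∈ Icc 1 Y, 2 * (R : ℝ) * (Nat.log 2 κ * Real.log N)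
        ≤ ∑ κ ∈ Icc 1 Y, 2 * (R : ℝ) * (C3 * P) ^ 2 := sum_le_sum h1
      _ = ((2 * R * Y : ℕ) : ℝ) * (C3 * P) ^ 2 := by
          rw [sum_const, Nat.card_Icc, nsmul_eq_mul]
          push_cast
          ring
      _ ≤ (N : ℝ) ^ ((5 : ℝ) / 6) * (C3 * P) ^ 2 := mul_le_mul_of_nonneg_right h3 (by positivity)
      _ ≤ 2 * (C3 * P) ^ 2 * (N : ℝ) ^ ((5 : ℝ) / 6) := by
          have : 0 ≤ (N : ℝ) ^ ((5 : ℝ) / 6) * (C3 * P) ^ 2 := by positivity
          linarith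
  -- conclusion
  have hA : ∀ k, 0 ≤ ∑ ξ ∈ pc k, W R y ξ := fun k => sum_nonneg fun ξ _ => W_nonneg R y ξ
  have h1 : YY (PR R) Y y ≤ ∑ κ ∈ Icc 1 Y, (1 / (κ.totient : ℝ)) *
      ∑ κ' ∈ κ.divisors, ∑ ξ ∈ pc κ', W R y ξ +
        ∑ κ ∈ Icc 1 Y, 2 * (R : ℝ) * (Nat.log 2 κ * Real.log N) := by
    rw [← sum_add_distrib]
    unfold YY
    refine sum_le_sum fun κ hκ => ?_
    rw [mem_Icc] at hκ
    have h2 := tot_pos hκ.1
    calc (1 / (κ.totient : ℝ)) * ∑ ξ ∈ ac κ, ∑ s ∈ PR R, (1 / ((s : ℝ) - 1)) *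
          ∑ χ ∈ nc s, ‖SL (fun n => χ n * ξ n) y‖
        ≤ (1 / (κ.totient : ℝ)) * (∑ k' ∈ κ.divisors, ∑ ξ ∈ pc k', W R y ξ +
            κ.totient * (2 * R * (Nat.log 2 κ * Real.log N))) :=
          mul_le_mul_of_nonneg_left (ac_red hκ.1 R hy) (by positivity)
      _ = _ := by
          field_simp
  refine h1.trans ?_
  calc ∑ κ ∈ Icc 1 Y, (1 / (κ.totient : ℝ)) * ∑ κ' ∈ κ.divisors, ∑ ξ ∈ pc κ', W R y ξ +
        ∑ κ ∈ Icc 1 Y, 2 * (R : ℝ) * (Nat.log 2 κ * Real.log N)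
      ≤ (C1 * P * (C3 * P)) * ((C3 * P) * (C1 * C2 * P ^ 2 * B)) +
        2 * (C3 * P) ^ 2 * (N : ℝ) ^ ((5 : ℝ) / 6) := by
        refine add_le_add ?_ herr
        refine (sum_div Y _ hA).trans ?_
        refine mul_le_mul hinv ((main_inj R Y y hYR).trans hmain) ?_ (by positivity)
        exact sum_nonneg fun κ _ => mul_nonneg (by positivity) (hA κ)
    _ = C1 ^ 2 * C2 * C3 ^ 2 * P ^ 5 * B + 2 * C3 ^ 2 * P ^ 2 * (N : ℝ) ^ ((5 : ℝ) / 6) := by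
        ring
    _ ≤ C1 ^ 2 * C2 * C3 ^ 2 * P ^ 5 * B + 2 * C3 ^ 2 * P ^ 5 * B := by
        refine add_le_add le_rfl ?_
        have h2 : P ^ 2 ≤ P ^ 5 := pow_le_pow_right₀ hP1 (by norm_num)
        have h3 : (N : ℝ) ^ ((5 : ℝ) / 6) ≤ B := by
          rw [hB]
          have : (0 : ℝ) ≤ N / R := by positivity
          linarith
        exact mul_le_mul (mul_le_mul_of_nonneg_left h2 (by positivity)) h3 (by positivity)
          (by positivity)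
    _ = (C1 ^ 2 * C2 * C3 ^ 2 + 2 * C3 ^ 2) * (N : ℝ) ^ δ * B := by
        rw [← hP5]; ring


end

end Pool.Agent.M848.FC
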