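import Pool.Agent.Lib.MP_848d44_nt.F.Base
import Pool.Agent.Lib.MP_848d44_nt.Cls
import Pool.Agent.Lib.MP_848d44_nt.Ncp
import Pool.Agent.Lib.MP_848d44_nt.Tent

/-!
# MP_848d44_nt, fixed residue class, module MEA: the mean term
-/

set_option autoImplicit false

namespace Pool.Agent.M848.FC

open Finset
open scoped ArithmeticFunction ComplexConjugate

noncomputable section

namespace Mea

/-- The value of the multiplicative function at a prime. -/
def gp (a : ℤ) (p : ℕ) : ℝ := if (p : ℤ) ∣ a then -1 else 1 / ((p : ℝ) - 1)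

open Classical in
/-- The multiplicative function with `∑_{e ∣ q} hh e = q / φ(q)` if `(q, a) = 1`, `0` otherwise. -/
def hh (a : ℤ) (e : ℕ) : ℝ := if Squarefree e then ∏ p ∈ e.primeFactors, gp a p else 0

theorem sum_hh (a : ℤ) (q : ℕ) (hq : 1 ≤ q) :
    ∑ e ∈ q.divisors, hh a e = ∏ p ∈ q.primeFactors, (1 + gp a p) := by
  classical
  have h1 : ∑ e ∈ q.divisors, hh a e =
      ∑ e ∈ q.divisors.filter Squarefree, ∏ p ∈ e.primeFactors, gp a p := by
    rw [sum_filter]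
    refine sum_congr rfl fun e _ => ?_
    unfold hh
    split_ifs <;> rfl
  rw [h1, prod_one_add]
  refine sum_bij' (fun e _ => e.primeFactors) (fun t _ => ∏ p ∈ t, p) ?_ ?_ ?_ ?_ ?_
  · intro e he
    rw [mem_filter, Nat.mem_divisors] at he
    rw [mem_powerset]
    exact Nat.primeFactors_mono he.1.1 (by omega)
  · intro t ht
    rw [mem_powerset] at ht
    have hp : ∀ p ∈ t, p.Prime := fun p hp => Nat.prime_of_mem_primeFactors (ht hp)
    rw [mem_filter, Nat.mem_divisors]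
    refine ⟨⟨?_, by omega⟩, ?_⟩
    · exact (prod_dvd_prod_of_subset _ _ _ ht).trans (Nat.prod_primeFactors_dvd q)
    · refine Finset.squarefree_prod_of_pairwise_isCoprime ?_ fun p hp' => (hp p hp').squarefree
      intro x hx y hy hxy
      exact Nat.coprime_iff_isRelPrime.1 ((Nat.coprime_primes (hp x hx) (hp y hy)).2 hxy)
  · intro e he
    rw [mem_filter, Nat.mem_divisors] at he
    exact Nat.prod_primeFactors_of_squarefree he.2
  · intro t ht
    rw [mem_powerset] at ht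
    exact Nat.primeFactors_prod fun p hp => Nat.prime_of_mem_primeFactors (ht hp)
  · intro e he
    rfl

theorem prod_eq (a : ℤ) (q : ℕ) (hq : 1 ≤ q) :
    ∏ p ∈ q.primeFactors, (1 + gp a p) =
      if q.Coprime a.natAbs then (q : ℝ) / q.totient else 0 := by
  split_ifs with h
  · have h1 := Nat.totient_mul_prod_primeFactors q
    have h2 : (q.totient : ℝ) * ∏ p ∈ q.primeFactors, (p : ℝ) =
        q * ∏ p ∈ q.primeFactors, ((p : ℝ) - 1) := by
      have h3 : ((q.totient * ∏ p ∈ q.primeFactors, p : ℕ) : ℝ) =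
          ((q * ∏ p ∈ q.primeFactors, (p - 1) : ℕ) : ℝ) := by rw [h1]
      push_cast at h3
      rw [h3]
      congr 1
      refine prod_congr rfl fun p hp => ?_
      rw [Nat.cast_sub (Nat.prime_of_mem_primeFactors hp).one_le, Nat.cast_one]
    have hpos : 0 < ∏ p ∈ q.primeFactors, ((p : ℝ) - 1) := by
      refine prod_pos fun p hp => ?_
      have : (2 : ℝ) ≤ p := by exact_mod_cast (Nat.prime_of_mem_primeFactors hp).two_le
      linarith
    have ht : (0 : ℝ) < q.totient := by exact_mod_cast Nat.totient_pos.2 hq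
    have h4 : ∏ p ∈ q.primeFactors, (1 + gp a p) =
        (∏ p ∈ q.primeFactors, (p : ℝ)) / ∏ p ∈ q.primeFactors, ((p : ℝ) - 1) := by
      rw [← prod_div_distrib]
      refine prod_congr rfl fun p hp => ?_
      have hpp := Nat.prime_of_mem_primeFactors hp
      have h5 : ¬ (p : ℤ) ∣ a := by
        intro h6
        have h7 : p ∣ a.natAbs := Int.natCast_dvd.1 h6
        exact Nat.not_coprime_of_dvd_of_dvd hpp.one_lt (Nat.dvd_of_mem_primeFactors hp) h7 h
      have h6 : (2 : ℝ) ≤ p := by exact_mod_cast hpp.two_le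
      unfold gp
      rw [if_neg h5]
      have : (p : ℝ) - 1 ≠ 0 := by linarith
      field_simp
      ring
    rw [h4, div_eq_div_iff hpos.ne' ht.ne']
    linarith
  · obtain ⟨p, hp, h1, h2⟩ := Nat.Prime.not_coprime_iff_dvd.1 h
    refine prod_eq_zero (i := p) (Nat.mem_primeFactors.2 ⟨hp, h1, by omega⟩) ?_
    unfold gp
    rw [if_pos (Int.natCast_dvd.2 h2)]
    norm_num

theorem hh_abs (a : ℤ) (ha : a ≠ 0) (e : ℕ) (he : 1 ≤ e) :
    |hh a e| ≤ a.natAbs * (e.divisors.card / (e : ℝ)) := by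
  have ha1 : 1 ≤ a.natAbs := Nat.one_le_iff_ne_zero.2 (Int.natAbs_ne_zero.2 ha)
  have he0 : (0 : ℝ) < e := by exact_mod_cast he
  unfold hh
  split_ifs with hsq
  · rw [abs_prod]
    have h1 : ∀ p ∈ e.primeFactors, |gp a p| ≤ (if (p : ℤ) ∣ a then (p : ℝ) else 1) * (2 / p) := by
      intro p hp
      have h6 : (2 : ℝ) ≤ p := by exact_mod_cast (Nat.prime_of_mem_primeFactors hp).two_le
      unfold gp
      split_ifs with h
      · rw [abs_neg, abs_one, mul_div_cancel₀]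
        · norm_num
        · linarith
      · rw [abs_of_nonneg (by apply div_nonneg <;> linarith), one_mul,
          div_le_div_iff₀ (by linarith) (by linarith)]
        linarith
    refine (prod_le_prod (fun p _ => abs_nonneg _) h1).trans ?_
    rw [prod_mul_distrib, prod_div_distrib, prod_const]
    have h2 : ∏ p ∈ e.primeFactors, (p : ℝ) = e := by
      rw [← Nat.cast_prod, Nat.prod_primeFactors_of_squarefree hsq]
    have h3 : (2 : ℝ) ^ e.primeFactors.card ≤ e.divisors.card := by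
      have h4 : 2 ^ e.primeFactors.card ≤ e.divisors.card := by
        rw [Nat.card_divisors (by omega)]
        refine Finset.pow_card_le_prod _ _ _ fun p hp => ?_
        have := (Nat.prime_of_mem_primeFactors hp).factorization_pos_of_dvd (by omega)
          (Nat.dvd_of_mem_primeFactors hp)
        omega
      exact_mod_cast h4
    have h4 : ∏ p ∈ e.primeFactors, (if (p : ℤ) ∣ a then (p : ℝ) else 1) ≤ a.natAbs := by
      rw [← prod_filter]
      have h5 : ∏ p ∈ e.primeFactors.filter (fun p : ℕ => (p : ℤ) ∣ a), p ≤ a.natAbs := by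
        refine Nat.le_of_dvd (by omega) ?_
        refine (prod_dvd_prod_of_subset _ _ _ ?_).trans (Nat.prod_primeFactors_dvd a.natAbs)
        intro p hp
        rw [mem_filter] at hp
        exact Nat.mem_primeFactors.2 ⟨Nat.prime_of_mem_primeFactors hp.1,
          Int.natCast_dvd.1 hp.2, by omega⟩
      rw [← Nat.cast_prod]
      exact_mod_cast h5
    rw [h2]
    refine mul_le_mul h4 (div_le_div_of_nonneg_right h3 he0.le) (by positivity) (by positivity)
  · rw [abs_zero]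
    positivity

/-- The weight `om q / q`. -/
def wv (L H q : ℕ) : ℝ := om L H q / q

theorem sum_Mo (L H : ℕ) (F : ℕ → ℝ) :
    ∑ q ∈ Mo L H, F q = ∑ i ∈ range (H + 1), F (L + i) := by
  have h1 : Mo L H = Ico L (L + H + 1) := by
    ext x
    simp only [Mo, mem_Icc, mem_Ico]
    omega
  rw [h1, sum_Ico_eq_sum_range]
  congr 2
  omega

theorem sum_Icc_int (H : ℕ) (G : ℤ → ℝ) :
    ∑ m ∈ Icc (1 : ℤ) H, G m = ∑ i ∈ range H, G ((i : ℤ) + 1) := by
  refine sum_bij' (fun m _ => (m - 1).toNat) (fun i _ => (i : ℤ) + 1) ?_ ?_ ?_ ?_ ?_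
  · intro m hm
    rw [mem_Icc] at hm
    rw [mem_range]
    omega
  · intro i hi
    rw [mem_range] at hi
    rw [mem_Icc]
    omega
  · intro m hm
    rw [mem_Icc] at hm
    show ((m - 1).toNat : ℤ) + 1 = m
    omega
  · intro i hi
    show ((i : ℤ) + 1 - 1).toNat = i
    omega
  · intro m hm
    rw [mem_Icc] at hm
    have : ((m - 1).toNat : ℤ) + 1 = m := by omega
    show G m = G (((m - 1).toNat : ℤ) + 1)
    rw [this]

theorem om_zero (L H : ℕ) : om L H L = 0 := by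
  unfold om
  rw [sub_self]
  exact tent_zero H 0 (Or.inl le_rfl)

theorem wv_nonneg (L H q : ℕ) : 0 ≤ wv L H q := div_nonneg (tent_nonneg _ _) (Nat.cast_nonneg _)

theorem wv_le (L H q : ℕ) (hL : 1 ≤ L) (hq : L ≤ q) : wv L H q ≤ 1 / (2 * L) := by
  have h0 : (0 : ℝ) < L := by exact_mod_cast hL
  have h1 : (L : ℝ) ≤ q := by exact_mod_cast hq
  have h2 : om L H q ≤ 1 / 2 := tent_le _ _
  unfold wv
  rw [div_le_div_iff₀ (by linarith) (by linarith)]
  nlinarith

/-- The total mass. -/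
def Vt (L H : ℕ) : ℝ := ∑ q ∈ Mo L H, wv L H q

theorem v_class (L H : ℕ) (hH : 1 ≤ H) (hHL : H ≤ L) (D : ℕ) (hD : 1 ≤ D) (r : ℤ) :
    |∑ q ∈ (Mo L H).filter (fun q : ℕ => (D : ℤ) ∣ (q : ℤ) - r), wv L H q - Vt L H / D| ≤
      9 / (2 * L) := by
  have hH0 : (0 : ℝ) < H := by exact_mod_cast hH
  have hL0 : (0 : ℝ) < L := by exact_mod_cast (show 0 < L by omega)
  have hHLR : (H : ℝ) ≤ L := by exact_mod_cast hHL
  set W : ℤ → ℝ := fun m => (2 * L / 3) * (tent H m / ((L : ℝ) + m)) with hW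
  have hW0 : ∀ m : ℤ, m ≤ 0 ∨ (H : ℤ) ≤ m → W m = 0 := by
    intro m hm
    simp only [hW, tent_zero H m hm, zero_div, mul_zero]
  have hpos : ∀ m : ℤ, 0 ≤ m → (L : ℝ) ≤ (L : ℝ) + m := by
    intro m hm
    have : (0 : ℝ) ≤ m := by exact_mod_cast hm
    linarith
  have h0 : ∀ m, 0 ≤ W m := by
    intro m
    rcases le_total m 0 with hm | hm
    · rw [hW0 m (Or.inl hm)]
    · have := hpos m hm
      exact mul_nonneg (by positivity) (div_nonneg (tent_nonneg _ _) (by linarith))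
  have h1 : ∀ m, W m ≤ 1 := by
    intro m
    rcases le_total m 0 with hm | hm
    · rw [hW0 m (Or.inl hm)]; norm_num
    · have h2 := hpos m hm
      have h3 : tent H m / ((L : ℝ) + m) ≤ (1 / 2) / L :=
        div_le_div₀ (by norm_num) (tent_le _ _) hL0 h2
      calc W m ≤ (2 * L / 3) * ((1 / 2) / L) := mul_le_mul_of_nonneg_left h3 (by positivity)
        _ = 1 / 3 := by field_simp
        _ ≤ 1 := by norm_num
  have hl : ∀ m, |W m - W (m + 1)| ≤ 1 / H := by
    intro m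
    rcases lt_or_ge m 0 with hm | hm
    · rw [hW0 m (Or.inl hm.le), hW0 (m + 1) (Or.inl (by omega)), sub_self, abs_zero]
      positivity
    · have h2 := hpos m hm
      have h4 : (0 : ℝ) < (L : ℝ) + m := by linarith
      have h5 : W m - W (m + 1) = (2 * L / 3) * ((tent H m - tent H (m + 1)) / ((L : ℝ) + m) +
          tent H (m + 1) * (1 / (((L : ℝ) + m) * ((L : ℝ) + m + 1)))) := by
        simp only [hW]
        push_cast
        have h6 : (L : ℝ) + (m + 1) ≠ 0 := by linarith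
        have h7 : (L : ℝ) + m + 1 ≠ 0 := by linarith
        have h8 : (L : ℝ) + m ≠ 0 := by linarith
        rw [← mul_sub]
        congr 1
        have h9 : (L : ℝ) + (m + 1) = (L : ℝ) + m + 1 := by ring
        rw [h9]
        field_simp
        ring
      rw [h5, abs_mul, abs_of_nonneg (by positivity : (0 : ℝ) ≤ 2 * L / 3)]
      have h6 : |(tent H m - tent H (m + 1)) / ((L : ℝ) + m)| ≤ (1 / H) / L := by
        rw [abs_div, abs_of_pos h4]
        exact div_le_div₀ (by positivity) (tent_lip H m) hL0 h2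
      have h7 : |tent H (m + 1) * (1 / (((L : ℝ) + m) * ((L : ℝ) + m + 1)))| ≤
          (1 / 2) * (1 / (L * H)) := by
        rw [abs_mul, abs_of_nonneg (tent_nonneg _ _), abs_of_nonneg (by positivity)]
        refine mul_le_mul (tent_le _ _) ?_ (by positivity) (by norm_num)
        refine one_div_le_one_div_of_le (by positivity) ?_
        exact mul_le_mul h2 (by linarith) hH0.le h4.le
      calc (2 * L / 3) * |(tent H m - tent H (m + 1)) / ((L : ℝ) + m) +
          tent H (m + 1) * (1 / (((L : ℝ) + m) * ((L : ℝ) + m + 1)))|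
          ≤ (2 * L / 3) * ((1 / H) / L + (1 / 2) * (1 / (L * H))) := by
            refine mul_le_mul_of_nonneg_left ((abs_add_le _ _).trans (add_le_add h6 h7))
              (by positivity)
        _ = 1 / H := by field_simp; norm_num
  have hc := class_sum H hH W h0 h1 hW0 hl D hD (r - L)
  -- conversion
  have e1 : ∀ P : ℤ → Prop, ∀ _ : DecidablePred P,
      ∑ m ∈ Icc (1 : ℤ) H, (if P m then W m else 0) =
      (2 * L / 3) * ∑ q ∈ Mo L H, (if P ((q : ℤ) - L) then wv L H q else 0) := by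
    intro P _
    rw [sum_Icc_int, sum_Mo, sum_range_succ', mul_add]
    have h2 : wv L H (L + 0) = 0 := by
      unfold wv
      rw [add_zero, om_zero, zero_div]
    rw [h2, ite_self, mul_zero, add_zero, mul_sum]
    refine sum_congr rfl fun i _ => ?_
    have h3 : ((L + (i + 1) : ℕ) : ℤ) - L = (i : ℤ) + 1 := by push_cast; ring
    rw [h3]
    split_ifs
    · simp only [hW, wv, om, h3]
      push_cast
      ring
    · rw [mul_zero]
  rw [sum_filter, e1 (fun m => (D : ℤ) ∣ m - (r - L)) (fun _ => inferInstance)] at hc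
  have e2 := e1 (fun _ => True) (fun _ => inferInstance)
  simp only [if_true] at e2
  rw [e2] at hc
  rw [sum_filter]
  have e3 : ∑ q ∈ Mo L H, (if (D : ℤ) ∣ (q : ℤ) - L - (r - L) then wv L H q else 0) =
      ∑ q ∈ Mo L H, (if (D : ℤ) ∣ (q : ℤ) - r then wv L H q else 0) := by
    refine sum_congr rfl fun q _ => ?_
    rw [sub_sub_sub_cancel_right]
  rw [e3] at hc
  unfold Vt
  have h9 : (2 * (L : ℝ) / 3) * ∑ q ∈ Mo L H, (if (D : ℤ) ∣ (q : ℤ) - r then wv L H q else 0) -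
      1 / (D : ℝ) * ((2 * L / 3) * ∑ q ∈ Mo L H, wv L H q) =
      (2 * (L : ℝ) / 3) * (∑ q ∈ Mo L H, (if (D : ℤ) ∣ (q : ℤ) - r then wv L H q else 0) -
        (∑ q ∈ Mo L H, wv L H q) / D) := by ring
  rw [h9, abs_mul, abs_of_nonneg (by positivity : (0 : ℝ) ≤ 2 * L / 3)] at hc
  rw [le_div_iff₀ (by positivity)]
  nlinarith

/-- `e ∣ q`, `d ∣ a + k q` is empty or one class. -/
theorem cls_or (a : ℤ) (e d k : ℕ) (hdk : d.Coprime k) :
    (∀ q : ℤ, ¬ ((e : ℤ) ∣ q ∧ (d : ℤ) ∣ a + k * q)) ∨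
    ∃ q0 : ℤ, (d : ℤ) ∣ a + k * q0 ∧
      ∀ q : ℤ, ((e : ℤ) ∣ q ∧ (d : ℤ) ∣ a + k * q) ↔ ((Nat.lcm e d : ℕ) : ℤ) ∣ q - q0 := by
  by_cases h : ∃ q0 : ℤ, (e : ℤ) ∣ q0 ∧ (d : ℤ) ∣ a + k * q0
  · right
    obtain ⟨q0, h1, h2⟩ := h
    refine ⟨q0, h2, fun q => ?_⟩
    have h3 : ((Nat.lcm e d : ℕ) : ℤ) ∣ q - q0 ↔ (e : ℤ) ∣ q - q0 ∧ (d : ℤ) ∣ q - q0 := by
      rw [Int.natCast_dvd, Int.natCast_dvd, Int.natCast_dvd, Nat.lcm_dvd_iff]
    rw [h3]
    have h4 : (e : ℤ) ∣ q ↔ (e : ℤ) ∣ q - q0 := (dvd_sub_left h1).symm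
    have h5 : (d : ℤ) ∣ a + k * q ↔ (d : ℤ) ∣ q - q0 := by
      have h6 : (d : ℤ) ∣ a + k * q ↔ (d : ℤ) ∣ (a + k * q) - (a + k * q0) :=
        (dvd_sub_left h2).symm
      rw [h6, (by ring : (a + k * q) - (a + k * q0) = (k : ℤ) * (q - q0))]
      constructor
      · intro h7
        exact (Nat.isCoprime_iff_coprime.2 hdk).dvd_of_dvd_mul_left h7
      · intro h7
        exact dvd_mul_of_dvd_right h7 _
    rw [h4, h5]
  · left
    intro q hq
    exact h ⟨q, hq⟩

theorem cls_s (a : ℤ) (l s k : ℕ) (q0 : ℤ) (hs : s.Prime) (hl : ¬ s ∣ l) (hk : ¬ s ∣ k) :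
    ∃ q2 : ℤ, ∀ q : ℤ, ((l : ℤ) ∣ q - q0 ∧ (s : ℤ) ∣ a + k * q) ↔ ((l * s : ℕ) : ℤ) ∣ q - q2 := by
  have h1 : IsCoprime ((k * l : ℕ) : ℤ) (s : ℤ) := by
    refine Nat.isCoprime_iff_coprime.2 ?_
    refine Nat.Coprime.mul_left ?_ ?_
    · exact ((Nat.Prime.coprime_iff_not_dvd hs).2 hk).symm
    · exact ((Nat.Prime.coprime_iff_not_dvd hs).2 hl).symm
  have hlS : IsCoprime (l : ℤ) (s : ℤ) :=
    Nat.isCoprime_iff_coprime.2 ((Nat.Prime.coprime_iff_not_dvd hs).2 hl).symm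
  have hkS : IsCoprime (s : ℤ) (k : ℤ) :=
    Nat.isCoprime_iff_coprime.2 ((Nat.Prime.coprime_iff_not_dvd hs).2 hk)
  obtain ⟨u, v, huv⟩ := h1
  push_cast at huv
  refine ⟨q0 + l * (-(u * (a + k * q0))), fun q => ?_⟩
  set q2 : ℤ := q0 + l * (-(u * (a + k * q0))) with hq2
  have h2 : (s : ℤ) ∣ a + k * q2 := by
    refine ⟨v * (a + k * q0), ?_⟩
    rw [hq2]
    linear_combination (-(a + k * q0)) * huv
  have h3 : (l : ℤ) ∣ q - q0 ↔ (l : ℤ) ∣ q - q2 := by
    have h4 : q - q2 = (q - q0) - l * (-(u * (a + k * q0))) := by rw [hq2]; ring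
    rw [h4]
    exact (dvd_sub_left (dvd_mul_right _ _)).symm
  have h5 : (s : ℤ) ∣ a + k * q ↔ (s : ℤ) ∣ q - q2 := by
    have h6 : (s : ℤ) ∣ a + k * q ↔ (s : ℤ) ∣ (a + k * q) - (a + k * q2) :=
      (dvd_sub_left h2).symm
    rw [h6, (by ring : (a + k * q) - (a + k * q2) = (k : ℤ) * (q - q2))]
    constructor
    · intro h7
      exact hkS.dvd_of_dvd_mul_left h7
    · intro h7
      exact dvd_mul_of_dvd_right h7 _
  rw [h3, h5]
  push_cast
  constructor
  · rintro ⟨h6, h7⟩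
    exact hlS.mul_dvd h6 h7
  · intro h6
    exact ⟨(dvd_mul_right _ _).trans h6, (dvd_mul_left _ _).trans h6⟩

/-- The sum over the moduli in `[L, L + H]` divisible by `e` with `d ∣ a + k q`. -/
def ZZ (a : ℤ) (L H k s d e : ℕ) : ℝ :=
  ∑ q ∈ Mo L H, wv L H q * (((if (s : ℤ) ∣ a + k * q then (1 : ℝ) else 0) - 1 / s) *
    ((if (d : ℤ) ∣ a + k * q then (1 : ℝ) else 0) * (if e ∣ q then (1 : ℝ) else 0)))

theorem Z_bound1 (a : ℤ) (L H k s d e : ℕ) (hH : 1 ≤ H) (hHL : H ≤ L) (hs : s.Prime)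
    (hsk : ¬ s ∣ k) (hse : ¬ s ∣ e) (hd : 1 ≤ d) (hds : d < s) (he : 1 ≤ e)
    (hdk : d.Coprime k) : |ZZ a L H k s d e| ≤ 9 / L := by
  have hL0 : (0 : ℝ) < L := by exact_mod_cast (show 0 < L by omega)
  have hs1 : (1 : ℝ) ≤ s := by exact_mod_cast hs.one_le
  rcases cls_or a e d k hdk with h | ⟨q0, h0, h⟩
  · have h1 : ZZ a L H k s d e = 0 := by
      unfold ZZ
      refine sum_eq_zero fun q _ => ?_
      have h2 := h q
      by_cases h3 : e ∣ q
      · have h4 : ¬ (d : ℤ) ∣ a + k * q := fun h5 => h2 ⟨by exact_mod_cast h3, h5⟩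
        rw [if_neg h4]
        ring
      · rw [if_neg h3]
        ring
    rw [h1, abs_zero]
    positivity
  · set l : ℕ := Nat.lcm e d with hl
    have hl1 : 1 ≤ l := Nat.lcm_pos he hd
    have hsl : ¬ s ∣ l := by
      intro h1
      have h2 : s ∣ e * d := h1.trans (Nat.lcm_dvd_mul e d)
      rcases (Nat.Prime.dvd_mul hs).1 h2 with h3 | h3
      · exact hse h3
      · exact absurd (Nat.le_of_dvd hd h3) (by omega)
    obtain ⟨q2, hq2⟩ := cls_s a l s k q0 hs hsl hsk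
    have h1 : ZZ a L H k s d e =
        (∑ q ∈ (Mo L H).filter (fun q : ℕ => ((l * s : ℕ) : ℤ) ∣ (q : ℤ) - q2), wv L H q -
          Vt L H / ((l * s : ℕ) : ℝ)) - (1 / (s : ℝ)) *
        (∑ q ∈ (Mo L H).filter (fun q : ℕ => (l : ℤ) ∣ (q : ℤ) - q0), wv L H q -
          Vt L H / l) := by
      have h2 : ZZ a L H k s d e =
          ∑ q ∈ (Mo L H).filter (fun q : ℕ => ((l * s : ℕ) : ℤ) ∣ (q : ℤ) - q2), wv L H q -
          (1 / (s : ℝ)) *
          ∑ q ∈ (Mo L H).filter (fun q : ℕ => (l : ℤ) ∣ (q : ℤ) - q0), wv L H q := by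
        unfold ZZ
        rw [sum_filter, sum_filter, mul_sum, ← sum_sub_distrib]
        refine sum_congr rfl fun q _ => ?_
        have h3 := h q
        have h4 := hq2 q
        by_cases h5 : (l : ℤ) ∣ (q : ℤ) - q0
        · have h6 := h3.2 h5
          have h7 : e ∣ q := by exact_mod_cast h6.1
          rw [if_pos h6.2, if_pos h7, if_pos h5]
          by_cases h8 : (s : ℤ) ∣ a + k * q
          · rw [if_pos h8, if_pos (h4.1 ⟨h5, h8⟩)]
            ring
          · have h9 : ¬ ((l * s : ℕ) : ℤ) ∣ (q : ℤ) - q2 := fun h10 => h8 (h4.2 h10).2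
            rw [if_neg h8, if_neg h9]
            ring
        · have h9 : ¬ ((l * s : ℕ) : ℤ) ∣ (q : ℤ) - q2 := fun h10 => h5 (h4.2 h10).1
          rw [if_neg h5, if_neg h9]
          by_cases h6 : e ∣ q
          · have h7 : ¬ (d : ℤ) ∣ a + k * q := fun h8 => h5 (h3.1 ⟨by exact_mod_cast h6, h8⟩)
            rw [if_neg h7]
            ring
          · rw [if_neg h6]
            ring
      rw [h2]
      have hl0 : (l : ℝ) ≠ 0 := by exact_mod_cast (by omega : l ≠ 0)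
      have hs0 : (s : ℝ) ≠ 0 := by linarith
      push_cast
      field_simp
      ring
    have b1 := v_class L H hH hHL (l * s) (Nat.mul_pos hl1 hs.pos) q2
    have b2 := v_class L H hH hHL l hl1 q0
    rw [h1]
    refine (abs_sub _ _).trans ?_
    rw [abs_mul, abs_of_nonneg (by positivity : (0 : ℝ) ≤ 1 / s)]
    have h5 : 1 / (s : ℝ) ≤ 1 := by
      rw [div_le_one (by linarith)]
      exact hs1
    have h6 : (1 / (s : ℝ)) *
        |∑ q ∈ (Mo L H).filter (fun q : ℕ => (l : ℤ) ∣ (q : ℤ) - q0), wv L H q -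
          Vt L H / l| ≤ 1 * (9 / (2 * L)) :=
      mul_le_mul h5 b2 (abs_nonneg _) (by norm_num)
    have h7 : (9 : ℝ) / (2 * L) + 1 * (9 / (2 * L)) = 9 / L := by
      field_simp
      norm_num
    linarith

theorem card_mult (L H e : ℕ) (he : 1 ≤ e) :
    ((Mo L H).filter (fun q => e ∣ q)).card ≤ H / e + 1 := by
  have h1 : ((Mo L H).filter (fun q => e ∣ q)).card ≤ (range (H / e + 1)).card := by
    refine card_le_card_of_injOn (fun q => (q - L) / e) ?_ ?_
    · intro q hq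
      have hq' := mem_filter.1 hq
      have h2 : L ≤ q ∧ q ≤ L + H := mem_Icc.1 hq'.1
      show (q - L) / e ∈ (range (H / e + 1) : Set ℕ)
      rw [mem_coe, mem_range]
      have : (q - L) / e ≤ H / e := Nat.div_le_div_right (by omega)
      omega
    · intro q hq q' hq' hqq
      rw [mem_coe] at hq hq'
      have h1 := mem_filter.1 hq
      have h1' := mem_filter.1 hq'
      have h2 : L ≤ q ∧ q ≤ L + H := mem_Icc.1 h1.1
      have h2' : L ≤ q' ∧ q' ≤ L + H := mem_Icc.1 h1'.1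
      have h3 : (q - L) / e = (q' - L) / e := hqq
      have h4 := Nat.div_add_mod (q - L) e
      have h5 := Nat.div_add_mod (q' - L) e
      have h6 := Nat.mod_lt (q - L) (show 0 < e by omega)
      have h7 := Nat.mod_lt (q' - L) (show 0 < e by omega)
      have h8 : (e : ℤ) ∣ (q : ℤ) - q' :=
        dvd_sub (by exact_mod_cast h1.2) (by exact_mod_cast h1'.2)
      rw [h3] at h4
      have h9 : |(q : ℤ) - q'| < e := by
        rw [abs_lt]
        omega
      have := Int.eq_zero_of_abs_lt_dvd h8 h9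
      omega
  rwa [card_range] at h1

theorem Z_bound2 (a : ℤ) (L H k s d e : ℕ) (hL : 1 ≤ L) (hs : s.Prime)
    (hsa : ¬ (s : ℤ) ∣ a) (hse : s ∣ e) (he : 1 ≤ e) :
    |ZZ a L H k s d e| ≤ (1 / (s : ℝ)) * ((1 / (2 * L)) * (H / e + 1)) := by
  have hL0 : (0 : ℝ) < L := by exact_mod_cast hL
  have hs1 : (1 : ℝ) ≤ s := by exact_mod_cast hs.one_le
  have he0 : (0 : ℝ) < e := by exact_mod_cast he
  unfold ZZ
  refine (abs_sum_le_sum_abs _ _).trans ?_
  have h1 : ∀ q ∈ Mo L H, |wv L H q * (((if (s : ℤ) ∣ a + k * q then (1 : ℝ) else 0) - 1 / s) *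
      ((if (d : ℤ) ∣ a + k * q then (1 : ℝ) else 0) * (if e ∣ q then (1 : ℝ) else 0)))| ≤
      if e ∣ q then (1 / (s : ℝ)) * (1 / (2 * L)) else 0 := by
    intro q hq
    have hq' : L ≤ q ∧ q ≤ L + H := mem_Icc.1 hq
    by_cases h2 : e ∣ q
    · rw [if_pos h2, if_pos h2]
      have h3 : ¬ (s : ℤ) ∣ a + k * q := by
        intro h4
        apply hsa
        have h5 : (s : ℤ) ∣ (k : ℤ) * q := by
          refine dvd_mul_of_dvd_right ?_ _
          exact_mod_cast hse.trans h2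
        have := dvd_sub h4 h5
        rwa [add_sub_cancel_right] at this
      rw [if_neg h3, zero_sub, mul_one, abs_mul, abs_mul, abs_neg,
        abs_of_nonneg (by positivity : (0 : ℝ) ≤ 1 / s), abs_of_nonneg (wv_nonneg L H q)]
      have h6 := wv_le L H q hL hq'.1
      have h7 : |(if (d : ℤ) ∣ a + k * q then (1 : ℝ) else 0)| ≤ 1 := by
        split_ifs <;> simp
      calc wv L H q * (1 / s * |(if (d : ℤ) ∣ a + k * q then (1 : ℝ) else 0)|)
          ≤ (1 / (2 * L)) * (1 / s * 1) := by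
            refine mul_le_mul h6 (mul_le_mul_of_nonneg_left h7 (by positivity))
              (by positivity) (by positivity)
        _ = 1 / (s : ℝ) * (1 / (2 * L)) := by ring
    · rw [if_neg h2, if_neg h2, mul_zero, mul_zero, mul_zero, abs_zero]
  refine (sum_le_sum h1).trans ?_
  rw [← sum_filter, sum_const, nsmul_eq_mul]
  have h2 : (((Mo L H).filter (fun q => e ∣ q)).card : ℝ) ≤ (H : ℝ) / e + 1 := by
    have h3 := card_mult L H e he
    have h4 : (((Mo L H).filter (fun q => e ∣ q)).card : ℝ) ≤ ((H / e : ℕ) : ℝ) + 1 := by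
      exact_mod_cast h3
    have h5 : ((H / e : ℕ) : ℝ) ≤ (H : ℝ) / e := Nat.cast_div_le
    linarith
  calc (((Mo L H).filter (fun q => e ∣ q)).card : ℝ) * (1 / (s : ℝ) * (1 / (2 * L)))
      ≤ ((H : ℝ) / e + 1) * (1 / (s : ℝ) * (1 / (2 * L))) :=
        mul_le_mul_of_nonneg_right h2 (by positivity)
    _ = 1 / (s : ℝ) * ((1 / (2 * L)) * (H / e + 1)) := by ring

/-! ### Sums over divisors -/

theorem sum_dvd_le (f : ℕ → ℝ) (hf : ∀ n, 0 ≤ f n) (X u : ℕ) (hu : 1 ≤ u) :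
    ∑ e ∈ (Icc 1 X).filter (fun e => u ∣ e), f e ≤ ∑ v ∈ Icc 1 X, f (u * v) := by
  have hinj : Set.InjOn (fun v => u * v) ((Icc 1 X : Finset ℕ) : Set ℕ) :=
    fun x _ y _ hxy => Nat.eq_of_mul_eq_mul_left (show 0 < u by omega) hxy
  rw [← sum_image (f := f) (g := fun v => u * v) hinj]
  refine sum_le_sum_of_subset_of_nonneg ?_ fun n _ _ => hf n
  intro e he
  rw [mem_filter, mem_Icc] at he
  obtain ⟨⟨h1, h2⟩, v, rfl⟩ := he
  rw [mem_image]
  have hv0 : v ≠ 0 := by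
    rintro rfl
    rw [mul_zero] at h1
    omega
  refine ⟨v, mem_Icc.2 ⟨by omega, ?_⟩, rfl⟩
  exact (Nat.le_mul_of_pos_left v (by omega)).trans h2

theorem sum_tau_le (f : ℕ → ℝ) (hf : ∀ n, 0 ≤ f n) (hm : ∀ m n, f (m * n) = f m * f n) (X : ℕ) :
    ∑ e ∈ Icc 1 X, (e.divisors.card : ℝ) * f e ≤ (∑ u ∈ Icc 1 X, f u) ^ 2 := by
  have h1 : ∀ e ∈ Icc 1 X, (e.divisors.card : ℝ) * f e =
      ∑ u ∈ Icc 1 X, if u ∣ e then f e else 0 := by
    intro e he
    rw [mem_Icc] at he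
    rw [← sum_filter, sum_const, nsmul_eq_mul]
    congr 2
    refine congrArg card ?_
    ext u
    rw [Nat.mem_divisors, mem_filter, mem_Icc]
    constructor
    · rintro ⟨h2, h3⟩
      exact ⟨⟨Nat.pos_of_dvd_of_pos h2 he.1, (Nat.le_of_dvd he.1 h2).trans he.2⟩, h2⟩
    · rintro ⟨_, h2⟩
      exact ⟨h2, by omega⟩
  rw [sum_congr rfl h1, sum_comm, sq, sum_mul]
  refine sum_le_sum fun u hu => ?_
  rw [mem_Icc] at hu
  rw [← sum_filter, mul_sum]
  refine (sum_dvd_le f hf X u hu.1).trans (le_of_eq ?_)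
  exact sum_congr rfl fun v _ => hm u v

theorem sum_inv_le (X : ℕ) : ∑ u ∈ Icc 1 X, (1 : ℝ) / u ≤ 1 + Real.log X := by
  have h1 := harmonic_le_one_add_log X
  refine le_trans (le_of_eq ?_) h1
  rw [harmonic_eq_sum_Icc]
  push_cast
  exact sum_congr rfl fun u _ => one_div _

theorem sum_inv_sq_le (X : ℕ) : ∑ u ∈ Icc 1 X, (1 : ℝ) / (u : ℝ) ^ 2 ≤ 2 := by
  have h1 := sum_Ioo_inv_sq_le (α := ℝ) 0 (X + 1)
  have h2 : Ioo 0 (X + 1) = Icc 1 X := by
    ext x
    simp only [mem_Ioo, mem_Icc]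
    omega
  rw [h2] at h1
  refine le_trans (le_of_eq (sum_congr rfl fun u _ => one_div _)) (h1.trans ?_)
  norm_num

theorem sum_tau_inv (X : ℕ) :
    ∑ e ∈ Icc 1 X, (e.divisors.card : ℝ) / e ≤ (1 + Real.log X) ^ 2 := by
  have h1 := sum_tau_le (fun n => (1 : ℝ) / n) (fun n => by positivity)
    (fun m n => by push_cast; rw [div_mul_div_comm, one_mul]) X
  have h2 : ∑ e ∈ Icc 1 X, (e.divisors.card : ℝ) / e =
      ∑ e ∈ Icc 1 X, (e.divisors.card : ℝ) * (1 / e) :=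
    sum_congr rfl fun e _ => by ring
  rw [h2]
  refine h1.trans (pow_le_pow_left₀ (sum_nonneg fun u _ => by positivity) (sum_inv_le X) 2)

theorem sum_tau_inv_sq (X s : ℕ) (hs : s.Prime) :
    ∑ e ∈ (Icc 1 X).filter (fun e => s ∣ e), (e.divisors.card : ℝ) / (e : ℝ) ^ 2 ≤
      8 / (s : ℝ) ^ 2 := by
  have hs0 : (0 : ℝ) < s := by exact_mod_cast hs.pos
  refine (sum_dvd_le (fun e => (e.divisors.card : ℝ) / (e : ℝ) ^ 2) (fun n => by positivity)
    X s hs.one_le).trans ?_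
  have h1 : ∀ v ∈ Icc 1 X, (((s * v).divisors.card : ℝ) / ((s * v : ℕ) : ℝ) ^ 2) ≤
      (2 / (s : ℝ) ^ 2) * ((v.divisors.card : ℝ) * (1 / (v : ℝ) ^ 2)) := by
    intro v hv
    rw [mem_Icc] at hv
    have hv0 : (0 : ℝ) < v := by exact_mod_cast hv.1
    have h2 : (s * v).divisors.card ≤ 2 * v.divisors.card := by
      rw [Nat.divisors_mul]
      refine card_mul_le.trans ?_
      rw [hs.divisors, card_pair hs.one_lt.ne]
    have h3 : ((s * v).divisors.card : ℝ) ≤ 2 * v.divisors.card := by exact_mod_cast h2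
    have h4 : (2 / (s : ℝ) ^ 2) * ((v.divisors.card : ℝ) * (1 / (v : ℝ) ^ 2)) =
        (2 * v.divisors.card) / ((s * v : ℕ) : ℝ) ^ 2 := by
      push_cast
      field_simp
    rw [h4]
    exact div_le_div_of_nonneg_right h3 (by positivity)
  refine (sum_le_sum h1).trans ?_
  rw [← mul_sum]
  have h2 := sum_tau_le (fun n => (1 : ℝ) / (n : ℝ) ^ 2) (fun n => by positivity)
    (fun m n => by push_cast; rw [div_mul_div_comm, one_mul, mul_pow]) X
  have h3 : (∑ u ∈ Icc 1 X, (1 : ℝ) / (u : ℝ) ^ 2) ^ 2 ≤ 4 := by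
    have h4 := pow_le_pow_left₀ (sum_nonneg fun u (_ : u ∈ Icc 1 X) => by positivity)
      (sum_inv_sq_le X) 2
    linarith
  calc (2 / (s : ℝ) ^ 2) * ∑ v ∈ Icc 1 X, ((v.divisors.card : ℝ) * (1 / (v : ℝ) ^ 2))
      ≤ (2 / (s : ℝ) ^ 2) * 4 := mul_le_mul_of_nonneg_left (h2.trans h3) (by positivity)
    _ = 8 / (s : ℝ) ^ 2 := by ring

theorem e_sum (a : ℤ) (ha : a ≠ 0) (L H k s d : ℕ) (hH : 1 ≤ H) (hHL : H ≤ L) (hs : s.Prime)
    (hsk : ¬ s ∣ k) (hsa : ¬ (s : ℤ) ∣ a) (hd : 1 ≤ d) (hds : d < s) (hdk : d.Coprime k) :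
    |∑ e ∈ Icc 1 (2 * L), hh a e * ZZ a L H k s d e| ≤
      a.natAbs * (10 * ((1 + Real.log (2 * L)) ^ 2 / L) + 4 * ((H / L) * (1 / (s : ℝ) ^ 2))) := by
  have hL0 : (0 : ℝ) < L := by exact_mod_cast (show 0 < L by omega)
  have hH0 : (0 : ℝ) < H := by exact_mod_cast hH
  have hs1 : (1 : ℝ) ≤ s := by exact_mod_cast hs.one_le
  have ha0 : (0 : ℝ) ≤ a.natAbs := Nat.cast_nonneg _
  refine (abs_sum_le_sum_abs _ _).trans ?_
  have h1 : ∀ e ∈ Icc 1 (2 * L), |hh a e * ZZ a L H k s d e| ≤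
      a.natAbs * (10 / L) * ((e.divisors.card : ℝ) / e) +
      (if s ∣ e then a.natAbs * (1 / s * (1 / (2 * L))) * H *
        ((e.divisors.card : ℝ) / (e : ℝ) ^ 2) else 0) := by
    intro e he
    rw [mem_Icc] at he
    have he0 : (0 : ℝ) < e := by exact_mod_cast he.1
    have h2 := hh_abs a ha e he.1
    rw [abs_mul]
    split_ifs with h3
    · have h4 := Z_bound2 a L H k s d e (by omega) hs hsa h3 he.1
      have h5 : |hh a e| * |ZZ a L H k s d e| ≤
          (a.natAbs * (e.divisors.card / (e : ℝ))) *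
            ((1 / (s : ℝ)) * ((1 / (2 * L)) * (H / e + 1))) :=
        mul_le_mul h2 h4 (abs_nonneg _) (by positivity)
      refine h5.trans ?_
      have h6 : (a.natAbs * (e.divisors.card / (e : ℝ))) *
            ((1 / (s : ℝ)) * ((1 / (2 * L)) * (H / e + 1))) =
          a.natAbs * ((1 / (s : ℝ)) * (1 / (2 * L))) * ((e.divisors.card : ℝ) / e) +
          a.natAbs * (1 / s * (1 / (2 * L))) * H * ((e.divisors.card : ℝ) / (e : ℝ) ^ 2) := by
        field_simp
        ring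
      rw [h6]
      refine add_le_add (mul_le_mul_of_nonneg_right (mul_le_mul_of_nonneg_left ?_ ha0)
        (by positivity)) le_rfl
      have h7 : 1 / (s : ℝ) ≤ 1 := by
        rw [div_le_one (by linarith)]
        exact hs1
      calc (1 / (s : ℝ)) * (1 / (2 * L)) ≤ 1 * (1 / (2 * L)) :=
            mul_le_mul_of_nonneg_right h7 (by positivity)
        _ ≤ 10 / L := by
            rw [one_mul, div_le_div_iff₀ (by positivity) hL0]
            nlinarith
    · have h4 := Z_bound1 a L H k s d e hH hHL hs hsk h3 hd hds he.1 hdk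
      have h5 : |hh a e| * |ZZ a L H k s d e| ≤
          (a.natAbs * (e.divisors.card / (e : ℝ))) * (9 / L) :=
        mul_le_mul h2 h4 (abs_nonneg _) (by positivity)
      refine h5.trans ?_
      rw [add_zero]
      have h6 : (a.natAbs * (e.divisors.card / (e : ℝ))) * (9 / L) =
          a.natAbs * (9 / L) * ((e.divisors.card : ℝ) / e) := by ring
      rw [h6]
      refine mul_le_mul_of_nonneg_right (mul_le_mul_of_nonneg_left ?_ ha0) (by positivity)
      exact div_le_div_of_nonneg_right (by norm_num) hL0.le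
  refine (sum_le_sum h1).trans ?_
  rw [sum_add_distrib, ← mul_sum, ← sum_filter, ← mul_sum]
  have h2 := sum_tau_inv (2 * L)
  have h3 := sum_tau_inv_sq (2 * L) s hs
  push_cast at h2
  have h4 : a.natAbs * (10 / (L : ℝ)) * ∑ e ∈ Icc 1 (2 * L), ((e.divisors.card : ℝ) / e) ≤
      a.natAbs * (10 / (L : ℝ)) * (1 + Real.log (2 * L)) ^ 2 :=
    mul_le_mul_of_nonneg_left h2 (by positivity)
  have h5 : a.natAbs * (1 / (s : ℝ) * (1 / (2 * L))) * H *
      ∑ e ∈ (Icc 1 (2 * L)).filter (fun e => s ∣ e), ((e.divisors.card : ℝ) / (e : ℝ) ^ 2) ≤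
      a.natAbs * (1 * (1 / (2 * L))) * H * (8 / (s : ℝ) ^ 2) := by
    refine mul_le_mul ?_ h3 (sum_nonneg fun e _ => by positivity) (by positivity)
    have h7 : 1 / (s : ℝ) ≤ 1 := by
      rw [div_le_one (by linarith)]
      exact hs1
    gcongr
  calc _ ≤ a.natAbs * (10 / (L : ℝ)) * (1 + Real.log (2 * L)) ^ 2 +
        a.natAbs * (1 * (1 / (2 * L))) * H * (8 / (s : ℝ) ^ 2) := add_le_add h4 h5
    _ = a.natAbs * (10 * ((1 + Real.log (2 * L)) ^ 2 / L) + 4 * ((H / L) * (1 / (s : ℝ) ^ 2))) := by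
        have : (s : ℝ) ≠ 0 := by linarith
        field_simp
        ring

theorem inv_tot (a : ℤ) (X q : ℕ) (hq : 1 ≤ q) (hqX : q ≤ X) :
    (if q.Coprime a.natAbs then 1 / (q.totient : ℝ) else 0) =
      (1 / (q : ℝ)) * ∑ e ∈ Icc 1 X, (if e ∣ q then hh a e else 0) := by
  have h1 : q.divisors = (Icc 1 X).filter (fun e => e ∣ q) := by
    ext e
    rw [Nat.mem_divisors, mem_filter, mem_Icc]
    constructor
    · rintro ⟨h2, h3⟩
      exact ⟨⟨Nat.pos_of_dvd_of_pos h2 hq, (Nat.le_of_dvd hq h2).trans hqX⟩, h2⟩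
    · rintro ⟨_, h2⟩
      exact ⟨h2, by omega⟩
  rw [← sum_filter, ← h1, sum_hh a q hq, prod_eq a q hq]
  have h0 : (q : ℝ) ≠ 0 := by exact_mod_cast (by omega : q ≠ 0)
  split_ifs
  · field_simp
  · rw [mul_zero]

theorem cq_eq (b : ℕ → ℕ → ℝ) (T K : ℕ) (S : Finset ℕ) (a : ℤ) (q : ℕ) :
    cq b T K S a q = ∑ k ∈ Icc 1 K, ∑ s ∈ S, ∑ d ∈ Icc 1 T, b k d *
      (((if (s : ℤ) ∣ a + k * q then (1 : ℝ) else 0) - 1 / s) *
        (if (d : ℤ) ∣ a + k * q then (1 : ℝ) else 0)) := by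
  unfold cq Fk fk lam
  refine sum_congr rfl fun k _ => sum_congr rfl fun s _ => ?_
  rw [sum_filter, mul_sum]
  refine sum_congr rfl fun d _ => ?_
  split_ifs <;> ring

theorem main_id (a : ℤ) (L H K T : ℕ) (hH : 1 ≤ H) (hHL : H ≤ L)
    (b : ℕ → ℕ → ℝ) (S : Finset ℕ) :
    ∑ q ∈ Ma a L H, om L H q * cq b T K S a q / (q.totient : ℝ) =
      ∑ k ∈ Icc 1 K, ∑ s ∈ S, ∑ d ∈ Icc 1 T, b k d *
        ∑ e ∈ Icc 1 (2 * L), hh a e * ZZ a L H k s d e := by
  have h1 : ∑ q ∈ Ma a L H, om L H q * cq b T K S a q / (q.totient : ℝ) =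
      ∑ q ∈ Mo L H, ∑ k ∈ Icc 1 K, ∑ s ∈ S, ∑ d ∈ Icc 1 T, ∑ e ∈ Icc 1 (2 * L),
        b k d * (hh a e * (wv L H q * (((if (s : ℤ) ∣ a + k * q then (1 : ℝ) else 0) - 1 / s) *
          ((if (d : ℤ) ∣ a + k * q then (1 : ℝ) else 0) * (if e ∣ q then (1 : ℝ) else 0))))) := by
    unfold Ma
    rw [sum_filter]
    refine sum_congr rfl fun q hq => ?_
    have hq' : L ≤ q ∧ q ≤ L + H := mem_Icc.1 hq
    have h2 : (if q.Coprime a.natAbs then om L H q * cq b T K S a q / (q.totient : ℝ) else 0) =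
        cq b T K S a q * (om L H q *
          (if q.Coprime a.natAbs then 1 / (q.totient : ℝ) else 0)) := by
      split_ifs <;> ring
    rw [h2, inv_tot a (2 * L) q (by omega) (by omega), cq_eq, sum_mul]
    refine sum_congr rfl fun k _ => ?_
    rw [sum_mul]
    refine sum_congr rfl fun s _ => ?_
    rw [sum_mul]
    refine sum_congr rfl fun d _ => ?_
    rw [mul_sum, mul_sum, mul_sum]
    refine sum_congr rfl fun e _ => ?_
    unfold wv
    split_ifs <;> ring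
  rw [h1, sum_comm]
  refine sum_congr rfl fun k _ => ?_
  rw [sum_comm]
  refine sum_congr rfl fun s _ => ?_
  rw [sum_comm]
  refine sum_congr rfl fun d _ => ?_
  rw [sum_comm, mul_sum]
  refine sum_congr rfl fun e _ => ?_
  unfold ZZ
  rw [← mul_sum, ← mul_sum]

end Mea

/-- F11. The mean term. -/
theorem mean_term (a : ℤ) (ha : a ≠ 0) (L H K T : ℕ) (hH : 1 ≤ H) (hHL : H ≤ L) (hT : 1 ≤ T)
    (b : ℕ → ℕ → ℝ) (hb : ∀ k ∈ Icc 1 K, Wt (b k) k T) (S : Finset ℕ)
    (hS : ∀ s ∈ S, s.Prime ∧ T < s ∧ K * a.natAbs < s) :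
    |∑ q ∈ Ma a L H, om L H q * cq b T K S a q / (q.totient : ℝ)| ≤
      100 * K * (T : ℝ) ^ 3 * a.natAbs * ((S.card : ℝ) * (1 + Real.log (2 * L)) ^ 2 / L +
        (H / L) * ∑ s ∈ S, 1 / (s : ℝ) ^ 2) := by
  have hL0 : (0 : ℝ) < L := by exact_mod_cast (show 0 < L by omega)
  have ha1 : 1 ≤ a.natAbs := Nat.one_le_iff_ne_zero.2 (Int.natAbs_ne_zero.2 ha)
  rw [Mea.main_id a L H K T hH hHL b S]
  set Bs : ℕ → ℝ := fun s => a.natAbs * (10 * ((1 + Real.log (2 * L)) ^ 2 / L) +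
    4 * ((H / L) * (1 / (s : ℝ) ^ 2))) with hBs
  have hBs0 : ∀ s, 0 ≤ Bs s := fun s => by positivity
  have h1 : ∀ k ∈ Icc 1 K, ∀ s ∈ S, ∀ d ∈ Icc 1 T,
      |b k d * ∑ e ∈ Icc 1 (2 * L), Mea.hh a e * Mea.ZZ a L H k s d e| ≤ |b k d| * Bs s := by
    intro k hk s hs d hd
    rw [abs_mul]
    by_cases h2 : b k d = 0
    · rw [h2, abs_zero, zero_mul, zero_mul]
    · refine mul_le_mul_of_nonneg_left ?_ (abs_nonneg _)
      obtain ⟨hsp, hTs, hKs⟩ := hS s hs
      have hk' := mem_Icc.1 hk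
      have hd' := mem_Icc.1 hd
      have hks : k < s := by
        have : K ≤ K * a.natAbs := Nat.le_mul_of_pos_right _ ha1
        omega
      have has : a.natAbs < s := by
        have : a.natAbs ≤ K * a.natAbs := Nat.le_mul_of_pos_left _ (by omega)
        omega
      refine Mea.e_sum a ha L H k s d hH hHL hsp ?_ ?_ hd'.1 (by omega) ((hb k hk).cop d hd h2)
      · intro h3
        exact absurd (Nat.le_of_dvd (by omega) h3) (by omega)
      · intro h3
        exact absurd (Nat.le_of_dvd (by omega) (Int.natCast_dvd.1 h3)) (by omega)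
  have h2 : |∑ k ∈ Icc 1 K, ∑ s ∈ S, ∑ d ∈ Icc 1 T, b k d *
      ∑ e ∈ Icc 1 (2 * L), Mea.hh a e * Mea.ZZ a L H k s d e| ≤
      ∑ k ∈ Icc 1 K, ∑ s ∈ S, (T : ℝ) ^ 3 * Bs s := by
    refine (abs_sum_le_sum_abs _ _).trans (sum_le_sum fun k hk => ?_)
    refine (abs_sum_le_sum_abs _ _).trans (sum_le_sum fun s hs => ?_)
    refine (abs_sum_le_sum_abs _ _).trans ((sum_le_sum (h1 k hk s hs)).trans ?_)
    rw [← sum_mul]
    exact mul_le_mul_of_nonneg_right (hb k hk).bb (hBs0 s)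
  refine h2.trans ?_
  rw [sum_const, Nat.card_Icc, nsmul_eq_mul, Nat.add_sub_cancel, ← mul_sum]
  have h3 : ∑ s ∈ S, Bs s = a.natAbs * (10 * ((S.card : ℝ) * (1 + Real.log (2 * L)) ^ 2 / L) +
      4 * ((H / L) * ∑ s ∈ S, 1 / (s : ℝ) ^ 2)) := by
    simp only [hBs]
    rw [← mul_sum, sum_add_distrib, sum_const, nsmul_eq_mul, ← mul_sum, ← mul_sum]
    ring
  rw [h3]
  have h4 : 0 ≤ (S.card : ℝ) * (1 + Real.log (2 * L)) ^ 2 / L := by positivity
  have h5 : 0 ≤ (H / L : ℝ) * ∑ s ∈ S, 1 / (s : ℝ) ^ 2 :=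
    mul_nonneg (by positivity) (sum_nonneg fun s _ => by positivity)
  have h6 : (K : ℝ) * ((T : ℝ) ^ 3 * (a.natAbs *
      (10 * ((S.card : ℝ) * (1 + Real.log (2 * L)) ^ 2 / L) +
      4 * ((H / L) * ∑ s ∈ S, 1 / (s : ℝ) ^ 2)))) =
      (K * (T : ℝ) ^ 3 * a.natAbs) * (10 * ((S.card : ℝ) * (1 + Real.log (2 * L)) ^ 2 / L) +
      4 * ((H / L) * ∑ s ∈ S, 1 / (s : ℝ) ^ 2)) := by ring
  rw [h6, (by ring : 100 * (K : ℝ) * (T : ℝ) ^ 3 * a.natAbs *
      ((S.card : ℝ) * (1 + Real.log (2 * L)) ^ 2 / L + (H / L) * ∑ s ∈ S, 1 / (s : ℝ) ^ 2) =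
      (K * (T : ℝ) ^ 3 * a.natAbs) * (100 * ((S.card : ℝ) * (1 + Real.log (2 * L)) ^ 2 / L) +
      100 * ((H / L) * ∑ s ∈ S, 1 / (s : ℝ) ^ 2)))]
  refine mul_le_mul_of_nonneg_left ?_ (by positivity)
  linarith

end

end Pool.Agent.M848.FC
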