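import Pool.Agent.Lib.MP_848d44_nt.F.Base

/-!
# MP_848d44_nt, fixed residue class: sizes of the error terms
-/

set_option autoImplicit false

namespace Pool.Agent.M848.FC

open Finset
open scoped ArithmeticFunction ComplexConjugate

noncomputable section

/-- The sizes of the parameters. -/
structure Sz (N L H K T j₀ j₁ A : ℕ) (u m C : ℝ) : Prop where
  u4 : 4 ≤ u
  um : u ^ 800 ≤ m
  Nm : (N : ℝ) = m ^ 6
  lg : Real.log N ≤ C * u
  C1 : 1 ≤ C
  K1 : (1 : ℝ) ≤ K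
  Km : (K : ℝ) * u ^ 400 ≤ 2 * m
  KL : (K : ℝ) * L ≤ 2 * N
  NK : (N : ℝ) ≤ 2 * K * L
  Tu : (T : ℝ) ≤ u
  HL : (H : ℝ) ≤ L
  LH : (L : ℝ) ≤ H * u
  Lm : m ^ 5 * u ^ 400 ≤ L
  L_N : (L : ℝ) ≤ N
  j0 : (K : ℝ) * u ^ 100 ≤ 2 ^ j₀
  j1 : (2 : ℝ) ^ j₁ ≤ K * u ^ 200
  jj : (j₁ : ℝ) ≤ 2 * C * u
  A1 : (1 : ℝ) ≤ A
  AL : (A : ℝ) ≤ L
  Au : (A : ℝ) ≤ u

namespace Sz

variable {N L H K T j₀ j₁ A : ℕ} {u m C : ℝ}

theorem u0 (h : Sz N L H K T j₀ j₁ A u m C) : 0 < u := by linarith [h.u4]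

theorem u1 (h : Sz N L H K T j₀ j₁ A u m C) : 1 ≤ u := by linarith [h.u4]

theorem m1 (h : Sz N L H K T j₀ j₁ A u m C) : 1 ≤ m :=
  le_trans (one_le_pow₀ h.u1) h.um

theorem m0 (h : Sz N L H K T j₀ j₁ A u m C) : 0 < m := by linarith [h.m1]

theorem pw (h : Sz N L H K T j₀ j₁ A u m C) {i j : ℕ} (hij : i ≤ j) : u ^ i ≤ u ^ j :=
  pow_le_pow_right₀ h.u1 hij

theorem um' (h : Sz N L H K T j₀ j₁ A u m C) {i : ℕ} (hi : i ≤ 800) : u ^ i ≤ m :=
  (h.pw hi).trans h.um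

theorem L0 (h : Sz N L H K T j₀ j₁ A u m C) : (0 : ℝ) < L := by
  have h1 := h.Lm
  have h2 := h.u0
  have h3 := h.m0
  have : 0 < m ^ 5 * u ^ 400 := by positivity
  linarith

theorem H0 (h : Sz N L H K T j₀ j₁ A u m C) : (0 : ℝ) < H := by
  have h1 := h.LH
  have h2 := h.u0
  have h3 := h.L0
  by_contra h4
  push Not at h4
  nlinarith

theorem K0 (h : Sz N L H K T j₀ j₁ A u m C) : (0 : ℝ) < K := by linarith [h.K1]

theorem N0 (h : Sz N L H K T j₀ j₁ A u m C) : (0 : ℝ) < N := by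
  rw [h.Nm]
  have := h.m0
  positivity

/-- `K³ u^1200 ≤ 8 m³` -/
theorem K3 (h : Sz N L H K T j₀ j₁ A u m C) : (K : ℝ) ^ 3 * u ^ 1200 ≤ 8 * m ^ 3 := by
  have h1 := h.Km
  have h2 := h.u0
  have h3 := h.K0
  calc (K : ℝ) ^ 3 * u ^ 1200 = (K * u ^ 400) ^ 3 := by ring
    _ ≤ (2 * m) ^ 3 := by gcongr
    _ = 8 * m ^ 3 := by ring

/-- `K³ X ≤ 8 N` if `X ≤ u^1900` -/
theorem K3' (h : Sz N L H K T j₀ j₁ A u m C) : (K : ℝ) ^ 3 * u ^ 2000 ≤ 8 * N := by
  have h2 := h.u0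
  have h3 := h.m0
  calc (K : ℝ) ^ 3 * u ^ 2000 = (K ^ 3 * u ^ 1200) * u ^ 800 := by ring
    _ ≤ (8 * m ^ 3) * m := by
        have := h.K3
        have := h.um
        gcongr
    _ ≤ (8 * m ^ 3) * m ^ 3 := by
        have h1 := h.m1
        gcongr
        exact le_self_pow₀ h1 (by norm_num)
    _ = 8 * N := by rw [h.Nm]; ring

theorem card_le (h : Sz N L H K T j₀ j₁ A u m C) : ((SS 1 j₀ j₁).card : ℝ) ≤ K * u ^ 200 := by
  refine le_trans ?_ h.j1
  exact_mod_cast card_SS 1 j₀ j₁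

theorem isq (h : Sz N L H K T j₀ j₁ A u m C) :
    ∑ s ∈ SS 1 j₀ j₁, 1 / (s : ℝ) ^ 2 ≤ 2 * C / (K * u ^ 99) := by
  refine (inv_sq_sum 1 j₀ j₁).trans ?_
  have h1 := h.u0
  have h2 := h.K0
  have hC := h.C1
  calc (j₁ : ℝ) / 2 ^ j₀ ≤ (2 * C * u) / (K * u ^ 100) := by
        apply div_le_div₀ (by positivity) h.jj (by positivity) h.j0
    _ = 2 * C / (K * u ^ 99) := by
        field_simp

theorem log0 : (0 : ℝ) ≤ Real.log N := Real.log_natCast_nonneg N

/-- the diagonal error -/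
theorem e2 (h : Sz N L H K T j₀ j₁ A u m C) :
    3 * K * ((2 ^ j₁ : ℕ) : ℝ) * (T : ℝ) ^ 3 * (1 + (SS 1 j₀ j₁).card) * Real.log N ≤
      48 * C * (N / u ^ 50) := by
  have h1 := h.u0
  have h2 := h.K0
  have hC := h.C1
  have hlg : 0 ≤ Real.log N := log0
  have hs : (1 + (SS 1 j₀ j₁).card : ℝ) ≤ 2 * (K * u ^ 200) := by
    have h3 := h.card_le
    have h4 : 1 ≤ (K : ℝ) * u ^ 200 := by
      have := one_le_pow₀ h.u1 (n := 200)
      have := h.K1
      nlinarith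
    linarith
  have hT := h.Tu
  have hj : ((2 ^ j₁ : ℕ) : ℝ) ≤ K * u ^ 200 := by
    push_cast
    exact h.j1
  have hlg' := h.lg
  have hm := h.m0
  calc 3 * K * ((2 ^ j₁ : ℕ) : ℝ) * (T : ℝ) ^ 3 * (1 + (SS 1 j₀ j₁).card) * Real.log N
      ≤ 3 * K * (K * u ^ 200) * u ^ 3 * (2 * (K * u ^ 200)) * (C * u) := by gcongr
    _ = 6 * C * ((K ^ 3 * u ^ 2000) * (u ^ 404 / u ^ 2000)) := by field_simp; ring
    _ ≤ 6 * C * ((8 * N) * (u ^ 404 / u ^ 2000)) := by
        have := h.K3'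
        gcongr
    _ = 48 * C * (N * (u ^ 404 / u ^ 2000)) := by ring
    _ ≤ 48 * C * (N / u ^ 50) := by
        have hN := h.N0
        rw [div_eq_mul_one_div (N : ℝ) (u ^ 50)]
        gcongr 48 * C * (N * ?_)
        rw [div_le_div_iff₀ (by positivity) (by positivity), one_mul, ← pow_add]
        exact h.pw (by norm_num)

/-- the error from the moduli not coprime to `a` -/
theorem e3 (h : Sz N L H K T j₀ j₁ A u m C) :
    2 * (K : ℝ) ^ 2 * (T : ℝ) ^ 3 * (1 + (SS 1 j₀ j₁).card) * Nat.log 2 A * Real.log N ≤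
      64 * C ^ 2 * (N / u ^ 50) := by
  have h1 := h.u0
  have h2 := h.K0
  have hC := h.C1
  have hlg : 0 ≤ Real.log N := log0
  have hs : (1 + (SS 1 j₀ j₁).card : ℝ) ≤ 2 * (K * u ^ 200) := by
    have h3 := h.card_le
    have h4 : 1 ≤ (K : ℝ) * u ^ 200 := by
      have := one_le_pow₀ h.u1 (n := 200)
      have := h.K1
      nlinarith
    linarith
  have hT := h.Tu
  have hlg' := h.lg
  have hm := h.m0
  have hA : (Nat.log 2 A : ℝ) ≤ 2 * (C * u) := by
    have h5 : (Nat.log 2 A : ℝ) * Real.log 2 ≤ Real.log N := by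
      have h6 : (2 : ℝ) ^ (Nat.log 2 A) ≤ A := by
        have hA0 : A ≠ 0 := by
          intro h0
          have := h.A1
          rw [h0] at this
          norm_num at this
        exact_mod_cast Nat.pow_log_le_self 2 hA0
      have h7 := Real.log_le_log (by positivity) (h6.trans (h.AL.trans h.L_N))
      rwa [Real.log_pow] at h7
    have h8 : (1 : ℝ) / 2 ≤ Real.log 2 := by linarith [Real.log_two_gt_d9]
    have h9 : (0 : ℝ) ≤ (Nat.log 2 A : ℝ) := Nat.cast_nonneg _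
    nlinarith
  calc 2 * (K : ℝ) ^ 2 * (T : ℝ) ^ 3 * (1 + (SS 1 j₀ j₁).card) * Nat.log 2 A * Real.log N
      ≤ 2 * (K : ℝ) ^ 2 * u ^ 3 * (2 * (K * u ^ 200)) * (2 * (C * u)) * (C * u) := by gcongr
    _ = 8 * C ^ 2 * ((K ^ 3 * u ^ 2000) * (u ^ 205 / u ^ 2000)) := by field_simp; ring
    _ ≤ 8 * C ^ 2 * ((8 * N) * (u ^ 205 / u ^ 2000)) := by
        have := h.K3'
        gcongr
    _ = 64 * C ^ 2 * (N * (u ^ 205 / u ^ 2000)) := by ring
    _ ≤ 64 * C ^ 2 * (N / u ^ 50) := by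
        have hN := h.N0
        rw [div_eq_mul_one_div (N : ℝ) (u ^ 50)]
        gcongr 64 * C ^ 2 * (N * ?_)
        rw [div_le_div_iff₀ (by positivity) (by positivity), one_mul, ← pow_add]
        exact h.pw (by norm_num)

/-- the mean term -/
theorem e4 (h : Sz N L H K T j₀ j₁ A u m C) :
    N * (100 * K * (T : ℝ) ^ 3 * A * (((SS 1 j₀ j₁).card : ℝ) * (1 + Real.log (2 * L)) ^ 2 / L +
        (H / L) * ∑ s ∈ SS 1 j₀ j₁, 1 / (s : ℝ) ^ 2)) ≤
      (15000 * C ^ 2) * (N / u ^ 50) := by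
  have h1 := h.u0
  have h2 := h.K0
  have hC := h.C1
  have hT := h.Tu
  have hlg' := h.lg
  have hm := h.m0
  have hN := h.N0
  have hL := h.L0
  have hA : (0 : ℝ) < A := by linarith [h.A1]
  have hlog : 1 + Real.log (2 * L) ≤ 3 * C * u := by
    have h3 : Real.log (2 * L) ≤ Real.log 2 + Real.log N := by
      rw [← Real.log_mul (by norm_num) hN.ne']
      apply Real.log_le_log (by positivity)
      have := h.L_N
      linarith
    have h4 : Real.log 2 ≤ 1 := by linarith [Real.log_two_lt_d9]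
    have h5 : 1 ≤ C * u := by nlinarith [h.u1]
    linarith
  have hlog0 : 0 ≤ 1 + Real.log (2 * L) := by
    have hL1 : (1 : ℝ) ≤ L := by
      have h3 := h.Lm
      have h4 : 1 ≤ m ^ 5 * u ^ 400 := by
        have e1 := one_le_pow₀ h.m1 (n := 5)
        have e2 := one_le_pow₀ h.u1 (n := 400)
        nlinarith
      linarith
    have : 0 ≤ Real.log (2 * L) := Real.log_nonneg (by linarith)
    linarith
  have hi := h.isq
  have hi0 : 0 ≤ ∑ s ∈ SS 1 j₀ j₁, 1 / (s : ℝ) ^ 2 := sum_nonneg fun s _ => by positivity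
  have hHL : (H : ℝ) / L ≤ 1 := by
    rw [div_le_one hL]
    exact h.HL
  have hH0 : (0 : ℝ) ≤ (H : ℝ) / L := by positivity
  -- first part
  have p1 : N * (((SS 1 j₀ j₁).card : ℝ) * (1 + Real.log (2 * L)) ^ 2 / L) ≤
      18 * C ^ 2 * (K ^ 2 * u ^ 202) := by
    have hNL : (N : ℝ) / L ≤ 2 * K := by
      rw [div_le_iff₀ hL]
      exact h.NK
    calc N * (((SS 1 j₀ j₁).card : ℝ) * (1 + Real.log (2 * L)) ^ 2 / L) =
        (N / L) * (((SS 1 j₀ j₁).card : ℝ) * (1 + Real.log (2 * L)) ^ 2) := by ring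
      _ ≤ (2 * K) * ((K * u ^ 200) * (3 * C * u) ^ 2) := by
          have := h.card_le
          gcongr
      _ = _ := by ring
  have p2 : N * ((H / L) * ∑ s ∈ SS 1 j₀ j₁, 1 / (s : ℝ) ^ 2) ≤ N * (2 * C / (K * u ^ 99)) := by
    refine mul_le_mul_of_nonneg_left ?_ hN.le
    calc (H / L) * ∑ s ∈ SS 1 j₀ j₁, 1 / (s : ℝ) ^ 2 ≤ 1 * (2 * C / (K * u ^ 99)) := by gcongr
      _ = _ := one_mul _
  have e0 : N * (100 * K * (T : ℝ) ^ 3 * A * (((SS 1 j₀ j₁).card : ℝ) *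
        (1 + Real.log (2 * L)) ^ 2 / L + (H / L) * ∑ s ∈ SS 1 j₀ j₁, 1 / (s : ℝ) ^ 2)) =
      100 * K * (T : ℝ) ^ 3 * A * (N * (((SS 1 j₀ j₁).card : ℝ) * (1 + Real.log (2 * L)) ^ 2 / L)
        + N * ((H / L) * ∑ s ∈ SS 1 j₀ j₁, 1 / (s : ℝ) ^ 2)) := by ring
  rw [e0]
  calc 100 * K * (T : ℝ) ^ 3 * A * (N * (((SS 1 j₀ j₁).card : ℝ) * (1 + Real.log (2 * L)) ^ 2 / L)
        + N * ((H / L) * ∑ s ∈ SS 1 j₀ j₁, 1 / (s : ℝ) ^ 2))
      ≤ 100 * K * u ^ 3 * A * (18 * C ^ 2 * (K ^ 2 * u ^ 202) + N * (2 * C / (K * u ^ 99))) := by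
        gcongr
    _ ≤ 100 * K * u ^ 3 * u * (18 * C ^ 2 * (K ^ 2 * u ^ 202) + N * (2 * C / (K * u ^ 99))) := by
        have := h.Au
        gcongr
    _ = 1800 * C ^ 2 * ((K ^ 3 * u ^ 2000) * (u ^ 206 / u ^ 2000)) +
        200 * C * (N * (u ^ 4 / u ^ 99)) := by field_simp; ring
    _ ≤ 1800 * C ^ 2 * ((8 * N) * (u ^ 206 / u ^ 2000)) +
        200 * C ^ 2 * (N * (u ^ 4 / u ^ 99)) := by
        have := h.K3'
        have hCC : C ≤ C ^ 2 := by nlinarith
        gcongr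
    _ = 14400 * C ^ 2 * (N * (u ^ 206 / u ^ 2000)) +
        200 * C ^ 2 * (N * (u ^ 4 / u ^ 99)) := by ring
    _ ≤ 14400 * C ^ 2 * (N * (1 / u ^ 50)) + 200 * C ^ 2 * (N * (1 / u ^ 50)) := by
        have q1 : u ^ 206 / u ^ 2000 ≤ 1 / u ^ 50 := by
          rw [div_le_div_iff₀ (by positivity) (by positivity), one_mul, ← pow_add]
          exact h.pw (by norm_num)
        have q2 : u ^ 4 / u ^ 99 ≤ 1 / u ^ 50 := by
          rw [div_le_div_iff₀ (by positivity) (by positivity), one_mul, ← pow_add]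
          exact h.pw (by norm_num)
        gcongr
    _ = 14600 * C ^ 2 * (N / u ^ 50) := by ring
    _ ≤ _ := by
        have : 0 ≤ (N : ℝ) / u ^ 50 := by positivity
        have : 0 ≤ C ^ 2 * ((N : ℝ) / u ^ 50) := by positivity
        nlinarith

/-- the sum over the blocks -/
theorem yy (h : Sz N L H K T j₀ j₁ A u m C) (C₁ : ℝ) (hC₁ : 0 ≤ C₁) (y : ℕ)
    (hy : ∀ j ∈ Ico j₀ j₁, YY (PR (2 ^ j)) (K * T) y ≤ C₁ * u * (N / 2 ^ j + m ^ 5)) :
    YY (SS 1 j₀ j₁) (K * T) y ≤ 6 * C₁ * C * (N / (K * u ^ 98)) := by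
  have h1 := h.u0
  have h2 := h.K0
  have hC := h.C1
  have hm := h.m0
  have hN := h.N0
  have e1 : YY (SS 1 j₀ j₁) (K * T) y ≤ ∑ j ∈ Ico j₀ j₁, YY (PR (2 ^ j)) (K * T) y := by
    unfold YY
    rw [sum_comm]
    refine sum_le_sum fun κ _ => ?_
    rw [← mul_sum]
    refine mul_le_mul_of_nonneg_left ?_ (by positivity)
    rw [sum_comm (s := Ico j₀ j₁)]
    refine sum_le_sum fun ξ _ => ?_
    refine sum_SS_le 1 j₀ j₁ _ ?_
    intro j _ s hs
    rw [mem_PR] at hs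
    have hs1 : (1 : ℝ) ≤ s := by
      have : 1 ≤ s := hs.2.one_lt.le
      exact_mod_cast this
    exact mul_nonneg (div_nonneg zero_le_one (by linarith)) (sum_nonneg fun χ _ => norm_nonneg _)
  refine e1.trans ((sum_le_sum hy).trans ?_)
  have e2 : ∀ j ∈ Ico j₀ j₁, C₁ * u * ((N : ℝ) / 2 ^ j + m ^ 5) ≤
      3 * C₁ * (N / (K * u ^ 99)) := by
    intro j hj
    rw [mem_Ico] at hj
    have f1 : (N : ℝ) / 2 ^ j ≤ N / (K * u ^ 100) := by
      apply div_le_div_of_nonneg_left hN.le (by positivity)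
      exact h.j0.trans (pow_le_pow_right₀ (by norm_num) hj.1)
    have f2 : m ^ 5 ≤ 2 * (N / (K * u ^ 100)) := by
      rw [mul_div_assoc', le_div_iff₀ (by positivity)]
      have h3 := h.Km
      have h4 : u ^ 100 ≤ u ^ 400 := h.pw (by norm_num)
      calc m ^ 5 * (K * u ^ 100) ≤ m ^ 5 * (K * u ^ 400) := by gcongr
        _ ≤ m ^ 5 * (2 * m) := by gcongr
        _ = 2 * N := by rw [h.Nm]; ring
    calc C₁ * u * ((N : ℝ) / 2 ^ j + m ^ 5) ≤
        C₁ * u * (N / (K * u ^ 100) + 2 * (N / (K * u ^ 100))) := by gcongr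
      _ = 3 * C₁ * (N / (K * u ^ 99)) := by field_simp; ring
  refine (sum_le_sum e2).trans ?_
  rw [sum_const, nsmul_eq_mul, Nat.card_Ico]
  have hj : ((j₁ - j₀ : ℕ) : ℝ) ≤ 2 * C * u :=
    le_trans (by exact_mod_cast Nat.sub_le _ _) h.jj
  calc ((j₁ - j₀ : ℕ) : ℝ) * (3 * C₁ * (N / (K * u ^ 99))) ≤
      (2 * C * u) * (3 * C₁ * (N / (K * u ^ 99))) := by gcongr
    _ = 6 * C₁ * C * (N / (K * u ^ 98)) := by field_simp; ring

/-- `∑ 1/y ≤ 1 + log N` -/
theorem harm (N : ℕ) : ∑ y ∈ Icc 1 N, (1 : ℝ) / y ≤ 1 + Real.log N := by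
  have h := harmonic_le_one_add_log N
  rw [harmonic_eq_sum_Icc] at h
  push_cast at h
  simpa [one_div] using h

/-- the off-diagonal error -/
theorem e1 (h : Sz N L H K T j₀ j₁ A u m C) (C₁ : ℝ) (hC₁ : 0 ≤ C₁)
    (hy : ∀ y ≤ N, ∀ j ∈ Ico j₀ j₁,
      YY (PR (2 ^ j)) (K * T) y ≤ C₁ * u * (N / 2 ^ j + m ^ 5)) :
    K * (T : ℝ) ^ 3 *
        (∑ y ∈ Icc 1 N, (((L : ℝ) + H + A) / (H * y)) * YY (SS 1 j₀ j₁) (K * T) y
        + YY (SS 1 j₀ j₁) (K * T) N
        + K * (∑ s ∈ SS 1 j₀ j₁, (H + 1) * Real.log N / ((s : ℝ) * (s - 1))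
          + (SS 1 j₀ j₁).card * (((Nat.log 2 (K * T) : ℝ) + 2) * Real.log N))) ≤
      (60 * C₁ * C ^ 2 + 200 * C ^ 2) * (N / u ^ 50) := by
  have h1 := h.u0
  have h2 := h.K0
  have hC := h.C1
  have hm := h.m0
  have hN := h.N0
  have hL := h.L0
  have hH := h.H0
  have hT := h.Tu
  have hlg := h.lg
  have hlog : 0 ≤ Real.log N := log0
  set Y := 6 * C₁ * C * ((N : ℝ) / (K * u ^ 98)) with hY
  have hY0 : 0 ≤ Y := by positivity
  have hyy : ∀ y ≤ N, YY (SS 1 j₀ j₁) (K * T) y ≤ Y := fun y hy' => h.yy C₁ hC₁ y (hy y hy')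
  -- the sum over y
  have g1 : ∑ y ∈ Icc 1 N, (((L : ℝ) + H + A) / (H * y)) * YY (SS 1 j₀ j₁) (K * T) y ≤
      (3 * u) * (2 * C * u) * Y := by
    have k1 : ∀ y ∈ Icc 1 N, (((L : ℝ) + H + A) / (H * y)) * YY (SS 1 j₀ j₁) (K * T) y ≤
        (3 * u) * Y * (1 / y) := by
      intro y hy'
      rw [mem_Icc] at hy'
      have hy0 : (0 : ℝ) < y := by exact_mod_cast hy'.1
      have k2 : ((L : ℝ) + H + A) / (H * y) ≤ (3 * u) * (1 / y) := by
        rw [mul_one_div, div_le_div_iff₀ (by positivity) hy0]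
        have k3 : (L : ℝ) + H + A ≤ 3 * u * H := by
          have := h.HL
          have := h.AL
          have := h.LH
          nlinarith
        calc ((L : ℝ) + H + A) * y ≤ (3 * u * H) * y := by gcongr
          _ = 3 * u * (H * y) := by ring
      have k4 : 0 ≤ (3 * u) * (1 / (y : ℝ)) := by positivity
      calc (((L : ℝ) + H + A) / (H * y)) * YY (SS 1 j₀ j₁) (K * T) y ≤
          (((L : ℝ) + H + A) / (H * y)) * Y := by
            refine mul_le_mul_of_nonneg_left (hyy y hy'.2) (by positivity)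
        _ ≤ ((3 * u) * (1 / y)) * Y := by gcongr
        _ = _ := by ring
    refine (sum_le_sum k1).trans ?_
    rw [← mul_sum]
    have k5 := harm N
    have k6 : 1 + Real.log N ≤ 2 * C * u := by
      have : 1 ≤ C * u := by nlinarith [h.u1]
      linarith
    calc 3 * u * Y * ∑ y ∈ Icc 1 N, (1 : ℝ) / y ≤ 3 * u * Y * (2 * C * u) := by
          gcongr
          exact k5.trans k6
      _ = _ := by ring
  have g2 : YY (SS 1 j₀ j₁) (K * T) N ≤ Y := hyy N le_rfl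
  -- the second part
  have g3 : ∑ s ∈ SS 1 j₀ j₁, ((H : ℝ) + 1) * Real.log N / ((s : ℝ) * (s - 1)) ≤
      (4 * L * (C * u)) * (2 * C / (K * u ^ 99)) := by
    have k1 : ∀ s ∈ SS 1 j₀ j₁, ((H : ℝ) + 1) * Real.log N / ((s : ℝ) * (s - 1)) ≤
        (4 * L * (C * u)) * (1 / (s : ℝ) ^ 2) := by
      intro s hs
      have hp := (mem_SS hs).1
      have hs2 : (2 : ℝ) ≤ s := by exact_mod_cast hp.two_le
      have hL1 : (1 : ℝ) ≤ L := by
        have h3 := h.Lm
        have h4 : 1 ≤ m ^ 5 * u ^ 400 := by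
          have e1 := one_le_pow₀ h.m1 (n := 5)
          have e2 := one_le_pow₀ h.u1 (n := 400)
          nlinarith
        linarith
      rw [mul_one_div, div_le_div_iff₀ (by nlinarith) (by positivity)]
      have k2 : (s : ℝ) ^ 2 ≤ 2 * (s * (s - 1)) := by nlinarith
      have k3 : (H : ℝ) + 1 ≤ 2 * L := by linarith [h.HL]
      have k4 : 0 ≤ (s : ℝ) * (s - 1) := by nlinarith
      calc ((H : ℝ) + 1) * Real.log N * (s : ℝ) ^ 2 ≤ (2 * L) * (C * u) * (2 * (s * (s - 1))) := by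
            gcongr
        _ = 4 * L * (C * u) * (s * (s - 1)) := by ring
    refine (sum_le_sum k1).trans ?_
    rw [← mul_sum]
    have := h.isq
    gcongr
  have g4 : ((Nat.log 2 (K * T) : ℝ) + 2) ≤ 6 * (C * u) := by
    have k1 : (Nat.log 2 (K * T) : ℝ) ≤ 4 * (C * u) := by
      rcases Nat.eq_zero_or_pos (K * T) with h0 | h0
      · rw [h0]
        simp
        positivity
      have k2 : (Nat.log 2 (K * T) : ℝ) * Real.log 2 ≤ 2 * Real.log N := by
        have k3 : (2 : ℝ) ^ (Nat.log 2 (K * T)) ≤ ((K * T : ℕ) : ℝ) := by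
          exact_mod_cast Nat.pow_log_le_self 2 h0.ne'
        have k4 : ((K * T : ℕ) : ℝ) ≤ (N : ℝ) ^ 2 := by
          push_cast
          have k5 : (K : ℝ) ≤ 2 * m := by
            have h3 := h.Km
            have h4 : 1 ≤ u ^ 400 := one_le_pow₀ h.u1
            nlinarith
          have k6 : (T : ℝ) ≤ m := hT.trans (by
            have := h.um' (i := 1) (by norm_num)
            rwa [pow_one] at this)
          have k7 : 2 ≤ m := by
            have := h.um' (i := 1) (by norm_num)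
            rw [pow_one] at this
            linarith [h.u4]
          rw [h.Nm]
          calc (K : ℝ) * T ≤ (2 * m) * m := by gcongr
            _ ≤ (m * m) * m := by gcongr
            _ = m ^ 3 := by ring
            _ ≤ m ^ 12 := pow_le_pow_right₀ h.m1 (by norm_num)
            _ = (m ^ 6) ^ 2 := by ring
        have k8 := Real.log_le_log (by positivity) (k3.trans k4)
        rw [Real.log_pow, Real.log_pow] at k8
        push_cast at k8
        exact k8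
      have h8 : (1 : ℝ) / 2 ≤ Real.log 2 := by linarith [Real.log_two_gt_d9]
      have h9 : (0 : ℝ) ≤ (Nat.log 2 (K * T) : ℝ) := Nat.cast_nonneg _
      nlinarith
    have k2 : 1 ≤ C * u := by nlinarith [h.u1]
    linarith
  have hcard := h.card_le
  have hcard0 : (0 : ℝ) ≤ (SS 1 j₀ j₁).card := Nat.cast_nonneg _
  calc K * (T : ℝ) ^ 3 *
        (∑ y ∈ Icc 1 N, (((L : ℝ) + H + A) / (H * y)) * YY (SS 1 j₀ j₁) (K * T) y
        + YY (SS 1 j₀ j₁) (K * T) N
        + K * (∑ s ∈ SS 1 j₀ j₁, (H + 1) * Real.log N / ((s : ℝ) * (s - 1))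
          + (SS 1 j₀ j₁).card * (((Nat.log 2 (K * T) : ℝ) + 2) * Real.log N)))
      ≤ K * u ^ 3 * ((3 * u) * (2 * C * u) * Y + Y +
        K * ((4 * L * (C * u)) * (2 * C / (K * u ^ 99)) +
          (K * u ^ 200) * ((6 * (C * u)) * (C * u)))) := by
        have hs0 : 0 ≤ ∑ s ∈ SS 1 j₀ j₁, ((H : ℝ) + 1) * Real.log N / ((s : ℝ) * (s - 1)) := by
          refine sum_nonneg fun s hs => ?_
          have hp := (mem_SS hs).1
          have hs2 : (2 : ℝ) ≤ s := by exact_mod_cast hp.two_le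
          have : 0 ≤ (s : ℝ) * (s - 1) := by nlinarith
          positivity
        have hin : ∑ y ∈ Icc 1 N, (((L : ℝ) + H + A) / (H * y)) * YY (SS 1 j₀ j₁) (K * T) y
            + YY (SS 1 j₀ j₁) (K * T) N
            + K * (∑ s ∈ SS 1 j₀ j₁, (H + 1) * Real.log N / ((s : ℝ) * (s - 1))
              + (SS 1 j₀ j₁).card * (((Nat.log 2 (K * T) : ℝ) + 2) * Real.log N)) ≤
            (3 * u) * (2 * C * u) * Y + Y +
            K * ((4 * L * (C * u)) * (2 * C / (K * u ^ 99)) +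
              (K * u ^ 200) * ((6 * (C * u)) * (C * u))) := by
          gcongr
        have hR : 0 ≤ (3 * u) * (2 * C * u) * Y + Y +
            K * ((4 * L * (C * u)) * (2 * C / (K * u ^ 99)) +
              (K * u ^ 200) * ((6 * (C * u)) * (C * u))) := by positivity
        calc _ ≤ K * (T : ℝ) ^ 3 * ((3 * u) * (2 * C * u) * Y + Y +
            K * ((4 * L * (C * u)) * (2 * C / (K * u ^ 99)) +
              (K * u ^ 200) * ((6 * (C * u)) * (C * u)))) := by gcongr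
          _ ≤ _ := by gcongr
    _ = 36 * C₁ * C ^ 2 * (N * (u ^ 5 / u ^ 98)) + 6 * C₁ * C * (N * (u ^ 3 / u ^ 98)) +
        8 * C ^ 2 * ((K * L) * (u ^ 4 / u ^ 99)) +
        6 * C ^ 2 * ((K ^ 3 * u ^ 2000) * (u ^ 205 / u ^ 2000)) := by
        rw [hY]
        field_simp
        ring
    _ ≤ 36 * C₁ * C ^ 2 * (N * (1 / u ^ 50)) + 6 * C₁ * C ^ 2 * (N * (1 / u ^ 50)) +
        8 * C ^ 2 * ((2 * N) * (1 / u ^ 50)) +
        6 * C ^ 2 * ((8 * N) * (1 / u ^ 50)) := by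
        have q1 : u ^ 5 / u ^ 98 ≤ 1 / u ^ 50 := by
          rw [div_le_div_iff₀ (by positivity) (by positivity), one_mul, ← pow_add]
          exact h.pw (by norm_num)
        have q2 : u ^ 3 / u ^ 98 ≤ 1 / u ^ 50 := by
          rw [div_le_div_iff₀ (by positivity) (by positivity), one_mul, ← pow_add]
          exact h.pw (by norm_num)
        have q3 : u ^ 4 / u ^ 99 ≤ 1 / u ^ 50 := by
          rw [div_le_div_iff₀ (by positivity) (by positivity), one_mul, ← pow_add]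
          exact h.pw (by norm_num)
        have q4 : u ^ 205 / u ^ 2000 ≤ 1 / u ^ 50 := by
          rw [div_le_div_iff₀ (by positivity) (by positivity), one_mul, ← pow_add]
          exact h.pw (by norm_num)
        have hCC : C ≤ C ^ 2 := by nlinarith
        have hK3 := h.K3'
        have hKL := h.KL
        gcongr
    _ = (42 * C₁ * C ^ 2 + 64 * C ^ 2) * (N / u ^ 50) := by ring
    _ ≤ _ := by
        have k0 : 0 ≤ (N : ℝ) / u ^ 50 := by positivity
        have k1 : 0 ≤ C₁ * C ^ 2 := by positivity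
        have k2 : 0 ≤ C ^ 2 := by positivity
        refine mul_le_mul_of_nonneg_right ?_ k0
        nlinarith

/-- the second part of the energy -/
theorem en2 (h : Sz N L H K T j₀ j₁ A u m C) :
    (K : ℝ) ^ 2 * (T : ℝ) ^ 6 * (H * ∑ s ∈ SS 1 j₀ j₁, 1 / (s : ℝ) ^ 2 +
      24 * ((SS 1 j₀ j₁).card : ℝ) ^ 2) ≤ 400 * C * (K * H / u ^ 50) := by
  have h1 := h.u0
  have h2 := h.K0
  have hC := h.C1
  have hm := h.m0
  have hN := h.N0
  have hL := h.L0
  have hH := h.H0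
  have hT := h.Tu
  have hcard := h.card_le
  have hcard0 : (0 : ℝ) ≤ (SS 1 j₀ j₁).card := Nat.cast_nonneg _
  have hi := h.isq
  -- `K³ u^500 ≤ 8 H`
  have hKH : (K : ℝ) ^ 3 * u ^ 1500 ≤ 8 * H := by
    have h3 := h.K3
    have h4 : m ^ 5 * u ^ 399 ≤ H := by
      have h5 := h.Lm
      have h6 := h.LH
      have h7 : m ^ 5 * u ^ 399 * u ≤ H * u := by
        calc m ^ 5 * u ^ 399 * u = m ^ 5 * u ^ 400 := by ring
          _ ≤ _ := h5.trans h6
      exact le_of_mul_le_mul_right h7 h1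
    calc (K : ℝ) ^ 3 * u ^ 1500 = (K ^ 3 * u ^ 1200) * u ^ 300 := by ring
      _ ≤ (8 * m ^ 3) * m := by
          have := h.um' (i := 300) (by norm_num)
          gcongr
      _ = 8 * (m ^ 4 * 1) := by ring
      _ ≤ 8 * (m ^ 5 * u ^ 399) := by
          have e1 : m ^ 4 ≤ m ^ 5 := pow_le_pow_right₀ h.m1 (by norm_num)
          have e2 := one_le_pow₀ h.u1 (n := 399)
          gcongr
      _ ≤ 8 * H := by gcongr
  calc (K : ℝ) ^ 2 * (T : ℝ) ^ 6 * (H * ∑ s ∈ SS 1 j₀ j₁, 1 / (s : ℝ) ^ 2 +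
      24 * ((SS 1 j₀ j₁).card : ℝ) ^ 2)
      ≤ (K : ℝ) ^ 2 * u ^ 6 * (H * (2 * C / (K * u ^ 99)) + 24 * (K * u ^ 200) ^ 2) := by
        gcongr
    _ = 2 * C * (K * H * (u ^ 6 / u ^ 99)) +
        24 * (K * ((K ^ 3 * u ^ 1500) * (u ^ 406 / u ^ 1500))) := by
        field_simp
    _ ≤ 2 * C * (K * H * (1 / u ^ 50)) + 24 * (K * ((8 * H) * (1 / u ^ 50))) := by
        have q1 : u ^ 6 / u ^ 99 ≤ 1 / u ^ 50 := by
          rw [div_le_div_iff₀ (by positivity) (by positivity), one_mul, ← pow_add]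
          exact h.pw (by norm_num)
        have q2 : u ^ 406 / u ^ 1500 ≤ 1 / u ^ 50 := by
          rw [div_le_div_iff₀ (by positivity) (by positivity), one_mul, ← pow_add]
          exact h.pw (by norm_num)
        gcongr
    _ = (2 * C + 192) * (K * H / u ^ 50) := by ring
    _ ≤ _ := by
        have k0 : 0 ≤ (K : ℝ) * H / u ^ 50 := by positivity
        refine mul_le_mul_of_nonneg_right ?_ k0
        nlinarith

end Sz

end

end Pool.Agent.M848.FC
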