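import Pool.Agent.Lib.MP_848d44_nt.F.Base
import Pool.Agent.Lib.MP_848d44_nt.F.Det
import Pool.Agent.Lib.MP_848d44_nt.F.Abl

/-!
# MP_848d44_nt, fixed residue class, module OFF: the total off-diagonal contribution
-/

set_option autoImplicit false

namespace Pool.Agent.M848.FC

open Finset
open scoped ArithmeticFunction ComplexConjugate

noncomputable section

namespace Off

/-- the mean value for one prime `s` -/
def V (κ s y : ℕ) : ℝ :=
  (1 / (κ.totient : ℝ)) * ∑ ξ ∈ ac κ, (1 / ((s : ℝ) - 1)) *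
    ∑ χ ∈ nc s, ‖SL (fun n => χ n * ξ n) y‖

/-- the mean value for all primes in `S` -/
def W (S : Finset ℕ) (κ y : ℕ) : ℝ :=
  (1 / (κ.totient : ℝ)) * ∑ ξ ∈ ac κ, ∑ s ∈ S, (1 / ((s : ℝ) - 1)) *
    ∑ χ ∈ nc s, ‖SL (fun n => χ n * ξ n) y‖

theorem sum_V (S : Finset ℕ) (κ y : ℕ) : ∑ s ∈ S, V κ s y = W S κ y := by
  unfold V W
  rw [← Finset.mul_sum, Finset.sum_comm]

theorem YY_eq (S : Finset ℕ) (Y y : ℕ) : YY S Y y = ∑ κ ∈ Icc 1 Y, W S κ y := rfl

theorem W_nonneg {S : Finset ℕ} (hS : ∀ s ∈ S, 1 ≤ s) (κ y : ℕ) : 0 ≤ W S κ y := by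
  unfold W
  refine mul_nonneg (by positivity) (Finset.sum_nonneg fun ξ _ => Finset.sum_nonneg fun s hs => ?_)
  refine mul_nonneg (one_div_nonneg.mpr ?_) (Finset.sum_nonneg fun χ _ => norm_nonneg _)
  have h1 : (1 : ℝ) ≤ s := by exact_mod_cast hS s hs
  linarith

theorem YY_nonneg {S : Finset ℕ} (hS : ∀ s ∈ S, 1 ≤ s) (Y y : ℕ) : 0 ≤ YY S Y y := by
  rw [YY_eq]
  exact Finset.sum_nonneg fun κ _ => W_nonneg hS κ y

theorem sum_W_le {S : Finset ℕ} (hS : ∀ s ∈ S, 1 ≤ s) {K T d : ℕ} (hd : d ∈ Icc 1 T) (k y : ℕ) :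
    ∑ k' ∈ (Icc 1 K).erase k, W S (k' * d) y ≤ YY S (K * T) y := by
  obtain ⟨hd1, hd2⟩ := mem_Icc.mp hd
  have hinj : Set.InjOn (fun k' : ℕ => k' * d) ((Icc 1 K).erase k : Finset ℕ) := by
    intro x _ y _ h
    exact Nat.eq_of_mul_eq_mul_right (by omega) h
  rw [YY_eq, ← Finset.sum_image (f := fun κ => W S κ y) (g := fun k' : ℕ => k' * d) hinj]
  refine Finset.sum_le_sum_of_subset_of_nonneg ?_ fun κ _ _ => W_nonneg hS κ y
  intro κ hκ
  obtain ⟨k', hk', rfl⟩ := Finset.mem_image.mp hκ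
  obtain ⟨h1, h2⟩ := mem_Icc.mp (Finset.mem_of_mem_erase hk')
  exact mem_Icc.mpr ⟨Nat.one_le_iff_ne_zero.mpr (Nat.mul_ne_zero (by omega) (by omega)),
    Nat.mul_le_mul h2 hd2⟩

theorem lin {α β : Type*} (A : Finset α) (B : Finset β) (Y : Finset ℕ) (u v : ℝ) (c : ℕ → ℝ)
    (f : α → β → ℕ → ℝ) (g : α → β → ℝ) :
    u * ∑ ξ ∈ A, v * ∑ χ ∈ B, (∑ y ∈ Y, c y * f ξ χ y + g ξ χ) =
      ∑ y ∈ Y, c y * (u * ∑ ξ ∈ A, v * ∑ χ ∈ B, f ξ χ y) +
        u * ∑ ξ ∈ A, v * ∑ χ ∈ B, g ξ χ := by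
  have h1 : ∀ ξ, ∑ χ ∈ B, (∑ y ∈ Y, c y * f ξ χ y + g ξ χ) =
      ∑ y ∈ Y, c y * ∑ χ ∈ B, f ξ χ y + ∑ χ ∈ B, g ξ χ := by
    intro ξ
    rw [Finset.sum_add_distrib, Finset.sum_comm]
    simp only [Finset.mul_sum]
  simp only [h1, mul_add, Finset.sum_add_distrib]
  congr 1
  have h2 : ∀ y, c y * (u * ∑ ξ ∈ A, v * ∑ χ ∈ B, f ξ χ y) =
      ∑ ξ ∈ A, u * (v * (c y * ∑ χ ∈ B, f ξ χ y)) := by
    intro y
    rw [Finset.mul_sum, Finset.mul_sum]
    refine Finset.sum_congr rfl fun ξ _ => ?_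
    ring
  simp only [h2]
  rw [Finset.sum_comm, Finset.mul_sum]
  refine Finset.sum_congr rfl fun ξ _ => ?_
  rw [Finset.mul_sum, Finset.mul_sum]

/-- the bound for one `k`, `k'`, `s`, `d` -/
theorem block (a : ℤ) (ha : a ≠ 0) (N L H K T s d k k' : ℕ) (hN : 2 ≤ N) (hH : 1 ≤ H)
    (hk : k ∈ Icc 1 K) (hk' : k' ∈ Icc 1 K) (hkk : k ≠ k') (hs : s.Prime)
    (hsK : K * a.natAbs < s) (hd : d ∈ Icc 1 T) (hds : T < s) (hdk : d.Coprime k) :
    |∑ q ∈ Mo L H, om L H q * LN N (a + k' * q) *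
        (((if (s : ℤ) ∣ a + k * q then (1 : ℝ) else 0) - 1 / s) *
          (if (d : ℤ) ∣ a + k * q then 1 else 0))| ≤
      (∑ y ∈ Icc 1 N, (((L : ℝ) + H + a.natAbs) / (H * y)) * V (k' * d) s y +
        V (k' * d) s N) +
      ((H + 1) * Real.log N / ((s : ℝ) * (s - 1)) +
        ((Nat.log 2 (K * T) : ℝ) + 2) * Real.log N) := by
  obtain ⟨hd1, hd2⟩ := mem_Icc.mp hd
  obtain ⟨hk1, hk2⟩ := mem_Icc.mp hk'
  refine (det a ha N L H K s d k k' hN hH hk hk' hkk hs hsK hd1 (by omega) hdk).trans ?_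
  have hs1 : (1 : ℝ) ≤ s := by exact_mod_cast hs.one_lt.le
  have hlogN : 0 ≤ Real.log N := Real.log_natCast_nonneg N
  refine add_le_add ?_ (add_le_add le_rfl ?_)
  · have h1 : ∀ ξ ∈ ac (k' * d), ∀ χ ∈ nc s,
        ‖∑ n ∈ Icc 1 N, ((Λ n : ℝ) : ℂ) * (χ n * ξ n) * ((Wk a L H k' n : ℝ) : ℂ)‖ ≤
        ∑ y ∈ Icc 1 N, (((L : ℝ) + H + a.natAbs) / (H * y)) *
          ‖SL (fun n => χ n * ξ n) y‖ + ‖SL (fun n => χ n * ξ n) N‖ :=
      fun ξ _ χ _ => abelW a N L H k' hH hk1 (fun n => χ n * ξ n)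
    have h2 : (1 / ((k' * d).totient : ℝ)) * ∑ ξ ∈ ac (k' * d), (1 / ((s : ℝ) - 1)) *
        ∑ χ ∈ nc s, ‖∑ n ∈ Icc 1 N, ((Λ n : ℝ) : ℂ) * (χ n * ξ n) *
          ((Wk a L H k' n : ℝ) : ℂ)‖ ≤
        (1 / ((k' * d).totient : ℝ)) * ∑ ξ ∈ ac (k' * d), (1 / ((s : ℝ) - 1)) *
        ∑ χ ∈ nc s, (∑ y ∈ Icc 1 N, (((L : ℝ) + H + a.natAbs) / (H * y)) *
          ‖SL (fun n => χ n * ξ n) y‖ + ‖SL (fun n => χ n * ξ n) N‖) := by
      refine mul_le_mul_of_nonneg_left (Finset.sum_le_sum fun ξ hξ => ?_) (by positivity)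
      refine mul_le_mul_of_nonneg_left (Finset.sum_le_sum fun χ hχ => h1 ξ hξ χ hχ) ?_
      exact one_div_nonneg.mpr (by linarith)
    refine h2.trans (le_of_eq ?_)
    exact lin (ac (k' * d)) (nc s) (Icc 1 N) _ _ (fun y => ((L : ℝ) + H + a.natAbs) / (H * y))
      (fun ξ χ y => ‖SL (fun n => χ n * ξ n) y‖) (fun ξ χ => ‖SL (fun n => χ n * ξ n) N‖)
  · refine mul_le_mul_of_nonneg_right ?_ hlogN
    have h3 : Nat.log 2 (k' * d) ≤ Nat.log 2 (K * T) :=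
      Nat.log_mono_right (Nat.mul_le_mul hk2 hd2)
    have h4 : (Nat.log 2 (k' * d) : ℝ) ≤ Nat.log 2 (K * T) := by exact_mod_cast h3
    linarith

/-- expansion of the test function -/
theorem expand (a : ℤ) (N L H T : ℕ) (b : ℕ → ℝ) (S : Finset ℕ) (k k' : ℕ) :
    ∑ q ∈ Mo L H, om L H q * LN N (a + k' * q) * Fk b T S (a + k * q) =
      ∑ s ∈ S, ∑ d ∈ Icc 1 T, b d * ∑ q ∈ Mo L H, om L H q * LN N (a + k' * q) *
        (((if (s : ℤ) ∣ a + k * q then (1 : ℝ) else 0) - 1 / s) *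
          (if (d : ℤ) ∣ a + k * q then 1 else 0)) := by
  have h1 : ∀ q : ℕ, om L H q * LN N (a + k' * q) * Fk b T S (a + k * q) =
      ∑ s ∈ S, ∑ d ∈ Icc 1 T, b d * (om L H q * LN N (a + k' * q) *
        (((if (s : ℤ) ∣ a + k * q then (1 : ℝ) else 0) - 1 / s) *
          (if (d : ℤ) ∣ a + k * q then 1 else 0))) := by
    intro q
    unfold Fk fk lam
    rw [Finset.mul_sum]
    refine Finset.sum_congr rfl fun s _ => ?_
    rw [Finset.sum_filter, Finset.mul_sum, Finset.mul_sum]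
    refine Finset.sum_congr rfl fun d _ => ?_
    by_cases h : (d : ℤ) ∣ a + k * q
    · rw [if_pos h, if_pos h]
      ring
    · rw [if_neg h, if_neg h]
      ring
  simp only [h1]
  rw [Finset.sum_comm]
  refine Finset.sum_congr rfl fun s _ => ?_
  rw [Finset.sum_comm]
  refine Finset.sum_congr rfl fun d _ => ?_
  rw [Finset.mul_sum]

end Off

/-- F10 -/
theorem off_total (a : ℤ) (ha : a ≠ 0) (N L H K T : ℕ) (hN : 2 ≤ N) (hH : 1 ≤ H) (hT : 1 ≤ T)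
    (b : ℕ → ℕ → ℝ) (hb : ∀ k ∈ Icc 1 K, Wt (b k) k T) (S : Finset ℕ)
    (hS : ∀ s ∈ S, s.Prime ∧ T < s ∧ K * a.natAbs < s) :
    |∑ k ∈ Icc 1 K, ∑ k' ∈ (Icc 1 K).erase k, ∑ q ∈ Mo L H,
        om L H q * LN N (a + k' * q) * Fk (b k) T S (a + k * q)| ≤
      K * (T : ℝ) ^ 3 *
        (∑ y ∈ Icc 1 N, (((L : ℝ) + H + a.natAbs) / (H * y)) * YY S (K * T) y
        + YY S (K * T) N
        + K * (∑ s ∈ S, (H + 1) * Real.log N / ((s : ℝ) * (s - 1))
          + S.card * (((Nat.log 2 (K * T) : ℝ) + 2) * Real.log N))) := by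
  have hS1 : ∀ s ∈ S, 1 ≤ s := fun s hs => (hS s hs).1.one_lt.le
  have hlogN : 0 ≤ Real.log N := Real.log_natCast_nonneg N
  set c : ℕ → ℝ := fun y => ((L : ℝ) + H + a.natAbs) / (H * y) with hc
  have hc0 : ∀ y, 0 ≤ c y := fun y => by
    rw [hc]
    positivity
  set E : ℝ := ∑ s ∈ S, (H + 1) * Real.log N / ((s : ℝ) * (s - 1))
          + S.card * (((Nat.log 2 (K * T) : ℝ) + 2) * Real.log N) with hE
  have hE0 : 0 ≤ E := by
    rw [hE]
    refine add_nonneg (Finset.sum_nonneg fun s hs => ?_) (by positivity)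
    have h1 : (1 : ℝ) ≤ s := by exact_mod_cast hS1 s hs
    exact div_nonneg (by positivity) (mul_nonneg (by linarith) (by linarith))
  set G : ℝ := ∑ y ∈ Icc 1 N, c y * YY S (K * T) y + YY S (K * T) N + K * E with hG
  have hG0 : 0 ≤ G := by
    rw [hG]
    refine add_nonneg (add_nonneg (Finset.sum_nonneg fun y _ =>
      mul_nonneg (hc0 y) (Off.YY_nonneg hS1 _ _)) (Off.YY_nonneg hS1 _ _)) (by positivity)
  -- the bound for fixed `k`
  have hkb : ∀ k ∈ Icc 1 K, |∑ k' ∈ (Icc 1 K).erase k, ∑ q ∈ Mo L H,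
        om L H q * LN N (a + k' * q) * Fk (b k) T S (a + k * q)| ≤ (T : ℝ) ^ 3 * G := by
    intro k hk
    have hW := hb k hk
    -- every `k'`
    have h1 : ∀ k' ∈ (Icc 1 K).erase k, |∑ q ∈ Mo L H,
        om L H q * LN N (a + k' * q) * Fk (b k) T S (a + k * q)| ≤
        ∑ s ∈ S, ∑ d ∈ Icc 1 T, |b k d| *
          ((∑ y ∈ Icc 1 N, c y * Off.V (k' * d) s y + Off.V (k' * d) s N) +
            ((H + 1) * Real.log N / ((s : ℝ) * (s - 1)) +
              ((Nat.log 2 (K * T) : ℝ) + 2) * Real.log N)) := by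
      intro k' hk'
      obtain ⟨hne, hk'2⟩ := Finset.mem_erase.mp hk'
      rw [Off.expand]
      refine (Finset.abs_sum_le_sum_abs _ _).trans (Finset.sum_le_sum fun s hs => ?_)
      refine (Finset.abs_sum_le_sum_abs _ _).trans (Finset.sum_le_sum fun d hd => ?_)
      rw [abs_mul]
      by_cases hbd : b k d = 0
      · rw [hbd, abs_zero, zero_mul, zero_mul]
      · refine mul_le_mul_of_nonneg_left ?_ (abs_nonneg _)
        exact Off.block a ha N L H K T s d k k' hN hH hk hk'2 (Ne.symm hne) (hS s hs).1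
          (hS s hs).2.2 hd (hS s hs).2.1 (hW.cop d hd hbd)
    -- the sum over `k'` and `s` for fixed `d`
    have h2 : ∀ d ∈ Icc 1 T, ∑ k' ∈ (Icc 1 K).erase k, ∑ s ∈ S,
          ((∑ y ∈ Icc 1 N, c y * Off.V (k' * d) s y + Off.V (k' * d) s N) +
            ((H + 1) * Real.log N / ((s : ℝ) * (s - 1)) +
              ((Nat.log 2 (K * T) : ℝ) + 2) * Real.log N)) ≤ G := by
      intro d hd
      have h3 : ∀ k' : ℕ, ∑ s ∈ S,
          ((∑ y ∈ Icc 1 N, c y * Off.V (k' * d) s y + Off.V (k' * d) s N) +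
            ((H + 1) * Real.log N / ((s : ℝ) * (s - 1)) +
              ((Nat.log 2 (K * T) : ℝ) + 2) * Real.log N)) =
          ∑ y ∈ Icc 1 N, c y * Off.W S (k' * d) y + Off.W S (k' * d) N + E := by
        intro k'
        rw [Finset.sum_add_distrib, Finset.sum_add_distrib, Finset.sum_add_distrib,
          Finset.sum_comm, Off.sum_V, Finset.sum_const, nsmul_eq_mul, hE]
        simp only [← Finset.mul_sum, Off.sum_V]
      simp only [h3]
      rw [Finset.sum_add_distrib, Finset.sum_add_distrib, Finset.sum_comm, Finset.sum_const,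
        nsmul_eq_mul, hG]
      refine add_le_add (add_le_add (Finset.sum_le_sum fun y _ => ?_) (Off.sum_W_le hS1 hd k N)) ?_
      · rw [← Finset.mul_sum]
        exact mul_le_mul_of_nonneg_left (Off.sum_W_le hS1 hd k y) (hc0 y)
      · refine mul_le_mul_of_nonneg_right ?_ hE0
        have h4 : ((Icc 1 K).erase k).card ≤ K := by
          refine (Finset.card_le_card (Finset.erase_subset _ _)).trans ?_
          simp
        exact_mod_cast h4
    calc |∑ k' ∈ (Icc 1 K).erase k, ∑ q ∈ Mo L H,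
          om L H q * LN N (a + k' * q) * Fk (b k) T S (a + k * q)|
        ≤ ∑ k' ∈ (Icc 1 K).erase k, ∑ s ∈ S, ∑ d ∈ Icc 1 T, |b k d| *
          ((∑ y ∈ Icc 1 N, c y * Off.V (k' * d) s y + Off.V (k' * d) s N) +
            ((H + 1) * Real.log N / ((s : ℝ) * (s - 1)) +
              ((Nat.log 2 (K * T) : ℝ) + 2) * Real.log N)) :=
          (Finset.abs_sum_le_sum_abs _ _).trans (Finset.sum_le_sum h1)
      _ = ∑ d ∈ Icc 1 T, |b k d| * ∑ k' ∈ (Icc 1 K).erase k, ∑ s ∈ S,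
          ((∑ y ∈ Icc 1 N, c y * Off.V (k' * d) s y + Off.V (k' * d) s N) +
            ((H + 1) * Real.log N / ((s : ℝ) * (s - 1)) +
              ((Nat.log 2 (K * T) : ℝ) + 2) * Real.log N)) := by
          have h5 : ∀ k' : ℕ, ∑ s ∈ S, ∑ d ∈ Icc 1 T, |b k d| *
              ((∑ y ∈ Icc 1 N, c y * Off.V (k' * d) s y + Off.V (k' * d) s N) +
                ((H + 1) * Real.log N / ((s : ℝ) * (s - 1)) +
                  ((Nat.log 2 (K * T) : ℝ) + 2) * Real.log N)) =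
              ∑ d ∈ Icc 1 T, |b k d| * ∑ s ∈ S,
              ((∑ y ∈ Icc 1 N, c y * Off.V (k' * d) s y + Off.V (k' * d) s N) +
                ((H + 1) * Real.log N / ((s : ℝ) * (s - 1)) +
                  ((Nat.log 2 (K * T) : ℝ) + 2) * Real.log N)) := by
            intro k'
            rw [Finset.sum_comm]
            refine Finset.sum_congr rfl fun d _ => ?_
            rw [Finset.mul_sum]
          simp only [h5]
          rw [Finset.sum_comm]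
          refine Finset.sum_congr rfl fun d _ => ?_
          rw [Finset.mul_sum]
      _ ≤ ∑ d ∈ Icc 1 T, |b k d| * G :=
          Finset.sum_le_sum fun d hd => mul_le_mul_of_nonneg_left (h2 d hd) (abs_nonneg _)
      _ = BB (b k) T * G := by rw [← Finset.sum_mul, BB]
      _ ≤ (T : ℝ) ^ 3 * G := mul_le_mul_of_nonneg_right hW.bb hG0
  calc |∑ k ∈ Icc 1 K, ∑ k' ∈ (Icc 1 K).erase k, ∑ q ∈ Mo L H,
        om L H q * LN N (a + k' * q) * Fk (b k) T S (a + k * q)|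
      ≤ ∑ k ∈ Icc 1 K, |∑ k' ∈ (Icc 1 K).erase k, ∑ q ∈ Mo L H,
        om L H q * LN N (a + k' * q) * Fk (b k) T S (a + k * q)| :=
        Finset.abs_sum_le_sum_abs _ _
    _ ≤ ∑ k ∈ Icc 1 K, (T : ℝ) ^ 3 * G := Finset.sum_le_sum hkb
    _ = K * (T : ℝ) ^ 3 * G := by
        rw [Finset.sum_const, Nat.card_Icc, nsmul_eq_mul, Nat.add_sub_cancel, mul_assoc]

end

end Pool.Agent.M848.FC
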