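import Pool.Agent.Lib.MP_848d44_nt.F.Base
import Pool.Agent.Lib.MP_848d44_nt.F.Omc
import Pool.Agent.Lib.MP_848d44_nt.Ncp
import Pool.Agent.Lib.MP_848d44_nt.Cls

/-!
# MP_848d44_nt, project F, module PSI: splitting of the sum of the von Mangoldt function,
lower bound for the main term, the sum of `k / φ(k)`
-/

set_option autoImplicit false

namespace Pool.Agent.M848.FC

open Finset
open scoped ArithmeticFunction ComplexConjugate

noncomputable section

namespace PsiAux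

/-- `∏ (1 - 1/n²) ≥ 1/2` over the integers `2 ≤ n ≤ M`. -/
theorem prod_Icc (M : ℕ) (hM : 1 ≤ M) :
    ((M : ℝ) + 1) / (2 * M) ≤ ∏ n ∈ Icc 2 M, (1 - 1 / (n : ℝ) ^ 2) := by
  induction M, hM using Nat.le_induction with
  | base => simp
  | succ M hM ih =>
    rw [Finset.prod_Icc_succ_top (by omega : 2 ≤ M + 1)]
    have hM0 : (0 : ℝ) < M := by exact_mod_cast hM
    have h1 : (0 : ℝ) ≤ 1 - 1 / (((M + 1 : ℕ) : ℝ)) ^ 2 := by
      push_cast
      rw [sub_nonneg, div_le_one (by positivity)]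
      nlinarith
    refine le_trans (le_of_eq ?_) (mul_le_mul_of_nonneg_right ih h1)
    push_cast
    field_simp
    ring

theorem prod_ge (F : Finset ℕ) (hF : ∀ n ∈ F, 2 ≤ n) :
    1 / 2 ≤ ∏ n ∈ F, (1 - 1 / (n : ℝ) ^ 2) := by
  set M : ℕ := F.sup id + 1 with hM
  have hsub : F ⊆ Icc 2 M := by
    intro n hn
    rw [mem_Icc]
    have h1 : n ≤ F.sup id := Finset.le_sup (f := id) hn
    exact ⟨hF n hn, by omega⟩
  have h0 : ∀ n ∈ Icc 2 M, (0 : ℝ) ≤ 1 - 1 / (n : ℝ) ^ 2 := by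
    intro n hn
    have h1 : (2 : ℝ) ≤ n := by exact_mod_cast (mem_Icc.1 hn).1
    rw [sub_nonneg, div_le_one (by positivity)]
    nlinarith
  have h1 : ∏ n ∈ Icc 2 M, (1 - 1 / (n : ℝ) ^ 2) ≤ ∏ n ∈ F, (1 - 1 / (n : ℝ) ^ 2) := by
    rw [← Finset.prod_sdiff hsub]
    refine mul_le_of_le_one_left (prod_nonneg fun n hn => h0 n (hsub hn)) ?_
    refine prod_le_one (fun n hn => h0 n (mem_sdiff.1 hn).1) fun n hn => ?_
    have : (0 : ℝ) ≤ 1 / (n : ℝ) ^ 2 := by positivity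
    linarith
  have h2 := prod_Icc M (by omega)
  have hM0 : (0 : ℝ) < M := by
    have : 0 < M := by omega
    exact_mod_cast this
  have h3 : (1 : ℝ) / 2 ≤ ((M : ℝ) + 1) / (2 * M) := by
    rw [div_le_div_iff₀ (by norm_num) (by positivity)]
    linarith
  linarith

theorem ratio_le (k : ℕ) (hk : 1 ≤ k) :
    (k : ℝ) / k.totient ≤ 2 * ∏ p ∈ k.primeFactors, (1 + 1 / (p : ℝ)) := by
  have ht : (0 : ℝ) < k.totient := by exact_mod_cast Nat.totient_pos.2 hk
  have hk0 : (0 : ℝ) < k := by exact_mod_cast hk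
  have h1 : (k.totient : ℝ) = k * ∏ p ∈ k.primeFactors, (1 - (p : ℝ)⁻¹) := by
    have h := Nat.totient_eq_mul_prod_factors k
    have h' : ((k.totient : ℚ) : ℝ) = ((k * ∏ p ∈ k.primeFactors, (1 - (p : ℚ)⁻¹) : ℚ) : ℝ) := by
      rw [h]
    push_cast at h'
    exact h'
  have h2 : (k.totient : ℝ) * ∏ p ∈ k.primeFactors, (1 + 1 / (p : ℝ)) =
      k * ∏ p ∈ k.primeFactors, (1 - 1 / (p : ℝ) ^ 2) := by
    rw [h1, mul_assoc, ← Finset.prod_mul_distrib]
    congr 1
    refine prod_congr rfl fun p _ => ?_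
    rw [inv_eq_one_div]
    ring
  have h3 := prod_ge k.primeFactors fun p hp => (Nat.prime_of_mem_primeFactors hp).two_le
  rw [div_le_iff₀ ht]
  have h4 : (k : ℝ) * (1 / 2) ≤ k * ∏ p ∈ k.primeFactors, (1 - 1 / (p : ℝ) ^ 2) :=
    mul_le_mul_of_nonneg_left h3 hk0.le
  nlinarith

theorem prod_le_divisors (k : ℕ) (hk : 1 ≤ k) :
    ∏ p ∈ k.primeFactors, (1 + 1 / (p : ℝ)) ≤ ∑ d ∈ k.divisors, 1 / (d : ℝ) := by
  rw [Finset.prod_one_add]
  have hinj : Set.InjOn (fun t : Finset ℕ => ∏ p ∈ t, p)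
      ((k.primeFactors.powerset : Finset (Finset ℕ)) : Set (Finset ℕ)) := by
    intro t ht t' ht' h
    have h1 := Nat.primeFactors_prod (s := t) fun p hp =>
      Nat.prime_of_mem_primeFactors ((mem_powerset.1 (mem_coe.1 ht)) hp)
    have h2 := Nat.primeFactors_prod (s := t') fun p hp =>
      Nat.prime_of_mem_primeFactors ((mem_powerset.1 (mem_coe.1 ht')) hp)
    simp only at h
    rw [← h1, ← h2, h]
  have h1 : ∑ t ∈ k.primeFactors.powerset, ∏ p ∈ t, (1 / (p : ℝ)) =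
      ∑ d ∈ k.primeFactors.powerset.image (fun t : Finset ℕ => ∏ p ∈ t, p), 1 / (d : ℝ) := by
    rw [sum_image hinj]
    refine sum_congr rfl fun t _ => ?_
    push_cast
    simp [Finset.prod_inv_distrib]
  rw [h1]
  refine sum_le_sum_of_subset_of_nonneg ?_ fun d _ _ => by positivity
  intro d hd
  rw [mem_image] at hd
  obtain ⟨t, ht, rfl⟩ := hd
  rw [Nat.mem_divisors]
  exact ⟨(Finset.prod_dvd_prod_of_subset _ _ _ (mem_powerset.1 ht)).trans
    (Nat.prod_primeFactors_dvd k), by omega⟩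

theorem sum_inv_sq (K : ℕ) : ∑ d ∈ Icc 1 K, 1 / (d : ℝ) ^ 2 ≤ 2 := by
  rcases Nat.eq_zero_or_pos K with rfl | hK
  · simp
  have h : ∑ d ∈ Icc 1 K, 1 / (d : ℝ) ^ 2 ≤ (2 : ℝ) - 1 / (K : ℝ) := by
    induction K, hK using Nat.le_induction with
    | base => norm_num
    | succ M hM ih =>
      rw [Finset.sum_Icc_succ_top (by omega : 1 ≤ M + 1)]
      have hM0 : (0 : ℝ) < M := by exact_mod_cast hM
      have h1 : 1 / ((M + 1 : ℕ) : ℝ) ^ 2 ≤ 1 / (M : ℝ) - 1 / ((M + 1 : ℕ) : ℝ) := by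
        push_cast
        rw [div_sub_div _ _ hM0.ne' (by positivity), div_le_div_iff₀ (by positivity) (by positivity)]
        nlinarith
      linarith
  have h2 : (0 : ℝ) ≤ 1 / (K : ℝ) := by positivity
  linarith

/-- The lower bound for the sum of the tent. -/
theorem sum_range_mul (n H : ℕ) :
    ∑ i ∈ range n, (i : ℝ) * (H - i) =
      H * (n * (n - 1)) / 2 - (n - 1) * n * (2 * n - 1) / 6 := by
  induction n with
  | zero => simp
  | succ n ih =>
    rw [sum_range_succ, ih]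
    push_cast
    ring

theorem Wm_ge (L H : ℕ) (hH : 2 ≤ H) : (H : ℝ) / 8 ≤ Wm L H := by
  have hH0 : (2 : ℝ) ≤ H := by exact_mod_cast hH
  have e1 : Wm L H = ∑ i ∈ range (H + 1), tent H (i : ℤ) := by
    unfold Wm Mo
    have h1 : Icc L (L + H) = Ico L (L + H + 1) := by
      ext x
      simp [mem_Icc, mem_Ico]
    rw [h1, sum_Ico_eq_sum_range]
    have h2 : L + H + 1 - L = H + 1 := by omega
    rw [h2]
    refine sum_congr rfl fun i _ => ?_
    unfold om
    congr 1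
    push_cast
    ring
  have h1 : ∀ i ∈ range (H + 1), (i : ℝ) * (H - i) / H ^ 2 ≤ tent H (i : ℤ) := by
    intro i hi
    have hi' : (i : ℝ) ≤ H := by exact_mod_cast Nat.lt_succ_iff.1 (mem_range.1 hi)
    have hi0 : (0 : ℝ) ≤ i := Nat.cast_nonneg i
    unfold tent
    rw [div_le_div_iff₀ (by positivity) (by positivity)]
    have h2 : (i : ℝ) * (H - i) / H ≤ max 0 (min (((i : ℕ) : ℤ) : ℝ) ((H : ℝ) - ((i : ℕ) : ℤ))) := by
      refine le_max_of_le_right (le_min ?_ ?_)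
      · rw [div_le_iff₀ (by positivity)]
        push_cast
        nlinarith
      · rw [div_le_iff₀ (by positivity)]
        push_cast
        nlinarith
    rw [div_le_iff₀ (by positivity)] at h2
    nlinarith
  rw [e1]
  refine le_trans ?_ (sum_le_sum h1)
  rw [← sum_div, sum_range_mul, le_div_iff₀ (by positivity)]
  push_cast
  nlinarith [mul_nonneg (by linarith : (0 : ℝ) ≤ H - 2) (by linarith : (0 : ℝ) ≤ (H : ℝ) + 2),
    mul_nonneg (mul_nonneg (by linarith : (0 : ℝ) ≤ H - 2) (by linarith : (0 : ℝ) ≤ (H : ℝ) + 2))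
      (by linarith : (0 : ℝ) ≤ (H : ℝ))]

end PsiAux

/-- F13 -/
theorem psi_split (a : ℤ) (ha : a ≠ 0) (N L K q : ℕ) (hL : a.natAbs < L)
    (hK : N + a.natAbs < (K + 1) * L) (hq : L ≤ q) :
    ∑ n ∈ (Icc 1 N).filter (fun n : ℕ => (q : ℤ) ∣ (n : ℤ) - a), (Λ n : ℝ) =
      LN N a + ∑ k ∈ Icc 1 K, LN N (a + k * q) := by
  have hq0 : (0 : ℤ) < q := by omega
  have e1 : LN N a + ∑ k ∈ Icc 1 K, LN N (a + k * q) =
      ∑ k ∈ range (K + 1), LN N (a + k * q) := by
    have h1 : range (K + 1) = Ico 0 (K + 1) := by rw [Nat.Ico_zero_eq_range]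
    rw [h1, sum_eq_sum_Ico_succ_bot (by omega : 0 < K + 1)]
    have h2 : Ico (0 + 1) (K + 1) = Icc 1 K := by
      ext x
      simp only [mem_Icc, mem_Ico]
      omega
    rw [h2]
    simp
  have e2 : ∑ k ∈ range (K + 1), LN N (a + k * q) =
      ∑ k ∈ (range (K + 1)).filter (fun k : ℕ => 1 ≤ a + k * q ∧ a + k * q ≤ N),
        (Λ (a + k * q).toNat : ℝ) := by
    rw [sum_filter]
    refine sum_congr rfl fun k _ => ?_
    unfold LN
    by_cases h1 : a + (k : ℤ) * q ≤ N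
    · by_cases h2 : 1 ≤ a + (k : ℤ) * q
      · rw [if_pos h1, if_pos ⟨h2, h1⟩]
      · rw [if_pos h1, if_neg (fun h => h2 h.1)]
        have h3 : (a + (k : ℤ) * q).toNat = 0 := Int.toNat_of_nonpos (by omega)
        rw [h3]
        simp
    · rw [if_neg h1, if_neg (fun h => h1 h.2)]
  rw [e1, e2]
  symm
  refine sum_nbij' (fun k : ℕ => (a + (k : ℤ) * q).toNat) (fun n : ℕ => (((n : ℤ) - a) / q).toNat)
    ?_ ?_ ?_ ?_ ?_
  · intro k hk
    rw [mem_filter] at hk
    obtain ⟨_, h1, h2⟩ := hk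
    have h3 : (((a + (k : ℤ) * q).toNat : ℕ) : ℤ) = a + k * q := Int.toNat_of_nonneg (by omega)
    rw [mem_filter, mem_Icc]
    refine ⟨⟨by omega, by omega⟩, ?_⟩
    rw [h3, add_sub_cancel_left]
    exact dvd_mul_left _ _
  · intro n hn
    rw [mem_filter, mem_Icc] at hn
    obtain ⟨⟨h1, h2⟩, c, hc⟩ := hn
    have hc0 : 0 ≤ c := by
      by_contra hneg
      have h3 : c ≤ -1 := by omega
      have h4 : (q : ℤ) * c ≤ q * (-1) := mul_le_mul_of_nonneg_left h3 hq0.le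
      omega
    have h5 : ((n : ℤ) - a) / q = c := by
      rw [hc]
      exact Int.mul_ediv_cancel_left _ hq0.ne'
    rw [h5, mem_filter, mem_range]
    have h6 : ((c.toNat : ℕ) : ℤ) = c := Int.toNat_of_nonneg hc0
    have h7 : a + c * q = n := by linarith [mul_comm c (q : ℤ)]
    refine ⟨?_, ?_, ?_⟩
    · by_contra hge
      have h8 : ((K : ℤ) + 1) ≤ c := by omega
      have h9 : ((K : ℤ) + 1) * L ≤ c * q :=
        mul_le_mul h8 (by exact_mod_cast hq) (by positivity) hc0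
      have h10 : ((N : ℤ) + a.natAbs) < (K + 1) * L := by exact_mod_cast hK
      omega
    · rw [h6, h7]
      omega
    · rw [h6, h7]
      omega
  · intro k hk
    rw [mem_filter] at hk
    obtain ⟨_, h1, h2⟩ := hk
    have h3 : (((a + (k : ℤ) * q).toNat : ℕ) : ℤ) = a + k * q := Int.toNat_of_nonneg (by omega)
    rw [h3, add_sub_cancel_left, Int.mul_ediv_cancel _ hq0.ne']
    simp
  · intro n hn
    rw [mem_filter, mem_Icc] at hn
    obtain ⟨⟨h1, h2⟩, c, hc⟩ := hn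
    have hc0 : 0 ≤ c := by
      by_contra hneg
      have h3 : c ≤ -1 := by omega
      have h4 : (q : ℤ) * c ≤ q * (-1) := mul_le_mul_of_nonneg_left h3 hq0.le
      omega
    have h5 : ((n : ℤ) - a) / q = c := by
      rw [hc]
      exact Int.mul_ediv_cancel_left _ hq0.ne'
    have h6 : ((c.toNat : ℕ) : ℤ) = c := Int.toNat_of_nonneg hc0
    have h7 : a + c * q = n := by linarith [mul_comm c (q : ℤ)]
    rw [h5, h6, h7]
    simp
  · intro k _
    rfl

theorem phi_lower (a : ℤ) (ha : a ≠ 0) (L H : ℕ) (hH : 48 * a.natAbs ≤ H) (hHL : H ≤ L) :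
    (H : ℝ) / (32 * a.natAbs * L) ≤ ∑ q ∈ Ma a L H, om L H q / (q.totient : ℝ) := by
  have hD : 1 ≤ a.natAbs := Int.natAbs_pos.2 ha
  have hDR : (1 : ℝ) ≤ a.natAbs := by exact_mod_cast hD
  have hHR : (48 : ℝ) * a.natAbs ≤ H := by exact_mod_cast hH
  have hLR : (H : ℝ) ≤ L := by exact_mod_cast hHL
  have hL0 : (0 : ℝ) < L := by linarith
  have hom : ∀ q, 0 ≤ om L H q := fun q => tent_nonneg H _
  have hsub : (Mo L H).filter (fun q : ℕ => ((a.natAbs : ℕ) : ℤ) ∣ (q : ℤ) - 1) ⊆ Ma a L H := by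
    intro q hq
    rw [mem_filter] at hq
    rw [Ma, mem_filter]
    refine ⟨hq.1, ?_⟩
    have h1 : (Nat.gcd q a.natAbs : ℤ) ∣ 1 := by
      have h2 : (Nat.gcd q a.natAbs : ℤ) ∣ (q : ℤ) := by
        exact_mod_cast Nat.gcd_dvd_left _ _
      have h3 : (Nat.gcd q a.natAbs : ℤ) ∣ (q : ℤ) - 1 :=
        dvd_trans (by exact_mod_cast Nat.gcd_dvd_right _ _) hq.2
      have := dvd_sub h2 h3
      simpa using this
    have h4 : Nat.gcd q a.natAbs ∣ 1 := by exact_mod_cast h1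
    exact Nat.dvd_one.1 h4
  have h1 : ∑ q ∈ (Mo L H).filter (fun q : ℕ => ((a.natAbs : ℕ) : ℤ) ∣ (q : ℤ) - 1),
      om L H q / (2 * L) ≤ ∑ q ∈ Ma a L H, om L H q / (q.totient : ℝ) := by
    refine (sum_le_sum fun q hq => ?_).trans
      (sum_le_sum_of_subset_of_nonneg hsub fun q _ _ => div_nonneg (hom q) (Nat.cast_nonneg _))
    rw [mem_filter, Mo, mem_Icc] at hq
    have hq0 : 0 < q := by omega
    have ht : (0 : ℝ) < q.totient := by exact_mod_cast Nat.totient_pos.2 hq0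
    have ht2 : (q.totient : ℝ) ≤ 2 * L := by
      have h2 : q.totient ≤ 2 * L := (Nat.totient_le q).trans (by omega)
      exact_mod_cast h2
    exact div_le_div_of_nonneg_left (hom q) ht ht2
  refine le_trans ?_ h1
  rw [← sum_div, div_le_div_iff₀ (by positivity) (by positivity)]
  have h2 := om_class L H (by omega) a.natAbs hD 1
  rw [abs_le] at h2
  have h3 := PsiAux.Wm_ge L H (by omega)
  have h4 : Wm L H / a.natAbs - 3 ≤
      ∑ q ∈ (Mo L H).filter (fun q : ℕ => ((a.natAbs : ℕ) : ℤ) ∣ (q : ℤ) - 1), om L H q := by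
    linarith [h2.1]
  have h5 : (H : ℝ) / (16 * a.natAbs) ≤ Wm L H / a.natAbs - 3 := by
    rw [div_sub' (by positivity), div_le_div_iff₀ (by positivity) (by positivity)]
    nlinarith
  have h6 : (H : ℝ) / (16 * a.natAbs) ≤
      ∑ q ∈ (Mo L H).filter (fun q : ℕ => ((a.natAbs : ℕ) : ℤ) ∣ (q : ℤ) - 1), om L H q :=
    h5.trans h4
  rw [div_le_iff₀ (by positivity)] at h6
  nlinarith

theorem sum_k (K : ℕ) : ∑ k ∈ Icc 1 K, (k : ℝ) / k.totient ≤ 8 * K := by
  have h1 : ∑ k ∈ Icc 1 K, (k : ℝ) / k.totient ≤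
      ∑ k ∈ Icc 1 K, 2 * ∑ d ∈ (Icc 1 K).filter (fun d => d ∣ k), 1 / (d : ℝ) := by
    refine sum_le_sum fun k hk => ?_
    have hk1 := (mem_Icc.1 hk).1
    have hk2 := (mem_Icc.1 hk).2
    refine (PsiAux.ratio_le k hk1).trans (mul_le_mul_of_nonneg_left
      ((PsiAux.prod_le_divisors k hk1).trans (sum_le_sum_of_subset_of_nonneg ?_
        fun d _ _ => by positivity)) (by norm_num))
    intro d hd
    rw [Nat.mem_divisors] at hd
    rw [mem_filter, mem_Icc]
    exact ⟨⟨Nat.pos_of_dvd_of_pos hd.1 hk1, (Nat.le_of_dvd hk1 hd.1).trans hk2⟩, hd.1⟩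
  refine h1.trans ?_
  rw [← mul_sum]
  have h2 : ∑ k ∈ Icc 1 K, ∑ d ∈ (Icc 1 K).filter (fun d => d ∣ k), 1 / (d : ℝ) ≤
      K * ∑ d ∈ Icc 1 K, 1 / (d : ℝ) ^ 2 := by
    simp_rw [sum_filter]
    rw [sum_comm, mul_sum]
    refine sum_le_sum fun d hd => ?_
    have hd1 := (mem_Icc.1 hd).1
    have hd0 : (0 : ℝ) < d := by exact_mod_cast hd1
    rw [← sum_filter, sum_const, nsmul_eq_mul]
    have h3 : (((Icc 1 K).filter (fun k => d ∣ k)).card : ℝ) ≤ K / d := by
      have h4 : ((Icc 1 K).filter (fun k => d ∣ k)).card = K / d := by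
        have h5 : Icc 1 K = Ioc 0 K := by
          ext x
          simp only [mem_Icc, mem_Ioc]
          omega
        rw [h5]
        exact Nat.Ioc_filter_dvd_card_eq_div K d
      rw [h4]
      exact Nat.cast_div_le
    calc (((Icc 1 K).filter (fun k => d ∣ k)).card : ℝ) * (1 / (d : ℝ)) ≤
          K / d * (1 / (d : ℝ)) := mul_le_mul_of_nonneg_right h3 (by positivity)
      _ = K * (1 / (d : ℝ) ^ 2) := by
          field_simp
  have h3 := PsiAux.sum_inv_sq K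
  have hK0 : (0 : ℝ) ≤ K := Nat.cast_nonneg K
  nlinarith [mul_le_mul_of_nonneg_left h3 hK0]

end

end Pool.Agent.M848.FC
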