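import Pool.Agent.Lib.MP_848d44_nt.F.Base
import Pool.Agent.Lib.MP_848d44_nt.F.Omc
import Pool.Agent.Lib.MP_848d44_nt.F.Psi

/-!
# MP_848d44_nt, fixed residue class: the main term, uniformly in `a`
-/

set_option autoImplicit false

namespace Pool.Agent.M848.FC

open Finset
open scoped ArithmeticFunction ComplexConjugate

noncomputable section

namespace PhiAux

open SelAux (mu)

/-- the indicator of coprimality by the Moebius function -/
theorem cop_ind (q A : ℕ) (hA : 1 ≤ A) :
    (if q.Coprime A then (1 : ℝ) else 0) =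
      ∑ f ∈ A.divisors, mu f * (if f ∣ q then 1 else 0) := by
  have h1 := SelAux.sum_div_mu (q.gcd A)
  have h2 : ∑ f ∈ A.divisors, mu f * (if f ∣ q then (1 : ℝ) else 0) =
      ∑ v ∈ (q.gcd A).divisors, mu v := by
    have h3 : (q.gcd A).divisors = A.divisors.filter (fun f => f ∣ q) := by
      ext f
      simp only [Nat.mem_divisors, mem_filter]
      constructor
      · rintro ⟨h, _⟩
        exact ⟨⟨(Nat.dvd_gcd_iff.1 h).2, by omega⟩, (Nat.dvd_gcd_iff.1 h).1⟩
      · rintro ⟨⟨h, _⟩, h'⟩
        exact ⟨Nat.dvd_gcd h' h, Nat.gcd_ne_zero_right (by omega)⟩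
    rw [h3, sum_filter]
    refine sum_congr rfl fun f _ => ?_
    split_ifs <;> simp
  rw [h2, h1]

/-- `∑_{f ∣ A} μ(f)/f = φ(A)/A` -/
theorem sum_mu_div (A : ℕ) (hA : 1 ≤ A) :
    ∑ f ∈ A.divisors, mu f / f = (A.totient : ℝ) / A := by
  have hA0 : (0 : ℝ) < A := by exact_mod_cast hA
  have h1 : (A.totient : ℝ) = ∑ f ∈ A.divisors, mu f * ((A : ℝ) / f) := by
    have e1 : (A.totient : ℝ) = ∑ m ∈ range A, (if m.Coprime A then (1 : ℝ) else 0) := by
      rw [Nat.totient_eq_card_coprime, ← sum_filter, sum_const, nsmul_eq_mul, mul_one]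
      congr 2
      ext m
      simp only [mem_filter, mem_range]
      rw [Nat.coprime_comm]
    rw [e1]
    rw [sum_congr rfl fun m _ => cop_ind m A hA, sum_comm]
    refine sum_congr rfl fun f hf => ?_
    rw [Nat.mem_divisors] at hf
    obtain ⟨g, hg⟩ := hf.1
    have hf0 : 0 < f := Nat.pos_of_ne_zero (by rintro rfl; omega)
    rw [← mul_sum]
    congr 1
    rw [← sum_filter, sum_const, nsmul_eq_mul, mul_one]
    have e2 : ((range A).filter (fun m => f ∣ m)).card = g := by
      have e3 : (range A).filter (fun m => f ∣ m) = (range g).image (fun i => f * i) := by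
        ext m
        simp only [mem_filter, mem_range, mem_image]
        constructor
        · rintro ⟨h, i, rfl⟩
          refine ⟨i, ?_, rfl⟩
          rw [hg] at h
          exact lt_of_mul_lt_mul_left h (Nat.zero_le _)
        · rintro ⟨i, hi, rfl⟩
          refine ⟨?_, Dvd.intro i rfl⟩
          rw [hg]
          exact Nat.mul_lt_mul_of_pos_left hi hf0
      rw [e3, card_image_of_injective _ (fun i j h => Nat.eq_of_mul_eq_mul_left hf0 h), card_range]
    rw [e2, hg]
    push_cast
    have : (0 : ℝ) < f := by exact_mod_cast hf0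
    field_simp
  rw [h1, sum_div]
  refine sum_congr rfl fun f _ => ?_
  field_simp

end PhiAux

open PhiAux in
theorem phi_lower2 (a : ℤ) (ha : a ≠ 0) (L H : ℕ) (hH : 48 * a.natAbs ^ 2 ≤ H) (hHL : H ≤ L) :
    (H : ℝ) / (32 * L) * ((a.natAbs.totient : ℝ) / a.natAbs) ≤
      ∑ q ∈ Ma a L H, om L H q / (q.totient : ℝ) := by
  set A := a.natAbs with hA
  have hA1 : 1 ≤ A := Int.natAbs_pos.2 ha
  have hH1 : 48 ≤ H := by nlinarith
  have hH0 : (48 : ℝ) ≤ H := by exact_mod_cast hH1
  have hL0 : (0 : ℝ) < L := by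
    have : 0 < L := by omega
    exact_mod_cast this
  have hAr : (1 : ℝ) ≤ A := by exact_mod_cast hA1
  -- replace `1/φ` by `1/(2L)`
  have h1 : (1 / (2 * (L : ℝ))) * ∑ q ∈ Ma a L H, om L H q ≤
      ∑ q ∈ Ma a L H, om L H q / (q.totient : ℝ) := by
    rw [mul_sum]
    refine sum_le_sum fun q hq => ?_
    rw [Ma, mem_filter, Mo, mem_Icc] at hq
    have hq1 : 0 < q := by omega
    have hφ : (0 : ℝ) < q.totient := by exact_mod_cast Nat.totient_pos.2 hq1
    have hφ2 : (q.totient : ℝ) ≤ 2 * L := by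
      have h2 : q.totient ≤ q := Nat.totient_le q
      have h3 : q.totient ≤ 2 * L := by omega
      exact_mod_cast h3
    rw [div_eq_mul_one_div (om L H q), mul_comm]
    refine mul_le_mul_of_nonneg_left ?_ (tent_nonneg _ _)
    exact one_div_le_one_div_of_le hφ hφ2
  refine le_trans ?_ h1
  -- the sum over the q coprime to A
  have h2 : ∑ q ∈ Ma a L H, om L H q =
      ∑ f ∈ A.divisors, SelAux.mu f * ∑ q ∈ (Mo L H).filter (fun q : ℕ => (f : ℤ) ∣ (q : ℤ) - 0),
        om L H q := by
    rw [Ma, sum_filter]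
    have e1 : ∀ q ∈ Mo L H, (if q.Coprime A then om L H q else 0) =
        ∑ f ∈ A.divisors, SelAux.mu f * (if f ∣ q then om L H q else 0) := by
      intro q _
      have e2 := cop_ind q A hA1
      have e3 : (if q.Coprime A then om L H q else 0) =
          om L H q * (if q.Coprime A then (1 : ℝ) else 0) := by split_ifs <;> simp
      rw [e3, e2, mul_sum]
      refine sum_congr rfl fun f _ => ?_
      split_ifs <;> ring
    rw [sum_congr rfl e1, sum_comm]
    refine sum_congr rfl fun f _ => ?_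
    rw [← mul_sum, sum_filter]
    congr 1
    refine sum_congr rfl fun q _ => ?_
    congr 1
    rw [sub_zero, Int.natCast_dvd_natCast]
  have h3 : Wm L H * ((A.totient : ℝ) / A) - 3 * A ≤ ∑ q ∈ Ma a L H, om L H q := by
    rw [h2, ← sum_mu_div A hA1, mul_sum]
    have e1 : ∀ f ∈ A.divisors, Wm L H * (SelAux.mu f / f) - 3 ≤ SelAux.mu f *
        ∑ q ∈ (Mo L H).filter (fun q : ℕ => (f : ℤ) ∣ (q : ℤ) - 0), om L H q := by
      intro f hf
      have hf1 : 1 ≤ f := Nat.pos_of_mem_divisors hf
      have e2 := om_class L H (by omega) f hf1 0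
      have e3 := SelAux.mu_abs_le f
      set X := ∑ q ∈ (Mo L H).filter (fun q : ℕ => (f : ℤ) ∣ (q : ℤ) - 0), om L H q with hX
      have e4 : |SelAux.mu f * (X - Wm L H / f)| ≤ 1 * 3 := by
        rw [abs_mul]
        exact mul_le_mul e3 e2 (abs_nonneg _) (by norm_num)
      have e5 := (abs_le.1 e4).1
      have e6 : SelAux.mu f * (X - Wm L H / f) = SelAux.mu f * X - Wm L H * (SelAux.mu f / f) := by
        ring
      linarith
    refine le_trans ?_ (sum_le_sum e1)
    rw [sum_sub_distrib, sum_const, nsmul_eq_mul]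
    have e7 : (A.divisors.card : ℝ) ≤ A := by
      exact_mod_cast Nat.card_divisors_le_self A
    linarith
  have h4 := PsiAux.Wm_ge L H (by omega)
  have hφA : (1 : ℝ) ≤ A.totient := by
    have : 0 < A.totient := Nat.totient_pos.2 hA1
    exact_mod_cast this
  have h5 : 1 / (A : ℝ) ≤ (A.totient : ℝ) / A := by gcongr
  set P := (A.totient : ℝ) / A with hP
  have hP0 : 0 < P := lt_of_lt_of_le (by positivity) h5
  have h6 : (H : ℝ) / 16 * P ≤ ∑ q ∈ Ma a L H, om L H q := by
    refine le_trans ?_ h3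
    have h7 : (H : ℝ) / 8 * P ≤ Wm L H * P := by gcongr
    have h8 : 3 * (A : ℝ) ≤ H / 16 * P := by
      have h9 : (48 : ℝ) * A ^ 2 ≤ H := by exact_mod_cast hH
      calc 3 * (A : ℝ) = (48 * A ^ 2) / 16 * (1 / A) := by field_simp; norm_num
        _ ≤ H / 16 * P := by gcongr
    linarith
  calc (H : ℝ) / (32 * L) * P = (1 / (2 * L)) * (H / 16 * P) := by field_simp; norm_num
    _ ≤ _ := by gcongr

end

end Pool.Agent.M848.FC
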