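import Pool.Agent.Lib.MP_848d44_nt.F.Core
import Pool.Agent.Lib.MP_848d44_nt.F.Num
import Pool.Agent.Lib.MP_848d44_nt.F.L1r
import Pool.Agent.Lib.MP_848d44_nt.F.Selk
import Pool.Agent.Lib.MP_848d44_nt.F.Omc
import Pool.Agent.Lib.MP_848d44_nt.F.Ene
import Pool.Agent.Lib.MP_848d44_nt.F.Off
import Pool.Agent.Lib.MP_848d44_nt.F.Mea
import Pool.Agent.Lib.MP_848d44_nt.F.Dgt
import Pool.Agent.Lib.MP_848d44_nt.F.Psi
import Pool.Agent.Lib.MP_848d44_nt.F.Phi

/-!
# MP_848d44_nt, fixed residue class: assembly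
-/

set_option autoImplicit false

namespace Pool.Agent.M848.FC

open Finset
open scoped ArithmeticFunction ComplexConjugate

noncomputable section

/-- the property of the constant in `l1_red` -/
def RedC (κ C₁ : ℝ) : Prop :=
  ∀ N R Y y : ℕ, 1 ≤ Y → Y ≤ R → (2 * R * Y) ^ 3 ≤ N → y ≤ N →
      YY (PR R) Y y ≤ C₁ * (N : ℝ) ^ κ * (N / R + (N : ℝ) ^ ((5 : ℝ) / 6))

/-- the final inequality between real numbers -/
theorem fin_alg (J En AA' H K L N P κ ε lg Φ Err : ℝ) (hJ : 0 ≤ J) (hH : 0 < H) (hK : 0 < K)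
    (hL : 0 < L) (hN : 0 < N) (hP : 0 < P) (hκ : 0 < κ) (hκ1 : κ ≤ 1) (hε : 0 < ε)
    (hε1 : ε ≤ 1) (hlg : 0 < lg)
    (hAA : ε / 20 ≤ AA') (hΦ : H / (32 * L) * P ≤ Φ) (hKL : K * L ≤ 2 * N) (hLN : L * lg ≤ 2 * N)
    (hcore : AA' * (N * Φ) ≤ Real.sqrt (J * En) + AA' * Real.sqrt (J * H) + Err)
    (hErr : Err ≤ AA' * (N * Φ) / 2)
    (hEn0 : 0 ≤ En) (hEn : En ≤ 64 * H * AA' * K / (κ * lg)) :
    ε * κ / 2 ^ 26 * P ^ 2 * (H / L) * (N * lg) ≤ J := by
  have hAA0 : 0 < AA' := by linarith [show 0 < ε / 20 by positivity]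
  have hΦ0 : 0 < Φ := lt_of_lt_of_le (by positivity) hΦ
  set X := N * Φ with hX
  have hX0 : 0 < X := by positivity
  have hXl : N * (H / (32 * L) * P) ≤ X := by
    rw [hX]
    gcongr
  have hXl0 : 0 < N * (H / (32 * L) * P) := by positivity
  have hX2 : (N * (H / (32 * L) * P)) ^ 2 ≤ X ^ 2 := by gcongr
  have hhalf : AA' * X / 2 ≤ Real.sqrt (J * En) + AA' * Real.sqrt (J * H) := by linarith
  rcases le_total (AA' * X / 4) (Real.sqrt (J * En)) with h1 | h1
  · -- the energy dominates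
    have h2 : (AA' * X / 4) ^ 2 ≤ J * En := by
      have := pow_le_pow_left₀ (by positivity) h1 2
      rwa [Real.sq_sqrt (by positivity)] at this
    have h3 : (AA' * X / 4) ^ 2 ≤ J * (64 * H * AA' * K / (κ * lg)) :=
      h2.trans (mul_le_mul_of_nonneg_left hEn hJ)
    have h4 : AA' * X ^ 2 * (κ * lg) ≤ 1024 * J * H * K := by
      have h5 : (AA' * X / 4) ^ 2 * (κ * lg) ≤ J * (64 * H * AA' * K) := by
        calc (AA' * X / 4) ^ 2 * (κ * lg) ≤ J * (64 * H * AA' * K / (κ * lg)) * (κ * lg) := by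
              gcongr
          _ = J * (64 * H * AA' * K) := by field_simp
      have h6 : AA' * (AA' * X ^ 2 * (κ * lg)) ≤ AA' * (1024 * J * H * K) := by nlinarith
      exact le_of_mul_le_mul_left h6 hAA0
    have h7 : (ε / 20) * (N * (H / (32 * L) * P)) ^ 2 * (κ * lg) ≤ 1024 * J * H * K := by
      refine le_trans ?_ h4
      gcongr
    -- conclude
    have h8 : (ε / 20) * (N * (H / (32 * L) * P)) ^ 2 * (κ * lg) * L ≤ 1024 * J * H * (2 * N) := by
      calc (ε / 20) * (N * (H / (32 * L) * P)) ^ 2 * (κ * lg) * L ≤ (1024 * J * H * K) * L := by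
            gcongr
        _ = 1024 * J * H * (K * L) := by ring
        _ ≤ 1024 * J * H * (2 * N) := by gcongr
    have h9 : (ε / 20) * (N * (H / (32 * L) * P)) ^ 2 * (κ * lg) * L =
        (N * H) * ((ε * κ / (20 * 1024) * P ^ 2) * (H / L) * (N * lg)) := by
      field_simp
      ring
    rw [h9] at h8
    have h10 : (N * H) * ((ε * κ / (20 * 1024) * P ^ 2) * (H / L) * (N * lg)) ≤
        (N * H) * (2048 * J) := by linarith
    have h11 := le_of_mul_le_mul_left h10 (by positivity)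
    have h12 : ε * κ / 2 ^ 26 * P ^ 2 * (H / L) * (N * lg) =
        (20 * 1024 / 2 ^ 26) * ((ε * κ / (20 * 1024) * P ^ 2) * (H / L) * (N * lg)) := by
      field_simp
    rw [h12]
    have h13 : 0 ≤ (ε * κ / (20 * 1024) * P ^ 2) * (H / L) * (N * lg) := by positivity
    nlinarith
  · have h2 : AA' * X / 4 ≤ AA' * Real.sqrt (J * H) := by linarith
    have h3 : X / 4 ≤ Real.sqrt (J * H) := by
      have : AA' * (X / 4) ≤ AA' * Real.sqrt (J * H) := by linarith
      exact le_of_mul_le_mul_left this hAA0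
    have h4 : (X / 4) ^ 2 ≤ J * H := by
      have := pow_le_pow_left₀ (by positivity) h3 2
      rwa [Real.sq_sqrt (by positivity)] at this
    have h5 : (N * (H / (32 * L) * P)) ^ 2 ≤ 16 * (J * H) := by nlinarith
    have h6 : (N * (H / (32 * L) * P)) ^ 2 = H * ((1 / 1024 * P ^ 2) * (H / L) * (N * (N / L))) := by
      field_simp
      ring
    rw [h6] at h5
    have h7 : H * ((1 / 1024 * P ^ 2) * (H / L) * (N * (N / L))) ≤ H * (16 * J) := by linarith
    have h8 := le_of_mul_le_mul_left h7 hH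
    have h9 : lg / 2 ≤ N / L := by
      rw [le_div_iff₀ hL]
      linarith
    have h10 : (1 / 1024 * P ^ 2) * (H / L) * (N * (lg / 2)) ≤ 16 * J := by
      refine le_trans ?_ h8
      gcongr
    have h11 : ε * κ / 2 ^ 26 * P ^ 2 * (H / L) * (N * lg) ≤
        (1 / 16) * ((1 / 1024 * P ^ 2) * (H / L) * (N * (lg / 2))) := by
      have h12 : ε * κ / 2 ^ 26 * P ^ 2 ≤ (1 / 32) * (1 / 1024 * P ^ 2) := by
        have h13 : ε * κ ≤ 1 := by nlinarith
        have h14 : 0 ≤ P ^ 2 := by positivity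
        nlinarith
      calc ε * κ / 2 ^ 26 * P ^ 2 * (H / L) * (N * lg) ≤
          ((1 / 32) * (1 / 1024 * P ^ 2)) * (H / L) * (N * lg) := by gcongr
        _ = _ := by ring
    linarith

/-- one `N` -/
theorem one_N (a : ℤ) (ha : a ≠ 0) (ε κ C₁ : ℝ) (J₀ : ℕ) (hε : 0 < ε) (hε1 : ε ≤ 1 / 12)
    (hκ : κ = ε / 400) (hC₁ : 0 < C₁) (hred : RedC κ C₁) (hJ₀ : 1 ≤ J₀)
    (hrec : ∀ j₀ j₁ : ℕ, J₀ ≤ j₀ → j₀ + 1 ≤ j₁ →
      ((j₁ : ℝ) - 1 - j₀) / (8 * ((j₁ : ℝ) + 1)) ≤ ∑ j ∈ Ico j₀ j₁, ∑ s ∈ PR (2 ^ j), (1 : ℝ) / s)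
    (N L H K : ℕ) (u : ℝ) (hu : u = (N : ℝ) ^ κ) (hN : 2 ≤ N)
    (hu1 : 48 ≤ u) (hu2 : (2 : ℝ) ^ J₀ ≤ u) (hu3 : (a.natAbs : ℝ) ≤ u)
    (hbig : 30 * Real.log 2 / ε ≤ Real.log N)
    (hu4 : 1280 *
      (60 * C₁ * (1 / κ) ^ 2 + 200 * (1 / κ) ^ 2 + 48 * (1 / κ) + 64 * (1 / κ) ^ 2 +
        15000 * (1 / κ) ^ 2) / ε ≤ u)
    (hu5 : 20 * 400 * (1 / κ) / ε ≤ u)
    (hL1 : (N : ℝ) ^ ((5 : ℝ) / 6 + ε) ≤ L) (hL2 : (L : ℝ) * Real.log N ≤ 2 * N)
    (hHL : H ≤ L) (hLH : (L : ℝ) ≤ H * u) (hK1 : 1 ≤ K) (hKL : (K : ℝ) * L ≤ 2 * N)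
    (hNK : (N : ℝ) ≤ 2 * K * L) :
    ε * κ / 2 ^ 26 * ((a.natAbs.totient : ℝ) / a.natAbs) ^ 2 * ((H : ℝ) / L) *
        (N * Real.log N) ≤
      ∑ q ∈ Ma a L H, om L H q * EF a N K q ^ 2 := by
  have hκ0 : 0 < κ := by rw [hκ]; positivity
  have hκ1 : κ ≤ 1 := by rw [hκ]; linarith
  have hNr : (2 : ℝ) ≤ N := by exact_mod_cast hN
  have hN0 : (0 : ℝ) < N := by linarith
  have hlog : 0 < Real.log N := Real.log_pos (by linarith)
  have hA1 : (1 : ℝ) ≤ a.natAbs := by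
    have : 1 ≤ a.natAbs := Int.natAbs_pos.2 ha
    exact_mod_cast this
  set A := a.natAbs with hA
  set m := (N : ℝ) ^ ((1 : ℝ) / 6) with hm
  have hNm : (N : ℝ) = m ^ 6 := by
    rw [hm, ← Real.rpow_natCast, ← Real.rpow_mul hN0.le]
    norm_num
  have h56 : (N : ℝ) ^ ((5 : ℝ) / 6) = m ^ 5 := by
    rw [hm, ← Real.rpow_natCast, ← Real.rpow_mul hN0.le]
    norm_num
  have hpow : ∀ n : ℕ, u ^ n = (N : ℝ) ^ (κ * n) := by
    intro n
    rw [hu, ← Real.rpow_natCast, ← Real.rpow_mul hN0.le]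
  have hu0 : 0 < u := by linarith
  have hu400 : u ^ 400 = (N : ℝ) ^ ε := by
    rw [hpow, hκ]
    congr 1
    push_cast
    ring
  have hum : u ^ 800 ≤ m := by
    rw [hpow, hm]
    apply Real.rpow_le_rpow_of_exponent_le (by linarith)
    rw [hκ]
    push_cast
    linarith
  have hm1 : 1 ≤ m := le_trans (one_le_pow₀ (by linarith)) hum
  have hm0 : 0 < m := by linarith
  have hlg : Real.log N ≤ (1 / κ) * u := by
    rw [hu]
    have := Real.log_le_rpow_div hN0.le hκ0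
    calc Real.log N ≤ (N : ℝ) ^ κ / κ := this
      _ = _ := by ring
  have hC1 : 1 ≤ 1 / κ := by
    rw [le_div_iff₀ hκ0]
    linarith
  have hLm : m ^ 5 * u ^ 400 ≤ L := by
    rw [hu400, ← h56, ← Real.rpow_add hN0]
    exact hL1
  have hL0 : (0 : ℝ) < L := lt_of_lt_of_le (by positivity) hLm
  have hKr : (1 : ℝ) ≤ K := by exact_mod_cast hK1
  have hK0 : (0 : ℝ) < K := by linarith
  have hKm : (K : ℝ) * u ^ 400 ≤ 2 * m := by
    have h1 : (K * u ^ 400) * m ^ 5 ≤ (2 * m) * m ^ 5 := by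
      calc (K * u ^ 400) * m ^ 5 = K * (m ^ 5 * u ^ 400) := by ring
        _ ≤ (K : ℝ) * (L : ℝ) := by gcongr
        _ ≤ 2 * (N : ℝ) := hKL
        _ = (2 * m) * m ^ 5 := by rw [hNm]; ring
    exact le_of_mul_le_mul_right h1 (by positivity)
  have hlogu : Real.log u = ε / 400 * Real.log N := by
    rw [hu, Real.log_rpow hN0, hκ]
  have hup : ∀ {i j : ℕ}, i ≤ j → u ^ i ≤ u ^ j := fun h => pow_le_pow_right₀ (by linarith) h
  -- block range
  obtain ⟨j₀, j₁, hJj, hj0, hj1, hAA⟩ := block_range J₀ hJ₀ hrec ε K u N hε hε1 hKr (by linarith)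
    hlogu (by
      calc ((K : ℝ) * u ^ 200) ^ 3 = (K ^ 3 * u ^ 600) := by ring
        _ ≤ K ^ 3 * u ^ 1200 := by
            have := hup (show 600 ≤ 1200 by norm_num)
            gcongr
        _ = (K * u ^ 400) ^ 3 := by ring
        _ ≤ (2 * m) ^ 3 := by gcongr
        _ = 8 * m ^ 3 := by ring
        _ ≤ m * m ^ 3 := by
            have : (8 : ℝ) ≤ m := by
              have h1 : u ^ 1 ≤ u ^ 800 := hup (by norm_num)
              rw [pow_one] at h1
              linarith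
            gcongr
        _ = m ^ 4 := by ring
        _ ≤ m ^ 6 := pow_le_pow_right₀ hm1 (by norm_num)
        _ = N := hNm.symm)
    (hu2.trans (by
      have h1 : u ^ 1 ≤ u ^ 100 := hup (by norm_num)
      rwa [pow_one] at h1)) hbig
  set T := ⌊u⌋₊ with hT
  have hTu : (T : ℝ) ≤ u := Nat.floor_le hu0.le
  have hTu' : u - 1 ≤ T := by
    have := Nat.lt_floor_add_one u
    rw [← hT] at this
    linarith
  have hT2 : 2 ≤ T := by
    rw [hT, Nat.le_floor_iff hu0.le]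
    push_cast
    linarith
  have hjj : (j₁ : ℝ) ≤ 2 * (1 / κ) * u := by
    have h1 : (2 : ℝ) ^ j₁ ≤ N := by
      refine hj1.trans ?_
      calc (K : ℝ) * u ^ 200 ≤ K * u ^ 400 := by
            have := hup (show 200 ≤ 400 by norm_num)
            gcongr
        _ ≤ 2 * m := hKm
        _ ≤ m * m := by
            have : (2 : ℝ) ≤ m := by
              have h1 : u ^ 1 ≤ u ^ 800 := hup (by norm_num)
              rw [pow_one] at h1
              linarith
            gcongr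
        _ = m ^ 2 := by ring
        _ ≤ m ^ 6 := pow_le_pow_right₀ hm1 (by norm_num)
        _ = N := hNm.symm
    have h2 := Real.log_le_log (by positivity) h1
    rw [Real.log_pow] at h2
    have h8 : (1 : ℝ) / 2 ≤ Real.log 2 := by linarith [Real.log_two_gt_d9]
    have h9 : (0 : ℝ) ≤ (j₁ : ℝ) := Nat.cast_nonneg _
    have h10 : (j₁ : ℝ) * (1 / 2) ≤ (j₁ : ℝ) * Real.log 2 := by gcongr
    linarith
  have hAL : (A : ℝ) ≤ L := by
    have h1 : u ≤ L := by
      refine le_trans ?_ hLm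
      have h2 : u ^ 1 ≤ u ^ 400 := hup (by norm_num)
      rw [pow_one] at h2
      have h3 := one_le_pow₀ hm1 (n := 5)
      calc u ≤ 1 * u ^ 400 := by rw [one_mul]; exact h2
        _ ≤ m ^ 5 * u ^ 400 := by gcongr
    linarith
  have hLN : (L : ℝ) ≤ N := by
    have h1 : 2 ≤ Real.log N := by
      have h2 : (12 : ℝ) ≤ 1 / ε := by rw [le_div_iff₀ hε]; linarith
      have h3 : (1 : ℝ) / 2 ≤ Real.log 2 := by linarith [Real.log_two_gt_d9]
      have h4 : 30 * Real.log 2 / ε = 30 * Real.log 2 * (1 / ε) := by ring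
      rw [h4] at hbig
      have h5 : (15 : ℝ) * 12 ≤ 30 * Real.log 2 * (1 / ε) := by
        apply mul_le_mul _ h2 (by norm_num) (by positivity)
        linarith
      linarith
    have h6 : (L : ℝ) * 2 ≤ L * Real.log N := by gcongr
    linarith
  have hSz : Sz N L H K T j₀ j₁ A u m (1 / κ) :=
    { u4 := by linarith
      um := hum
      Nm := hNm
      lg := hlg
      C1 := hC1
      K1 := hKr
      Km := hKm
      KL := hKL
      NK := hNK
      Tu := hTu
      HL := by exact_mod_cast hHL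
      LH := hLH
      Lm := hLm
      L_N := hLN
      j0 := hj0
      j1 := hj1
      jj := hjj
      A1 := hA1
      AL := hAL
      Au := hu3 }
  have hH0 := hSz.H0
  have hH1 : 1 ≤ H := by
    have : 0 < H := by exact_mod_cast hH0
    omega
  -- the primes
  have hS : ∀ s ∈ SS 1 j₀ j₁, s.Prime ∧ T < s ∧ K * a.natAbs < s := by
    intro s hs
    have hs' := mem_SS hs
    have h1 : ((2 : ℝ) ^ j₀) < s := by exact_mod_cast hs'.2.1
    have h2 : u ≤ u ^ 100 := by
      have h2 : u ^ 1 ≤ u ^ 100 := hup (by norm_num)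
      rwa [pow_one] at h2
    refine ⟨hs'.1, ?_, ?_⟩
    · have : (T : ℝ) < s := by
        have : u ^ 100 ≤ K * u ^ 100 := le_mul_of_one_le_left (by positivity) hKr
        linarith
      exact_mod_cast this
    · have : ((K * a.natAbs : ℕ) : ℝ) < s := by
        push_cast
        have h3 : (K : ℝ) * A ≤ K * u ^ 100 := by
          gcongr
          linarith
        rw [hA] at h3
        linarith
      exact_mod_cast this
  have hP : ∀ s ∈ SS 1 j₀ j₁, s ≤ 2 ^ j₁ := fun s hs => (mem_SS hs).2.2.1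
  have hTP : T ≤ 2 ^ j₁ := by
    -- `SS` is not empty
    have h1 : j₀ < j₁ := by
      by_contra h
      push Not at h
      rw [Finset.Ico_eq_empty (by omega), sum_empty] at hAA
      linarith
    have h2 : (T : ℝ) ≤ ((2 ^ j₁ : ℕ) : ℝ) := by
      push_cast
      have h2 : u ≤ u ^ 100 := by
        have h2 : u ^ 1 ≤ u ^ 100 := hup (by norm_num)
        rwa [pow_one] at h2
      have : u ^ 100 ≤ K * u ^ 100 := le_mul_of_one_le_left (by positivity) hKr
      have h3 : (2 : ℝ) ^ j₀ ≤ 2 ^ j₁ := pow_le_pow_right₀ (by norm_num) h1.le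
      linarith
    exact_mod_cast h2
  -- the weights
  have hw : ∀ k : ℕ, ∃ b : ℕ → ℝ, 1 ≤ k →
      (Wt b k T ∧ QQ b T ≤ 2 * ((k : ℝ) / k.totient) / Real.log T) := by
    intro k
    rcases Nat.lt_or_ge k 1 with h | h
    · exact ⟨0, fun h' => by omega⟩
    · obtain ⟨b, hb⟩ := selk k T h hT2
      exact ⟨b, fun _ => hb⟩
  choose b hb using hw
  have hb' : ∀ k ∈ Icc 1 K, Wt (b k) k T := fun k hk => (hb k (mem_Icc.1 hk).1).1
  -- the errors
  have hE1 := off_total a ha N L H K T hN hH1 (by omega) b hb' (SS 1 j₀ j₁) hS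
  have hE2 := diag_term a ha N L H K T (2 ^ j₁) hN hH1 (by omega) b hb' (SS 1 j₀ j₁) hS hP hTP
  have hE3 := ncop_term a ha N L H K T hN hH1 (by omega) b hb' (SS 1 j₀ j₁) hS
  have hE4 := mean_term a ha L H K T hH1 hHL (by omega) b hb' (SS 1 j₀ j₁) hS
  have hE5 := energy a ha L H K T hH1 (by omega) b hb' (SS 1 j₀ j₁) hS
  have hcore := core a N L H K T b (SS 1 j₀ j₁) _ _ _ _ _ hE1 hE2 hE3 hE4 hE5 (Wm_le L H)
  -- sizes
  have hAA' : ε / 20 ≤ AA (SS 1 j₀ j₁) := by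
    have h1 := AA_lower 1 j₀ j₁ le_rfl (ε / 20) hAA
    simpa using h1
  have hyy : ∀ y ≤ N, ∀ j ∈ Ico j₀ j₁,
      YY (PR (2 ^ j)) (K * T) y ≤ C₁ * u * (N / 2 ^ j + m ^ 5) := by
    intro y hy j hj
    rw [mem_Ico] at hj
    have h1 : K * T ≤ 2 ^ j := by
      have h2 : ((K * T : ℕ) : ℝ) ≤ ((2 ^ j : ℕ) : ℝ) := by
        push_cast
        calc (K : ℝ) * T ≤ K * u ^ 100 := by
              have h2 : u ^ 1 ≤ u ^ 100 := hup (by norm_num)
              rw [pow_one] at h2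
              gcongr
              linarith
          _ ≤ 2 ^ j₀ := hj0
          _ ≤ 2 ^ j := pow_le_pow_right₀ (by norm_num) hj.1
      exact_mod_cast h2
    have h3 : (2 * 2 ^ j * (K * T)) ^ 3 ≤ N := by
      have h4 : (((2 * 2 ^ j * (K * T)) ^ 3 : ℕ) : ℝ) ≤ N := by
        push_cast
        have h5 : (2 : ℝ) * 2 ^ j ≤ K * u ^ 200 := by
          calc (2 : ℝ) * 2 ^ j = 2 ^ (j + 1) := by ring
            _ ≤ 2 ^ j₁ := pow_le_pow_right₀ (by norm_num) (by omega)
            _ ≤ _ := hj1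
        calc ((2 : ℝ) * 2 ^ j * (K * T)) ^ 3 ≤ ((K * u ^ 200) * (K * u)) ^ 3 := by gcongr
          _ = K ^ 6 * u ^ 603 := by ring
          _ ≤ K ^ 6 * u ^ 2397 := by
              have := hup (show 603 ≤ 2397 by norm_num)
              gcongr
          _ = (K * u ^ 400) ^ 6 / u ^ 3 := by field_simp
          _ ≤ (2 * m) ^ 6 / u ^ 3 := by gcongr
          _ = m ^ 6 * (64 / u ^ 3) := by ring
          _ ≤ m ^ 6 * 1 := by
              have : (64 : ℝ) / u ^ 3 ≤ 1 := by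
                rw [div_le_one (by positivity)]
                calc (64 : ℝ) = 4 ^ 3 := by norm_num
                  _ ≤ u ^ 3 := by gcongr; linarith
              gcongr
          _ = N := by rw [hNm]; ring
      exact_mod_cast h4
    have h6 := hred N (2 ^ j) (K * T) y (Nat.mul_pos hK1 (by omega)) h1 h3 hy
    rw [h56, ← hu] at h6
    push_cast at h6
    exact h6
  have r1 := hSz.e1 C₁ hC₁.le hyy
  have r2 := hSz.e2
  have r3 := hSz.e3
  have r4 := hSz.e4
  have r5 := hSz.en2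
  have hΦ := phi_lower2 a ha L H (by
    have h1 : (48 * a.natAbs ^ 2 : ℝ) ≤ H := by
      have h2 : u ^ 3 ≤ H := by
        have h3 : m ^ 5 * u ^ 399 * u ≤ H * u := by
          calc m ^ 5 * u ^ 399 * u = m ^ 5 * u ^ 400 := by ring
            _ ≤ (L : ℝ) := hLm
            _ ≤ (H : ℝ) * u := hLH
        have h4 := le_of_mul_le_mul_right h3 hu0
        have h5 : u ^ 3 ≤ u ^ 399 := hup (by norm_num)
        have h6 := one_le_pow₀ hm1 (n := 5)
        refine le_trans ?_ h4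
        calc u ^ 3 ≤ 1 * u ^ 399 := by rw [one_mul]; exact h5
          _ ≤ m ^ 5 * u ^ 399 := by gcongr
      refine le_trans ?_ h2
      rw [← hA]
      calc 48 * (A : ℝ) ^ 2 ≤ u * u ^ 2 := by gcongr
        _ = u ^ 3 := by ring
    exact_mod_cast h1) hHL
  have hJ0 : 0 ≤ ∑ q ∈ Ma a L H, om L H q * EF a N K q ^ 2 :=
    sum_nonneg fun q _ => mul_nonneg (CoreAux.om_nonneg _ _ _) (sq_nonneg _)
  have hAApos : 0 < AA (SS 1 j₀ j₁) := by
    have : 0 < ε / 20 := by positivity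
    linarith
  have hEn0 : 0 ≤ ∑ q ∈ Mo L H, om L H q * cq b T K (SS 1 j₀ j₁) a q ^ 2 :=
    sum_nonneg fun q _ => mul_nonneg (CoreAux.om_nonneg _ _ _) (sq_nonneg _)
  set Φ := ∑ q ∈ Ma a L H, om L H q / (q.totient : ℝ) with hΦdef
  rw [← hA] at hΦ
  have hφA : (1 : ℝ) ≤ A.totient := by
    have h1 : 0 < A.totient := Nat.totient_pos.2 (Int.natAbs_pos.2 ha)
    exact_mod_cast h1
  have hP0 : 0 < (A.totient : ℝ) / A := by positivity
  refine fin_alg _ _ _ H K L N ((A.totient : ℝ) / A) κ ε (Real.log N) Φ _ hJ0 hH0 hK0 hL0 hN0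
    hP0 hκ0 hκ1 hε
    (by linarith) hlog hAA' hΦ hKL hL2 hcore ?_ (hEn0.trans hE5) ?_
  · -- errors
    set Z := (60 * C₁ * (1 / κ) ^ 2 + 200 * (1 / κ) ^ 2 + 48 * (1 / κ) + 64 * (1 / κ) ^ 2 +
        15000 * (1 / κ) ^ 2) with hZ
    have hZ0 : 0 < Z := by positivity
    have hsum : K * (T : ℝ) ^ 3 *
        (∑ y ∈ Icc 1 N, (((L : ℝ) + H + a.natAbs) / (H * y)) * YY (SS 1 j₀ j₁) (K * T) y
        + YY (SS 1 j₀ j₁) (K * T) N
        + K * (∑ s ∈ SS 1 j₀ j₁, (H + 1) * Real.log N / ((s : ℝ) * (s - 1))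
          + (SS 1 j₀ j₁).card * (((Nat.log 2 (K * T) : ℝ) + 2) * Real.log N))) +
        3 * K * ((2 ^ j₁ : ℕ) : ℝ) * (T : ℝ) ^ 3 * (1 + (SS 1 j₀ j₁).card) * Real.log N +
        2 * (K : ℝ) ^ 2 * (T : ℝ) ^ 3 * (1 + (SS 1 j₀ j₁).card) * Nat.log 2 a.natAbs *
          Real.log N +
        N * (100 * K * (T : ℝ) ^ 3 * a.natAbs * (((SS 1 j₀ j₁).card : ℝ) *
          (1 + Real.log (2 * L)) ^ 2 / L + (H / L) * ∑ s ∈ SS 1 j₀ j₁, 1 / (s : ℝ) ^ 2)) ≤
        Z * (N / u ^ 50) := by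
      rw [hZ]
      rw [← hA]
      have : (60 * C₁ * (1 / κ) ^ 2 + 200 * (1 / κ) ^ 2 + 48 * (1 / κ) + 64 * (1 / κ) ^ 2 +
        15000 * (1 / κ) ^ 2) * (N / u ^ 50) =
        (60 * C₁ * (1 / κ) ^ 2 + 200 * (1 / κ) ^ 2) * (N / u ^ 50) + 48 * (1 / κ) * (N / u ^ 50) +
        64 * (1 / κ) ^ 2 * (N / u ^ 50) + 15000 * (1 / κ) ^ 2 * (N / u ^ 50) := by ring
      rw [this]
      linarith
    refine hsum.trans ?_
    -- `Z N / u^50 ≤ AA N Φ / 2`
    have h1 : Z * (N / u ^ 50) ≤ (ε / 20) * (N * (1 / (32 * u ^ 2))) / 2 := by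
      have h2 : 1280 * Z ≤ ε * u := by
        rw [div_le_iff₀ hε] at hu4
        linarith
      rw [show (ε / 20) * (N * (1 / (32 * u ^ 2))) / 2 = N * ε / (1280 * u ^ 2) by
        field_simp; ring]
      rw [mul_div_assoc', div_le_div_iff₀ (by positivity) (by positivity)]
      have h3 : u ^ 3 ≤ u ^ 50 := hup (by norm_num)
      calc Z * N * (1280 * u ^ 2) = (1280 * Z) * (N * u ^ 2) := by ring
        _ ≤ (ε * u) * (N * u ^ 2) := by gcongr
        _ = N * ε * u ^ 3 := by ring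
        _ ≤ N * ε * u ^ 50 := by gcongr
    refine h1.trans ?_
    have h2 : 1 / (32 * u ^ 2) ≤ Φ := by
      refine le_trans ?_ hΦ
      rw [div_mul_div_comm, div_le_div_iff₀ (by positivity) (by positivity)]
      calc 1 * (32 * (L : ℝ) * A) = 32 * (L * A) := by ring
        _ ≤ 32 * ((H * u) * u) := by gcongr
        _ = H * 1 * (32 * u ^ 2) := by ring
        _ ≤ H * A.totient * (32 * u ^ 2) := by gcongr
    have h3 : 0 ≤ Φ := le_trans (by positivity) h2
    gcongr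
  · -- the energy
    have h1 : ∑ k ∈ Icc 1 K, QQ (b k) T ≤ 2 / Real.log T * (8 * K) := by
      calc ∑ k ∈ Icc 1 K, QQ (b k) T ≤ ∑ k ∈ Icc 1 K, 2 / Real.log T * ((k : ℝ) / k.totient) := by
            refine sum_le_sum fun k hk => ?_
            refine (hb k (mem_Icc.1 hk).1).2.trans (le_of_eq ?_)
            ring
        _ = 2 / Real.log T * ∑ k ∈ Icc 1 K, ((k : ℝ) / k.totient) := by rw [mul_sum]
        _ ≤ _ := by
            have hT0 : 0 ≤ Real.log T := Real.log_natCast_nonneg T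
            have := sum_k K
            gcongr
    have h2 : κ / 2 * Real.log N ≤ Real.log T := by
      have h3 : Real.sqrt u ≤ T := by
        have h4 : Real.sqrt u ≤ u / 4 := by
          rw [Real.sqrt_le_left (by positivity)]
          nlinarith
        linarith
      have h5 := Real.log_le_log (Real.sqrt_pos.2 hu0) h3
      rw [Real.log_sqrt hu0.le, hlogu, ← hκ] at h5
      linarith
    have hκlog : 0 < κ / 2 * Real.log N := by positivity
    have h3 : ∑ k ∈ Icc 1 K, QQ (b k) T ≤ 32 * K / (κ * Real.log N) := by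
      refine h1.trans ?_
      calc 2 / Real.log T * (8 * K) ≤ 2 / (κ / 2 * Real.log N) * (8 * K) := by gcongr
        _ = _ := by field_simp; ring
    have h4 : 400 * (1 / κ) * (K * H / u ^ 50) ≤
        32 * H * AA (SS 1 j₀ j₁) * K / (κ * Real.log N) := by
      have h5 : 20 * 400 * (1 / κ) ≤ ε * u := by
        rw [div_le_iff₀ hε] at hu5
        linarith
      rw [le_div_iff₀ (by positivity)]
      have h6 : κ * Real.log N ≤ u := by
        calc κ * Real.log N ≤ κ * ((1 / κ) * u) := by gcongr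
          _ = u := by field_simp
      have h7 : u ^ 2 ≤ u ^ 50 := hup (by norm_num)
      calc 400 * (1 / κ) * (K * H / u ^ 50) * (κ * Real.log N)
          ≤ (ε * u / 20) * (K * H / u ^ 50) * u := by
            gcongr
            linarith
        _ = (ε / 20) * (K * H) * (u ^ 2 / u ^ 50) := by ring
        _ ≤ (ε / 20) * (K * H) * 1 := by
            gcongr
            rw [div_le_one (by positivity)]
            exact h7
        _ ≤ AA (SS 1 j₀ j₁) * (K * H) * 1 := by gcongr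
        _ ≤ 32 * (AA (SS 1 j₀ j₁) * (K * H)) := by
            have : 0 ≤ AA (SS 1 j₀ j₁) * (K * H) := by positivity
            linarith
        _ = _ := by ring
    calc (H : ℝ) * AA (SS 1 j₀ j₁) * ∑ k ∈ Icc 1 K, QQ (b k) T +
      (K : ℝ) ^ 2 * (T : ℝ) ^ 6 * (H * ∑ s ∈ SS 1 j₀ j₁, 1 / (s : ℝ) ^ 2 +
        24 * ((SS 1 j₀ j₁).card : ℝ) ^ 2)
        ≤ H * AA (SS 1 j₀ j₁) * (32 * K / (κ * Real.log N)) +
          32 * H * AA (SS 1 j₀ j₁) * K / (κ * Real.log N) := by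
          gcongr
          exact r5.trans h4
      _ = _ := by ring

end

end Pool.Agent.M848.FC
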