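import Pool.Agent.Lib.MP_848d44_nt.F.Fin

/-!
# MP_848d44_nt, fixed residue class: the theorem
-/

set_option autoImplicit false

namespace Pool.Agent.M848.FC

open Finset Filter Topology
open scoped ArithmeticFunction ComplexConjugate

noncomputable section

/-- the number of multiples -/
theorem K_bounds (N A L : ℕ) (hA : A ≤ N) (hL : 1 ≤ L) (hLN : L ≤ N) :
    1 ≤ (N + A) / L ∧ ((((N + A) / L : ℕ) : ℝ) * L ≤ 2 * N) ∧
      ((N : ℝ) ≤ 2 * (((N + A) / L : ℕ) : ℝ) * L) ∧ N + A < ((N + A) / L + 1) * L := by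
  have h1 : 1 ≤ (N + A) / L := by
    rw [Nat.one_le_div_iff (by omega)]
    omega
  have h2 : (N + A) / L * L ≤ N + A := Nat.div_mul_le_self _ _
  have h3 : N + A < ((N + A) / L + 1) * L := by
    rw [add_mul, one_mul]
    exact Nat.lt_div_mul_add (by omega)
  refine ⟨h1, ?_, ?_, h3⟩
  · have : (N + A) / L * L ≤ 2 * N := by omega
    exact_mod_cast this
  · have : N ≤ 2 * ((N + A) / L) * L := by
      nlinarith
    exact_mod_cast this

/-- asymptotic conditions -/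
theorem eventually_ge (κ X : ℝ) (hκ : 0 < κ) : ∃ N₀ : ℕ, ∀ N : ℕ, N₀ ≤ N → X ≤ (N : ℝ) ^ κ := by
  have h := (tendsto_rpow_atTop hκ).comp (tendsto_natCast_atTop_atTop (R := ℝ))
  obtain ⟨N₀, hN₀⟩ := (tendsto_atTop.1 h X).exists_forall_of_atTop
  exact ⟨N₀, hN₀⟩

theorem eventually_log (X : ℝ) : ∃ N₀ : ℕ, ∀ N : ℕ, N₀ ≤ N → X ≤ Real.log N := by
  have h := Real.tendsto_log_atTop.comp (tendsto_natCast_atTop_atTop (R := ℝ))
  obtain ⟨N₀, hN₀⟩ := (tendsto_atTop.1 h X).exists_forall_of_atTop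
  exact ⟨N₀, hN₀⟩

/-- the theorem for integers `N` and the weighted sum -/
theorem int_theorem (ε κ : ℝ) (hε : 0 < ε) (hε1 : ε ≤ 1 / 12) (hκ : κ = ε / 400) :
    ∃ N₀ : ℕ, ∀ N : ℕ, N₀ ≤ N → ∀ a : ℤ, a ≠ 0 → (a.natAbs : ℝ) ≤ (N : ℝ) ^ κ →
      ∀ L H K : ℕ,
      (N : ℝ) ^ ((5 : ℝ) / 6 + ε) ≤ L → (L : ℝ) * Real.log N ≤ 2 * N → H ≤ L →
      (L : ℝ) ≤ H * (N : ℝ) ^ κ → 1 ≤ K → (K : ℝ) * L ≤ 2 * N → (N : ℝ) ≤ 2 * K * L →
      ε * κ / 2 ^ 26 * ((a.natAbs.totient : ℝ) / a.natAbs) ^ 2 * ((H : ℝ) / L) *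
        (N * Real.log N) ≤ ∑ q ∈ Ma a L H, om L H q * EF a N K q ^ 2 := by
  have hκ0 : 0 < κ := by rw [hκ]; positivity
  obtain ⟨C₁, hC₁, hred⟩ := l1_red κ hκ0
  obtain ⟨J₀, hJ₀, hrec⟩ := recip_blocks
  obtain ⟨N1, h1⟩ := eventually_ge κ (max 48 (max ((2 : ℝ) ^ J₀)
    (max (1280 *
      (60 * C₁ * (1 / κ) ^ 2 + 200 * (1 / κ) ^ 2 + 48 * (1 / κ) + 64 * (1 / κ) ^ 2 +
        15000 * (1 / κ) ^ 2) / ε) (20 * 400 * (1 / κ) / ε)))) hκ0
  obtain ⟨N2, h2⟩ := eventually_log (30 * Real.log 2 / ε)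
  refine ⟨max 2 (max N1 N2), fun N hN a ha haN L H K hL1 hL2 hHL hLH hK1 hKL hNK => ?_⟩
  have e1 := h1 N (by omega)
  have e2 := h2 N (by omega)
  rw [max_le_iff, max_le_iff, max_le_iff] at e1
  exact one_N a ha ε κ C₁ J₀ hε hε1 hκ hC₁ hred hJ₀ hrec N L H K _ rfl (by omega)
    e1.1 e1.2.1 haN e2 e1.2.2.1 e1.2.2.2 hL1 hL2 hHL hLH hK1 hKL hNK

/-- from the weighted sum of `EF²` to the sum of the squares of the error terms -/
theorem J_le (a : ℤ) (N L H K : ℕ) (x B : ℝ) (hx0 : (N : ℝ) ≤ x) (hx1 : x ≤ N + 1)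
    (ha : a ≠ 0) (hL : a.natAbs < L) (hK : N + a.natAbs < (K + 1) * L)
    (hB : ∀ q : ℕ, L ≤ q → 1 / (q.totient : ℝ) ≤ B) :
    ∑ q ∈ Ma a L H, om L H q * EF a N K q ^ 2 ≤
      ∑ q ∈ (Ioc L (L + H)).filter (fun q : ℕ => IsCoprime (q : ℤ) a),
        ((∑ n ∈ (Icc 1 N).filter (fun n : ℕ => (q : ℤ) ∣ (n : ℤ) - a), Λ n) -
          x / (q.totient : ℝ)) ^ 2 + H * (2 * B ^ 2 + 2 * LN N a ^ 2) := by
  set I := (Ioc L (L + H)).filter (fun q : ℕ => IsCoprime (q : ℤ) a) with hI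
  set D : ℕ → ℝ := fun q => (∑ n ∈ (Icc 1 N).filter (fun n : ℕ => (q : ℤ) ∣ (n : ℤ) - a), Λ n) -
          x / (q.totient : ℝ) with hD
  have hcop : ∀ q : ℕ, IsCoprime (q : ℤ) a ↔ q.Coprime a.natAbs := by
    intro q
    rw [Int.isCoprime_iff_gcd_eq_one]
    rfl
  -- drop the endpoint
  have e1 : ∑ q ∈ Ma a L H, om L H q * EF a N K q ^ 2 ≤ ∑ q ∈ I, om L H q * EF a N K q ^ 2 := by
    have hs : ∑ q ∈ Ma a L H, om L H q * EF a N K q ^ 2 =
        ∑ q ∈ (Ma a L H).filter (fun q => q ≠ L), om L H q * EF a N K q ^ 2 := by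
      rw [sum_filter]
      refine sum_congr rfl fun q _ => ?_
      by_cases hq : q = L
      · subst hq
        rw [if_neg (by simp)]
        unfold om
        rw [tent_zero H _ (Or.inl (by simp))]
        ring
      · rw [if_pos hq]
    rw [hs]
    refine sum_le_sum_of_subset_of_nonneg ?_ fun q _ _ =>
      mul_nonneg (CoreAux.om_nonneg _ _ _) (sq_nonneg _)
    intro q hq
    simp only [Ma, Mo, mem_filter, mem_Icc] at hq
    rw [hI, mem_filter, mem_Ioc]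
    exact ⟨⟨by omega, by omega⟩, (hcop q).2 hq.1.2⟩
  refine e1.trans ?_
  have e2 : ∀ q ∈ I, om L H q * EF a N K q ^ 2 ≤ D q ^ 2 + (2 * B ^ 2 + 2 * LN N a ^ 2) := by
    intro q hq
    rw [hI, mem_filter, mem_Ioc] at hq
    have hsp := psi_split a ha N L K q hL hK (by omega)
    have hφ : (1 : ℝ) ≤ q.totient := by
      have : 0 < q.totient := Nat.totient_pos.2 (by omega)
      exact_mod_cast this
    have hEF : EF a N K q = D q + ((x - N) / q.totient - LN N a) := by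
      simp only [hD, EF]
      rw [hsp]
      ring
    have h1 : 0 ≤ (x - N) / q.totient := div_nonneg (by linarith) (by linarith)
    have h2 : (x - N) / q.totient ≤ B := by
      refine le_trans ?_ (hB q (by omega))
      apply div_le_div_of_nonneg_right (by linarith) (by linarith)
    set y := (x - N) / q.totient with hy
    set l := LN N a with hl
    have h5 : (y - l) ^ 2 ≤ 2 * B ^ 2 + 2 * l ^ 2 := by
      have h6 : y ^ 2 ≤ B ^ 2 := by gcongr
      nlinarith [sq_nonneg (y + l)]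
    have h6 := CoreAux.om_le L H q
    have h7 := CoreAux.om_nonneg L H q
    rw [hEF]
    have h8 : (D q + (y - l)) ^ 2 ≤ 2 * (D q ^ 2 + (y - l) ^ 2) := by
      nlinarith [sq_nonneg (D q - (y - l))]
    calc om L H q * (D q + (y - l)) ^ 2 ≤ 1 / 2 * (2 * (D q ^ 2 + (y - l) ^ 2)) := by gcongr
      _ = D q ^ 2 + (y - l) ^ 2 := by ring
      _ ≤ _ := by linarith
  refine (sum_le_sum e2).trans ?_
  rw [sum_add_distrib, sum_const, nsmul_eq_mul]
  have hcard : (I.card : ℝ) ≤ H := by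
    have : I.card ≤ H := by
      refine (card_filter_le _ _).trans ?_
      rw [Nat.card_Ioc]
      omega
    exact_mod_cast this
  gcongr

/-- `Λ(a)` is small compared with `φ(a)/a` -/
theorem LN_le (a : ℤ) (ha : a ≠ 0) (N : ℕ) :
    LN N a ≤ 2 * ((a.natAbs.totient : ℝ) / a.natAbs) * Real.log a.natAbs := by
  have hA1 : 1 ≤ a.natAbs := Int.natAbs_pos.2 ha
  have hφ : (0 : ℝ) ≤ (a.natAbs.totient : ℝ) / a.natAbs := by positivity
  have hlog : 0 ≤ Real.log a.natAbs := Real.log_natCast_nonneg _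
  have h0 : 0 ≤ 2 * ((a.natAbs.totient : ℝ) / a.natAbs) * Real.log a.natAbs := by positivity
  unfold LN
  split_ifs with h
  · by_cases hpp : IsPrimePow a.toNat
    · have hpos : 0 < a := by
        by_contra hc
        push Not at hc
        rw [Int.toNat_of_nonpos hc] at hpp
        exact not_isPrimePow_zero hpp
      have e : a.toNat = a.natAbs := by omega
      rw [e] at hpp ⊢
      refine ArithmeticFunction.vonMangoldt_le_log.trans ?_
      have h2 : (1 : ℝ) ≤ 2 * ((a.natAbs.totient : ℝ) / a.natAbs) := by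
        obtain ⟨p, k, hp, hk, hpk⟩ := hpp
        have hp' := hp.nat_prime
        rw [← hpk, Nat.totient_prime_pow hp' hk]
        have hp2 : (2 : ℝ) ≤ p := by exact_mod_cast hp'.two_le
        have h3 : ((p - 1 : ℕ) : ℝ) = p - 1 := by
          rw [Nat.cast_sub hp'.one_lt.le]
          simp
        push_cast
        rw [h3]
        have h4 : (p : ℝ) ^ k = p ^ (k - 1) * p := by
          rw [← pow_succ]
          congr 1
          omega
        rw [h4, mul_div_mul_left _ _ (by positivity), mul_div_assoc', le_div_iff₀ (by linarith)]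
        linarith
      calc Real.log (a.natAbs : ℝ) = 1 * Real.log a.natAbs := (one_mul _).symm
        _ ≤ _ := by gcongr
    · rw [ArithmeticFunction.vonMangoldt_eq_zero_iff.2 hpp]
      exact h0
  · exact h0

/-- the totient is large -/
theorem totient_large : ∃ C : ℝ, 0 < C ∧ ∀ L q : ℕ, 1 ≤ L → L ≤ q →
    1 / (q.totient : ℝ) ≤ C / (L : ℝ) ^ ((3 : ℝ) / 4) := by
  obtain ⟨C, hC, h⟩ := divisor_bound (1 / 4) (by norm_num)
  refine ⟨C, by linarith, fun L q hL hq => ?_⟩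
  have h1 := totient_lower q
  have h2 := h q (by omega)
  have hφ : (0 : ℝ) < q.totient := by
    have : 0 < q.totient := Nat.totient_pos.2 (by omega)
    exact_mod_cast this
  have hL0 : (0 : ℝ) < L := by exact_mod_cast hL
  have hq0 : (0 : ℝ) < q := by
    have : 0 < q := by omega
    exact_mod_cast this
  rw [div_le_div_iff₀ hφ (by positivity), one_mul]
  have h3 : (q : ℝ) ≤ C * (q : ℝ) ^ ((1 : ℝ) / 4) * q.totient :=
    h1.trans (by gcongr)
  have h4 : (q : ℝ) = (q : ℝ) ^ ((3 : ℝ) / 4) * (q : ℝ) ^ ((1 : ℝ) / 4) := by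
    rw [← Real.rpow_add hq0]
    norm_num
  have h5 : (q : ℝ) ^ ((3 : ℝ) / 4) * (q : ℝ) ^ ((1 : ℝ) / 4) ≤
      (C * q.totient) * (q : ℝ) ^ ((1 : ℝ) / 4) := by
    rw [← h4]
    linarith
  have h6 := le_of_mul_le_mul_right h5 (by positivity)
  refine le_trans ?_ h6
  apply Real.rpow_le_rpow hL0.le _ (by norm_num)
  exact_mod_cast hq

theorem main_F (ε : ℝ) (hε : 0 < ε) :
    ∃ c : ℝ, 0 < c ∧ ∃ δ : ℝ, 0 < δ ∧ ∃ x₀ : ℝ, ∀ x : ℝ, x₀ ≤ x →
      ∀ a : ℤ, a ≠ 0 → (a.natAbs : ℝ) ≤ x ^ δ →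
      ∀ Q H : ℕ, x ^ ((5 : ℝ) / 6 + ε) ≤ (Q : ℝ) → (Q : ℝ) ≤ x / Real.log x →
        (Q : ℝ) * x ^ (-δ) ≤ (H : ℝ) → H ≤ Q →
        c * ((a.natAbs.totient : ℝ) / a.natAbs) ^ 2 * ((H : ℝ) / Q) * (x * Real.log x) ≤
          ∑ q ∈ (Ioc Q (Q + H)).filter (fun q : ℕ => IsCoprime (q : ℤ) a),
            ((∑ n ∈ (Icc 1 ⌊x⌋₊).filter (fun n : ℕ => (q : ℤ) ∣ (n : ℤ) - a), Λ n) -
              x / (q.totient : ℝ)) ^ 2 := by
  set ε' := min ε (1 / 12) with hε'
  have hε'0 : 0 < ε' := lt_min hε (by norm_num)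
  have hε'1 : ε' ≤ 1 / 12 := min_le_right _ _
  set κ := ε' / 400 with hκ
  have hκ0 : 0 < κ := by positivity
  have hκ1 : κ ≤ 1 / 4800 := by rw [hκ]; linarith
  obtain ⟨N₀, hN₀⟩ := int_theorem ε' κ hε'0 hε'1 rfl
  obtain ⟨C, hC0, hC⟩ := totient_large
  set c' := ε' * κ / 2 ^ 26 with hc'
  have hc'0 : 0 < c' := by positivity
  set δ := min (κ / 2) (Real.sqrt c' / 40) with hδ
  have hδ0 : 0 < δ := lt_min (by positivity) (by positivity)
  have hδκ : δ ≤ κ / 2 := min_le_left _ _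
  have hδc : 1600 * δ ^ 2 ≤ c' := by
    have h1 : δ ≤ Real.sqrt c' / 40 := min_le_right _ _
    have h2 : (40 * δ) ^ 2 ≤ Real.sqrt c' ^ 2 := by
      have : 40 * δ ≤ Real.sqrt c' := by linarith
      gcongr
    rw [Real.sq_sqrt hc'0.le] at h2
    linarith
  obtain ⟨N1, hN1⟩ := eventually_log 2
  obtain ⟨N2, hN2⟩ := eventually_ge (1 / 2) (max 4 (16 * C ^ 2 / c')) (by norm_num)
  refine ⟨c' / 8, by positivity, δ, hδ0,
    ((max N₀ (max N1 N2) + 1 : ℕ) : ℝ), fun x hx a ha haδ Q H hQ1 hQ2 hH1 hH2 => ?_⟩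
  set N := ⌊x⌋₊ with hN
  have hx1 : (1 : ℝ) ≤ x := by
    refine le_trans ?_ hx
    exact_mod_cast Nat.succ_le_succ (Nat.zero_le _)
  have hx0 : (0 : ℝ) < x := by linarith
  have hNx : (N : ℝ) ≤ x := Nat.floor_le hx0.le
  have hxN : x ≤ N + 1 := (Nat.lt_floor_add_one x).le
  have hNbig : max N₀ (max N1 N2) ≤ N := by
    rw [hN, Nat.le_floor_iff hx0.le]
    push_cast at hx
    push_cast
    linarith
  have hNN := hN2 N (le_trans (by simp) hNbig)
  rw [max_le_iff] at hNN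
  have hN4r : (4 : ℝ) ≤ N := by
    by_contra hc
    push Not at hc
    have h1 : (N : ℝ) ^ ((1 : ℝ) / 2) ≤ 4 ^ ((1 : ℝ) / 2) :=
      Real.rpow_le_rpow (Nat.cast_nonneg _) hc.le (by norm_num)
    have h2 : (4 : ℝ) ^ ((1 : ℝ) / 2) = 2 := by
      rw [show (4 : ℝ) = 2 ^ (2 : ℝ) by norm_num, ← Real.rpow_mul (by norm_num)]
      norm_num
    linarith [hNN.1]
  have hN0 : (0 : ℝ) < N := by linarith
  have hlogN := hN1 N (le_trans (by simp) hNbig)
  have hlN0 : 0 < Real.log N := by linarith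
  have hlogx : Real.log N ≤ Real.log x := Real.log_le_log hN0 hNx
  have hlx0 : 0 < Real.log x := by linarith
  have hx2 : x ≤ 2 * N := by linarith
  have hlogx2 : Real.log x ≤ 2 * Real.log N := by
    have h1 : Real.log x ≤ Real.log ((N : ℝ) ^ 2) := by
      apply Real.log_le_log hx0
      nlinarith
    rwa [Real.log_pow] at h1
  -- powers
  have hxδ : x ^ δ ≤ (N : ℝ) ^ κ := by
    calc x ^ δ ≤ x ^ (κ / 2) := Real.rpow_le_rpow_of_exponent_le hx1 hδκ
      _ ≤ ((N : ℝ) ^ (2 : ℝ)) ^ (κ / 2) := by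
          apply Real.rpow_le_rpow hx0.le _ (by positivity)
          rw [Real.rpow_two]
          nlinarith
      _ = (N : ℝ) ^ κ := by
          rw [← Real.rpow_mul hN0.le]
          congr 1
          ring
  -- conditions
  have hL1 : (N : ℝ) ^ ((5 : ℝ) / 6 + ε') ≤ Q := by
    refine le_trans ?_ hQ1
    calc (N : ℝ) ^ ((5 : ℝ) / 6 + ε') ≤ x ^ ((5 : ℝ) / 6 + ε') := by
          apply Real.rpow_le_rpow hN0.le hNx (by positivity)
      _ ≤ x ^ ((5 : ℝ) / 6 + ε) := by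
          apply Real.rpow_le_rpow_of_exponent_le hx1
          have := min_le_left ε (1 / 12)
          linarith
  have hL2 : (Q : ℝ) * Real.log N ≤ 2 * N := by
    rw [le_div_iff₀ hlx0] at hQ2
    have : (Q : ℝ) * Real.log N ≤ Q * Real.log x := by gcongr
    linarith
  have hQN : (Q : ℝ) ≤ N := by
    have h1 : (Q : ℝ) * 2 ≤ Q * Real.log N := by gcongr
    linarith
  have hLH : (Q : ℝ) ≤ H * (N : ℝ) ^ κ := by
    have h1 : (Q : ℝ) ≤ H * x ^ δ := by
      have h2 : x ^ (-δ) * x ^ δ = 1 := by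
        rw [← Real.rpow_add hx0]
        simp
      calc (Q : ℝ) = (Q * x ^ (-δ)) * x ^ δ := by rw [mul_assoc, h2, mul_one]
        _ ≤ H * x ^ δ := by gcongr
    exact h1.trans (by gcongr)
  have hQ1' : (1 : ℝ) ≤ Q := by
    refine le_trans ?_ hL1
    apply Real.one_le_rpow (by linarith) (by positivity)
  have hQ0 : (0 : ℝ) < Q := by linarith
  have hQ1n : 1 ≤ Q := by exact_mod_cast hQ1'
  have hQNn : Q ≤ N := by exact_mod_cast hQN
  set A := a.natAbs with hA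
  have hA1n : 1 ≤ A := Int.natAbs_pos.2 ha
  have hA1 : (1 : ℝ) ≤ A := by exact_mod_cast hA1n
  have hAN : (A : ℝ) ≤ (N : ℝ) ^ κ := haδ.trans hxδ
  have hAQ : A < Q := by
    have h1 : (A : ℝ) < Q := by
      refine lt_of_le_of_lt hAN (lt_of_lt_of_le ?_ hL1)
      apply Real.rpow_lt_rpow_of_exponent_lt (by linarith)
      linarith
    exact_mod_cast h1
  obtain ⟨k1, k2, k3, k4⟩ := K_bounds N A Q (by omega) hQ1n hQNn
  have hmain := hN₀ N (le_trans (by simp) hNbig) a ha hAN Q H ((N + A) / Q) hL1 hL2 hH2 hLH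
    k1 k2 k3
  set B := C / (Q : ℝ) ^ ((3 : ℝ) / 4) with hB
  have hJ := J_le a N Q H ((N + A) / Q) x B hNx hxN ha hAQ k4
    (fun q hq => hC Q q hQ1n hq)
  have hfin := hmain.trans hJ
  set V := ∑ q ∈ (Ioc Q (Q + H)).filter (fun q : ℕ => IsCoprime (q : ℤ) a),
            ((∑ n ∈ (Icc 1 N).filter (fun n : ℕ => (q : ℤ) ∣ (n : ℤ) - a), Λ n) -
              x / (q.totient : ℝ)) ^ 2 with hV
  set P := (A.totient : ℝ) / A with hP
  have hφA : (1 : ℝ) ≤ A.totient := by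
    have h1 : 0 < A.totient := Nat.totient_pos.2 hA1n
    exact_mod_cast h1
  have hP0 : 0 < P := by positivity
  have hPA : 1 / A ≤ P := by
    rw [hP]
    gcongr
  -- absorb the last term
  have hQlog : (Q : ℝ) * Real.log N ^ 2 ≤ 2 * (N * Real.log N) := by nlinarith
  have hab1 : (Q : ℝ) * (2 * LN N a ^ 2) ≤ c' / 4 * P ^ 2 * (N * Real.log N) := by
    have h1 := LN_le a ha N
    rw [← hA, ← hP] at h1
    have h2 : Real.log A ≤ 2 * δ * Real.log N := by
      have h3 : Real.log A ≤ Real.log (x ^ δ) := Real.log_le_log (by linarith) haδ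
      rw [Real.log_rpow hx0] at h3
      calc Real.log A ≤ δ * Real.log x := h3
        _ ≤ δ * (2 * Real.log N) := by gcongr
        _ = _ := by ring
    have h3 : LN N a ≤ 4 * δ * P * Real.log N := by
      refine h1.trans ?_
      calc 2 * P * Real.log A ≤ 2 * P * (2 * δ * Real.log N) := by gcongr
        _ = _ := by ring
    have h4 : LN N a ^ 2 ≤ (4 * δ * P * Real.log N) ^ 2 := by
      have := CoreAux.LN_nonneg N a
      gcongr
    calc (Q : ℝ) * (2 * LN N a ^ 2) ≤ Q * (2 * (4 * δ * P * Real.log N) ^ 2) := by gcongr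
      _ = 32 * δ ^ 2 * P ^ 2 * (Q * Real.log N ^ 2) := by ring
      _ ≤ 32 * δ ^ 2 * P ^ 2 * (2 * (N * Real.log N)) := by gcongr
      _ = 64 * δ ^ 2 * P ^ 2 * (N * Real.log N) := by ring
      _ ≤ c' / 4 * P ^ 2 * (N * Real.log N) := by
          gcongr
          nlinarith
  have hab2 : (Q : ℝ) * (2 * B ^ 2) ≤ c' / 4 * P ^ 2 * (N * Real.log N) := by
    have h1 : (Q : ℝ) * (2 * B ^ 2) = 2 * C ^ 2 / (Q : ℝ) ^ ((1 : ℝ) / 2) := by
      have h3 : ((Q : ℝ) ^ ((3 : ℝ) / 4)) ^ 2 = Q * (Q : ℝ) ^ ((1 : ℝ) / 2) := by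
        rw [← Real.rpow_natCast, ← Real.rpow_mul hQ0.le]
        nth_rewrite 2 [← Real.rpow_one (Q : ℝ)]
        rw [← Real.rpow_add hQ0]
        norm_num
      have h4 : (0 : ℝ) < (Q : ℝ) ^ ((1 : ℝ) / 2) := by positivity
      rw [hB, div_pow, h3]
      field_simp
    have h2 : (1 : ℝ) ≤ (Q : ℝ) ^ ((1 : ℝ) / 2) := Real.one_le_rpow hQ1' (by norm_num)
    have h3 : (Q : ℝ) * (2 * B ^ 2) ≤ 2 * C ^ 2 := by
      rw [h1]
      exact div_le_self (by positivity) h2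
    have h4 : 8 * C ^ 2 * A ^ 2 ≤ c' * (N * Real.log N) := by
      have h5 : 16 * C ^ 2 ≤ c' * (N : ℝ) ^ ((1 : ℝ) / 2) := by
        have := hNN.2
        rw [div_le_iff₀ hc'0] at this
        linarith
      have h6 : (A : ℝ) ^ 2 ≤ (N : ℝ) ^ ((1 : ℝ) / 2) := by
        calc (A : ℝ) ^ 2 ≤ ((N : ℝ) ^ κ) ^ 2 := by gcongr
          _ = (N : ℝ) ^ (κ * 2) := by
              rw [← Real.rpow_natCast, ← Real.rpow_mul hN0.le]
              norm_num
          _ ≤ _ := by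
              apply Real.rpow_le_rpow_of_exponent_le (by linarith)
              linarith
      have h7 : (N : ℝ) ^ ((1 : ℝ) / 2) * (N : ℝ) ^ ((1 : ℝ) / 2) = N := by
        rw [← Real.rpow_add hN0]
        norm_num
      have h8 : 16 * C ^ 2 * (A : ℝ) ^ 2 ≤ c' * N := by
        calc 16 * C ^ 2 * (A : ℝ) ^ 2 ≤ (c' * (N : ℝ) ^ ((1 : ℝ) / 2)) *
              (N : ℝ) ^ ((1 : ℝ) / 2) := by gcongr
          _ = c' * N := by rw [mul_assoc, h7]
      have h9 : c' * N ≤ c' * (N * Real.log N) := by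
        have : (N : ℝ) * 1 ≤ N * Real.log N := by
          gcongr
          linarith
        rw [mul_one] at this
        gcongr
      have h10 : 0 ≤ C ^ 2 * (A : ℝ) ^ 2 := by positivity
      linarith
    have h5 : 1 ≤ P ^ 2 * A ^ 2 := by
      rw [← mul_pow]
      apply one_le_pow₀
      rw [div_le_iff₀ (by linarith)] at hPA
      exact hPA
    have h6 : 2 * C ^ 2 ≤ c' / 4 * P ^ 2 * (N * Real.log N) := by
      have h7 : 8 * C ^ 2 * A ^ 2 * P ^ 2 ≤ c' * (N * Real.log N) * P ^ 2 := by gcongr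
      have h8 : 8 * C ^ 2 ≤ 8 * C ^ 2 * (P ^ 2 * A ^ 2) := le_mul_of_one_le_right (by positivity) h5
      nlinarith
    exact h3.trans h6
  have habs : (H : ℝ) * (2 * B ^ 2 + 2 * LN N a ^ 2) ≤
      c' / 2 * P ^ 2 * ((H : ℝ) / Q) * (N * Real.log N) := by
    calc (H : ℝ) * (2 * B ^ 2 + 2 * LN N a ^ 2) =
        (H / Q) * (Q * (2 * B ^ 2) + Q * (2 * LN N a ^ 2)) := by field_simp
      _ ≤ (H / Q) * (c' / 4 * P ^ 2 * (N * Real.log N) + c' / 4 * P ^ 2 * (N * Real.log N)) := by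
          gcongr
      _ = _ := by ring
  have hV2 : c' / 2 * P ^ 2 * ((H : ℝ) / Q) * (N * Real.log N) ≤ V := by
    have : c' * P ^ 2 * ((H : ℝ) / Q) * (N * Real.log N) =
        c' / 2 * P ^ 2 * ((H : ℝ) / Q) * (N * Real.log N) +
          c' / 2 * P ^ 2 * ((H : ℝ) / Q) * (N * Real.log N) := by
      ring
    linarith
  refine le_trans ?_ hV2
  have h1 : x * Real.log x ≤ 4 * (N * Real.log N) := by
    calc x * Real.log x ≤ (2 * N) * (2 * Real.log N) := by gcongr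
      _ = _ := by ring
  calc c' / 8 * P ^ 2 * ((H : ℝ) / Q) * (x * Real.log x) ≤
      c' / 8 * P ^ 2 * ((H : ℝ) / Q) * (4 * (N * Real.log N)) := by gcongr
    _ = _ := by ring

end

end Pool.Agent.M848.FC
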